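import Mathlib

set_option autoImplicit false

namespace Pool.Agent.Lib.MP_e49cd5_nt

open Finset Filter Topology

/-- A sequence that grows by the factor `3/2` once it is positive cannot have linear growth. -/
theorem grow {x : ℕ → ℝ} (h : ∀ i, 0 < x i → 3 * x i ≤ 2 * x (i + 1)) {C c : ℝ}
    (hb : ∀ i, x i ≤ C + c * i) (n : ℕ) : x n ≤ 0 := by
  by_contra hn
  have hn : 0 < x n := not_le.1 hn
  have h1 : ∀ i, (3 / 2 : ℝ) ^ i * x n ≤ x (n + i) := by
    intro i
    induction i with
    | zero => simp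
    | succ i ih =>
      have hp : 0 < (3 / 2 : ℝ) ^ i * x n := by positivity
      have := h (n + i) (hp.trans_le ih)
      rw [← add_assoc, pow_succ]
      linarith
  have t0 := tendsto_pow_const_div_const_pow_of_one_lt 0 (show (1 : ℝ) < 3 / 2 by norm_num)
  have t1 := tendsto_pow_const_div_const_pow_of_one_lt 1 (show (1 : ℝ) < 3 / 2 by norm_num)
  have t2 := (t0.const_mul (C + c * n)).add (t1.const_mul c)
  simp only [mul_zero, add_zero] at t2
  obtain ⟨i, hi⟩ := (t2.eventually (gt_mem_nhds hn)).exists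
  have hp : (0 : ℝ) < (3 / 2) ^ i := by positivity
  have h2 := (h1 i).trans (hb (n + i))
  have h3 : (C + c * n) * ((i : ℝ) ^ 0 / (3 / 2) ^ i) + c * ((i : ℝ) ^ 1 / (3 / 2) ^ i) =
      (C + c * ((n + i : ℕ) : ℝ)) / (3 / 2) ^ i := by
    push_cast
    ring
  rw [h3, div_lt_iff₀ hp] at hi
  linarith

theorem growZ {x : ℕ → ℤ} (h : ∀ i, 0 < x i → 3 * x i ≤ 2 * x (i + 1)) {C c : ℤ}
    (hb : ∀ i, x i ≤ C + c * i) (n : ℕ) : x n ≤ 0 := by
  have := grow (x := fun i => (x i : ℝ)) (C := C) (c := c)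
    (fun i hi => by exact_mod_cast h i (by exact_mod_cast hi))
    (fun i => by exact_mod_cast hb i) n
  exact_mod_cast this

/-- After `t` steps the value is a multiple of `3 ^ t`. -/
theorem zero_of_small {x : ℕ → ℤ} {t : ℕ}
    (h : ∀ i < t, 2 * x (i + 1) = 3 * x i ∨ x (i + 1) = 3 * x i) (hs : |x t| < 3 ^ t) :
    x 0 = 0 := by
  have h1 : ∀ i ≤ t, ∃ j : ℕ, 2 ^ j * x i = 3 ^ i * x 0 := by
    intro i
    induction i with
    | zero => exact fun _ => ⟨0, by simp⟩
    | succ i ih =>
      intro hi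
      obtain ⟨j, hj⟩ := ih (by omega)
      rcases h i (by omega) with h2 | h2
      · exact ⟨j + 1, by rw [pow_succ, mul_assoc, h2, pow_succ]; linear_combination 3 * hj⟩
      · exact ⟨j, by rw [h2, pow_succ]; linear_combination 3 * hj⟩
  obtain ⟨j, hj⟩ := h1 t le_rfl
  have hc : IsCoprime ((3 : ℤ) ^ t) (2 ^ j) :=
    IsCoprime.pow (⟨1, -1, by norm_num⟩ : IsCoprime (3 : ℤ) 2)
  have h2 : (3 : ℤ) ^ t ∣ x t := hc.dvd_of_dvd_mul_left ⟨x 0, hj⟩
  have h3 : x t = 0 := Int.eq_zero_of_abs_lt_dvd h2 hs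
  rw [h3, mul_zero] at hj
  exact (mul_eq_zero.1 hj.symm).resolve_left (by positivity)

theorem geo (m T : ℕ) : ∑ j ∈ range T, (if m ≤ 2 ^ j then (m : ℝ) / 2 ^ j else 0) ≤
    if m ≤ 2 ^ T then 2 - 2 * (m : ℝ) / 2 ^ T else 0 := by
  induction T with
  | zero =>
    simp only [range_zero, sum_empty, pow_zero, div_one]
    split_ifs with h
    · have : (m : ℝ) ≤ 1 := by exact_mod_cast h
      linarith
    · exact le_rfl
  | succ T ih =>
    rw [sum_range_succ]
    by_cases h : m ≤ 2 ^ T
    · have h' : m ≤ 2 ^ (T + 1) := h.trans (Nat.pow_le_pow_right (by norm_num) (by omega))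
      rw [if_pos h] at ih
      rw [if_pos h, if_pos h']
      have : 2 * (m : ℝ) / 2 ^ (T + 1) = m / 2 ^ T := by
        rw [pow_succ]
        field_simp
      rw [this]
      rw [mul_div_assoc] at ih
      linarith
    · rw [if_neg h] at ih
      rw [if_neg h, add_zero]
      refine ih.trans ?_
      split_ifs with h'
      · have h2 : (m : ℝ) ≤ 2 ^ (T + 1) := by exact_mod_cast h'
        have h3 : (m : ℝ) / 2 ^ (T + 1) ≤ 1 := (div_le_one (by positivity)).2 h2
        rw [mul_div_assoc]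
        linarith
      · exact le_rfl

theorem geo2 (m T : ℕ) : ∑ j ∈ range T, (if m ≤ 2 ^ j then (m : ℝ) / 2 ^ j else 0) ≤ 2 := by
  refine (geo m T).trans ?_
  split_ifs
  · have : 0 ≤ 2 * (m : ℝ) / 2 ^ T := by positivity
    linarith
  · norm_num

/-- The largest term of `(1 + 2) ^ (3 n)` is the one with index `2 n`. -/
theorem mode (n j : ℕ) : (3 * n).choose j * 2 ^ j ≤ (3 * n).choose (2 * n) * 2 ^ (2 * n) := by
  have key : ∀ i, (3 * n).choose (i + 1) * 2 ^ (i + 1) * (i + 1) =
      (3 * n).choose i * 2 ^ i * (2 * (3 * n - i)) := by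
    intro i
    have := Nat.choose_succ_right_eq (3 * n) i
    calc (3 * n).choose (i + 1) * 2 ^ (i + 1) * (i + 1)
        = (3 * n).choose (i + 1) * (i + 1) * 2 ^ (i + 1) := by ring
      _ = _ := by rw [this]; ring
  rcases le_total j (2 * n) with h | h
  · induction h using Nat.decreasingInduction with
    | self => exact le_rfl
    | of_succ i hi ih =>
      refine le_trans (Nat.le_of_mul_le_mul_right ?_ (Nat.succ_pos i)) ih
      rw [Nat.succ_eq_add_one, key]
      exact Nat.mul_le_mul_left _ (by omega)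
  · induction j, h using Nat.le_induction with
    | base => exact le_rfl
    | succ i hi ih =>
      refine le_trans (Nat.le_of_mul_le_mul_right ?_ (Nat.succ_pos i)) ih
      rw [Nat.succ_eq_add_one, key]
      exact Nat.mul_le_mul_left _ (by omega)

theorem central : 90 * ((3 * 1934).choose (2 * 1934) * 2 ^ (2 * 1934)) < 3 ^ (3 * 1934) := by
  rw [Nat.choose_eq_descFactorial_div_factorial]
  decide +kernel

theorem bin {t : ℕ} (ht : 5802 ≤ t) (j : ℕ) : 90 * (t.choose j * 2 ^ j) < 3 ^ t := by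
  induction t, ht using Nat.le_induction generalizing j with
  | base => exact lt_of_le_of_lt (Nat.mul_le_mul_left _ (mode 1934 j)) central
  | succ t _ ih =>
    rcases j with _ | j
    · have := ih 0
      rw [Nat.choose_zero_right] at this ⊢
      rw [pow_succ]
      omega
    · have h1 := ih j
      have h2 := ih (j + 1)
      rw [Nat.choose_succ_succ', pow_succ 3, add_mul, pow_succ 2 j, ← mul_assoc (t.choose j)]
      rw [pow_succ 2 j] at h2
      omega

/-- The counting bound. -/
theorem count_lt {t m : ℕ} (ht : 5802 ≤ t) :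
    45 * (m * ((range t).powerset.filter fun S => m ≤ 2 ^ S.card).card) < 3 ^ t := by
  have hne : (range (t + 1)).Nonempty := ⟨0, by simp⟩
  obtain ⟨j₀, -, hj₀⟩ := exists_max_image (range (t + 1)) (fun j => t.choose j * 2 ^ j) hne
  have h0 : (90 : ℝ) * (t.choose j₀ * 2 ^ j₀ : ℕ) < 3 ^ t := by exact_mod_cast bin ht j₀
  have h1 : ((m * ((range t).powerset.filter fun S => m ≤ 2 ^ S.card).card : ℕ) : ℝ) ≤
      (t.choose j₀ * 2 ^ j₀ : ℕ) * 2 := by
    rw [card_filter, sum_powerset_apply_card (fun j => if m ≤ 2 ^ j then 1 else 0), card_range]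
    refine le_trans ?_ (mul_le_mul_of_nonneg_left (geo2 m (t + 1)) (Nat.cast_nonneg _))
    rw [mul_sum, mul_sum, Nat.cast_sum]
    refine sum_le_sum fun j hj => ?_
    split_ifs with h
    · have h2 : ((t.choose j * 2 ^ j : ℕ) : ℝ) ≤ (t.choose j₀ * 2 ^ j₀ : ℕ) := by
        exact_mod_cast hj₀ j hj
      refine le_trans (le_of_eq ?_) (mul_le_mul_of_nonneg_right h2 (by positivity))
      push_cast
      rw [smul_eq_mul]
      push_cast
      field_simp
    · simp
  have h2 : (45 : ℝ) * ((m * ((range t).powerset.filter fun S => m ≤ 2 ^ S.card).card : ℕ) : ℝ) <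
      3 ^ t := by linarith
  exact_mod_cast h2

end Pool.Agent.Lib.MP_e49cd5_nt
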