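import Pool.Agent.Lib.MP_e49cd5_nt.Fut

set_option autoImplicit false

namespace Pool.Agent.Lib.MP_e49cd5_nt

open Finset Chk

variable {q : ℤ} {k : ℕ} {K w : ℕ → ℤ}

theorem kap_succ (r p : ℕ) :
    kap (r + 1) p = if p % 2 = 0 then 1095 * kap r (p / 2) else 3 * kap r (p / 2) + 1 := by
  show sel (Nat.beq (p % 2) 0) (1095 * kap r (p / 2)) (3 * kap r (p / 2) + 1) = _
  simp only [sel_eq, Nat.beq_eq]

theorem Cyc.kap_aux (h : Cyc q k K w) (m r : ℕ) : r ≤ 6 → ∃ p < 2 ^ r,
    (∀ s, p.testBit s = true → ¬3 * K (m + r - 1 - s) < q) ∧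
      (3 : ℤ) ^ r ∣ K (m + r) + q * kap r p := by
  induction r with
  | zero => exact fun _ => ⟨0, Nat.one_pos, by simp, by simp⟩
  | succ r ih =>
    intro hr
    obtain ⟨p, hp, h1, u, hu⟩ := ih (by omega)
    have h2 : ∀ p', p' / 2 = p → (p' % 2 = 1 → ¬3 * K (m + r) < q) →
        ∀ s, p'.testBit s = true → ¬3 * K (m + (r + 1) - 1 - s) < q := by
      intro p' e c s hs
      rcases s with _ | s
      · rw [Nat.testBit_zero, decide_eq_true_eq] at hs
        exact c hs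
      · rw [Nat.testBit_succ, e] at hs
        rw [show m + (r + 1) - 1 - (s + 1) = m + r - 1 - s by omega]
        exact h1 s hs
    rcases h.step (m + r) with c | c
    · refine ⟨2 * p, by rw [pow_succ]; omega, h2 _ (by omega) (by omega), ?_⟩
      obtain ⟨v, hv⟩ : (3 : ℤ) ^ (r + 1) ∣ 3 ^ 6 := pow_dvd_pow 3 hr
      rw [kap_succ, if_pos (by omega), show 2 * p / 2 = p by omega, ← add_assoc]
      refine ⟨365 * u - v * K (m + r + 1), ?_⟩
      push_cast
      linear_combination 1095 * hu + 365 * c.2 - K (m + r + 1) * hv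
    · refine ⟨2 * p + 1, by rw [pow_succ]; omega, h2 _ (by omega) (by omega), ?_⟩
      rw [kap_succ, if_neg (by omega), show (2 * p + 1) / 2 = p by omega, ← add_assoc]
      refine ⟨u, ?_⟩
      push_cast
      linear_combination 3 * hu + c.2

theorem Cyc.kap_ok (h : Cyc q k K w) (n r : ℕ) (hr : r ≤ 6) : ∃ p < 2 ^ r,
    (∀ s, p.testBit s = true → ¬3 * K (n + 8 - 1 - s) < q) ∧
      (3 : ℤ) ^ r ∣ K (n + 8) + q * kap r p := by
  have := h.kap_aux (n + 8 - r) r hr
  rwa [show n + 8 - r + r = n + 8 by omega] at this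

theorem ones_top (q : ℤ) (K : ℕ → ℤ) {j T : ℕ} (hj : j ≤ T) (n : ℕ) :
    ones q K j (T + 1) n = ones q K j T n + if 3 * K (n + T) < q then 1 else 0 := by
  rw [ones, ones, card_filter, card_filter, sum_Ico_succ_top hj]

theorem Cyc.aff (h : Cyc q k K w) (x y j N : ℕ)
    (e : ∀ s, j ≤ s → s < j + N → (3 * K (x + s) < q ↔ 3 * K (y + s) < q)) :
    2 ^ ones q K j (j + N) y * (K (x + (j + N)) - K (y + (j + N))) =
      3 ^ N * (K (x + j) - K (y + j)) := by
  induction N with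
  | zero => simp [ones]
  | succ N ih =>
    have h1 := ih fun s s1 s2 => e s s1 (by omega)
    have h2 := e (j + N) (by omega) (by omega)
    have h3 := h.step (x + (j + N))
    have h4 := h.step (y + (j + N))
    rw [← add_assoc j, ones_top q K (Nat.le_add_right j N), ← add_assoc x (j + N),
      ← add_assoc y (j + N), pow_add]
    split_ifs with c
    · have h5 : 2 * (K (x + (j + N) + 1) - K (y + (j + N) + 1)) =
        3 * (K (x + (j + N)) - K (y + (j + N))) := by omega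
      linear_combination 3 * h1 + 2 ^ ones q K j (j + N) y * h5
    · have h5 : K (x + (j + N) + 1) - K (y + (j + N) + 1) =
        3 * (K (x + (j + N)) - K (y + (j + N))) := by omega
      linear_combination 3 * h1 + 2 ^ ones q K j (j + N) y * h5

theorem Cyc.group (h : Cyc q k K w) {A B X EM DA R F TH N : ℕ}
    (hc : chk A B X EM DA R F TH = true) (hA : 0 < A) (hB : B ≤ 2000) (hR : R ≤ 6)
    (h1 : (A : ℤ) * 3 ^ N ≤ q) (h2 : q < B * 3 ^ N) (U : Finset ℕ) :
    5 * ((range k).filter fun x =>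
      ((Ico 8 (8 + N)).filter fun s => 3 * K (x + s) < q) = U).card ≤ 2 ^ U.card * (A - 1) := by
  set G := (range k).filter fun x => ((Ico 8 (8 + N)).filter fun s => 3 * K (x + s) < q) = U
    with hG
  rcases G.eq_empty_or_nonempty with c | ⟨y, hy⟩
  · rw [c]; exact Nat.zero_le _
  have hP : (0 : ℤ) < 3 ^ N := by positivity
  have hon : ∀ x ∈ G, ones q K 8 (8 + N) x = U.card := fun x hx => by
    rw [ones, (mem_filter.1 hx).2]
  have haff : ∀ x ∈ G, 2 ^ U.card * (K (x + (8 + N)) - K (y + (8 + N))) =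
      3 ^ N * (K (x + 8) - K (y + 8)) := fun x hx => by
    rw [← hon y hy]
    refine h.aff x y 8 N fun s s1 s2 => ?_
    have := Finset.ext_iff.1 ((mem_filter.1 hx).2.trans (mem_filter.1 hy).2.symm) s
    simpa only [mem_filter, mem_Ico, s1, s2, true_and] using this
  set I : ℕ → ℕ := fun x => (K (x + (8 + N)) / 3 ^ N).toNat with hI
  have hI0 : ∀ x, (I x : ℤ) = K (x + (8 + N)) / 3 ^ N := fun x =>
    Int.toNat_of_nonneg (Int.ediv_nonneg (h.mem _).1.le hP.le)
  have hK : ∀ x ∈ G, K (x + (8 + N)) = K (y + (8 + N)) % 3 ^ N + 3 ^ N * I x := fun x hx => by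
    have hco : IsCoprime ((3 : ℤ) ^ N) (2 ^ U.card) :=
      IsCoprime.pow (⟨1, -1, by norm_num⟩ : IsCoprime (3 : ℤ) 2)
    have h3 := hco.dvd_of_dvd_mul_left ⟨_, haff x hx⟩
    rw [hI0, ← Int.emod_eq_emod_iff_emod_sub_eq_zero.2 (Int.emod_eq_zero_of_dvd h3)]
    exact (Int.emod_add_mul_ediv _ _).symm
  have hm0 := Int.emod_nonneg (K (y + (8 + N))) hP.ne'
  have hm1 := Int.emod_lt_of_pos (K (y + (8 + N))) hP
  generalize K (y + (8 + N)) % 3 ^ N = K0 at hK hm0 hm1
  have lo : ∀ x ∈ G, (I x : ℤ) * 3 ^ N ≤ K (x + (8 + N)) := fun x hx => by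
    rw [hK x hx]; linarith
  have hi : ∀ x ∈ G, K (x + (8 + N)) ≤ (I x + 1) * 3 ^ N := fun x hx => by
    rw [hK x hx]; linarith
  have hJ : ∀ x ∈ G, 2 ^ U.card * (I x : ℤ) - (2 ^ U.card * I y - K (y + 8)) = K (x + 8) := by
    intro x hx
    have h3 := haff x hx
    rw [hK x hx, hK y hy] at h3
    exact mul_left_cancel₀ hP.ne' (by linear_combination h3)
  have hT : ∀ i ∈ G.image I, i < (B + 1) / 2 := fun i hi' => by
    obtain ⟨x, hx, rfl⟩ := mem_image.1 hi'
    have h3 := lo x hx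
    have h4 := (h.mem (x + (8 + N))).2
    have h5 : (2 * I x : ℤ) * 3 ^ N < B * 3 ^ N := by linarith
    have h6 := lt_of_mul_lt_mul_right h5 hP.le
    omega
  set l := ((range k).filter fun m => K m = K 0).card with hl
  have hl0 : 0 < l := card_pos.2 ⟨0, mem_filter.2 ⟨mem_range.2 h.pos, rfl⟩⟩
  have hex : ∃ t, l ≤ 2 ^ U.card * t := ⟨l, Nat.le_mul_of_pos_left _ (by positivity)⟩
  have hts := Nat.find_spec hex
  have hts0 : 1 ≤ Nat.find hex := by
    by_contra c
    rw [show Nat.find hex = 0 by omega] at hts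
    omega
  have hGl : G.card ≤ l * (G.image I).card := by
    refine card_le_mul_card_image G l fun i hi' => ?_
    obtain ⟨x, hx, rfl⟩ := mem_image.1 hi'
    rw [hl, ← h.cnt_eq (x + (8 + N)),
      ← card_shift (P := fun m => K m = K (x + (8 + N))) (fun m => by rw [h.perK]) (8 + N)]
    refine card_le_card fun z hz => ?_
    obtain ⟨hz, e⟩ := mem_filter.1 hz
    exact mem_filter.2 ⟨(mem_filter.1 hz).1, by rw [hK z hz, hK x hx, e]⟩
  have hq2 := h.q2
  have H : ∀ i ∈ G.image I, ∀ b m : ℕ, 0 < m → (m : ℤ) ∣ q * b - (K0 + 3 ^ N * i) →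
      al DA (clo B i) (chi A i) b m = true := fun i hi' b m hm hd => by
    obtain ⟨x, hx, rfl⟩ := mem_image.1 hi'
    exact h.al_ok hA h1 h2.le (lo x hx) (hi x hx) DA b m hm (by rwa [hK x hx])
  have hodd : (3 : ℤ) ^ N % 2 = 1 := Int.odd_iff.1 (Odd.pow (by decide))
  have hmu : ((2 : ℕ) : ℤ) ∣ q * (1 : ℕ) - 3 ^ N := by
    push_cast
    omega
  have ht : Has (G.image I) (bld A B ((B + 1) / 2) DA F 2 1 0) ∨
      Has (G.image I) (bld A B ((B + 1) / 2) DA F 2 1 1) := by
    rcases Int.emod_two_eq_zero_or_one K0 with c | c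
    · exact Or.inl (bld_has hq2 hT H F 2 1 0 two_pos hmu (by push_cast; omega))
    · exact Or.inr (bld_has hq2 hT H F 2 1 1 two_pos hmu (by push_cast; omega))
  have hs : (2 : ℤ) ^ U.card % 3 ≠ 0 := fun c => by
    have := Int.prime_three.dvd_of_dvd_pow (Int.dvd_of_emod_eq_zero c)
    omega
  rw [chk, frc_eq] at hc
  have h7 := thr_sound (ts := Nat.find hex) (J := 2 ^ U.card * I y - K (y + 8))
    (show (B + 1) / 2 < 1023 by omega) hA hR hT h.q3 hs ht (fun r hr i hi' => by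
      obtain ⟨x, hx, rfl⟩ := mem_image.1 hi'
      obtain ⟨p, hp, h3, h4⟩ := h.kap_ok x r hr
      refine ⟨p, hp, Nat.find_min' hex ?_, by rwa [hJ x hx]⟩
      rw [← hon x hx]
      exact h.Lb_ok hA hB h1 h2.le (lo x hx) (hi x hx) (fun s _ => h3 s) X EM) 100 1 le_rfl hts0 hc
  calc 5 * G.card ≤ 5 * (2 ^ U.card * Nat.find hex * (G.image I).card) :=
        Nat.mul_le_mul_left _ (hGl.trans (Nat.mul_le_mul_right _ hts))
    _ = 2 ^ U.card * (5 * (Nat.find hex * (G.image I).card)) := by ring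
    _ ≤ _ := Nat.mul_le_mul_left _ (by omega)

theorem Cyc.chk_ok (h : Cyc q k K w) {A B X EM DA R F TH N : ℕ}
    (hc : chk A B X EM DA R F TH = true) (hA : 0 < A) (hB : B ≤ 2000) (hR : R ≤ 6)
    (h1 : (A : ℤ) * 3 ^ N ≤ q) (h2 : q < B * 3 ^ N) : False := by
  have h3 := card_eq_sum_card_fiberwise (s := range k) (t := (Ico 8 (8 + N)).powerset)
    (f := fun x => (Ico 8 (8 + N)).filter fun s => 3 * K (x + s) < q)
    fun x _ => mem_coe.2 (mem_powerset.2 (filter_subset _ _))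
  have h4 := sum_le_sum fun U (_ : U ∈ (Ico 8 (8 + N)).powerset) =>
    h.group hc hA hB hR h1 h2 U
  have h5 := sum_pow_mul_eq_add_pow (2 : ℕ) 1 (Ico 8 (8 + N))
  simp only [one_pow, mul_one, Nat.card_Ico, Nat.add_sub_cancel_left, Nat.reduceAdd] at h5
  rw [← mul_sum, ← h3, card_range, ← sum_mul, h5] at h4
  have h6 : 3 ^ N * (A - 1) < A * 3 ^ N := by
    rw [mul_comm]
    exact Nat.mul_lt_mul_of_pos_right (by omega) (by positivity)
  have h7 : ((5 * k : ℕ) : ℤ) < (A * 3 ^ N : ℕ) := by exact_mod_cast h4.trans_lt h6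
  have h8 := h.qk
  push_cast at h7
  omega

end Pool.Agent.Lib.MP_e49cd5_nt
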