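import Pool.Agent.Lib.MP_e49cd5_nt.Per

set_option autoImplicit false

namespace Pool.Agent.Lib.MP_e49cd5_nt

open Finset

variable {a b : ℕ → ℤ} {k : ℕ}

/-- The distance from the line of translation. -/
def dV (a b : ℕ → ℤ) (k n : ℕ) : ℤ := dD a b k * a n - dA a k n * (a n + b n)

theorem Per.V_one (h : Per a b k) {n : ℕ} (c : b n / 2 < a n) :
    2 * dV a b k (n + 1) = 3 * dV a b k n + dD a b k * (b n % 2 - 6) -
      2 * dA a k (n + 1) * (3 + 2 * (b n % 2)) := by
  have h1 := h.toOrb.one c
  have h2 := h.one c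
  have h3 : a (n + 1) + b (n + 1) = a n + b n + 3 + 2 * (b n % 2) := by omega
  unfold dV
  rw [h3]
  linear_combination dD a b k * h1.1 - (a n + b n) * h2

theorem Per.V_two (h : Per a b k) {n : ℕ} (c : ¬b n / 2 < a n) :
    dV a b k (n + 1) = 3 * dV a b k n + 5 * dD a b k - 5 * dA a k (n + 1) := by
  have h1 := h.toOrb.two c
  have h2 := h.two c
  unfold dV
  rw [h1.1, h1.2, h2]
  ring

theorem Per.V_abs (h : Per a b k) (n : ℕ) :
    |dV a b k n| ≤ 2 * dD a b k * (a 0 + b 0 + 4 + 5 * n) := by
  have h1 := h.dA_pos n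
  have h2 := h.toOrb.inv n
  have h3 := h.toOrb.lin 0 n
  have h4 := h.toOrb.inv 0
  rw [zero_add] at h3
  have h5 : 0 ≤ (dD a b k - dA a k n) * (a n + 2) := mul_nonneg (by omega) (by omega)
  have h6 : 0 ≤ dA a k n * b n := mul_nonneg (by omega) (by omega)
  have h7 : 0 ≤ (dD a b k - dA a k n) * b n := mul_nonneg (by omega) (by omega)
  have h8 : 0 ≤ dA a k n * (a n + 2) := mul_nonneg (by omega) (by omega)
  have h9 : 0 ≤ dD a b k * (2 * (a 0 + b 0 + 4 + 5 * n) - (b n + 2)) :=
    mul_nonneg (by omega) (by omega)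
  have h10 : 0 ≤ dD a b k * (2 * (a 0 + b 0 + 4 + 5 * n) - (a n + 2)) :=
    mul_nonneg (by omega) (by omega)
  unfold dV
  rw [abs_le]
  constructor <;> linarith [h1.1, h1.2]

theorem Per.V_close (h : Per a b k) {n n' : ℕ} (e : dA a k n = dA a k n') (i : ℕ) :
    |dV a b k (n + i) - dV a b k (n' + i)| ≤ 3 * dD a b k := by
  have hD := h.dD_mem.1
  have hk := h.pos
  have := growZ (x := fun i => |dV a b k (n + i) - dV a b k (n' + i)| - 3 * dD a b k)
    (C := 2 * dD a b k * (2 * (a 0 + b 0 + 4) + 5 * n + 5 * n')) (c := 20 * dD a b k)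
    (fun i hi => ?_) (fun i => ?_) i
  · omega
  · have h0 := h.next_rule e i
    have h1 := h.next e (i + 1)
    have h2 := h.dA_pos (n + (i + 1))
    rw [← add_assoc, ← add_assoc] at *
    by_cases c : b (n + i) / 2 < a (n + i)
    · have h3 := h.V_one c
      have h4 := h.V_one (h0.1 c)
      rw [abs_eq_max_neg, abs_eq_max_neg]
      rcases Int.emod_two_eq_zero_or_one (b (n + i)) with p | p <;>
        rcases Int.emod_two_eq_zero_or_one (b (n' + i)) with p' | p' <;>
        rw [p] at h3 <;> rw [p'] at h4 <;> omega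
    · have h3 := h.V_two c
      have h4 := h.V_two (fun c' => c (h0.2 c'))
      rw [abs_eq_max_neg, abs_eq_max_neg]
      rw [abs_eq_max_neg] at hi
      omega
  · have h1 := h.V_abs (n + i)
    have h2 := h.V_abs (n' + i)
    have h3 := abs_sub (dV a b k (n + i)) (dV a b k (n' + i))
    push_cast at h1 h2
    have h4 : (0 : ℤ) ≤ dD a b k := by omega
    linarith

theorem Per.par (h : Per a b k) {n n' : ℕ} (e : dA a k n = dA a k n')
    (e' : dV a b k n = dV a b k n') : b n % 2 = b n' % 2 := by
  have h1 := h.sum n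
  have h2 : dD a b k * (b n - b n') = (a n + b n - (a n' + b n')) * dA b k n := by
    unfold dV at e'
    rw [← e] at e'
    linear_combination (-1) * e' - (a n + b n - (a n' + b n')) * h1
  have := h.even h2
  omega

theorem Per.V_step (h : Per a b k) {n n' : ℕ} (e : dA a k n = dA a k n')
    (p : b n / 2 < a n → b n % 2 = b n' % 2) :
    2 * (dV a b k (n + 1) - dV a b k (n' + 1)) = 3 * (dV a b k n - dV a b k n') ∨
      dV a b k (n + 1) - dV a b k (n' + 1) = 3 * (dV a b k n - dV a b k n') := by
  have h0 := h.next_rule e 0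
  have h1 := h.next e 1
  rw [add_zero, add_zero] at h0
  by_cases c : b n / 2 < a n
  · have h3 := h.V_one c
    have h4 := h.V_one (h0.1 c)
    rw [← p c, ← h1] at h4
    exact Or.inl (by linear_combination h3 - h4)
  · have h3 := h.V_two c
    have h4 := h.V_two (fun c' => c (h0.2 c'))
    exact Or.inr (by omega)

theorem Per.fut (h : Per a b k) {n n' : ℕ} (e : dA a k n = dA a k n')
    (e' : dV a b k n = dV a b k n') (i : ℕ) : Same a b (n + i) (n' + i) := by
  have key : dV a b k (n + i) = dV a b k (n' + i) := by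
    induction i with
    | zero => exact e'
    | succ i ih =>
      have := h.V_step (h.next e i) (fun _ => h.par (h.next e i) ih)
      rw [← add_assoc, ← add_assoc]
      omega
  exact ⟨h.next_rule e i, h.par (h.next e i) key⟩

/-- The places of the first rule among the next `t` steps. -/
def wS (a b : ℕ → ℤ) (t n : ℕ) : Finset ℕ := (range t).filter fun r => b (n + r) / 2 < a (n + r)

/-- Those among them where `b` is odd. -/
def wP (a b : ℕ → ℤ) (t n : ℕ) : Finset ℕ := (wS a b t n).filter fun r => b (n + r) % 2 = 1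

theorem Per.A_of_S (h : Per a b k) {t n n' : ℕ} (ht : 3 * dD a b k < 3 ^ t)
    (e : wS a b t n = wS a b t n') : dA a k n = dA a k n' := by
  have := zero_of_small (x := fun i => dA a k (n + i) - dA a k (n' + i)) (t := t)
    (fun i hi => ?_) ?_
  · simp only [add_zero] at this
    omega
  · have h0 := Finset.ext_iff.1 e i
    simp only [wS, mem_filter, mem_range, hi, true_and] at h0
    rw [← add_assoc, ← add_assoc]
    by_cases c : b (n + i) / 2 < a (n + i)
    · have h3 := h.one c
      have h4 := h.one (h0.1 c)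
      omega
    · have h3 := h.two c
      have h4 := h.two (fun c' => c (h0.2 c'))
      omega
  · have h1 := h.dA_pos (n + t)
    have h2 := h.dA_pos (n' + t)
    rw [abs_lt]
    omega

theorem Per.S_of_A (h : Per a b k) (t : ℕ) {n n' : ℕ} (e : dA a k n = dA a k n') :
    wS a b t n = wS a b t n' :=
  filter_congr fun r _ => h.next_rule e r

theorem Per.V_of_P (h : Per a b k) {t n n' : ℕ} (ht : 3 * dD a b k < 3 ^ t)
    (e : dA a k n = dA a k n') (e' : wP a b t n = wP a b t n') :
    dV a b k n = dV a b k n' := by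
  have := zero_of_small (x := fun i => dV a b k (n + i) - dV a b k (n' + i)) (t := t)
    (fun i hi => ?_) ((h.V_close e t).trans_lt ht)
  · simp only [add_zero] at this
    omega
  · refine h.V_step (n := n + i) (n' := n' + i) (h.next e i) fun c => ?_
    have h0 := Finset.ext_iff.1 e' i
    have c' := (h.next_rule e i).1 c
    simp only [wP, wS, mem_filter, mem_range, hi, c, c', true_and] at h0
    omega

/-- The number of times in one period with the same gain as at the time `n`. -/
def cnt (a : ℕ → ℤ) (k n : ℕ) : ℕ := ((range k).filter fun i => dA a k i = dA a k n).card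

theorem Per.cnt_succ (h : Per a b k) (n : ℕ) : cnt a k n ≤ cnt a k (n + 1) := by
  refine card_le_card_of_injOn (fun i => if i + 1 = k then 0 else i + 1) (fun i hi => ?_)
    (fun i hi j hj e => ?_)
  · simp only [coe_filter, mem_range, Set.mem_ofPred_eq] at hi ⊢
    have h1 := h.next hi.2 1
    split_ifs with c
    · have h2 := h.dA_per 0
      rw [zero_add] at h2
      rw [c, h2] at h1
      exact ⟨h.pos, h1⟩
    · exact ⟨by omega, h1⟩
  · simp only [coe_filter, mem_range, Set.mem_ofPred_eq] at hi hj
    simp only at e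
    split_ifs at e <;> omega

theorem Per.cnt_eq (h : Per a b k) (n : ℕ) : cnt a k n = cnt a k 0 := by
  have hm : Monotone (cnt a k) := monotone_nat_of_le_succ h.cnt_succ
  have h1 : ∀ r, dA a k (r * k) = dA a k 0 := by
    intro r
    induction r with
    | zero => rw [zero_mul]
    | succ r ih => rw [add_mul, one_mul, h.dA_per, ih]
  refine le_antisymm ((hm (Nat.le_mul_of_pos_right n h.pos)).trans (le_of_eq ?_)) (hm n.zero_le)
  unfold cnt
  rw [h1]

/-- The least period is bounded. -/
theorem Per.bound (h : Per a b k)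
    (hmin : ∀ k' N, 0 < k' → k' < k → ¬∀ n, Same a b (N + n + k') (N + n)) : k ≤ 3 ^ 5800 := by
  have hD := h.dD_mem
  have hk := h.pos
  have hex : ∃ t : ℕ, 3 * dD a b k < 3 ^ t := pow_unbounded_of_one_lt _ (by norm_num)
  classical
  obtain ⟨t, ht, ht'⟩ : ∃ t : ℕ, 3 * dD a b k < 3 ^ t ∧ 3 ^ t ≤ 9 * dD a b k := by
    refine ⟨Nat.find hex, Nat.find_spec hex, ?_⟩
    rcases h0 : Nat.find hex with _ | t
    · rw [pow_zero]; omega
    · have := Nat.find_min hex (m := t) (by omega)
      rw [pow_succ]
      omega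
  have inj : ∀ i < k, ∀ j < k, dA a k i = dA a k j → wP a b t i = wP a b t j → i = j := by
    have half : ∀ i j, i < j → j < k → dA a k i = dA a k j → wP a b t i = wP a b t j → False := by
      intro i j hij hj e e'
      refine hmin (j - i) i (by omega) (by omega) fun n => ?_
      rw [show i + n + (j - i) = j + n by omega]
      exact h.fut e.symm (h.V_of_P ht e e').symm n
    intro i hi j hj e e'
    rcases lt_trichotomy i j with c | c | c
    · exact (half i j c hj e e').elim
    · exact c
    · exact (half j i c hi e.symm e'.symm).elim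
  have h1 : ∀ n, cnt a k 0 ≤ 2 ^ (wS a b t n).card := fun n => by
    rw [← h.cnt_eq n, ← card_powerset]
    refine card_le_card_of_injOn (wP a b t) (fun i hi => ?_) (fun i hi j hj e => ?_)
    · simp only [coe_filter, mem_range, Set.mem_ofPred_eq] at hi
      rw [mem_coe, mem_powerset, ← h.S_of_A t hi.2]
      exact filter_subset _ _
    · simp only [coe_filter, mem_range, Set.mem_ofPred_eq] at hi hj
      exact inj i hi.1 j hj.1 (hi.2.trans hj.2.symm) e
  have h2 : (range k).card ≤ cnt a k 0 *
      ((range t).powerset.filter fun S => cnt a k 0 ≤ 2 ^ S.card).card := by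
    refine card_le_mul_card_image_of_maps_to (f := wS a b t) (fun i _ => ?_) _ fun S _ => ?_
    · exact mem_filter.2 ⟨mem_powerset.2 (filter_subset _ _), h1 i⟩
    · rcases ((range k).filter fun i => wS a b t i = S).eq_empty_or_nonempty with c | ⟨n, hn⟩
      · rw [c]; exact Nat.zero_le _
      · rw [← h.cnt_eq n]
        refine card_le_card fun i hi => mem_filter.2 ⟨(mem_filter.1 hi).1, h.A_of_S ht ?_⟩
        rw [(mem_filter.1 hi).2, (mem_filter.1 hn).2]
  rw [card_range] at h2
  by_contra hK
  have hK : 3 ^ 5800 < k := not_le.1 hK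
  have h3 : 5802 ≤ t := by
    have h4 : (3 : ℤ) ^ 5800 < k := by exact_mod_cast hK
    have h5 : (3 : ℤ) ^ (5800 + 2) < 3 ^ t := by
      rw [pow_add]
      generalize (3 : ℤ) ^ 5800 = z at h4 ⊢
      omega
    exact ((pow_lt_pow_iff_right₀ (by norm_num)).1 h5).le
  have h6 := count_lt (m := cnt a k 0) h3
  have h7 : 45 * k < 3 ^ t := lt_of_le_of_lt (Nat.mul_le_mul_left _ h2) h6
  have h8 : (45 : ℤ) * k < 3 ^ t := by exact_mod_cast h7
  omega

end Pool.Agent.Lib.MP_e49cd5_nt
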