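import Pool.Agent.Lib.MP_e49cd5_nt.Prog

set_option autoImplicit false
set_option linter.defProp false

namespace Pool.Agent.Lib.MP_e49cd5_nt.Chk

/-- The interval from 277 to 281. -/
def c277 : chk 277 281 3 4 7 5 3 5 = true := by decide +kernel

/-- The interval from 332 to 341. -/
def c332 : chk 332 341 4 4 8 5 3 6 = true := by decide +kernel

/-- The interval from 398 to 405. -/
def c398 : chk 398 405 4 4 8 5 3 6 = true := by decide +kernel

/-- The interval from 485 to 499. -/
def c485 : chk 485 499 5 4 9 5 4 5 = true := by decide +kernel

/-- The interval from 538 to 543. -/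
def c538 : chk 538 543 5 4 9 5 4 5 = true := by decide +kernel

/-- The interval from 705 to 726. -/
def c705 : chk 705 726 5 4 9 5 4 5 = true := by decide +kernel

end Pool.Agent.Lib.MP_e49cd5_nt.Chk
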