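import Pool.Agent.Lib.MP_e49cd5_nt.Prog

set_option autoImplicit false
set_option linter.defProp false

namespace Pool.Agent.Lib.MP_e49cd5_nt.Chk

/-- The interval from 308 to 314. -/
def c308 : chk 308 314 4 4 8 5 3 6 = true := by decide +kernel

/-- The interval from 341 to 347. -/
def c341 : chk 341 347 4 4 8 5 3 6 = true := by decide +kernel

/-- The interval from 373 to 380. -/
def c373 : chk 373 380 4 4 8 5 3 6 = true := by decide +kernel

/-- The interval from 589 to 600. -/
def c589 : chk 589 600 4 4 8 5 3 6 = true := by decide +kernel

/-- The interval from 600 to 612. -/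
def c600 : chk 600 612 4 4 8 5 4 6 = true := by decide +kernel

/-- The interval from 726 to 747. -/
def c726 : chk 726 747 5 4 9 5 4 5 = true := by decide +kernel

end Pool.Agent.Lib.MP_e49cd5_nt.Chk
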