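import Pool.Agent.Lib.MP_e49cd5_nt.Prog

set_option autoImplicit false
set_option linter.defProp false

namespace Pool.Agent.Lib.MP_e49cd5_nt.Chk

/-- The interval from 267 to 277. -/
def c267 : chk 267 277 4 4 8 5 3 6 = true := by decide +kernel

/-- The interval from 289 to 294. -/
def c289 : chk 289 294 3 4 7 5 3 5 = true := by decide +kernel

/-- The interval from 294 to 305. -/
def c294 : chk 294 305 4 4 8 5 3 6 = true := by decide +kernel

/-- The interval from 305 to 308. -/
def c305 : chk 305 308 4 4 8 5 3 6 = true := by decide +kernel

/-- The interval from 391 to 398. -/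
def c391 : chk 391 398 4 4 8 5 3 6 = true := by decide +kernel

/-- The interval from 413 to 425. -/
def c413 : chk 413 425 4 4 8 5 3 6 = true := by decide +kernel

/-- The interval from 612 to 636. -/
def c612 : chk 612 636 5 4 9 5 4 5 = true := by decide +kernel

end Pool.Agent.Lib.MP_e49cd5_nt.Chk
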