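import Pool.Agent.Lib.MP_e49cd5_nt.Prog

set_option autoImplicit false
set_option linter.defProp false

namespace Pool.Agent.Lib.MP_e49cd5_nt.Chk

/-- The interval from 314 to 320. -/
def c314 : chk 314 320 4 4 8 5 3 6 = true := by decide +kernel

/-- The interval from 518 to 528. -/
def c518 : chk 518 528 5 4 9 5 4 5 = true := by decide +kernel

/-- The interval from 543 to 551. -/
def c543 : chk 543 551 4 4 8 5 3 6 = true := by decide +kernel

/-- The interval from 551 to 556. -/
def c551 : chk 551 556 5 4 9 5 4 5 = true := by decide +kernel

/-- The interval from 660 to 679. -/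
def c660 : chk 660 679 4 4 8 5 4 6 = true := by decide +kernel

/-- The interval from 747 to 750. -/
def c747 : chk 747 750 4 4 8 5 4 6 = true := by decide +kernel

end Pool.Agent.Lib.MP_e49cd5_nt.Chk
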