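import Pool.Agent.Lib.MP_e49cd5_nt.Prog

set_option autoImplicit false
set_option linter.defProp false

namespace Pool.Agent.Lib.MP_e49cd5_nt.Chk

/-- The interval from 250 to 260. -/
def c250 : chk 250 260 4 4 8 5 3 6 = true := by decide +kernel

/-- The interval from 281 to 289. -/
def c281 : chk 281 289 3 4 7 5 3 5 = true := by decide +kernel

/-- The interval from 347 to 353. -/
def c347 : chk 347 353 4 4 8 5 3 6 = true := by decide +kernel

/-- The interval from 425 to 437. -/
def c425 : chk 425 437 5 4 9 5 4 5 = true := by decide +kernel

/-- The interval from 556 to 572. -/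
def c556 : chk 556 572 5 4 9 5 4 5 = true := by decide +kernel

/-- The interval from 572 to 589. -/
def c572 : chk 572 589 4 4 8 5 3 6 = true := by decide +kernel

end Pool.Agent.Lib.MP_e49cd5_nt.Chk
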