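import Pool.Agent.Lib.MP_e49cd5_nt.Prog

set_option autoImplicit false
set_option linter.defProp false

namespace Pool.Agent.Lib.MP_e49cd5_nt.Chk

/-- The interval from 326 to 332. -/
def c326 : chk 326 332 5 4 9 5 4 5 = true := by decide +kernel

/-- The interval from 437 to 450. -/
def c437 : chk 437 450 5 4 9 5 4 5 = true := by decide +kernel

/-- The interval from 450 to 456. -/
def c450 : chk 450 456 4 4 8 5 3 6 = true := by decide +kernel

/-- The interval from 469 to 478. -/
def c469 : chk 469 478 5 4 9 5 4 5 = true := by decide +kernel

/-- The interval from 499 to 518. -/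
def c499 : chk 499 518 5 4 9 5 4 5 = true := by decide +kernel

/-- The interval from 648 to 660. -/
def c648 : chk 648 660 4 4 8 5 4 6 = true := by decide +kernel

end Pool.Agent.Lib.MP_e49cd5_nt.Chk
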