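import Pool.Agent.Lib.MP_e49cd5_nt.Prog

set_option autoImplicit false
set_option linter.defProp false

namespace Pool.Agent.Lib.MP_e49cd5_nt.Chk

/-- The interval from 320 to 326. -/
def c320 : chk 320 326 5 4 9 5 4 5 = true := by decide +kernel

/-- The interval from 353 to 363. -/
def c353 : chk 353 363 5 4 9 5 4 5 = true := by decide +kernel

/-- The interval from 363 to 373. -/
def c363 : chk 363 373 5 4 9 5 4 5 = true := by decide +kernel

/-- The interval from 478 to 485. -/
def c478 : chk 478 485 4 4 8 5 3 6 = true := by decide +kernel

/-- The interval from 636 to 648. -/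
def c636 : chk 636 648 4 4 8 5 3 6 = true := by decide +kernel

/-- The interval from 692 to 705. -/
def c692 : chk 692 705 4 4 8 5 4 6 = true := by decide +kernel

end Pool.Agent.Lib.MP_e49cd5_nt.Chk
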