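import Pool.Agent.Lib.MP_e49cd5_nt.Prog

set_option autoImplicit false
set_option linter.defProp false

namespace Pool.Agent.Lib.MP_e49cd5_nt.Chk

/-- The interval from 260 to 267. -/
def c260 : chk 260 267 4 4 8 5 3 6 = true := by decide +kernel

/-- The interval from 380 to 391. -/
def c380 : chk 380 391 5 4 9 5 4 5 = true := by decide +kernel

/-- The interval from 405 to 413. -/
def c405 : chk 405 413 4 4 8 5 3 6 = true := by decide +kernel

/-- The interval from 456 to 469. -/
def c456 : chk 456 469 5 4 9 5 4 5 = true := by decide +kernel

/-- The interval from 528 to 538. -/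
def c528 : chk 528 538 4 4 8 5 3 6 = true := by decide +kernel

/-- The interval from 679 to 692. -/
def c679 : chk 679 692 4 4 8 5 4 6 = true := by decide +kernel

end Pool.Agent.Lib.MP_e49cd5_nt.Chk
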