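import Pool.Agent.Lib.MP_e49cd5_nt.CycApi

set_option autoImplicit false

namespace Pool.Agent.Lib.MP_e49cd5_nt

open Finset

/-- The value `x` of `K` survives `T` steps. -/
noncomputable def svK (q T : ℕ) : ℕ → Bool :=
  Nat.rec (fun _ => true) (fun _ ih x =>
    cond (Nat.ble q (3 * x)) (ih (3 * x - q)) (cond (Nat.beq (x % 2) 0) (ih (3 * x / 2)) false)) T

/-- The value `x` of `K` and `y` of `w + q` survive `T` steps. -/
noncomputable def svW (q T : ℕ) : ℕ → ℕ → Bool :=
  Nat.rec (fun _ _ => true) (fun _ ih x y =>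
    cond (Nat.ble y (6 * q))
      (cond (Nat.ble q (3 * x))
        (cond (Nat.ble (5 * q) (3 * y + 10 * x)) (ih (3 * x - q) (3 * y + 10 * x - 5 * q)) false)
        (cond (Nat.beq (y % 2) 0)
          (cond (Nat.ble (6 * q) (3 * y + 10 * x))
            (ih (3 * x / 2) ((3 * y + 10 * x - 6 * q) / 2)) false)
          (cond (Nat.ble (5 * q) (3 * y + 6 * x))
            (ih (3 * x / 2) ((3 * y + 6 * x - 5 * q) / 2)) false)))
      false) T

/-- Half of `s` modulo the odd number `m`. -/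
def hf (m s : ℕ) : ℕ := (s + s % 2 * m) / 2 % m

/-- Bound for the number of times with `K = x` and `w + q = s` modulo `p`. -/
noncomputable def trW (q T J : ℕ) : ℕ → ℕ → ℕ → ℕ :=
  Nat.rec (fun x s _ => cond (svW q T x s) 1 0) (fun _ ih x s p =>
    cond (Nat.ble p (6 * q))
      (cond (Nat.ble q (3 * x))
        (ih (3 * x - q) ((3 * s + 10 * x + 5 * q * (3 * p - 1)) % (3 * p)) (3 * p))
        (ih (3 * x / 2) (hf (3 * p) (3 * s + 10 * x + 6 * q * (3 * p - 1))) (3 * p) +
          ih (3 * x / 2) (hf (3 * p) (3 * s + 6 * x + 5 * q * (3 * p - 1))) (3 * p)))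
      (cond (svW q T x s) 1 0)) J

/-- Bound for the number of times with `K = x`. -/
noncomputable def lfK (q x : ℕ) : ℕ :=
  cond (Nat.ble q (2 * x)) 0 (cond (Nat.beq x 0) 0 (cond (svK q 30 x) (trW q 30 30 x 0 1) 0))

/-- Bound for the number of times with `K = r` modulo `p`. -/
noncomputable def trK (q J : ℕ) : ℕ → ℕ → ℕ :=
  Nat.rec (fun r _ => lfK q r) (fun _ ih r p =>
    cond (Nat.ble (2 * p) q)
      (ih (hf (3 * p) (3 * r)) (3 * p) + ih ((3 * r + q * (3 * p - 1)) % (3 * p)) (3 * p))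
      (lfK q r)) J

/-- The test of one value `q`. -/
noncomputable def okQ (q : ℕ) : Bool :=
  cond (Nat.beq (q % 2) 0) true (cond (Nat.beq (q % 3) 0) true
    (Nat.ble (5 * trK q 30 0 1 + 1) q))

/-- The test of the values `q₀ + i`, `i < n`. -/
noncomputable def okR (q₀ n : ℕ) : Bool :=
  Nat.rec true (fun i ih => cond (okQ (q₀ + i)) ih false) n

end Pool.Agent.Lib.MP_e49cd5_nt
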