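import Pool.Agent.Lib.MP_e49cd5_nt.Chk

set_option autoImplicit false

namespace Pool.Agent.Lib.MP_e49cd5_nt

open Finset

variable {q k : ℕ} {K w : ℕ → ℤ}

theorem cond_ble {α : Type} (a b : ℕ) (x y : α) :
    cond (Nat.ble a b) x y = if a ≤ b then x else y := by
  by_cases h : a ≤ b
  · rw [if_pos h, Nat.ble_eq_true_of_le h, cond_true]
  · rw [if_neg h, Bool.eq_false_iff.2 fun c => h (Nat.le_of_ble_eq_true c), cond_false]

theorem cond_beq {α : Type} (a b : ℕ) (x y : α) :
    cond (Nat.beq a b) x y = if a = b then x else y := by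
  by_cases h : a = b
  · rw [if_pos h, h, Nat.beq_refl, cond_true]
  · rw [if_neg h, Bool.eq_false_iff.2 fun c => h (Nat.eq_of_beq_eq_true c), cond_false]

theorem svK_ok (h : Cyc q k K w) (T : ℕ) : ∀ (x n : ℕ), K n = x → svK q T x = true := by
  induction T with
  | zero => intro _ _ _; rfl
  | succ T ih =>
    intro x n e
    have h1 := h.step n
    change cond (Nat.ble q (3 * x)) (svK q T (3 * x - q))
      (cond (Nat.beq (x % 2) 0) (svK q T (3 * x / 2)) false) = true
    rw [cond_ble, cond_beq]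
    split_ifs with c c'
    · exact ih _ (n + 1) (by omega)
    · exact ih _ (n + 1) (by omega)
    · omega

theorem Cyc.y_step (h : Cyc q k K w) (i : ℕ) :
    (3 * K i < q ∧ 2 * K (i + 1) = 3 * K i ∧ (w i + q) % 2 = 0 ∧
        2 * (w (i + 1) + q) = 3 * (w i + q) + 10 * K i - 6 * q) ∨
      (3 * K i < q ∧ 2 * K (i + 1) = 3 * K i ∧ (w i + q) % 2 = 1 ∧
        2 * (w (i + 1) + q) = 3 * (w i + q) + 6 * K i - 5 * q) ∨
      (q ≤ 3 * K i ∧ K (i + 1) = 3 * K i - q ∧
        w (i + 1) + q = 3 * (w i + q) + 10 * K i - 5 * q) := by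
  have h0 := h.q2
  by_cases c : 3 * K i < q
  · obtain ⟨h1, h2⟩ := h.one i c
    rcases Int.emod_two_eq_zero_or_one (w i) with p | p <;> rw [p] at h2 <;> omega
  · have h2 := h.two i c
    omega

theorem svW_ok (h : Cyc q k K w) (T : ℕ) :
    ∀ (x y n : ℕ), K n = x → w n + q = y → svW q T x y = true := by
  induction T with
  | zero => intro _ _ _ _ _; rfl
  | succ T ih =>
    intro x y n e e'
    have h1 := h.y_step n
    have h2 := h.w_mem n
    have h3 := h.w_mem (n + 1)
    change cond (Nat.ble y (6 * q))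
      (cond (Nat.ble q (3 * x))
        (cond (Nat.ble (5 * q) (3 * y + 10 * x))
          (svW q T (3 * x - q) (3 * y + 10 * x - 5 * q)) false)
        (cond (Nat.beq (y % 2) 0)
          (cond (Nat.ble (6 * q) (3 * y + 10 * x))
            (svW q T (3 * x / 2) ((3 * y + 10 * x - 6 * q) / 2)) false)
          (cond (Nat.ble (5 * q) (3 * y + 6 * x))
            (svW q T (3 * x / 2) ((3 * y + 6 * x - 5 * q) / 2)) false)))
      false = true
    simp only [cond_ble, cond_beq]
    split_ifs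
    all_goals first | exact ih _ _ (n + 1) (by omega) (by omega) | omega

theorem dvd_mod_of {m s : ℕ} {z : ℤ} (h : (m : ℤ) ∣ z - s) : (m : ℤ) ∣ z - (s % m : ℕ) := by
  have h1 : z - (s % m : ℕ) = z - s + m * (s / m : ℕ) := by
    have : (s : ℤ) = (s % m : ℕ) + m * (s / m : ℕ) := by exact_mod_cast (Nat.mod_add_div s m).symm
    linear_combination this
  rw [h1]
  exact dvd_add h (dvd_mul_right _ _)

theorem hf_ok {m s : ℕ} {z : ℤ} (hm : m % 2 = 1) (h : (m : ℤ) ∣ 2 * z - s) :
    (m : ℤ) ∣ z - hf m s := by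
  refine dvd_mod_of ?_
  have hc : IsCoprime (m : ℤ) 2 := ⟨1, -(m / 2 : ℕ), by omega⟩
  refine hc.dvd_of_dvd_mul_left ?_
  rcases Nat.mod_two_eq_zero_or_one s with p | p
  · rw [p, show 2 * (z - ((s + 0 * m) / 2 : ℕ)) = 2 * z - s by omega]
    exact h
  · rw [p, show 2 * (z - ((s + 1 * m) / 2 : ℕ)) = 2 * z - s - m by omega]
    exact dvd_sub h dvd_rfl

theorem dvd_child {p s c d : ℕ} {y z : ℤ} (hp : 0 < p) (h : (p : ℤ) ∣ y - s)
    (e : z = 3 * y + c - d) : ((3 * p : ℕ) : ℤ) ∣ z - (3 * s + c + d * (3 * p - 1) : ℕ) := by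
  obtain ⟨u, hu⟩ := h
  refine ⟨u - d, ?_⟩
  rw [e, Nat.cast_add, Nat.cast_mul d, Nat.cast_sub (by omega)]
  push_cast
  linear_combination 3 * hu

theorem card_two {P P₁ P₂ : ℕ → Prop} [DecidablePred P] [DecidablePred P₁] [DecidablePred P₂]
    (h₁ : ∀ n, P₁ (n + k) ↔ P₁ n) (h₂ : ∀ n, P₂ (n + k) ↔ P₂ n)
    (h : ∀ n, P n → P₁ (n + 1) ∨ P₂ (n + 1)) :
    ((range k).filter P).card ≤ ((range k).filter P₁).card + ((range k).filter P₂).card := by
  rw [← card_shift h₁ 1, ← card_shift h₂ 1]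
  refine le_trans (card_le_card fun i hi => ?_) (card_union_le _ _)
  rw [mem_filter] at hi
  rw [mem_union, mem_filter, mem_filter]
  exact (h i hi.2).imp (fun c => ⟨hi.1, c⟩) fun c => ⟨hi.1, c⟩

theorem card_one {P P₁ : ℕ → Prop} [DecidablePred P] [DecidablePred P₁]
    (h₁ : ∀ n, P₁ (n + k) ↔ P₁ n) (h : ∀ n, P n → P₁ (n + 1)) :
    ((range k).filter P).card ≤ ((range k).filter P₁).card := by
  rw [← card_shift h₁ 1]
  exact card_le_card fun i hi => mem_filter.2 ⟨(mem_filter.1 hi).1, h i (mem_filter.1 hi).2⟩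

theorem eq_of_dvd {p : ℕ} {y s : ℤ} (h : (p : ℤ) ∣ y - s) (h1 : 0 ≤ y) (h2 : y < p) (h3 : 0 ≤ s)
    (h4 : s < p) : y = s :=
  sub_eq_zero.1 (Int.eq_zero_of_abs_lt_dvd h (by rw [abs_lt]; omega))

theorem lfW_ok (h : Cyc q k K w) (T x s p : ℕ) (hs : s < p) (hq : 6 * q < p) :
    ((range k).filter fun i => K i = x ∧ (p : ℤ) ∣ w i + q - s).card ≤
      cond (svW q T x s) 1 0 := by
  have key : ∀ i ∈ (range k).filter fun i => K i = x ∧ (p : ℤ) ∣ w i + q - s,
      i < k ∧ K i = x ∧ w i + q = s := fun i hi => by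
    rw [mem_filter, mem_range] at hi
    have := h.w_mem i
    exact ⟨hi.1, hi.2.1, eq_of_dvd hi.2.2 (by omega) (by omega) (by omega) (by omega)⟩
  rcases ((range k).filter fun i => K i = x ∧ (p : ℤ) ∣ w i + q - s).eq_empty_or_nonempty with
    c | ⟨n, hn⟩
  · rw [c]; exact Nat.zero_le _
  · rw [svW_ok h T x s n (key n hn).2.1 (key n hn).2.2, cond_true]
    refine card_le_one.2 fun i hi j hj => ?_
    have h1 := key i hi
    have h2 := key j hj
    exact h.inj i h1.1 j h2.1 (by omega) (by omega)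

theorem trW_ok (h : Cyc q k K w) (T J : ℕ) : ∀ x s p : ℕ, p % 2 = 1 → s < p → 6 * q < p * 3 ^ J →
    ((range k).filter fun i => K i = x ∧ (p : ℤ) ∣ w i + q - s).card ≤ trW q T J x s p := by
  induction J with
  | zero => intro x s p _ hs hq; exact lfW_ok h T x s p hs (by omega)
  | succ J ih =>
    intro x s p hp hs hq
    change _ ≤ cond (Nat.ble p (6 * q))
      (cond (Nat.ble q (3 * x))
        (trW q T J (3 * x - q) ((3 * s + 10 * x + 5 * q * (3 * p - 1)) % (3 * p)) (3 * p))
        (trW q T J (3 * x / 2) (hf (3 * p) (3 * s + 10 * x + 6 * q * (3 * p - 1))) (3 * p) +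
          trW q T J (3 * x / 2) (hf (3 * p) (3 * s + 6 * x + 5 * q * (3 * p - 1))) (3 * p)))
      (cond (svW q T x s) 1 0)
    have hq' : 6 * q < 3 * p * 3 ^ J := by rw [pow_succ] at hq; linarith
    have hp' : 3 * p % 2 = 1 := by omega
    have hm : ∀ z, z % (3 * p) < 3 * p := fun z => Nat.mod_lt _ (by omega)
    rw [cond_ble, cond_ble]
    split_ifs with c c'
    · refine le_trans (card_one (fun n => by rw [h.perK, h.perw]) fun n hn => ?_)
        (ih _ _ _ hp' (hm _) hq')
      have h1 := h.y_step n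
      exact ⟨by omega, dvd_mod_of (dvd_child (by omega) hn.2 (by omega))⟩
    · refine le_trans (card_two (fun n => by rw [h.perK, h.perw]) (fun n => by rw [h.perK, h.perw])
        fun n hn => ?_) (add_le_add (ih _ _ _ hp' (hm _) hq') (ih _ _ _ hp' (hm _) hq'))
      rcases h.y_step n with h1 | h1 | h1
      · exact Or.inl ⟨by omega, hf_ok hp' (dvd_child (by omega) hn.2 (by omega))⟩
      · exact Or.inr ⟨by omega, hf_ok hp' (dvd_child (by omega) hn.2 (by omega))⟩
      · omega
    · exact lfW_ok h T x s p hs (by omega)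

theorem lfK_ok (h : Cyc q k K w) (hq : q < 10 ^ 9) (r p : ℕ) (hr : r < p) (hp : q < 2 * p) :
    ((range k).filter fun i => (p : ℤ) ∣ K i - r).card ≤ lfK q r := by
  have key : ∀ i ∈ (range k).filter fun i => (p : ℤ) ∣ K i - r, K i = r := fun i hi => by
    have := h.mem i
    exact eq_of_dvd (mem_filter.1 hi).2 (by omega) (by omega) (by omega) (by omega)
  rcases ((range k).filter fun i => (p : ℤ) ∣ K i - r).eq_empty_or_nonempty with c | ⟨n, hn⟩
  · rw [c]; exact Nat.zero_le _
  · have h1 := key n hn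
    have h2 := h.mem n
    rw [lfK, cond_ble, cond_beq, if_neg (by omega), if_neg (by omega), svK_ok h 30 r n h1,
      cond_true]
    refine le_trans (card_le_card fun i hi => ?_) (trW_ok h 30 30 r 0 1 rfl one_pos (by omega))
    exact mem_filter.2 ⟨(mem_filter.1 hi).1, key i hi, one_dvd _⟩

theorem trK_ok (h : Cyc q k K w) (hq : q < 10 ^ 9) (J : ℕ) :
    ∀ r p : ℕ, p % 2 = 1 → r < p → q < 2 * (p * 3 ^ J) →
      ((range k).filter fun i => (p : ℤ) ∣ K i - r).card ≤ trK q J r p := by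
  induction J with
  | zero => intro r p _ hr hp; exact lfK_ok h hq r p hr (by omega)
  | succ J ih =>
    intro r p hp hr hq'
    change _ ≤ cond (Nat.ble (2 * p) q)
      (trK q J (hf (3 * p) (3 * r)) (3 * p) +
        trK q J ((3 * r + q * (3 * p - 1)) % (3 * p)) (3 * p)) (lfK q r)
    have hq'' : q < 2 * (3 * p * 3 ^ J) := by rw [pow_succ] at hq'; linarith
    have hp' : 3 * p % 2 = 1 := by omega
    have hm : ∀ z, z % (3 * p) < 3 * p := fun z => Nat.mod_lt _ (by omega)
    rw [cond_ble]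
    split_ifs with c
    · refine le_trans (card_two (fun n => by rw [h.perK]) (fun n => by rw [h.perK])
        fun n hn => ?_) (add_le_add (ih _ _ hp' (hm _) hq'') (ih _ _ hp' (hm _) hq''))
      rcases h.step n with h1 | h1
      · have := dvd_child (c := 0) (d := 0) (z := 2 * K (n + 1)) (by omega) hn (by omega)
        rw [zero_mul, add_zero, add_zero] at this
        exact Or.inl (hf_ok hp' this)
      · have := dvd_child (c := 0) (d := q) (z := K (n + 1)) (by omega) hn (by omega)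
        rw [add_zero] at this
        exact Or.inr (dvd_mod_of this)
    · exact lfK_ok h hq r p hr (by omega)

theorem okQ_ok (h : Cyc q k K w) (hq : q < 10 ^ 9) : okQ q = false := by
  have h1 := trK_ok h hq 30 0 1 rfl one_pos (by omega)
  rw [filter_true_of_mem fun i _ => by rw [Nat.cast_one]; exact one_dvd _, card_range] at h1
  have h2 := h.q2
  have h3 := h.q3
  have h4 := h.qk
  rw [okQ, cond_beq, cond_beq, if_neg (by omega), if_neg (by omega)]
  exact Bool.eq_false_iff.2 fun c => by have := Nat.le_of_ble_eq_true c; omega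

theorem okR_ok {q₀ n : ℕ} (hR : okR q₀ n = true) : ∀ i < n, okQ (q₀ + i) = true := by
  induction n with
  | zero => intro i hi; omega
  | succ n ih =>
    change cond (okQ (q₀ + n)) (okR q₀ n) false = true at hR
    cases c : okQ (q₀ + n)
    · rw [c] at hR; exact absurd hR (by simp)
    · rw [c] at hR
      intro i hi
      rcases Nat.lt_succ_iff_lt_or_eq.1 hi with h | h
      · exact ih hR i h
      · rw [h, c]

theorem Cyc.not_mem {z : ℤ} (h : Cyc z k K w) {q₀ n : ℕ} (hR : okR q₀ n = true)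
    (hn : q₀ + n ≤ 10 ^ 9) : z < q₀ ∨ (q₀ + n : ℕ) ≤ z := by
  by_contra c
  obtain ⟨q, rfl⟩ := Int.eq_ofNat_of_zero_le (show 0 ≤ z by omega)
  have h1 := okR_ok hR (q - q₀) (by omega)
  rw [show q₀ + (q - q₀) = q by omega, okQ_ok h (by omega)] at h1
  exact absurd h1 (by simp)

end Pool.Agent.Lib.MP_e49cd5_nt
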