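import Pool.Agent.Lib.MP_e49cd5_nt.Par

set_option autoImplicit false

namespace Pool.Agent.Lib.MP_e49cd5_nt

open Finset

/-- A cycle of the reduced autonomous system in the coordinates `K`, `w`. -/
structure Cyc (q : ℤ) (k : ℕ) (K w : ℕ → ℤ) : Prop where
  q2 : q % 2 = 1
  q3 : q % 3 ≠ 0
  pos : 0 < k
  qk : q ≤ 5 * k
  perK : ∀ n, K (n + k) = K n
  perw : ∀ n, w (n + k) = w n
  mem : ∀ n, 0 < K n ∧ 2 * K n < q
  one : ∀ n, 3 * K n < q → 2 * K (n + 1) = 3 * K n ∧
    2 * w (n + 1) = 3 * w n - 4 * q + 6 * K n + w n % 2 * (4 * K n - q)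
  two : ∀ n, ¬3 * K n < q → K (n + 1) = 3 * K n - q ∧ w (n + 1) = 3 * w n - 3 * q + 10 * K n
  inj : ∀ i < k, ∀ j < k, K i = K j → w i = w j → i = j

variable {a b : ℕ → ℤ} {k : ℕ}

theorem Per.pow3_dvd (h : Per a b k) (s : ℕ) :
    3 ^ s ∣ dD a b k → ∀ n, 3 ^ s ∣ dA a k n := by
  induction s with
  | zero => intro _ n; simp
  | succ s ih =>
    intro hs n
    have h0 := ih ((pow_dvd_pow 3 (Nat.le_succ s)).trans hs)
    have hc : IsCoprime ((3 : ℤ) ^ (s + 1)) 2 :=
      IsCoprime.pow_left (⟨1, -1, by norm_num⟩ : IsCoprime (3 : ℤ) 2)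
    have hk := h.pos
    obtain ⟨m, hm⟩ : ∃ m, n + k = m + 1 := ⟨n + k - 1, by omega⟩
    have h3 : (3 : ℤ) ^ (s + 1) ∣ 3 * dA a k m := by
      rw [pow_succ']
      exact mul_dvd_mul_left 3 (h0 m)
    rw [← h.dA_per, hm]
    by_cases c : b m / 2 < a m
    · refine hc.dvd_of_dvd_mul_left ?_
      rw [h.one c]
      exact dvd_sub h3 hs
    · rw [h.two c]
      exact h3

theorem Per.V_per (h : Per a b k) (n : ℕ) : dV a b k (n + k) = dV a b k n := by
  have h1 := h.sum n
  have h2 := h.dA_per n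
  unfold dV
  rw [h2, ← h1]
  unfold dA
  ring

theorem Per.cyc (h : Per a b k)
    (hmin : ∀ k' N, 0 < k' → k' < k → ¬∀ n, Same a b (N + n + k') (N + n)) :
    ∃ q K w, Cyc q k K w := by
  have hD := h.dD_mem
  have hk := h.pos
  obtain ⟨r, D, hodd, hD'⟩ := Nat.exists_eq_two_pow_mul_odd
    (n := (dD a b k).toNat) (by omega)
  obtain ⟨s, q, hq, hD''⟩ := Nat.exists_eq_pow_mul_and_not_dvd (n := D)
    (by rintro rfl; simp at hodd) 3 (by norm_num)
  have h1 : dD a b k = 2 ^ r * 3 ^ s * q := by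
    have : ((dD a b k).toNat : ℤ) = dD a b k := Int.toNat_of_nonneg (by omega)
    rw [← this, hD', hD'']
    push_cast
    ring
  have hq2 : (q : ℤ) % 2 = 1 := by
    rw [hD''] at hodd
    have := Nat.odd_iff.1 (Nat.odd_mul.1 hodd).2
    omega
  have hq3 : (q : ℤ) % 3 ≠ 0 := by omega
  have hB : ∀ n, ∃ x, dA b k n = 2 ^ (r + 1) * 3 ^ s * x := fun n => by
    have hc : IsCoprime ((2 : ℤ) ^ (r + 1)) (3 ^ s) :=
      IsCoprime.pow (⟨-1, 1, by norm_num⟩ : IsCoprime (2 : ℤ) 3)
    have h3 : (3 : ℤ) ^ s ∣ dD a b k := ⟨2 ^ r * q, by rw [h1]; ring⟩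
    refine hc.mul_dvd (h.pow_dvd (r + 1) ⟨3 ^ s * q, by rw [h1]; ring⟩ n) ?_
    rw [show dA b k n = dD a b k - dA a k n by have := h.sum n; omega]
    exact dvd_sub h3 (h.pow3_dvd s h3 n)
  choose K hK using hB
  have hg : (0 : ℤ) < 2 ^ r * 3 ^ s := by positivity
  simp only [pow_succ, mul_right_comm _ (2 : ℤ) (3 ^ s)] at hK
  generalize (2 : ℤ) ^ r * 3 ^ s = g at h1 hK hg
  have hA : ∀ n, dA a k n = g * (q - 2 * K n) := fun n => by
    linear_combination h.sum n + h1 - hK n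
  set v : ℕ → ℤ := fun n => 2 * K n * (a n + b n) - q * b n with hv
  have hV : ∀ n, dV a b k n = g * v n := fun n => by
    simp only [hv, dV]
    rw [h1, hA]
    ring
  have rule : ∀ n, b n / 2 < a n ↔ 3 * K n < q := fun n => by
    rw [h.rule, h1, hA, mul_left_comm, mul_lt_mul_iff_right₀ hg]
    omega
  have pK : ∀ n, K (n + k) = K n := fun n => by
    have := mul_left_cancel₀ hg.ne' ((hA _).symm.trans ((h.dA_per n).trans (hA n)))
    omega
  have pv : ∀ n, v (n + k) = v n := fun n =>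
    mul_left_cancel₀ hg.ne' ((hV _).symm.trans ((h.V_per n).trans (hV n)))
  have s1 : ∀ n, 3 * K n < q → 2 * K (n + 1) = 3 * K n ∧
      2 * v (n + 1) = 3 * v n - 12 * q + 18 * K n + 3 * (b n % 2) * (4 * K n - q) := by
    intro n c
    have h2 := h.one ((rule n).2 c)
    have h3 := h.V_one ((rule n).2 c)
    rw [hA, hA, h1] at h2
    rw [hV, hV, hA, h1] at h3
    have h4 : 2 * K (n + 1) = 3 * K n := by
      have : 2 * (q - 2 * K (n + 1)) = 3 * (q - 2 * K n) - q :=
        mul_left_cancel₀ hg.ne' (by linear_combination h2)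
      omega
    refine ⟨h4, mul_left_cancel₀ hg.ne' ?_⟩
    linear_combination h3 + 2 * g * (3 + 2 * (b n % 2)) * h4
  have s2 : ∀ n, ¬3 * K n < q → K (n + 1) = 3 * K n - q ∧
      v (n + 1) = 3 * v n - 10 * q + 30 * K n := by
    intro n c
    have h2 := h.two (fun c' => c ((rule n).1 c'))
    have h3 := h.V_two (fun c' => c ((rule n).1 c'))
    rw [hA, hA] at h2
    rw [hV, hV, hA, h1] at h3
    have h4 : K (n + 1) = 3 * K n - q := by
      have : q - 2 * K (n + 1) = 3 * (q - 2 * K n) :=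
        mul_left_cancel₀ hg.ne' (by linear_combination h2)
      omega
    refine ⟨h4, mul_left_cancel₀ hg.ne' ?_⟩
    linear_combination h3 + 10 * g * h4
  have hw : ∀ n, ∃ x, v n = 3 * x + K n := fun n => by
    obtain ⟨m, hm⟩ : ∃ m, n + k = m + 1 := ⟨n + k - 1, by omega⟩
    rw [← pv, ← pK, hm]
    refine ⟨(v (m + 1) - K (m + 1)) / 3, ?_⟩
    by_cases c : 3 * K m < q
    · have := s1 m c
      rw [mul_assoc] at this
      omega
    · have := s2 m c
      omega
  choose w hw using hw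
  refine ⟨q, K, w, hq2, hq3, hk, ?_, pK, fun n => ?_, fun n => ?_, fun n c => ?_, fun n c => ?_,
    ?_⟩
  · have : (q : ℤ) ≤ g * q := le_mul_of_one_le_left (by omega) hg
    omega
  · have h2 := pv n
    rw [hw, hw, pK] at h2
    omega
  · have h2 := h.dA_pos n
    rw [hA, h1, mul_lt_mul_iff_right₀ hg, mul_pos_iff_of_pos_left hg] at h2
    omega
  · obtain ⟨h2, h3⟩ := s1 n c
    rw [hw, hw] at h3
    refine ⟨h2, ?_⟩
    rcases Int.emod_two_eq_zero_or_one (b n) with p | p <;>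
      rcases Int.emod_two_eq_zero_or_one (w n) with p' | p' <;>
      rw [p] at h3 <;> rw [p'] <;> omega
  · obtain ⟨h2, h3⟩ := s2 n c
    rw [hw, hw] at h3
    omega
  · have half : ∀ i j, i < j → j < k → K i = K j → w i = w j → False := by
      intro i j hij hj e e'
      refine hmin (j - i) i (by omega) (by omega) fun n => ?_
      rw [show i + n + (j - i) = j + n by omega]
      exact h.fut (by rw [hA, hA, e]) (by rw [hV, hV, hw, hw, e, e']) n
    intro i hi j hj e e'
    rcases lt_trichotomy i j with c | c | c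
    · exact (half i j c hj e e').elim
    · exact c
    · exact (half j i c hi e.symm e'.symm).elim

/-- An eventually periodic sequence of rules gives a cycle of the reduced system. -/
theorem Orb.cyc {l n₀ : ℕ} (h : Orb a b) (hl : 0 < l)
    (hc : ∀ n, n₀ ≤ n → (b (n + l) / 2 < a (n + l) ↔ b n / 2 < a n)) :
    ∃ q k K w, Cyc q k K w := by
  have hex : ∃ k, 0 < k ∧ ∃ N, ∀ n, Same a b (N + n + k) (N + n) := by
    obtain ⟨k, hk, N, hN⟩ := (h.shift n₀).ex_same hl fun n => by
      have := hc (n₀ + n) (by omega)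
      rwa [add_assoc] at this
    refine ⟨k, hk, n₀ + N, fun n => ?_⟩
    have := hN n
    simp only [Same, ← add_assoc] at this ⊢
    exact this
  classical
  obtain ⟨hk, N, hN⟩ := Nat.find_spec hex
  have hP : Per (fun n => a (N + n)) (fun n => b (N + n)) (Nat.find hex) :=
    ⟨h.shift N, hk, fun n => by
      have := hN n
      simp only [Same, ← add_assoc] at this ⊢
      exact this⟩
  obtain ⟨q, K, w, hC⟩ := hP.cyc fun k' N' h1 h2 h3 => by
    refine Nat.find_min hex h2 ⟨h1, N + N', fun n => ?_⟩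
    have := h3 n
    simp only [Same, ← add_assoc] at this ⊢
    exact this
  exact ⟨q, _, K, w, hC⟩

end Pool.Agent.Lib.MP_e49cd5_nt
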