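import Pool.Agent.Lib.MP_e49cd5_nt.Cyc

set_option autoImplicit false

namespace Pool.Agent.Lib.MP_e49cd5_nt

open Finset

variable {q : ℤ} {k : ℕ} {K w : ℕ → ℤ}

theorem Cyc.step (h : Cyc q k K w) (n : ℕ) :
    (3 * K n < q ∧ 2 * K (n + 1) = 3 * K n) ∨ (q < 3 * K n ∧ K (n + 1) = 3 * K n - q) := by
  by_cases c : 3 * K n < q
  · exact Or.inl ⟨c, (h.one n c).1⟩
  · have := h.q3
    exact Or.inr ⟨by omega, (h.two n c).1⟩

theorem Cyc.next (h : Cyc q k K w) {n n' : ℕ} (e : K n = K n') (i : ℕ) :
    K (n + i) = K (n' + i) := by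
  induction i with
  | zero => exact e
  | succ i ih =>
    have h1 := h.step (n + i)
    have h2 := h.step (n' + i)
    rw [← add_assoc, ← add_assoc]
    omega

theorem Cyc.d_one (h : Cyc q k K w) {n n' : ℕ} (e : K n = K n') (c : 3 * K n < q) :
    2 * (w (n + 1) - w (n' + 1)) = 3 * (w n - w n') + (w n % 2 - w n' % 2) * (4 * K n - q) := by
  have h1 := (h.one n c).2
  have h2 := (h.one n' (e ▸ c)).2
  rw [← e] at h2
  linear_combination h1 - h2

theorem Cyc.d_two (h : Cyc q k K w) {n n' : ℕ} (e : K n = K n') (c : ¬3 * K n < q) :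
    w (n + 1) - w (n' + 1) = 3 * (w n - w n') := by
  have h1 := (h.two n c).2
  have h2 := (h.two n' (e ▸ c)).2
  omega

theorem Cyc.next_w (h : Cyc q k K w) {n n' : ℕ} (e : K n = K n') (e' : w n = w n') (i : ℕ) :
    w (n + i) = w (n' + i) := by
  induction i with
  | zero => exact e'
  | succ i ih =>
    rw [← add_assoc, ← add_assoc]
    by_cases c : 3 * K (n + i) < q
    · have := h.d_one (h.next e i) c
      rw [ih, sub_self, sub_self, zero_mul] at this
      omega
    · have := h.d_two (h.next e i) c
      omega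

theorem per_mod {β : Type} {x : ℕ → β} (h : ∀ n, x (n + k) = x n) (n : ℕ) : x (n % k) = x n := by
  conv_rhs => rw [← Nat.mod_add_div n k]
  exact (per_mul h _ _).symm

theorem Cyc.inj' (h : Cyc q k K w) {n n' : ℕ} (e : K n = K n') (e' : w n = w n') :
    n % k = n' % k :=
  h.inj _ (Nat.mod_lt _ h.pos) _ (Nat.mod_lt _ h.pos)
    (by rw [per_mod h.perK, per_mod h.perK, e]) (by rw [per_mod h.perw, per_mod h.perw, e'])

/-- A periodic sequence that grows once it is positive is never positive. -/
theorem per_grow {x : ℕ → ℤ} (hk : 0 < k) (hp : ∀ n, x (n + k) = x n)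
    (h : ∀ i, 0 < x i → x i < x (i + 1)) (n : ℕ) : x n ≤ 0 := by
  by_contra hn
  have h1 : ∀ i, x n + (i : ℕ) ≤ x (n + i) := by
    intro i
    induction i with
    | zero => simp
    | succ i ih =>
      have := h (n + i) (by omega)
      rw [← add_assoc]
      push_cast
      omega
  have := h1 k
  rw [hp] at this
  omega

theorem Cyc.close (h : Cyc q k K w) {n n' : ℕ} (e : K n = K n') : |w n - w n'| ≤ q := by
  have := per_grow (x := fun i => |w (n + i) - w (n' + i)| - q) h.pos (fun i => ?_)
    (fun i hi => ?_) 0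
  · simp only [add_zero] at this
    omega
  · rw [← add_assoc, ← add_assoc, h.perw, h.perw]
  · have h1 := h.mem (n + i)
    rw [← add_assoc, ← add_assoc]
    rw [abs_eq_max_neg] at hi
    rw [abs_eq_max_neg, abs_eq_max_neg]
    by_cases c : 3 * K (n + i) < q
    · have h2 := h.d_one (h.next e i) c
      rcases Int.emod_two_eq_zero_or_one (w (n + i)) with p | p <;>
        rcases Int.emod_two_eq_zero_or_one (w (n' + i)) with p' | p' <;>
        rw [p, p'] at h2 <;> omega
    · have h2 := h.d_two (h.next e i) c
      omega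

theorem Cyc.w_mem (h : Cyc q k K w) (n : ℕ) : -q ≤ w n ∧ w n ≤ 5 * q := by
  have key : ∀ i, (2 * w (i + 1) = 3 * w i - 4 * q + 6 * K i ∧ 3 * K i < q) ∨
      (2 * w (i + 1) = 3 * w i - 5 * q + 10 * K i ∧ 3 * K i < q) ∨
      (w (i + 1) = 3 * w i - 3 * q + 10 * K i ∧ q ≤ 3 * K i) := fun i => by
    by_cases c : 3 * K i < q
    · have h2 := (h.one i c).2
      rcases Int.emod_two_eq_zero_or_one (w i) with p | p <;> rw [p] at h2 <;> omega
    · have h2 := (h.two i c).2
      omega
  have h1 := per_grow (x := fun i => -q - w i) h.pos (fun i => by simp only [h.perw])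
    (fun i hi => by have := key i; have := h.mem i; omega) n
  have h2 := per_grow (x := fun i => w i - 5 * q) h.pos (fun i => by simp only [h.perw])
    (fun i hi => by have := key i; have := h.mem i; omega) n
  omega

/-- Counting over one period does not depend on the starting time. -/
theorem card_shift {P : ℕ → Prop} [DecidablePred P] (hp : ∀ n, P (n + k) ↔ P n) (j : ℕ) :
    ((range k).filter fun i => P (i + j)).card = ((range k).filter P).card := by
  induction j with
  | zero => rfl
  | succ j ih =>
    rw [← ih, card_filter, card_filter]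
    have h1 := sum_range_succ (fun i => if P (i + j) then 1 else 0) k
    have h2 := sum_range_succ' (fun i => if P (i + j) then 1 else 0) k
    have h3 : (if P (k + j) then 1 else 0) = if P (0 + j) then 1 else 0 :=
      if_congr (by rw [add_comm, zero_add, hp]) rfl rfl
    simp only [add_right_comm _ 1 j, add_assoc _ j 1] at h2
    omega

theorem Cyc.cnt_succ (h : Cyc q k K w) (n : ℕ) :
    ((range k).filter fun i => K i = K n).card ≤
      ((range k).filter fun i => K i = K (n + 1)).card := by
  rw [← card_shift (P := fun i => K i = K (n + 1)) (fun i => by rw [h.perK]) 1]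
  exact card_le_card fun i hi => mem_filter.2 ⟨(mem_filter.1 hi).1, h.next (mem_filter.1 hi).2 1⟩

/-- All fibres of `K` over one period have the same size. -/
theorem Cyc.cnt_eq (h : Cyc q k K w) (n : ℕ) :
    ((range k).filter fun i => K i = K n).card = ((range k).filter fun i => K i = K 0).card := by
  have hm : Monotone fun n => ((range k).filter fun i => K i = K n).card :=
    monotone_nat_of_le_succ h.cnt_succ
  refine le_antisymm ((hm (Nat.le_mul_of_pos_left n h.pos)).trans (le_of_eq ?_)) (hm n.zero_le)
  have := per_mul h.perK n 0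
  rw [zero_add] at this
  simp only [this]

end Pool.Agent.Lib.MP_e49cd5_nt
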