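import Pool.Agent.Lib.MP_e49cd5_nt.EnB

set_option autoImplicit false

namespace Pool.Agent.Lib.MP_e49cd5_nt.En

variable {a b : ℕ → ℤ}

/-- The time `m` is near `n` and has the same rules for `R + L + 1` steps and the same parities for
`R + 1` steps. -/
def Mate (a b : ℕ → ℤ) (G R L n m : ℕ) : Prop :=
  m ≠ n ∧ m < n + G ∧ n < m + G ∧
    (∀ i < R + L + 1, (b (m + i) / 2 < a (m + i) ↔ b (n + i) / 2 < a (n + i))) ∧
    ∀ i < R + 1, b (m + i) % 2 = b (n + i) % 2

theorem mates (h : Orb a b) (σ : ℤ) (hσ : 2 ≤ σ) (G R L : ℕ) (hR : (810 * G : ℤ) < 3 ^ R)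
    (hL : 2 ^ L * (81 * σ) ≤ 3 ^ L) :
    ∃ y : ℕ → ℚ, ∀ A T : ℕ,
      (∀ n, A ≤ n + G → n ≤ A + T + G + R + L + 1 → σ ≤ a n + b n ∧ a n + b n ≤ 2 * σ) →
      (∀ n, A ≤ n → n ≤ A + T → ∃ m, Mate a b G R L n m) →
      Line a b y (A + R) T (5 * G) (81 * σ) := by
  classical
  obtain ⟨π, hπ⟩ : ∃ π : ℕ → ℕ, ∀ n, (∃ m, Mate a b G R L n m) → Mate a b G R L n (π n) :=
    ⟨fun n => Classical.epsilon (Mate a b G R L n), fun n hn => Classical.epsilon_spec hn⟩
  obtain ⟨y, hy0⟩ : ∃ y : ℕ → ℚ, ∀ n, y (n + R) = ((a (π n + R) - a (n + R) : ℤ) : ℚ) /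
      ((a (π n + R) + b (π n + R) - (a (n + R) + b (n + R)) : ℤ) : ℚ) :=
    ⟨fun n => ((a (π (n - R) + R) - a n : ℤ) : ℚ) /
      ((a (π (n - R) + R) + b (π (n - R) + R) - (a n + b n) : ℤ) : ℚ), fun n => by
        simp only [Nat.add_sub_cancel]⟩
  refine ⟨y, fun A T hs hp => ?_⟩
  have p3 : ∀ n, A ≤ n → n ≤ A + T → π n ≠ n := fun n h1 h2 => (hπ n (hp n h1 h2)).1
  have p2 : ∀ n, A ≤ n → n ≤ A + T → π n < n + G := fun n h1 h2 => (hπ n (hp n h1 h2)).2.1
  have p1 : ∀ n, A ≤ n → n ≤ A + T → n < π n + G := fun n h1 h2 => (hπ n (hp n h1 h2)).2.2.1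
  have rl : ∀ n, A ≤ n → n ≤ A + T → ∀ i < R + L + 1,
      (b (π n + i) / 2 < a (π n + i) ↔ b (n + i) / 2 < a (n + i)) :=
    fun n h1 h2 => (hπ n (hp n h1 h2)).2.2.2.1
  have sm : ∀ n, A ≤ n → n ≤ A + T → ∀ i < R + 1, Same a b (π n + i) (n + i) :=
    fun n h1 h2 i hi => ⟨rl n h1 h2 i (by omega), (hπ n (hp n h1 h2)).2.2.2.2 i hi⟩
  have fu : ∀ n, A ≤ n → n ≤ A + T → ∀ j ≤ 1, |a (π n + R + j) * (a (n + R + j) + b (n + R + j)) -
      a (n + R + j) * (a (π n + R + j) + b (π n + R + j))| ≤ 81 * σ := fun n h1 h2 j hj => by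
    have := p1 n h1 h2
    have := p2 n h1 h2
    refine future h _ _ L σ hσ (fun i hi => ?_) (fun i hi => ?_) (fun i hi => ?_) hL
    · have := hs (n + R + j + i) (by omega) (by omega)
      omega
    · have := hs (π n + R + j + i) (by omega) (by omega)
      omega
    · have := rl n h1 h2 (R + j + i) (by omega)
      simpa only [add_assoc] using this
  have dl : ∀ n, A ≤ n → n ≤ A + T → ∀ j, a (π n + j) + b (π n + j) - (a (n + j) + b (n + j)) ≠ 0 ∧
      |a (π n + j) + b (π n + j) - (a (n + j) + b (n + j))| ≤ 5 * G := fun n h1 h2 j => by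
    have := p1 n h1 h2
    have := p2 n h1 h2
    have := p3 n h1 h2
    exact dist_le h (by omega) (by omega) (by omega)
  have hy : ∀ n, A ≤ n → n ≤ A + T → y (n + R) *
      ((a (π n + R) + b (π n + R) - (a (n + R) + b (n + R)) : ℤ) : ℚ) =
      ((a (π n + R) - a (n + R) : ℤ) : ℚ) := fun n h1 h2 => by
    rw [hy0]
    exact div_mul_cancel₀ _ (by exact_mod_cast (dl n h1 h2 R).1)
  have par : ∀ n, A ≤ n → n < A + T → y (n + R + 1) *
      ((a (π n + R + 1) + b (π n + R + 1) - (a (n + R + 1) + b (n + R + 1)) : ℤ) : ℚ) =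
      ((a (π n + R + 1) - a (n + R + 1) : ℤ) : ℚ) := fun n h1 h2 => by
    have d := past h (n + 1) (π n + 1) (π (n + 1)) R (fun i hi => by
      have := sm n h1 h2.le (1 + i) (by omega)
      simpa only [add_assoc] using this) fun i hi => sm (n + 1) (by omega) (by omega) i (by omega)
    have f1 := fu n h1 h2.le 1 le_rfl
    have f2 := fu (n + 1) (by omega) (by omega) 0 (by omega)
    have d1 := dl n h1 h2.le (R + 1)
    have d2 := dl (n + 1) (by omega) (by omega) R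
    have y2 := hy (n + 1) (by omega) (by omega)
    have s1 := (hs (n + R + 1) (by omega) (by omega)).1
    simp only [add_zero, add_right_comm n 1 R, add_right_comm (π n) 1 R, ← add_assoc n,
      ← add_assoc (π n)] at d f1 f2 d1 d2 y2
    generalize a (π n + R + 1) + b (π n + R + 1) = s₁ at *
    generalize a (π (n + 1) + R) + b (π (n + 1) + R) = s₂ at *
    generalize a (n + R + 1) + b (n + R + 1) = s₀ at *
    generalize a (π n + R + 1) = a₁ at *
    generalize a (π (n + 1) + R) = a₂ at *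
    generalize a (n + R + 1) = a₀ at *
    have e : ((a₁ - a₀) * (s₂ - s₀) - (a₂ - a₀) * (s₁ - s₀)) * s₀ =
        (a₁ * s₀ - a₀ * s₁) * (s₂ - s₀) - (a₂ * s₀ - a₀ * s₂) * (s₁ - s₀) := by ring
    have k : |(a₁ - a₀) * (s₂ - s₀) - (a₂ - a₀) * (s₁ - s₀)| * s₀ ≤ 810 * G * σ := by
      rw [← abs_of_nonneg (show 0 ≤ s₀ by omega), ← abs_mul, abs_of_nonneg (show 0 ≤ s₀ by omega), e]
      refine (abs_sub _ _).trans ?_
      rw [abs_mul, abs_mul]
      have k1 := mul_le_mul f1 d2.2 (abs_nonneg _) (by omega)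
      have k2 := mul_le_mul f2 d1.2 (abs_nonneg _) (by omega)
      linarith
    have k' : |(a₁ - a₀) * (s₂ - s₀) - (a₂ - a₀) * (s₁ - s₀)| ≤ 810 * G :=
      le_of_mul_le_mul_right ((mul_le_mul_of_nonneg_left s1 (abs_nonneg _)).trans k) (by omega)
    have z := Int.eq_zero_of_abs_lt_dvd d (k'.trans_lt hR)
    have z' : (((a₁ - a₀) * (s₂ - s₀) - (a₂ - a₀) * (s₁ - s₀) : ℤ) : ℚ) = 0 := by exact_mod_cast z
    have n2 : ((s₂ - s₀ : ℤ) : ℚ) ≠ 0 := by exact_mod_cast d2.1
    refine mul_right_cancel₀ n2 ?_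
    push_cast at z' y2 ⊢
    linear_combination (s₁ - s₀ : ℚ) * y2 - z'
  have off : ∀ n, A ≤ n → n ≤ A + T →
      |(a (n + R) : ℚ) - y (n + R) * (a (n + R) + b (n + R))| ≤ 81 * σ := fun n h1 h2 => by
    have f1 := fu n h1 h2 0 (by omega)
    have d1 := (dl n h1 h2 R).1
    have y1 := hy n h1 h2
    simp only [add_zero] at f1
    have d2 : (1 : ℚ) ≤ |((a (π n + R) + b (π n + R) - (a (n + R) + b (n + R)) : ℤ) : ℚ)| := by
      exact_mod_cast Int.one_le_abs d1
    have f2 : |((a (π n + R) * (a (n + R) + b (n + R)) -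
      a (n + R) * (a (π n + R) + b (π n + R)) : ℤ) : ℚ)| ≤ 81 * σ := by exact_mod_cast f1
    refine (le_mul_of_one_le_right (abs_nonneg _) d2).trans ?_
    rw [← abs_mul, ← abs_neg]
    refine le_of_eq_of_le (congrArg _ ?_) f2
    push_cast at y1 ⊢
    linear_combination ((a (n + R) : ℚ) + b (n + R)) * y1
  have ex : ∀ n, A + R ≤ n → ∃ k, n = k + R := fun n hn => ⟨n - R, by omega⟩
  refine ⟨fun n h1 h2 => ?_, fun n h1 h2 c => ?_,
    fun n h1 h2 c => ?_, fun n h1 h2 => ?_, fun n h1 h2 => ?_⟩ <;> obtain ⟨n, rfl⟩ := ex n h1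
  · exact ⟨_, _, (dl n (by omega) (by omega) R).1, (dl n (by omega) (by omega) R).2,
      hy n (by omega) (by omega)⟩
  · obtain ⟨r1, r2⟩ := sm n (by omega) (by omega) R (by omega)
    obtain ⟨e1, e2⟩ := one' h c
    obtain ⟨e3, e4⟩ := one' h (r1.2 c)
    have y1 := hy n (by omega) (by omega)
    have y2 := par n (by omega) (by omega)
    have n1 : ((a (π n + R) + b (π n + R) - (a (n + R) + b (n + R)) : ℤ) : ℚ) ≠ 0 := by
      exact_mod_cast (dl n (by omega) (by omega) R).1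
    have e5 : a (π n + R + 1) + b (π n + R + 1) - (a (n + R + 1) + b (n + R + 1)) =
      a (π n + R) + b (π n + R) - (a (n + R) + b (n + R)) := by omega
    have e6 : ((2 * (a (π n + R + 1) - a (n + R + 1)) : ℤ) : ℚ) =
        ((3 * (a (π n + R) - a (n + R)) -
          (a (π n + R) + b (π n + R) - (a (n + R) + b (n + R))) : ℤ) : ℚ) := by
      congr 1
      omega
    rw [e5] at y2
    refine mul_right_cancel₀ n1 ?_
    push_cast at e6 y1 y2 ⊢
    linear_combination 2 * y2 - 3 * y1 + e6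
  · obtain ⟨r1, r2⟩ := sm n (by omega) (by omega) R (by omega)
    obtain ⟨e1, e2⟩ := two' h c
    obtain ⟨e3, e4⟩ := two' h fun c' => c (r1.1 c')
    have y1 := hy n (by omega) (by omega)
    have y2 := par n (by omega) (by omega)
    have n1 : ((a (π n + R) + b (π n + R) - (a (n + R) + b (n + R)) : ℤ) : ℚ) ≠ 0 := by
      exact_mod_cast (dl n (by omega) (by omega) R).1
    have e5 : a (π n + R + 1) + b (π n + R + 1) - (a (n + R + 1) + b (n + R + 1)) =
      a (π n + R) + b (π n + R) - (a (n + R) + b (n + R)) := by omega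
    have e6 : ((a (π n + R + 1) - a (n + R + 1) : ℤ) : ℚ) =
        ((3 * (a (π n + R) - a (n + R)) : ℤ) : ℚ) := by
      congr 1
      omega
    rw [e5] at y2
    refine mul_right_cancel₀ n1 ?_
    push_cast at e6 y1 y2 ⊢
    linear_combination y2 - 3 * y1 + e6
  · exact off n (by omega) (by omega)
  · have o := abs_le.1 (off n (by omega) (by omega))
    obtain ⟨i1, i2⟩ := h.inv (n + R)
    have s1 : (σ : ℚ) ≤ a (n + R) + b (n + R) := by
      exact_mod_cast (hs (n + R) (by omega) (by omega)).1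
    have s2 : (2 : ℚ) ≤ σ := by exact_mod_cast hσ
    have i3 : (-2 : ℚ) ≤ a (n + R) := by exact_mod_cast i1
    have i4 : (0 : ℚ) ≤ b (n + R) := by exact_mod_cast i2
    have s0 : (0 : ℚ) < a (n + R) + b (n + R) := by linarith
    exact abs_le.2 ⟨le_of_mul_le_mul_right (by linarith [o.2]) s0,
      le_of_mul_le_mul_right (by linarith [o.1]) s0⟩

end Pool.Agent.Lib.MP_e49cd5_nt.En
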