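import Pool.Agent.Lib.MP_e49cd5_nt.DnA

set_option autoImplicit false

namespace Pool.Agent.Lib.MP_e49cd5_nt.En

variable {a b : ℕ → ℤ}

theorem eq_of_close {x y : ℚ} {Z : ℕ} (hx : x.den ≤ Z) (hy : y.den ≤ Z)
    (h : |x - y| * (Z : ℚ) ^ 2 < 1) : x = y := by
  by_contra c
  have e : (x - y) * (x.den * y.den) = ((x.num * y.den - y.num * x.den : ℤ) : ℚ) := by
    push_cast
    linear_combination (y.den : ℚ) * x.mul_den_eq_num - (x.den : ℚ) * y.mul_den_eq_num
  have n1 : x.num * y.den - y.num * x.den ≠ 0 := fun k => by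
    rw [k, Int.cast_zero] at e
    exact mul_ne_zero (sub_ne_zero.2 c) (by positivity) e
  have n2 : (1 : ℚ) ≤ |((x.num * y.den - y.num * x.den : ℤ) : ℚ)| := by
    exact_mod_cast Int.one_le_abs n1
  rw [← e, abs_mul, abs_of_nonneg (by positivity : (0 : ℚ) ≤ x.den * y.den)] at n2
  have h1 : (x.den : ℚ) ≤ Z := by exact_mod_cast hx
  have h2 : (y.den : ℚ) ≤ Z := by exact_mod_cast hy
  have h3 : (x.den : ℚ) * y.den ≤ (Z : ℚ) ^ 2 := by
    rw [sq]
    exact mul_le_mul h1 h2 (by positivity) (by positivity)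
  have := mul_le_mul_of_nonneg_left h3 (abs_nonneg (x - y))
  linarith

theorem Line.mono {y : ℕ → ℚ} {A T A' T' : ℕ} {D : ℤ} {C : ℚ} (H : Line a b y A T D C)
    (h1 : A ≤ A') (h2 : A' + T' ≤ A + T) : Line a b y A' T' D C :=
  ⟨fun n _ _ => H.den n (by omega) (by omega), fun n _ _ => H.one n (by omega) (by omega),
    fun n _ _ => H.two n (by omega) (by omega), fun n _ _ => H.off n (by omega) (by omega),
    fun n _ _ => H.bdd n (by omega) (by omega)⟩

/-- After `E` steps on a line the slope has a denominator prime to three. -/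
theorem Line.three {y : ℕ → ℚ} {A E : ℕ} {D : ℤ} {C : ℚ} (H : Line a b y A E D C)
    (hE : D < 3 ^ E) : ∃ q k : ℤ, IsCoprime 3 q ∧ q * y (A + E) = k := by
  obtain ⟨K, Q, q0, q1, e⟩ := H.den A le_rfl (by omega)
  obtain ⟨j, q, h1, h2⟩ := WfDvdMonoid.max_power_factor q0 Int.prime_three.irreducible
  have fw : ∀ i ≤ E, ∃ c z : ℤ, 2 ^ i * y (A + i) = c * 3 ^ i * y A + z := fun i hi => by
    induction i with
    | zero => exact ⟨1, 0, by simp⟩
    | succ i ih =>
      obtain ⟨c, z, hk⟩ := ih (by omega)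
      rw [← add_assoc, pow_succ, pow_succ]
      by_cases d : b (A + i) / 2 < a (A + i)
      · refine ⟨c, 3 * z - 2 ^ i, ?_⟩
        push_cast
        linear_combination 3 * hk + 2 ^ i * H.one _ (by omega) (by omega) d
      · refine ⟨2 * c, 6 * z, ?_⟩
        push_cast
        linear_combination 6 * hk + 2 * 2 ^ i * H.two _ (by omega) (by omega) d
  have hj : j ≤ E := by
    have h3 : (3 : ℤ) ^ j ≤ |Q| := Int.le_of_dvd (abs_pos.2 q0) ((dvd_abs _ _).2 ⟨q, h2⟩)
    exact ((pow_lt_pow_iff_right₀ (by norm_num : (1 : ℤ) < 3)).1 ((h3.trans q1).trans_lt hE)).le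
  obtain ⟨d, rfl⟩ := Nat.exists_eq_add_of_le hj
  obtain ⟨c, z, hk⟩ := fw _ le_rfl
  refine ⟨q * 2 ^ (j + d), c * 3 ^ d * K + z * q,
    (Int.prime_three.coprime_iff_not_dvd.2 h1).mul_right
      (IsCoprime.pow_right (by norm_num [Int.isCoprime_iff_gcd_eq_one])), ?_⟩
  rw [h2] at e
  rw [pow_add 3] at hk
  push_cast at e ⊢
  linear_combination q * hk + c * 3 ^ d * e

/-- Two times on lines with the same letters before and the same rules after differ in level by a
multiple of the denominator of the slope. -/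
theorem Line.key (h : Orb a b) {y : ℕ → ℚ} {A A' E R L Z : ℕ} {D : ℤ}
    (H : Line a b y A (E + R + L) D 827) (H' : Line a b y A' (E + R + L) D 827) (hE : D < 3 ^ E)
    (z : (y (A + E + R)).den ≤ Z) (z' : (y (A' + E + R)).den ≤ Z)
    (hL : 2 ^ L * (164 * Z ^ 2) < 3 ^ L) (hR : 1654 * Z < 3 ^ R)
    (hr : ∀ i < R + L, (b (A + E + i) / 2 < a (A + E + i) ↔ b (A' + E + i) / 2 < a (A' + E + i)))
    (hp : ∀ i < R, b (A + E + i) % 2 = b (A' + E + i) % 2) :
    ((y (A + E + R)).den : ℤ) ∣
      a (A + E + R) + b (A + E + R) - (a (A' + E + R) + b (A' + E + R)) := by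
  obtain ⟨q, k0, q1, q2⟩ := (H.mono (A' := A) (T' := E) le_rfl (by omega)).three hE
  replace H := H.mono (A' := A + E) (T' := R + L) (by omega) (by omega)
  replace H' := H'.mono (A' := A' + E) (T' := R + L) (by omega) (by omega)
  generalize A + E = p at *
  generalize A' + E = p' at *
  have e0 : y (p + R) = y (p' + R) := by
    have h1 := expand (fun i => |y (p + R + i) - y (p' + R + i)|) 0 L fun i hi => by
      have c0 := hr (R + i) (by omega)
      simp only [← add_assoc] at c0 ⊢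
      by_cases c : b (p + R + i) / 2 < a (p + R + i)
      · have e1 := H.one _ (by omega) (by omega) c
        have e2 := H'.one _ (by omega) (by omega) (c0.1 c)
        rw [show y (p + R + i + 1) - y (p' + R + i + 1) =
          3 / 2 * (y (p + R + i) - y (p' + R + i)) by linarith, abs_mul,
          abs_of_pos (by norm_num : (0 : ℚ) < 3 / 2)]
        linarith
      · have e1 := H.two _ (by omega) (by omega) c
        have e2 := H'.two _ (by omega) (by omega) fun c' => c (c0.2 c')
        rw [show y (p + R + i + 1) - y (p' + R + i + 1) =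
          3 * (y (p + R + i) - y (p' + R + i)) by linarith, abs_mul,
          abs_of_pos (by norm_num : (0 : ℚ) < 3)]
        linarith [abs_nonneg (y (p + R + i) - y (p' + R + i))]
    have h2 : |y (p + R + L) - y (p' + R + L)| ≤ 164 :=
      (abs_sub _ _).trans (by
        linarith [H.bdd (p + R + L) (by omega) (by omega), H'.bdd (p' + R + L) (by omega) (by omega)])
    have h3 : (2 : ℚ) ^ L * (164 * (Z : ℚ) ^ 2) < 3 ^ L := by exact_mod_cast hL
    simp only [add_zero, sub_zero] at h1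
    refine eq_of_close z z' (lt_of_mul_lt_mul_left (a := (3 : ℚ) ^ L) ?_ (by positivity))
    have h4 := mul_le_mul_of_nonneg_left h2 (by positivity : (0 : ℚ) ≤ 2 ^ L)
    have h5 := mul_le_mul_of_nonneg_right (h1.trans h4) (by positivity : (0 : ℚ) ≤ (Z : ℚ) ^ 2)
    linarith
  obtain ⟨Q, hQ⟩ : ∃ Q : ℕ, Q = (y (p + R)).den := ⟨_, rfl⟩
  have eQ : (Q : ℚ) * y (p + R) = (y (p + R)).num := by rw [hQ, mul_comm, Rat.mul_den_eq_num]
  have bw : ∀ j i, i + j = R → ∃ k : ℤ, 3 ^ j * (Q * y (p + i)) = k := fun j => by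
    induction j with
    | zero =>
      intro i hi
      obtain rfl : i = R := hi
      exact ⟨_, by rw [pow_zero, one_mul, eQ]⟩
    | succ j ih =>
      intro i hi
      obtain ⟨k, hk⟩ := ih (i + 1) (by omega)
      rw [← add_assoc] at hk
      rw [pow_succ]
      by_cases c : b (p + i) / 2 < a (p + i)
      · refine ⟨2 * k + 3 ^ j * Q, ?_⟩
        push_cast
        linear_combination 2 * hk - 3 ^ j * Q * H.one _ (by omega) (by omega) c
      · refine ⟨k, ?_⟩
        linear_combination hk - 3 ^ j * Q * H.two _ (by omega) (by omega) c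
  obtain ⟨k1, h1⟩ := bw R 0 (zero_add R)
  obtain ⟨u, v, huv⟩ : IsCoprime ((3 : ℤ) ^ R) q := q1.pow_left
  have h3 : (u : ℚ) * 3 ^ R + v * q = 1 := by exact_mod_cast huv
  have fw : ∀ i ≤ R, ∃ k : ℤ, 2 ^ i * (Q * ((a (p + i) : ℚ) - a (p' + i) -
      y (p + i) * (a (p + i) + b (p + i) - (a (p' + i) + b (p' + i))))) = 3 ^ i * k :=
    fun i hi => by
    induction i with
    | zero =>
      refine ⟨Q * (a p - a p') - (u * k1 + v * Q * k0) * (a p + b p - (a p' + b p')), ?_⟩
      simp only [add_zero] at h1 ⊢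
      push_cast
      linear_combination -((a p : ℚ) + b p - (a p' + b p')) * (u * h1 + v * Q * q2 - Q * y p * h3)
    | succ i ih =>
      obtain ⟨k, hk⟩ := ih (by omega)
      have c0 := hr i (by omega)
      have c1 := hp i (by omega)
      simp only [← add_assoc, pow_succ]
      by_cases c : b (p + i) / 2 < a (p + i)
      · obtain ⟨e1, e2⟩ := one' h c
        obtain ⟨e3, e4⟩ := one' h (c0.1 c)
        have e5 : ((a (p + i + 1) + b (p + i + 1) - (a (p' + i + 1) + b (p' + i + 1)) : ℤ) : ℚ) =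
            ((a (p + i) + b (p + i) - (a (p' + i) + b (p' + i)) : ℤ) : ℚ) := by
          congr 1
          omega
        have e6 : ((2 * (a (p + i + 1) - a (p' + i + 1)) : ℤ) : ℚ) =
            ((3 * (a (p + i) - a (p' + i)) -
              (a (p + i) + b (p + i) - (a (p' + i) + b (p' + i))) : ℤ) : ℚ) := by
          congr 1
          omega
        have e7 := H.one _ (by omega) (by omega) c
        refine ⟨k, ?_⟩
        push_cast at e5 e6
        rw [e5]
        linear_combination 3 * hk + 2 ^ i * Q * e6 -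
          2 ^ i * Q * ((a (p + i) : ℚ) + b (p + i) - (a (p' + i) + b (p' + i))) * e7
      · obtain ⟨e1, e2⟩ := two' h c
        obtain ⟨e3, e4⟩ := two' h fun c' => c (c0.2 c')
        have e5 : ((a (p + i + 1) + b (p + i + 1) - (a (p' + i + 1) + b (p' + i + 1)) : ℤ) : ℚ) =
            ((a (p + i) + b (p + i) - (a (p' + i) + b (p' + i)) : ℤ) : ℚ) := by
          congr 1
          omega
        have e6 : ((a (p + i + 1) - a (p' + i + 1) : ℤ) : ℚ) =
            ((3 * (a (p + i) - a (p' + i)) : ℤ) : ℚ) := by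
          congr 1
          omega
        have e7 := H.two _ (by omega) (by omega) c
        refine ⟨2 * k, ?_⟩
        push_cast at e5 e6 ⊢
        rw [e5]
        linear_combination 6 * hk + 2 * 2 ^ i * Q * e6 -
          2 * 2 ^ i * Q * ((a (p + i) : ℚ) + b (p + i) - (a (p' + i) + b (p' + i))) * e7
  obtain ⟨k, hk⟩ := fw R le_rfl
  obtain ⟨V, hV⟩ : ∃ V : ℤ, V = Q * (a (p + R) - a (p' + R)) -
    (y (p + R)).num * (a (p + R) + b (p + R) - (a (p' + R) + b (p' + R))) := ⟨_, rfl⟩
  have eV : (Q : ℚ) * ((a (p + R) : ℚ) - a (p' + R) -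
      y (p + R) * (a (p + R) + b (p + R) - (a (p' + R) + b (p' + R)))) = V := by
    rw [hV]
    push_cast
    linear_combination -((a (p + R) : ℚ) + b (p + R) - (a (p' + R) + b (p' + R))) * eQ
  have d1 : (3 : ℤ) ^ R ∣ V := by
    rw [eV] at hk
    refine (IsCoprime.pow (m := R) (n := R) (by norm_num [Int.isCoprime_iff_gcd_eq_one] :
      IsCoprime (3 : ℤ) 2)).dvd_of_dvd_mul_left ⟨k, ?_⟩
    exact_mod_cast hk
  have d2 : |V| < 3 ^ R := by
    have o := abs_le.1 (H.off (p + R) (by omega) (by omega))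
    have o' := abs_le.1 (H'.off (p' + R) (by omega) (by omega))
    rw [← e0] at o'
    have o2 : |(a (p + R) : ℚ) - a (p' + R) -
        y (p + R) * (a (p + R) + b (p + R) - (a (p' + R) + b (p' + R)))| ≤ 1654 :=
      abs_le.2 ⟨by linarith [o.1, o'.2], by linarith [o.2, o'.1]⟩
    have o3 : (Q : ℚ) ≤ Z := by exact_mod_cast hQ ▸ z
    have o4 := mul_le_mul o3 o2 (abs_nonneg _) (by positivity)
    have o5 : (1654 : ℚ) * Z < 3 ^ R := by exact_mod_cast hR
    rw [← abs_of_nonneg (by positivity : (0 : ℚ) ≤ Q), ← abs_mul, eV] at o4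
    have o6 : |(V : ℚ)| < 3 ^ R := by linarith
    exact_mod_cast o6
  have d3 := Int.eq_zero_of_abs_lt_dvd d1 d2
  rw [← hQ]
  refine IsCoprime.dvd_of_dvd_mul_left (y := (y (p + R)).num) ?_ ⟨a (p + R) - a (p' + R), by omega⟩
  rw [hQ]
  exact (Rat.isCoprime_num_den _).symm

end Pool.Agent.Lib.MP_e49cd5_nt.En
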