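import Pool.Agent.Lib.MP_e49cd5_nt.DnB

set_option autoImplicit false

namespace Pool.Agent.Lib.MP_e49cd5_nt.En

open Finset

variable {a b : ℕ → ℤ}

/-- The words of `r` on the windows of radius `M` around the times of `C` fall into at most `P`
classes. -/
def Win (r : ℕ → Prop) (C : Finset ℕ) (M P : ℕ) : Prop :=
  ∃ f : ℕ → Fin P, ∀ t ∈ C, ∀ t' ∈ C, f t = f t' →
    ∀ n n', t ≤ n + M → n < t + M → n + t' = n' + t → (r n ↔ r n')

theorem spaced {F : Finset ℕ} {s : ℕ → ℤ} {σ : ℤ} {X : ℕ} (hX : 0 < X) (hσ : 0 ≤ σ)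
    (hs : ∀ t ∈ F, σ ≤ s t ∧ s t ≤ 2 * σ)
    (h : ∀ t ∈ F, ∀ t' ∈ F, |s t - s t'| < X → t = t') : (F.card : ℤ) * X ≤ σ + X := by
  have hX' : (0 : ℤ) < X := by exact_mod_cast hX
  have h1 := card_le_card_of_injOn (s := F) (t := Icc 0 (σ / X)) (fun t => (s t - σ) / X)
    (fun t ht => by
      have := hs t ht
      exact mem_coe.2 (mem_Icc.2 ⟨Int.ediv_nonneg (by omega) hX'.le,
        Int.ediv_le_ediv hX' (by omega)⟩))
    fun t ht t' ht' e => h t ht t' ht' (by
      have a1 := Int.mul_ediv_add_emod (s t - σ) X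
      have a2 := Int.mul_ediv_add_emod (s t' - σ) X
      have a3 := Int.emod_nonneg (s t - σ) hX'.ne'
      have a4 := Int.emod_nonneg (s t' - σ) hX'.ne'
      have a5 := Int.emod_lt_of_pos (s t - σ) hX'
      have a6 := Int.emod_lt_of_pos (s t' - σ) hX'
      beta_reduce at e
      rw [e] at a1
      exact abs_lt.2 ⟨by omega, by omega⟩)
  rw [Int.card_Icc] at h1
  have h2 := Int.ediv_nonneg hσ hX'.le
  have h3 : (F.card : ℤ) ≤ σ / X + 1 := by omega
  have h4 := Int.ediv_mul_le σ hX'.ne'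
  have h5 := mul_le_mul_of_nonneg_right h3 hX'.le
  linarith

theorem div_close {t t' G : ℕ} (hG : 0 < G) (e : t / G = t' / G) : t < t' + G := by
  have a1 := Nat.div_add_mod t G
  have a2 := Nat.div_add_mod t' G
  have a3 := Nat.mod_lt t hG
  rw [e] at a1
  omega

theorem small (h : Orb a b)
    (np : ∀ l n₀ : ℕ, 0 < l → ∃ n, n₀ ≤ n ∧ ¬(b (n + l) / 2 < a (n + l) ↔ b n / 2 < a n))
    {y : ℕ → ℚ} {F : Finset ℕ} {T Z N : ℕ} {D σ : ℤ} (hD : 2481 * D < σ) (hT : 0 < T)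
    (hF : ∀ t ∈ F, t ≤ N ∧ (y t).den ≤ Z ∧ Line a b y t T D 827 ∧
      ∀ n, t ≤ n → n ≤ t + T → σ ≤ a n + b n) :
    F.card ≤ (N / T + 1) * ((Z + 1) * ((164 * Z + 1) * (1654 * Z + 1))) := by
  have ec : ∀ t, ((a t : ℚ) - y t * (a t + b t)) * (y t).den =
      (((y t).den * a t - (y t).num * (a t + b t) : ℤ) : ℚ) := fun t => by
    push_cast
    linear_combination -((a t : ℚ) + b t) * (y t).mul_den_eq_num
  have key : ∀ t ∈ F, ∀ t' ∈ F, t < t' → t / T = t' / T → y t = y t' →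
      (y t).den * a t - (y t).num * (a t + b t) = (y t').den * a t' - (y t').num * (a t' + b t') →
      False := fun t ht t' _ c e1 e2 e3 => by
    obtain ⟨l, rfl⟩ := Nat.exists_eq_add_of_le c.le
    have := div_close hT e1.symm
    obtain ⟨n, n1, n2⟩ := np l t (by omega)
    refine n2 ((hF t ht).2.2.1.per h (hF t ht).2.2.2 hD le_rfl (by omega) (by omega) e2.symm ?_ n n1)
    refine mul_right_cancel₀ (b := ((y (t + l)).den : ℚ)) (by positivity) ?_
    rw [ec, ← e3, ← ec, e2]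
  refine (card_le_card_of_injOn (t := range (N / T + 1) ×ˢ range (Z + 1) ×ˢ
    Icc (-(82 * Z : ℤ)) (82 * Z) ×ˢ Icc (-(827 * Z : ℤ)) (827 * Z))
    (fun t => (t / T, (y t).den, (y t).num, (y t).den * a t - (y t).num * (a t + b t)))
    (fun t ht => ?_) fun t ht t' ht' e => ?_).trans_eq ?_
  · obtain ⟨f1, f2, f3, -⟩ := hF t ht
    have q2 : |((y t).den : ℚ)| ≤ Z := by
      rw [abs_of_nonneg (by positivity)]
      exact_mod_cast f2
    simp only [coe_product, Set.mem_prod, mem_coe, mem_Icc, mem_range, ← abs_le]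
    refine ⟨Nat.lt_succ_of_le (Nat.div_le_div_right f1), by omega, ?_, ?_⟩
    · have := mul_le_mul (f3.bdd t le_rfl (by omega)) q2 (abs_nonneg _) (by norm_num)
      rw [← abs_mul, Rat.mul_den_eq_num] at this
      exact_mod_cast this
    · have := mul_le_mul (f3.off t le_rfl (by omega)) q2 (abs_nonneg _) (by norm_num)
      rw [← abs_mul, ec] at this
      exact_mod_cast this
  · simp only [Prod.mk.injEq] at e
    obtain ⟨e1, e2, e3, e4⟩ := e
    have e5 : y t = y t' := Rat.ext e3 e2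
    rcases lt_trichotomy t t' with c | c | c
    · exact (key t ht t' ht' c e1 e5 e4).elim
    · exact c
    · exact (key t' ht' t ht c e1.symm e5.symm e4.symm).elim
  · rw [card_product, card_product, card_product, Int.card_Icc, Int.card_Icc, card_range,
      card_range]
    congr 3 <;> omega

theorem par_eq {n n' R : ℕ} (e : (fun i : Fin R => decide (b (n + i) % 2 = 0)) =
    fun i : Fin R => decide (b (n' + i) % 2 = 0)) (i : ℕ) (hi : i < R) :
    b (n + i) % 2 = b (n' + i) % 2 := by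
  have := decide_eq_decide.1 (congrFun e ⟨i, hi⟩)
  simp only at this
  omega

theorem lonely {C F : Finset ℕ} {M P G R L V S N : ℕ} (hFC : F ⊆ C)
    (hW : Win (fun n => b n / 2 < a n) C M P) (hG : 0 < G) (h1 : V ≤ M)
    (h2 : S + R + L + 1 ≤ V + M)
    (hF : ∀ t ∈ F, t ≤ N ∧ ∃ n, t ≤ n + V ∧ n + V ≤ t + S ∧ ¬∃ m, Mate a b G R L n m) :
    F.card ≤ (S + 1) * (P * (2 ^ (R + 1) * (N / G + 1))) := by
  obtain ⟨f, hf⟩ := hW
  choose! f1 ν n1 n2 n3 using hF
  refine (card_le_card_of_injOn (t := range (S + 1) ×ˢ (univ : Finset (Fin P)) ×ˢ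
    (univ : Finset (Fin (R + 1) → Bool)) ×ˢ range (N / G + 1))
    (fun t => (ν t + V - t, f t, fun i => decide (b (ν t + i) % 2 = 0), t / G))
    (fun t ht => ?_) fun t ht t' ht' e => ?_).trans_eq (by simp)
  · have := n2 t ht
    simp only [coe_product, Set.mem_prod, mem_coe, mem_range, mem_univ, true_and]
    exact ⟨by omega, Nat.lt_succ_of_le (Nat.div_le_div_right (f1 t ht))⟩
  · simp only [Prod.mk.injEq] at e
    obtain ⟨e1, e2, e3, e4⟩ := e
    have a1 := n1 t ht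
    have a2 := n1 t' ht'
    have a3 := n2 t ht
    have a4 := div_close hG e4
    have a5 := div_close hG e4.symm
    by_contra c
    exact n3 t ht ⟨ν t', by omega, by omega, by omega,
      fun i hi => (hf t (hFC ht) t' (hFC ht') e2 _ _ (by omega) (by omega) (by omega)).symm,
      fun i hi => (par_eq e3 i hi).symm⟩

theorem large (h : Orb a b) {y : ℕ → ℚ} {C F : Finset ℕ} {M P E R L X Z : ℕ} {D σ : ℤ}
    (hFC : F ⊆ C) (hW : Win (fun n => b n / 2 < a n) C M P) (h1 : R ≤ M) (h2 : L ≤ M)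
    (hE : D < 3 ^ E) (hL : 2 ^ L * (164 * Z ^ 2) < 3 ^ L) (hR : 1654 * Z < 3 ^ R) (hX : 0 < X)
    (hσ : 0 ≤ σ)
    (hF : ∀ t ∈ F, (∃ A, t = A + E + R ∧ Line a b y A (E + R + L) D 827) ∧ X ≤ (y t).den ∧
      (y t).den ≤ Z ∧ σ ≤ a t + b t ∧ a t + b t ≤ 2 * σ) :
    (F.card : ℤ) * X ≤ P * 2 ^ R * (σ + X) := by
  classical
  obtain ⟨f, hf⟩ := hW
  rw [card_eq_sum_card_fiberwise (t := (univ : Finset (Fin P × (Fin R → Bool))))
    (f := fun t => (f t, fun i : Fin R => decide (b (t - R + i) % 2 = 0))) fun _ _ => mem_univ _]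
  push_cast
  rw [sum_mul]
  refine (sum_le_card_nsmul _ _ (σ + X) fun κ _ => spaced (s := fun t => a t + b t) hX hσ
    (fun t ht => (hF t (mem_filter.1 ht).1).2.2.2) fun t ht t' ht' c => ?_).trans_eq (by simp)
  obtain ⟨ht, e1⟩ := mem_filter.1 ht
  obtain ⟨ht', e2⟩ := mem_filter.1 ht'
  obtain ⟨e3, e4⟩ := Prod.ext_iff.1 (e1.trans e2.symm)
  obtain ⟨⟨A, rfl, H⟩, x1, z1, -⟩ := hF t ht
  obtain ⟨⟨A', rfl, H'⟩, -, z2, -⟩ := hF t' ht'
  simp only [Nat.add_sub_cancel] at e3 e4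
  have d := H.key h H' hE z1 z2 hL hR
    (fun i hi => hf _ (hFC ht) _ (hFC ht') e3 _ _ (by omega) (by omega) (by omega)) (par_eq e4)
  have d0 := Int.eq_zero_of_abs_lt_dvd d (c.trans_le (by exact_mod_cast x1))
  by_contra ne
  exact (dist_le h (G := A + E + R + (A' + E + R) + 1) ne (by omega) (by omega)).1 d0

end Pool.Agent.Lib.MP_e49cd5_nt.En
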