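import Pool.Agent.Lib.MP_e49cd5_nt.DnC

set_option autoImplicit false

namespace Pool.Agent.Lib.MP_e49cd5_nt.En

open Finset

variable {a b : ℕ → ℤ}

theorem pw_lt {c d x y : ℕ} (h1 : c < d) (h2 : x ≤ y) (h3 : 0 < y) (j : ℕ) :
    c * x ^ j < d * y ^ j :=
  Nat.mul_lt_mul_of_lt_of_le h1 (Nat.pow_le_pow_left h2 j) (by positivity)

theorem sq_le_pow (u : ℕ) (hu : 6 ≤ u) : (u + 1) * (u + 1) ≤ 2 ^ u := by
  induction u, hu using Nat.le_induction with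
  | base => norm_num
  | succ u hu ih =>
    rw [pow_succ 2 u]
    nlinarith

theorem Line.den_le {y : ℕ → ℚ} {A T : ℕ} {D : ℤ} {C : ℚ} (H : Line a b y A T D C) {n : ℕ}
    (h1 : A ≤ n) (h2 : n ≤ A + T) : ((y n).den : ℤ) ≤ D := by
  obtain ⟨K, Q, q0, q1, e⟩ := H.den n h1 h2
  have e1 : y n = Rat.divInt K Q := by
    rw [Rat.divInt_eq_div, eq_div_iff (Int.cast_ne_zero.2 q0), e]
  exact (Int.le_of_dvd (abs_pos.2 q0) ((dvd_abs _ _).2 (e1 ▸ Rat.den_dvd K Q))).trans q1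

theorem div_succ {N G : ℕ} {σ : ℤ} (h1 : (N : ℤ) ≤ σ) (h2 : (G : ℤ) ≤ σ) :
    ((N / G + 1 : ℕ) : ℤ) * G ≤ 2 * σ := by
  have := Nat.div_mul_le_self N G
  have h3 : (N / G + 1) * G ≤ N + G := by rw [add_mul, one_mul]; omega
  have h4 : (((N / G + 1) * G : ℕ) : ℤ) ≤ ((N + G : ℕ) : ℤ) := by exact_mod_cast h3
  push_cast at h4 ⊢
  linarith

theorem scale_num {c A X σ : ℤ} (hc : 0 ≤ c) (hA : 0 ≤ A) (x1 : 1 ≤ X)
    (h1 : c * X ^ 30 ≤ A * (16 * X ^ 2) * (2 ^ 27 * X ^ 20) * (σ + X ^ 30)) (h2 : X ^ 30 ≤ σ) :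
    c * X ≤ A * 2 ^ 32 * σ := by
  have x0 : 0 < X := by omega
  have h3 : c * X ^ 23 ≤ c * X ^ 30 :=
    mul_le_mul_of_nonneg_left (pow_le_pow_right₀ x1 (by norm_num)) hc
  have h5 : 0 ≤ A * (16 * X ^ 2) * (2 ^ 27 * X ^ 20) :=
    mul_nonneg (mul_nonneg hA (mul_nonneg (by norm_num) (pow_pos x0 _).le))
      (mul_nonneg (by norm_num) (pow_pos x0 _).le)
  have h4 := mul_le_mul_of_nonneg_left (show σ + X ^ 30 ≤ 2 * σ by omega) h5
  have h6 := h3.trans (h1.trans h4)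
  refine le_of_mul_le_mul_right ?_ (pow_pos x0 22)
  linear_combination h6

/-- The times of one scale of denominators. -/
theorem scale (h : Orb a b) {y : ℕ → ℚ} {C F : Finset ℕ} {A u j : ℕ} {σ : ℤ} (hFC : F ⊆ C)
    (hW : Win (fun n => b n / 2 < a n) C (120 * (j + 2)) (A * 4 ^ (j + 2))) (hj : 2 * j ≤ u)
    (hσ : 2 ^ (20 * u) ≤ σ)
    (hF : ∀ t ∈ F, (∃ p, t = p + (20 * u + 29) ∧
      Line a b y p (20 * u + 29 + (60 * u + 133)) (5 * (2 ^ (15 * u) : ℕ)) 827) ∧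
      (2 ^ 30) ^ j ≤ (y t).den ∧ (y t).den ≤ (2 ^ 30) ^ (j + 1) ∧
      σ ≤ a t + b t ∧ a t + b t ≤ 2 * σ) :
    (F.card : ℤ) * 2 ^ j ≤ A * 2 ^ 32 * σ := by
  obtain ⟨E, hE⟩ : ∃ E, 20 * u + 29 = E + (20 * j + 27) := ⟨20 * u + 29 - (20 * j + 27), by omega⟩
  have s0 : (0 : ℤ) < σ := lt_of_lt_of_le (by positivity) hσ
  have h1 := large h (y := y) (E := E) (R := 20 * j + 27) (L := 120 * j + 133) (X := (2 ^ 30) ^ j)
    (Z := (2 ^ 30) ^ (j + 1)) (D := 5 * (2 ^ (15 * u) : ℕ)) (σ := σ) hFC hW (by omega) (by omega)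
    (by
      have k := pw_lt (show 5 < 9 by norm_num) (show 2 ^ 15 ≤ 3 ^ 10 by norm_num) (by norm_num) u
      rw [← pow_mul, ← pow_mul, show 9 = 3 ^ 2 from rfl, ← pow_add] at k
      exact_mod_cast k.trans_le (Nat.pow_le_pow_right (by norm_num) (by omega)))
    (by
      have k := pw_lt (show 164 * 2 ^ 193 < 3 ^ 133 by norm_num)
        (show 2 ^ 180 ≤ 3 ^ 120 by norm_num) (by norm_num) j
      rw [← pow_mul, ← pow_mul, ← pow_add, add_comm] at k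
      refine lt_of_eq_of_lt ?_ k
      rw [← pow_mul, ← pow_mul, mul_left_comm, ← pow_add, mul_assoc, ← pow_add]
      congr 2
      omega)
    (by
      have k := pw_lt (show 1654 * 2 ^ 30 < 3 ^ 27 by norm_num)
        (show 2 ^ 30 ≤ 3 ^ 20 by norm_num) (by norm_num) j
      rw [← pow_mul 3, ← pow_add, add_comm] at k
      rwa [pow_succ', ← mul_assoc])
    (by positivity) s0.le fun t ht => by
      obtain ⟨⟨p, rfl, H⟩, f2⟩ := hF t ht
      exact ⟨⟨p, by omega, H.mono le_rfl (by omega)⟩, f2⟩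
  have h2 : (((2 ^ 30) ^ j : ℕ) : ℤ) ≤ σ := by
    refine le_trans ?_ hσ
    rw [← pow_mul]
    exact_mod_cast Nat.pow_le_pow_right (by norm_num) (by omega)
  push_cast at h1 h2
  obtain ⟨X, hX⟩ : ∃ X : ℤ, X = 2 ^ j := ⟨_, rfl⟩
  have x1 : 1 ≤ X := hX ▸ one_le_pow₀ (by norm_num)
  have e1 : (1073741824 : ℤ) ^ j = X ^ 30 := by rw [hX, ← pow_mul, mul_comm, pow_mul]; norm_num
  have e2 : (4 : ℤ) ^ (j + 2) = 16 * X ^ 2 := by
    rw [hX, ← pow_mul, mul_comm j, pow_mul, pow_add]; norm_num [mul_comm]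
  have e3 : (2 : ℤ) ^ (20 * j + 27) = 2 ^ 27 * X ^ 20 := by
    rw [hX, ← pow_mul, mul_comm j, pow_add, mul_comm]
  rw [e1, e2, e3] at h1
  rw [e1] at h2
  rw [← hX]
  exact scale_num (Int.natCast_nonneg _) (Int.natCast_nonneg _) x1 h1 h2

/-- Times whose windows have few words at all scales are rare. -/
theorem core (h : Orb a b)
    (np : ∀ l n₀ : ℕ, 0 < l → ∃ n, n₀ ≤ n ∧ ¬(b (n + l) / 2 < a (n + l) ↔ b n / 2 < a n))
    (A : ℕ) : ∃ u₀ : ℕ, ∀ (u N₁ N : ℕ) (σ : ℤ) (C : Finset ℕ), u₀ ≤ u → 2 ^ (20 * u) ≤ σ →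
      σ < 2 ^ (20 * u + 20) → (N : ℤ) ≤ σ →
      (∀ n, N₁ ≤ n → n ≤ N → σ ≤ a n + b n ∧ a n + b n ≤ 2 * σ) →
      (∀ t ∈ C, N₁ + 2 ^ (15 * u) + 240 * u ≤ t ∧ t + 2 ^ (15 * u) + 240 * u ≤ N) →
      (∀ v ≤ 2 * u, Win (fun n => b n / 2 < a n) C (120 * v) (A * 4 ^ v)) →
      100 * (C.card : ℤ) ≤ σ := by
  classical
  obtain ⟨J, hJ⟩ : ∃ J, J = A + 42 := ⟨_, rfl⟩
  obtain ⟨Z, hZ⟩ : ∃ Z, Z = (2 ^ 30) ^ J := ⟨_, rfl⟩
  obtain ⟨Φ, hΦ⟩ : ∃ Φ, Φ = (Z + 1) * ((164 * Z + 1) * (1654 * Z + 1)) := ⟨_, rfl⟩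
  refine ⟨10 * Φ + 2 ^ 25 * A + 6, fun u N₁ N σ C hu s1 s2 s3 hs hC hW => ?_⟩
  obtain ⟨G, hG⟩ : ∃ G : ℕ, G = 2 ^ (15 * u) := ⟨_, rfl⟩
  have g0 : 0 < G := by rw [hG]; positivity
  have g1 : u + 1 ≤ 2 ^ u := Nat.lt_two_pow_self
  have g2 : (2 ^ 14 * G : ℤ) ≤ σ := by
    refine le_trans ?_ s1
    rw [hG, Nat.cast_pow, Nat.cast_ofNat, ← pow_add]
    exact pow_le_pow_right₀ (by norm_num) (by omega)
  have g3 : 2 ^ u ≤ G := hG ▸ Nat.pow_le_pow_right (by norm_num) (by omega)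
  have hL : (2 : ℤ) ^ (40 * u + 54) * (81 * σ) ≤ 3 ^ (40 * u + 54) := by
    have k := pw_lt (show 81 * 2 ^ 74 < 3 ^ 54 by norm_num)
      (show 2 ^ 60 ≤ 3 ^ 40 by norm_num) (by norm_num) u
    rw [← pow_mul, ← pow_mul, ← pow_add, add_comm] at k
    have k' : (81 * 2 ^ 74 * 2 ^ (60 * u) : ℤ) < 3 ^ (40 * u + 54) := by exact_mod_cast k
    refine (mul_le_mul_of_nonneg_left (mul_le_mul_of_nonneg_left s2.le (by norm_num))
      (by positivity)).trans (le_of_eq_of_le ?_ k'.le)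
    rw [mul_left_comm, ← pow_add, mul_assoc, ← pow_add]
    congr 2
    omega
  obtain ⟨y, hy⟩ := mates h σ (by omega) G (10 * u + 7) (40 * u + 54) (by
    have k := pw_lt (show 810 < 3 ^ 7 by norm_num)
      (show 2 ^ 15 ≤ 3 ^ 10 by norm_num) (by norm_num) u
    rw [← pow_mul, ← pow_mul, ← pow_add, add_comm, ← hG] at k
    exact_mod_cast k) hL
  rw [← hG] at hC
  obtain ⟨F₁, f1⟩ : ∃ F : Finset ℕ, ∀ t, t ∈ F ↔ t ∈ C ∧ ∃ n, t ≤ n + (30 * u + 36) ∧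
      n + (30 * u + 36) ≤ t + (120 * u + 216) ∧ ¬∃ m, Mate a b G (10 * u + 7) (40 * u + 54) n m :=
    ⟨C.filter _, fun _ => mem_filter⟩
  have ln : ∀ t ∈ C, t ∉ F₁ → ∃ p, t = p + (20 * u + 29) ∧
      Line a b y p (20 * u + 29 + (60 * u + 133)) (5 * G) 827 := fun t ht hn => by
    obtain ⟨c1, c2⟩ := hC t ht
    obtain ⟨p, rfl⟩ : ∃ p, t = p + (30 * u + 36) := ⟨t - (30 * u + 36), by omega⟩
    refine ⟨p + (10 * u + 7), by omega, Line.sharp h (L := 40 * u + 54) (C := 81 * σ) ?_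
      (by exact_mod_cast hL)⟩
    exact hy p _ (fun n n1 n2 => hs n (by omega) (by omega)) fun n n1 n2 =>
      by_contra fun c => hn ((f1 _).2 ⟨ht, n, by omega, by omega, c⟩)
  obtain ⟨F₂, f2⟩ : ∃ F : Finset ℕ, ∀ t, t ∈ F ↔ t ∈ C ∧ t ∉ F₁ ∧ (y t).den ≤ Z :=
    ⟨C.filter _, fun _ => mem_filter⟩
  obtain ⟨F₃, f3⟩ : ∃ F : ℕ → Finset ℕ, ∀ i t, t ∈ F i ↔ t ∈ C ∧ t ∉ F₁ ∧ 2 * (J + i) ≤ u ∧
      (2 ^ 30) ^ (J + i) ≤ (y t).den ∧ (y t).den ≤ (2 ^ 30) ^ (J + i + 1) :=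
    ⟨fun i => C.filter _, fun _ _ => mem_filter⟩
  have cov : C ⊆ F₁ ∪ F₂ ∪ (range u).biUnion F₃ := fun t ht => by
    by_cases c1 : t ∈ F₁
    · exact mem_union_left _ (mem_union_left _ c1)
    by_cases c2 : (y t).den ≤ Z
    · exact mem_union_left _ (mem_union_right _ ((f2 t).2 ⟨ht, c1, c2⟩))
    obtain ⟨p, e, H⟩ := ln t ht c1
    have d1 := H.den_le (n := t) (by omega) (by omega)
    have d2 := Nat.pow_log_le_self (2 ^ 30) (y t).den_ne_zero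
    have d3 := Nat.lt_pow_succ_log_self (show 1 < 2 ^ 30 by norm_num) (y t).den
    obtain ⟨i, hi⟩ := Nat.exists_eq_add_of_le
      (Nat.le_log_of_pow_le (show 1 < 2 ^ 30 by norm_num) (hZ ▸ (not_le.1 c2).le))
    rw [hi] at d2 d3
    have d4 : 2 ^ (30 * (J + i)) < 2 ^ (15 * u + 3) := by
      rw [pow_mul, pow_add 2, ← hG]
      omega
    have d5 := (Nat.pow_lt_pow_iff_right (by norm_num)).1 d4
    exact mem_union_right _ (mem_biUnion.2 ⟨i, mem_range.2 (by omega),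
      (f3 i t).2 ⟨ht, c1, by omega, d2, d3.le⟩⟩)
  have b1 : 300 * (F₁.card : ℤ) ≤ σ := by
    have k := lonely (C := C) (F := F₁) (G := G) (R := 10 * u + 7) (L := 40 * u + 54)
      (V := 30 * u + 36) (S := 120 * u + 216) (N := N) (fun t ht => ((f1 t).1 ht).1)
      (hW (2 * u) le_rfl) g0 (by omega) (by omega)
      fun t ht => ⟨by have := hC t ((f1 t).1 ht).1; omega, ((f1 t).1 ht).2⟩
    have k1 : 600 * ((120 * u + 216 + 1) * (A * 4 ^ (2 * u) * 2 ^ (10 * u + 7 + 1))) ≤ G := by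
      have e : 4 ^ (2 * u) * 2 ^ (10 * u + 7 + 1) = 256 * 2 ^ (14 * u) := by
        rw [show 4 = 2 ^ 2 from rfl, ← pow_mul, ← pow_add, show 256 = 2 ^ 8 from rfl, ← pow_add]
        congr 1
        omega
      have a1 := (Nat.mul_le_mul (show 2 ^ 25 * A ≤ u + 1 by omega) (le_refl (u + 1))).trans
        (sq_le_pow u (by omega))
      have a2 : 600 * (120 * u + 216 + 1) * 256 * A ≤ 2 ^ 25 * (u + 1) * A :=
        Nat.mul_le_mul_right _ (by omega)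
      rw [mul_assoc A, e, hG, show 15 * u = u + 14 * u by omega, pow_add]
      refine le_of_eq_of_le ?_ (Nat.mul_le_mul_right _ ((a2.trans_eq (by ring)).trans a1))
      ring
    have k2 : 600 * F₁.card ≤ (N / G + 1) * G :=
      ((Nat.mul_le_mul_left 600 k).trans_eq (by ring)).trans (Nat.mul_le_mul_left (N / G + 1) k1)
    have k3 := div_succ (G := G) s3 (by omega)
    have k4 : ((600 * F₁.card : ℕ) : ℤ) ≤ (((N / G + 1) * G : ℕ) : ℤ) := by exact_mod_cast k2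
    rw [Nat.cast_mul, Nat.cast_mul] at k4
    omega
  have b2 : 300 * (F₂.card : ℤ) ≤ σ := by
    have k := small h np (y := y) (F := F₂) (T := 60 * u + 133) (Z := Z) (N := N) (D := 5 * G)
      (σ := σ) (by omega) (by omega) fun t ht => by
        obtain ⟨t1, t2, t3⟩ := (f2 t).1 ht
        obtain ⟨p, e, H⟩ := ln t t1 t2
        have := hC t t1
        exact ⟨by omega, t3, H.mono (by omega) (by omega),
          fun n n1 n2 => (hs n (by omega) (by omega)).1⟩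
    rw [← hΦ] at k
    have k2 : 600 * F₂.card ≤ (N / (60 * u + 133) + 1) * (60 * u + 133) :=
      ((Nat.mul_le_mul_left 600 k).trans_eq (by ring)).trans
        (Nat.mul_le_mul_left _ (show 600 * Φ ≤ 60 * u + 133 by omega))
    have k3 := div_succ (G := 60 * u + 133) s3 (by omega)
    have k4 : ((600 * F₂.card : ℕ) : ℤ) ≤ (((N / (60 * u + 133) + 1) * (60 * u + 133) : ℕ) : ℤ) := by
      exact_mod_cast k2
    rw [Nat.cast_mul, Nat.cast_mul] at k4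
    omega
  have b3 : ∀ i, ((F₃ i).card : ℝ) ≤ σ / 1024 * (1 / 2) ^ i := fun i => by
    have s0 : (0 : ℤ) < σ := by omega
    rcases (F₃ i).eq_empty_or_nonempty with e | ⟨t, ht⟩
    · rw [e, card_empty, Nat.cast_zero]
      positivity
    have hj := ((f3 i t).1 ht).2.2.1
    have k := scale h (y := y) (F := F₃ i) (fun t ht => ((f3 i t).1 ht).1)
      (hW (J + i + 2) (by omega)) hj s1 fun t ht => by
        obtain ⟨t1, t2, -, t3, t4⟩ := (f3 i t).1 ht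
        have := hC t t1
        exact ⟨hG ▸ ln t t1 t2, t3, t4, hs t (by omega) (by omega)⟩
    have k1 : (A : ℤ) ≤ 2 ^ A := by exact_mod_cast Nat.lt_two_pow_self.le
    have k2 := k.trans (mul_le_mul_of_nonneg_right (mul_le_mul_of_nonneg_right k1 (by positivity))
      s0.le)
    rw [hJ, pow_add, pow_add] at k2
    have k3 : ((F₃ i).card : ℤ) * 2 ^ i * 1024 ≤ σ :=
      le_of_mul_le_mul_left (a := 2 ^ A * 2 ^ 32) (le_of_eq_of_le (by ring) k2) (by positivity)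
    have k4 : ((F₃ i).card : ℝ) * 2 ^ i * 1024 ≤ σ := by exact_mod_cast k3
    rw [one_div, inv_pow, ← div_eq_mul_inv, le_div_iff₀ (by positivity), le_div_iff₀ (by norm_num)]
    exact k4
  have b4 : 300 * (((range u).biUnion F₃).card : ℤ) ≤ σ := by
    have k1 : ((((range u).biUnion F₃).card : ℕ) : ℝ) ≤ ∑ i ∈ range u, ((F₃ i).card : ℝ) := by
      exact_mod_cast card_biUnion_le
    have k2 := k1.trans (sum_le_sum fun i _ => b3 i)
    have s0 : (0 : ℝ) ≤ σ := by exact_mod_cast (by omega : 0 ≤ σ)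
    rw [← mul_sum] at k2
    have k3 := mul_le_mul_of_nonneg_left (sum_geometric_two_le u) (by positivity : 0 ≤ (σ : ℝ) / 1024)
    have k4 : 300 * (((range u).biUnion F₃).card : ℝ) ≤ σ := by linarith
    exact_mod_cast k4
  have := (card_le_card cov).trans ((card_union_le _ _).trans
    (Nat.add_le_add_right (card_union_le _ _) _))
  omega

end Pool.Agent.Lib.MP_e49cd5_nt.En
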