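import Pool.Agent.Lib.MP_e49cd5_nt.DnC

set_option autoImplicit false

namespace Pool.Agent.Lib.MP_e49cd5_nt.En

open Finset

theorem cnt_add (β : ℕ → Prop) [DecidablePred β] {p q r : ℕ} (h1 : p ≤ q) (h2 : q ≤ r) :
    ((Ico p r).filter β).card = ((Ico p q).filter β).card + ((Ico q r).filter β).card := by
  rw [← Ico_union_Ico_eq_Ico h1 h2, filter_union,
    card_union_of_disjoint (disjoint_filter_filter (Ico_disjoint_Ico_consecutive p q r))]

theorem cnt_le (β : ℕ → Prop) [DecidablePred β] (p q : ℕ) : ((Ico p q).filter β).card ≤ q - p :=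
  (card_filter_le _ _).trans_eq (Nat.card_Ico p q)

theorem sun_right (β γ : ℕ → Prop) [DecidablePred β] [DecidablePred γ] (K N : ℕ)
    (h : ∀ t, γ t → ∃ q, t ≤ q ∧ q ≤ N ∧ q - t < K * ((Ico t q).filter β).card) :
    ∀ d n, n + d = N → ((Ico n N).filter γ).card ≤ K * ((Ico n N).filter β).card := fun d => by
  induction d using Nat.strong_induction_on with
  | _ d ih =>
    intro n hn
    rcases Nat.eq_zero_or_pos d with rfl | hd
    · have := cnt_le γ n N
      omega
    by_cases c : γ n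
    · obtain ⟨q, q1, q2, q3⟩ := h n c
      have q4 : n < q := lt_of_le_of_ne q1 (by
        rintro rfl
        simp at q3)
      have h1 := ih (N - q) (by omega) q (by omega)
      have h2 := cnt_le γ n q
      rw [cnt_add γ q1 q2, cnt_add β q1 q2, mul_add]
      omega
    · have h1 := ih (d - 1) (by omega) (n + 1) (by omega)
      have h2 : ((Ico n (n + 1)).filter γ).card = 0 := by simp [filter_singleton, c]
      rw [cnt_add γ (n.le_add_right 1) (by omega), cnt_add β (n.le_add_right 1) (by omega), mul_add]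
      omega

theorem sun_left (β γ : ℕ → Prop) [DecidablePred β] [DecidablePred γ] (K : ℕ)
    (h : ∀ t, γ t → ∃ p, p ≤ t + 1 ∧ t + 1 - p < K * ((Ico p (t + 1)).filter β).card) (n : ℕ) :
    ((Ico 0 n).filter γ).card ≤ K * ((Ico 0 n).filter β).card := by
  induction n using Nat.strong_induction_on with
  | _ n ih =>
    rcases n with _ | n
    · simp
    by_cases c : γ n
    · obtain ⟨p, p1, p2⟩ := h n c
      have p3 : p < n + 1 := lt_of_le_of_ne p1 (by
        rintro rfl
        simp at p2)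
      have h1 := ih p p3
      have h2 := cnt_le γ p (n + 1)
      rw [cnt_add γ p.zero_le p1, cnt_add β p.zero_le p1, mul_add]
      omega
    · have h1 := ih n n.lt_succ_self
      have h2 : ((Ico n (n + 1)).filter γ).card = 0 := by simp [filter_singleton, c]
      rw [cnt_add γ n.zero_le (n.le_add_right 1), cnt_add β n.zero_le (n.le_add_right 1), mul_add]
      omega

/-- Few times lie in an interval with many marked times. -/
theorem sun (β : ℕ → Prop) [DecidablePred β] (K N : ℕ) :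
    ∃ U : Finset ℕ, U.card ≤ 2 * (K * ((Ico 0 N).filter β).card) ∧ ∀ t, t ∉ U → t < N →
      ∀ p q, p ≤ t → t < q → q ≤ N → K * ((Ico p q).filter β).card ≤ q - p + 1 := by
  classical
  refine ⟨_ ∪ _, (card_union_le _ _).trans ((add_le_add
    (sun_right β _ K N (fun _ h => h) N 0 (zero_add N))
    (sun_left β _ K (fun _ h => h) N)).trans_eq (two_mul _).symm), fun t ht tN p q h1 h2 h3 => ?_⟩
  have h4 : t ∈ Ico 0 N := mem_Ico.2 ⟨t.zero_le, tN⟩
  have h5 : K * ((Ico t q).filter β).card ≤ q - t := not_lt.1 fun c =>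
    ht (mem_union_left _ (mem_filter.2 ⟨h4, q, h2.le, h3, c⟩))
  have h6 : K * ((Ico p (t + 1)).filter β).card ≤ t + 1 - p := not_lt.1 fun c =>
    ht (mem_union_right _ (mem_filter.2 ⟨h4, p, by omega, c⟩))
  rw [cnt_add β h1 (t.le_add_right 1), mul_add] at h6
  rw [cnt_add β h1 h2.le, mul_add]
  omega

/-- Some residue class holds few marked times. -/
theorem resid (β : ℕ → Prop) [DecidablePred β] {L : ℕ} (hL : 0 < L) (p m : ℕ) :
    ∃ j < L, L * (univ.filter fun i : Fin m => β (p + j + i * L)).card ≤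
      ((Ico p (p + m * L)).filter β).card := by
  obtain ⟨j, hj, h⟩ := exists_min_image (range L)
    (fun j => (univ.filter fun i : Fin m => β (p + j + i * L)).card) ⟨0, mem_range.2 hL⟩
  refine ⟨j, mem_range.1 hj, ?_⟩
  have h1 := card_nsmul_le_sum _ _ _ h
  rw [card_range, smul_eq_mul, ← card_sigma] at h1
  refine h1.trans (card_le_card_of_injOn (fun x => p + x.1 + x.2 * L) (fun x hx => ?_)
    fun x hx y hy e => ?_)
  · obtain ⟨h2, h3⟩ := mem_sigma.1 hx
    have h4 : (x.2 + 1) * L ≤ m * L := Nat.mul_le_mul_right _ x.2.2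
    rw [add_mul, one_mul] at h4
    have := mem_range.1 h2
    exact mem_filter.2 ⟨mem_Ico.2 ⟨by beta_reduce; omega, by beta_reduce; omega⟩,
      (mem_filter.1 h3).2⟩
  · obtain ⟨j1, i1⟩ := x
    obtain ⟨j2, i2⟩ := y
    have h2 : j1 < L := mem_range.1 (mem_sigma.1 hx).1
    have h3 : j2 < L := mem_range.1 (mem_sigma.1 hy).1
    have e1 : j1 + i1 * L = j2 + i2 * L := by
      simp only at e
      omega
    have e2 := congrArg (· % L) e1
    simp only [Nat.add_mul_mod_self_right, Nat.mod_eq_of_lt h2, Nat.mod_eq_of_lt h3] at e2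
    subst e2
    rw [Fin.ext (Nat.eq_of_mul_eq_mul_right hL (Nat.add_left_cancel e1))]

/-- Sequences of letters with few letters outside `W`. -/
theorem few {α : Type} [Fintype α] [DecidableEq α] (W : Finset α) (m k c w : ℕ)
    (hc : Fintype.card α ≤ c) (hw : W.card ≤ w) (hw' : 1 ≤ w) :
    (univ.filter fun ω : Fin m → α => (univ.filter fun i => ω i ∉ W).card ≤ k).card * 1024 ^ m ≤
      (1024 * (c + 1)) ^ k * (1025 * w) ^ m := by
  have h1 : ∑ x : α, (if x ∈ W then 1024 * (c + 1) else 1) ≤ (c + 1) * (1025 * w) := by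
    refine (sum_le_sum (g := fun x => (if x ∈ W then 1024 * (c + 1) else 0) + 1)
      fun x _ => by split_ifs <;> omega).trans ?_
    rw [sum_add_distrib, sum_ite_mem, univ_inter, sum_const, sum_const, smul_eq_mul, smul_eq_mul,
      card_univ]
    nlinarith
  have h2 := Nat.pow_le_pow_left h1 m
  rw [Fintype.sum_pow] at h2
  have h3 : ∀ ω : Fin m → α, (univ.filter fun i => ω i ∉ W).card ≤ k → (1024 * (c + 1)) ^ m ≤
      (1024 * (c + 1)) ^ k * ∏ i, (if ω i ∈ W then 1024 * (c + 1) else 1) := fun ω h => by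
    rw [prod_ite, prod_const, prod_const_one, mul_one, ← pow_add]
    refine Nat.pow_le_pow_right (by omega) ?_
    have := card_filter_add_card_filter_not (s := univ) fun i => ω i ∈ W
    rw [card_univ, Fintype.card_fin] at this
    omega
  have h4 := card_nsmul_le_sum (univ.filter fun ω : Fin m → α =>
    (univ.filter fun i => ω i ∉ W).card ≤ k) _ _ fun ω hω => h3 ω (mem_filter.1 hω).2
  have h5 := h4.trans (sum_le_sum_of_subset (filter_subset _ univ))
  rw [← mul_sum, smul_eq_mul] at h5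
  have h6 := h5.trans (Nat.mul_le_mul_left _ h2)
  rw [mul_pow 1024, mul_pow (c + 1), ← mul_assoc, mul_left_comm _ ((c + 1) ^ m),
    mul_comm ((c + 1) ^ m)] at h6
  exact Nat.le_of_mul_le_mul_right h6 (by positivity)

theorem few' {α : Type} [Fintype α] [DecidableEq α] (W : Finset α) {L u m : ℕ} (hL : 0 < L)
    (hc : Fintype.card α ≤ 2 ^ L) (hW : W.card ^ 200 ≤ 2 ^ L) (hm : L * m ≤ 240 * u + 2 * L) :
    (univ.filter fun ω : Fin m → α =>
      (univ.filter fun i => ω i ∉ W).card ≤ (m + 1) / 8000).card ≤ 2 ^ (2 * L + 1) * 4 ^ u := by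
  obtain ⟨w, w1, w2, w3⟩ : ∃ w, W.card ≤ w ∧ 1 ≤ w ∧ w ^ 200 ≤ 2 ^ L := by
    rcases Nat.eq_zero_or_pos W.card with c | c
    · exact ⟨1, by omega, le_rfl, (one_pow _).trans_le Nat.one_le_two_pow⟩
    · exact ⟨_, le_rfl, c, hW⟩
  have h1 := few W m ((m + 1) / 8000) _ w hc w1 w2
  have h2 : 1025 ^ m ≤ 2 ^ (m / 700 + 1) * 1024 ^ m := by
    obtain ⟨d, hd⟩ : ∃ d, 700 * (m / 700 + 1) = m + d := ⟨700 * (m / 700 + 1) - m, by omega⟩
    have a1 := Nat.pow_le_pow_left (show 1025 ^ 700 ≤ 2 * 1024 ^ 700 by decide +kernel)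
      (m / 700 + 1)
    rw [mul_pow, ← pow_mul, ← pow_mul, hd, pow_add 1025, pow_add 1024, ← mul_assoc] at a1
    exact Nat.le_of_mul_le_mul_right ((Nat.mul_le_mul_left _
      (Nat.pow_le_pow_left (by norm_num) d)).trans a1) (by positivity)
  have h3 : w ^ m ≤ 2 ^ (L * (m / 200 + 1)) := by
    rw [pow_mul]
    refine le_trans ?_ (Nat.pow_le_pow_left w3 _)
    rw [← pow_mul]
    exact Nat.pow_le_pow_right w2 (by omega)
  have h4 : (1024 * (2 ^ L + 1)) ^ ((m + 1) / 8000) ≤ 2 ^ ((L + 11) * ((m + 1) / 8000)) := by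
    rw [pow_mul, pow_add]
    have : 1 ≤ 2 ^ L := Nat.one_le_two_pow
    exact Nat.pow_le_pow_left (by omega) _
  rw [mul_pow 1025] at h1
  have h5 := h1.trans (Nat.mul_le_mul h4 (Nat.mul_le_mul h2 h3))
  rw [mul_right_comm, ← mul_assoc, ← pow_add, ← pow_add] at h5
  refine (Nat.le_of_mul_le_mul_right h5 (by positivity)).trans ?_
  rw [show 4 = 2 ^ 2 from rfl, ← pow_mul, ← pow_add]
  refine Nat.pow_le_pow_right (by norm_num) ?_
  have a1 := Nat.mul_le_mul_left L (Nat.mul_div_le m 200)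
  have a2 := Nat.mul_le_mul_left L (Nat.mul_div_le (m + 1) 8000)
  have a3 := Nat.le_mul_of_pos_left m hL
  have a4 := Nat.le_mul_of_pos_left ((m + 1) / 8000) hL
  rw [mul_left_comm] at a1 a2
  rw [mul_add, mul_one] at a2
  rw [add_mul, mul_add L, mul_one]
  omega

theorem toFin {κ : Type} (g : ℕ → κ) (C : Finset ℕ) (Ω : Finset κ) {P : ℕ} (hP : 0 < P)
    (h1 : Ω.card ≤ P) (h2 : ∀ t ∈ C, g t ∈ Ω) :
    ∃ f : ℕ → Fin P, ∀ t ∈ C, ∀ t' ∈ C, f t = f t' → g t = g t' := by
  refine ⟨fun t => if h : t ∈ C then Fin.castLE h1 (Ω.equivFin ⟨g t, h2 t h⟩) else ⟨0, hP⟩,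
    fun t ht t' ht' e => ?_⟩
  simp only [dif_pos ht, dif_pos ht'] at e
  exact Subtype.ext_iff.1 (Ω.equivFin.injective (Fin.castLE_injective h1 e))

open Classical in
/-- Windows with few words outside `W` have few words. -/
theorem words (r : ℕ → Prop) {L : ℕ} (hL : 0 < L) (W : Finset (Fin L → Prop))
    (hW : W.card ^ 200 ≤ 2 ^ L) (u : ℕ) (C : Finset ℕ)
    (hC : ∀ t ∈ C, ∃ p, t = p + L + 120 * u ∧
      8000 * ((Ico p (p + (240 * u / L + 2) * L)).filter
        fun n => (fun i : Fin L => r (n + i)) ∉ W).card ≤ (240 * u / L + 2) * L + 1) :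
    Win r C (120 * u) (L * 2 ^ (2 * L + 1) * 4 ^ u) := by
  have m1 := Nat.div_add_mod (240 * u) L
  have m2 := Nat.mod_lt (240 * u) hL
  obtain ⟨m, hm⟩ : ∃ m, m = 240 * u / L + 2 := ⟨_, rfl⟩
  have m3 : L * m = L * (240 * u / L) + 2 * L := by rw [hm]; ring
  rw [← hm] at hC
  choose! p p1 p2 using hC
  choose j j1 j2 using fun t => resid (fun n => (fun i : Fin L => r (n + i)) ∉ W) hL (p t) m
  obtain ⟨f, hf⟩ := toFin (fun t => (j t, fun (i : Fin m) (l : Fin L) => r (p t + j t + i * L + l)))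
    C (range L ×ˢ univ.filter fun ω : Fin m → Fin L → Prop =>
      (univ.filter fun i => ω i ∉ W).card ≤ (m + 1) / 8000)
    (P := L * 2 ^ (2 * L + 1) * 4 ^ u) (by positivity) (by
      rw [card_product, card_range, mul_assoc]
      exact Nat.mul_le_mul_left _ (few' W hL (by simp) hW (by omega)))
    fun t ht => mem_product.2 ⟨mem_range.2 (j1 t), mem_filter.2 ⟨mem_univ _, by
      have a1 := (Nat.mul_le_mul_left 8000 (j2 t)).trans (p2 t ht)
      rw [mul_left_comm, mul_comm m] at a1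
      have a2 := Nat.le_of_mul_le_mul_left (a1.trans (show _ ≤ L * (m + 1) by
        rw [mul_add, mul_one]; omega)) hL
      exact (Nat.le_div_iff_mul_le (by norm_num)).2 ((mul_comm _ _).trans_le a2)⟩⟩
  refine ⟨f, fun t ht t' ht' e n n' n1 n2 n3 => ?_⟩
  obtain ⟨e1, e2⟩ := Prod.ext_iff.1 (hf t ht t' ht' e)
  have a1 := p1 t ht
  have a2 := p1 t' ht'
  have a3 := j1 t
  simp only at e1 e2
  obtain ⟨d, hd⟩ : ∃ d, n = p t + j t + d := ⟨n - (p t + j t), by omega⟩
  have d1 := Nat.div_add_mod' d L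
  have := congrFun (congrFun e2 ⟨d / L, Nat.div_lt_of_lt_mul (by omega)⟩) ⟨d % L, Nat.mod_lt d hL⟩
  simp only at this
  rw [show p t + j t + d / L * L + d % L = n by omega,
    show p t' + j t' + d / L * L + d % L = n' by omega] at this
  exact iff_of_eq this

end Pool.Agent.Lib.MP_e49cd5_nt.En
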