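import Pool.Agent.Lib.MP_e49cd5_nt.DnD
import Pool.Agent.Lib.MP_e49cd5_nt.DnE

set_option autoImplicit false

namespace Pool.Agent.Lib.MP_e49cd5_nt.En

open Finset

variable {a b : ℕ → ℤ}

open Classical in
theorem dens (h : Orb a b)
    (np : ∀ l n₀ : ℕ, 0 < l → ∃ n, n₀ ≤ n ∧ ¬(b (n + l) / 2 < a (n + l) ↔ b n / 2 < a n))
    (L : ℕ) (W : Finset (Fin L → Prop)) (hW : W.card ^ 200 < 2 ^ L) :
    ∃ N₀ : ℕ, ∀ N, N₀ ≤ N → N ≤ 10 ^ 6 * ((Ico 0 N).filter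
      fun n => (fun i : Fin L => b (n + i) / 2 < a (n + i)) ∉ W).card := by
  rcases Nat.eq_zero_or_pos L with rfl | hL
  · obtain rfl : W = ∅ := card_eq_zero.1 (by simpa using hW)
    exact ⟨0, fun N _ => by simp; omega⟩
  obtain ⟨u₀, hu⟩ := core h np (L * 2 ^ (2 * L + 1))
  obtain ⟨Y, hY⟩ : ∃ Y : ℕ, Y = (2 ^ 20) ^ (u₀ + L + 10) := ⟨_, rfl⟩
  refine ⟨Y + (a 0 + b 0).toNat + 1000, fun N hN => not_lt.1 fun c => ?_⟩
  obtain ⟨U, u1, u2⟩ := sun (fun n => (fun i : Fin L => b (n + i) / 2 < a (n + i)) ∉ W) 8000 N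
  obtain ⟨N₁, n1⟩ : ∃ N₁, N₁ = N - N / 3 := ⟨_, rfl⟩
  have i0 := h.inv 0
  have l0 := h.lin 0 N₁
  rw [zero_add] at l0
  obtain ⟨σ, hσ⟩ : ∃ σ : ℕ, a N₁ + b N₁ = σ := ⟨(a N₁ + b N₁).toNat, by omega⟩
  obtain ⟨u, e⟩ : ∃ u, u = Nat.log (2 ^ 20) σ := ⟨_, rfl⟩
  have s1 := Nat.pow_log_le_self (2 ^ 20) (show σ ≠ 0 by omega)
  have s2 := Nat.lt_pow_succ_log_self (show 1 < 2 ^ 20 by norm_num) σ
  have s3 := Nat.le_log_of_pow_le (show 1 < 2 ^ 20 by norm_num) (hY ▸ show Y ≤ σ by omega)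
  rw [← e] at s1 s2 s3
  rw [← pow_mul] at s1 s2
  obtain ⟨G, hG⟩ : ∃ G : ℕ, G = 2 ^ (15 * u) := ⟨_, rfl⟩
  have g1 : 2 ^ 14 * G ≤ σ := by
    rw [hG, ← pow_add]
    exact (Nat.pow_le_pow_right (by norm_num) (by omega)).trans s1
  have g2 : 2 ^ 9 * (u + 1) ≤ G := by
    have k : u + 1 ≤ 2 ^ u := Nat.lt_two_pow_self
    refine (Nat.mul_le_mul_left _ k).trans ?_
    rw [hG, ← pow_add]
    exact Nat.pow_le_pow_right (by norm_num) (by omega)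
  have hC : ∀ t ∈ Ico (N₁ + 2 * G) (N - 2 * G) \ U, t ∉ U ∧ N₁ + 2 * G ≤ t ∧ t + 2 * G < N :=
    fun t ht => by
      obtain ⟨t1, t2⟩ := mem_sdiff.1 ht
      have := mem_Ico.1 t1
      exact ⟨t2, by omega, by omega⟩
  have key := hu u N₁ N σ (Ico (N₁ + 2 * G) (N - 2 * G) \ U) (by omega) (by exact_mod_cast s1)
    (by exact_mod_cast s2) (by omega)
    (fun n c1 c2 => by
      obtain ⟨i, rfl⟩ := Nat.exists_eq_add_of_le c1
      have := h.lin N₁ i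
      omega)
    (fun t ht => by
      have := hC t ht
      omega)
    fun v hv => words _ hL W hW.le v _ fun t ht => by
      obtain ⟨t1, t2, t3⟩ := hC t ht
      obtain ⟨p, rfl⟩ : ∃ p, t = p + L + 120 * v := ⟨t - 120 * v - L, by omega⟩
      have m1 := Nat.div_add_mod' (240 * v) L
      have m2 := Nat.mod_lt (240 * v) hL
      have m3 := add_mul (240 * v / L) 2 L
      have := u2 _ t1 (by omega) p (p + (240 * v / L + 2) * L) (by omega) (by omega) (by omega)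
      rw [Nat.add_sub_cancel_left] at this
      exact ⟨p, rfl, this⟩
  have k1 := le_card_sdiff U (Ico (N₁ + 2 * G) (N - 2 * G))
  rw [Nat.card_Ico] at k1
  omega

end Pool.Agent.Lib.MP_e49cd5_nt.En
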