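import Pool.Agent.Lib.MP_e49cd5_nt.Per

set_option autoImplicit false

namespace Pool.Agent.Lib.MP_e49cd5_nt.En

/-- The words of length `L` of the sequence `r` fall into at most `P` classes. -/
def Cov (r : ℕ → Prop) (L P : ℕ) : Prop :=
  ∃ f : ℕ → Fin P, ∀ n m, f n = f m → ∀ i < L, (r (n + i) ↔ r (m + i))

theorem Cov.mono {r : ℕ → Prop} {L P L' P' : ℕ} (h : Cov r L P) (hL : L' ≤ L) (hP : P ≤ P') :
    Cov r L' P' := by
  obtain ⟨f, hf⟩ := h
  exact ⟨fun n => Fin.castLE hP (f n), fun n m e i hi =>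
    hf n m (Fin.castLE_injective hP e) i (by omega)⟩

theorem Cov.mul {r : ℕ → Prop} {L P L' P' : ℕ} (h : Cov r L P) (h' : Cov r L' P') :
    Cov r (L + L') (P * P') := by
  obtain ⟨f, hf⟩ := h
  obtain ⟨g, hg⟩ := h'
  refine ⟨fun n => finProdFinEquiv (f n, g (n + L)), fun n m e i hi => ?_⟩
  obtain ⟨e1, e2⟩ := Prod.ext_iff.1 (finProdFinEquiv.injective e)
  rcases lt_or_ge i L with c | c
  · exact hf n m e1 i c
  · obtain ⟨j, rfl⟩ := Nat.exists_eq_add_of_le c
    rw [← add_assoc, ← add_assoc]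
    exact hg _ _ e2 j (by omega)

theorem Cov.pow {r : ℕ → Prop} {L P : ℕ} (h : Cov r L P) (k : ℕ) : Cov r (k * L) (P ^ k) := by
  induction k with
  | zero => exact ⟨fun _ => ⟨0, by simp⟩, fun _ _ _ i hi => by omega⟩
  | succ k ih => simpa only [Nat.succ_mul, pow_succ] using ih.mul h

theorem cov_one (r : ℕ → Prop) : Cov r 1 2 := by
  classical
  refine ⟨fun n => if r n then 1 else 0, fun n m e i hi => ?_⟩
  obtain rfl : i = 0 := by omega
  by_cases h1 : r n <;> by_cases h2 : r m <;> simp_all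

theorem cov_ncard (r : ℕ → Prop) (L : ℕ) :
    Cov r L (Set.ncard (Set.range fun n : ℕ => fun i : Fin L => r (n + i))) := by
  refine ⟨fun n => Finite.equivFin (Set.range fun n : ℕ => fun i : Fin L => r (n + i))
    ⟨_, n, rfl⟩, fun n m e i hi => ?_⟩
  have := congrFun (Subtype.ext_iff.1 ((Finite.equivFin _).injective e)) ⟨i, hi⟩
  exact iff_of_eq this

theorem stretch {κ : Type} [Fintype κ] (key : ℕ → κ) (N G T : ℕ)
    (hG : (Fintype.card κ + 1) * (T + 1) ≤ G) :
    ∃ A, N ≤ A ∧ A + T < N + G ∧ ∀ n, A ≤ n → n ≤ A + T →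
      ∃ m, N ≤ m ∧ m < N + G ∧ m ≠ n ∧ key m = key n := by
  by_contra hn
  have h : ∀ j : Fin (Fintype.card κ + 1), ∃ n, N + j * (T + 1) ≤ n ∧ n ≤ N + j * (T + 1) + T ∧
      n < N + G ∧ ∀ m, N ≤ m → m < N + G → key m = key n → m = n := fun j => by
    have h1 : (j + 1) * (T + 1) ≤ G := (Nat.mul_le_mul_right _ j.2).trans hG
    rw [add_mul, one_mul] at h1
    by_contra c
    refine hn ⟨N + j * (T + 1), by omega, by omega, fun n h2 h3 => ?_⟩
    by_contra c'
    exact c ⟨n, h2, h3, by omega, fun m h4 h5 h6 => by_contra fun h7 => c' ⟨m, h4, h5, h7, h6⟩⟩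
  choose t h1 h2 h3 h4 using h
  obtain ⟨i, j, hij, e⟩ := Fintype.exists_ne_map_eq_of_card_lt (fun j => key (t j)) (by simp)
  have e' : t i = t j := h4 j _ (le_trans (Nat.le_add_right _ _) (h1 i)) (h3 i) e
  have key : ∀ i j : Fin (Fintype.card κ + 1), (i : ℕ) < j → t i < t j := fun i j c => by
    have h5 : (i + 1) * (T + 1) ≤ j * (T + 1) := Nat.mul_le_mul_right _ c
    rw [add_mul, one_mul] at h5
    have := h2 i
    have := h1 j
    omega
  rcases lt_trichotomy (i : ℕ) j with c | c | c
  · exact (key i j c).ne e'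
  · exact hij (Fin.ext c)
  · exact (key j i c).ne e'.symm

theorem expand (x : ℕ → ℚ) (E : ℚ) (L : ℕ) (h : ∀ i < L, 3 * x i ≤ 2 * x (i + 1) + E) :
    3 ^ L * (x 0 - E) ≤ 2 ^ L * (x L - E) := by
  induction L with
  | zero => simp
  | succ L ih =>
    have h1 := ih fun i hi => h i (by omega)
    have h2 := mul_le_mul_of_nonneg_left (h L (by omega)) (by positivity : (0 : ℚ) ≤ 2 ^ L)
    rw [pow_succ, pow_succ]
    linarith

theorem expand' (x : ℕ → ℚ) (E B D : ℚ) (L : ℕ) (h : ∀ i < L, 3 * x i ≤ 2 * x (i + 1) + E)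
    (hE : 0 ≤ E) (hB : x L ≤ B) (hD : 2 ^ L * B ≤ 3 ^ L * D) : x 0 ≤ E + D := by
  have h1 := expand x E L h
  have h2 : (2 : ℚ) ^ L * (x L - E) ≤ 2 ^ L * B :=
    mul_le_mul_of_nonneg_left (by linarith) (by positivity)
  have h3 := le_of_mul_le_mul_left (h1.trans (h2.trans hD)) (by positivity)
  linarith

variable {a b : ℕ → ℤ}

theorem one' (h : Orb a b) {n : ℕ} (c : b n / 2 < a n) :
    2 * a (n + 1) = 3 * a n - (a n + b n) + b n % 2 - 6 ∧
      a (n + 1) + b (n + 1) = a n + b n + 3 + 2 * (b n % 2) := by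
  have := h.one c
  omega

theorem two' (h : Orb a b) {n : ℕ} (c : ¬b n / 2 < a n) :
    a (n + 1) = 3 * a n + 5 ∧ a (n + 1) + b (n + 1) = a n + b n + 5 := by
  have := h.two c
  omega

/-- Three times with the same letters: the differences have a determinant divisible by `3 ^ R`. -/
theorem past (h : Orb a b) (n m k R : ℕ) (h1 : ∀ i < R, Same a b (m + i) (n + i))
    (h2 : ∀ i < R, Same a b (k + i) (n + i)) :
    (3 : ℤ) ^ R ∣ (a (m + R) - a (n + R)) * (a (k + R) + b (k + R) - (a (n + R) + b (n + R))) -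
      (a (k + R) - a (n + R)) * (a (m + R) + b (m + R) - (a (n + R) + b (n + R))) := by
  induction R with
  | zero => simp
  | succ R ih =>
    obtain ⟨d, hd⟩ := ih (fun i hi => h1 i (by omega)) fun i hi => h2 i (by omega)
    obtain ⟨r1, p1⟩ := h1 R (by omega)
    obtain ⟨r2, p2⟩ := h2 R (by omega)
    simp only [← add_assoc m, ← add_assoc n, ← add_assoc k]
    by_cases c : b (n + R) / 2 < a (n + R)
    · obtain ⟨e1, e2⟩ := one' h c
      obtain ⟨e3, e4⟩ := one' h (r1.2 c)
      obtain ⟨e5, e6⟩ := one' h (r2.2 c)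
      rw [p1] at e3 e4
      rw [p2] at e5 e6
      refine (IsCoprime.pow_left (m := R + 1) (by norm_num [Int.isCoprime_iff_gcd_eq_one] :
        IsCoprime (3 : ℤ) 2)).dvd_of_dvd_mul_left ⟨d, ?_⟩
      rw [e2, e4, e6, pow_succ]
      linear_combination 3 * hd + (a (k + R) + b (k + R) - (a (n + R) + b (n + R))) * (e3 - e1) -
        (a (m + R) + b (m + R) - (a (n + R) + b (n + R))) * (e5 - e1)
    · obtain ⟨e1, e2⟩ := two' h c
      obtain ⟨e3, e4⟩ := two' h fun c' => c (r1.1 c')
      obtain ⟨e5, e6⟩ := two' h fun c' => c (r2.1 c')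
      refine ⟨d, ?_⟩
      rw [e2, e4, e6, e1, e3, e5, pow_succ]
      linear_combination 3 * hd

/-- Two times with the same rules in the future have almost the same slope. -/
theorem future (h : Orb a b) (n m L : ℕ) (σ : ℤ) (hσ : 2 ≤ σ)
    (hn : ∀ i ≤ L, 0 ≤ a (n + i) + b (n + i) ∧ a (n + i) + b (n + i) ≤ 2 * σ)
    (hm : ∀ i ≤ L, 0 ≤ a (m + i) + b (m + i) ∧ a (m + i) + b (m + i) ≤ 2 * σ)
    (hr : ∀ i < L, (b (m + i) / 2 < a (m + i) ↔ b (n + i) / 2 < a (n + i)))
    (hL : 2 ^ L * (81 * σ) ≤ 3 ^ L) : |a m * (a n + b n) - a n * (a m + b m)| ≤ 81 * σ := by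
  have hσ' : (2 : ℚ) ≤ σ := by exact_mod_cast hσ
  have hL' : (2 : ℚ) ^ L * (81 * σ) ≤ 3 ^ L := by exact_mod_cast hL
  have := expand' (fun i => ((|a (m + i) * (a (n + i) + b (n + i)) -
    a (n + i) * (a (m + i) + b (m + i))| : ℤ) : ℚ)) (80 * σ) (81 * σ * σ) σ L (fun i hi => ?_)
    (by linarith) ?_ (by nlinarith)
  · simp only [add_zero] at this
    have e : (80 * σ + σ : ℚ) = ((81 * σ : ℤ) : ℚ) := by push_cast; ring
    rw [e] at this
    exact_mod_cast this
  · obtain ⟨n1, n2⟩ := hn i hi.le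
    obtain ⟨m1, m2⟩ := hm i hi.le
    obtain ⟨n3, n4⟩ := hn (i + 1) hi
    obtain ⟨m3, m4⟩ := hm (i + 1) hi
    obtain ⟨n5, n6⟩ := h.inv (n + (i + 1))
    obtain ⟨m5, m6⟩ := h.inv (m + (i + 1))
    simp only [← add_assoc m, ← add_assoc n] at *
    have goal : 3 * |a (m + i) * (a (n + i) + b (n + i)) - a (n + i) * (a (m + i) + b (m + i))| ≤
        2 * |a (m + i + 1) * (a (n + i + 1) + b (n + i + 1)) -
          a (n + i + 1) * (a (m + i + 1) + b (m + i + 1))| + 80 * σ := by
      by_cases c : b (n + i) / 2 < a (n + i)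
      · obtain ⟨e1, e2⟩ := one' h c
        obtain ⟨e3, e4⟩ := one' h ((hr i hi).2 c)
        have key : ∀ X Y : ℤ, |2 * Y - 3 * X| ≤ 80 * σ → 3 * |X| ≤ 2 * |Y| + 80 * σ :=
          fun X Y c => by
            have := abs_le.1 c
            have := le_abs_self Y
            have := neg_abs_le Y
            rcases abs_cases X with k | k <;> omega
        apply key
        have e : 2 * (a (m + i + 1) * (a (n + i + 1) + b (n + i + 1)) -
            a (n + i + 1) * (a (m + i + 1) + b (m + i + 1))) -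
            3 * (a (m + i) * (a (n + i) + b (n + i)) - a (n + i) * (a (m + i) + b (m + i))) =
            (b (m + i) % 2 - 6) * (a (n + i) + b (n + i)) +
              2 * a (m + i + 1) * (3 + 2 * (b (n + i) % 2)) -
              (b (n + i) % 2 - 6) * (a (m + i) + b (m + i)) -
              2 * a (n + i + 1) * (3 + 2 * (b (m + i) % 2)) := by
          rw [e2, e4]
          linear_combination (a (n + i) + b (n + i)) * e3 - (a (m + i) + b (m + i)) * e1
        rw [e, abs_le]
        rcases Int.emod_two_eq_zero_or_one (b (n + i)) with k | k <;>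
          rcases Int.emod_two_eq_zero_or_one (b (m + i)) with k' | k' <;>
          rw [k, k'] <;> constructor <;> linarith
      · obtain ⟨e1, e2⟩ := two' h c
        obtain ⟨e3, e4⟩ := two' h fun c' => c ((hr i hi).1 c')
        have key : ∀ X Y : ℤ, |Y - 3 * X| ≤ 80 * σ → 3 * |X| ≤ 2 * |Y| + 80 * σ :=
          fun X Y c => by
            have := abs_le.1 c
            have := le_abs_self Y
            have := neg_abs_le Y
            rcases abs_cases X with k | k <;> omega
        apply key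
        have e : (a (m + i + 1) * (a (n + i + 1) + b (n + i + 1)) -
            a (n + i + 1) * (a (m + i + 1) + b (m + i + 1))) -
            3 * (a (m + i) * (a (n + i) + b (n + i)) - a (n + i) * (a (m + i) + b (m + i))) =
            5 * (a (n + i) + b (n + i)) + 5 * a (m + i + 1) - 5 * (a (m + i) + b (m + i)) -
              5 * a (n + i + 1) := by
          rw [e2, e4]
          linear_combination (a (n + i) + b (n + i)) * e3 - (a (m + i) + b (m + i)) * e1
        rw [e, abs_le]
        constructor <;> linarith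
    exact_mod_cast goal
  · obtain ⟨n1, n2⟩ := hn L le_rfl
    obtain ⟨m1, m2⟩ := hm L le_rfl
    obtain ⟨n5, n6⟩ := h.inv (n + L)
    obtain ⟨m5, m6⟩ := h.inv (m + L)
    have goal : |a (m + L) * (a (n + L) + b (n + L)) - a (n + L) * (a (m + L) + b (m + L))| ≤
        81 * σ * σ := by
      have k1 : |a (m + L)| ≤ 2 * σ := abs_le.2 ⟨by omega, by omega⟩
      have k2 : |a (n + L)| ≤ 2 * σ := abs_le.2 ⟨by omega, by omega⟩
      refine (abs_sub _ _).trans ?_
      rw [abs_mul, abs_mul, abs_of_nonneg n1, abs_of_nonneg m1]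
      have k3 := mul_le_mul k1 n2 n1 (by omega)
      have k4 := mul_le_mul k2 m2 m1 (by omega)
      nlinarith
    exact_mod_cast goal

/-- A closed chain of translation vectors makes the rules periodic for ever. -/
theorem forever (h : Orb a b) (m l : ℕ) (hl : 0 < l) (k : ℕ → ℤ) (Q : ℤ)
    (h1 : ∀ i < l, b (m + i) / 2 < a (m + i) → 2 * k (i + 1) = 3 * k i - Q ∧ Q ≤ 3 * k i)
    (h2 : ∀ i < l, ¬b (m + i) / 2 < a (m + i) → k (i + 1) = 3 * k i ∧ 3 * k i ≤ Q)
    (hk : k l = k 0) (hs : a (m + l) + b (m + l) = a m + b m + Q) (ha : a (m + l) = a m + k 0)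
    (n : ℕ) (hn : m ≤ n) : (b (n + l) / 2 < a (n + l) ↔ b n / 2 < a n) := by
  have rule : ∀ n i q : ℕ, i < l → a n + b n = a (m + i) + b (m + i) + q * Q →
      a n = a (m + i) + q * k i → (b n / 2 < a n ↔ b (m + i) / 2 < a (m + i)) :=
    fun n i q hi e1 e2 => by
      have hq : (0 : ℤ) ≤ q := Int.natCast_nonneg q
      by_cases c : b (m + i) / 2 < a (m + i)
      · have := mul_le_mul_of_nonneg_left (h1 i hi c).2 hq
        rw [mul_left_comm] at this
        exact iff_of_true (by omega) c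
      · have := mul_le_mul_of_nonneg_left (h2 i hi c).2 hq
        rw [mul_left_comm] at this
        exact iff_of_false (by omega) c
  have main : ∀ n : ℕ, ∃ i q : ℕ, i < l ∧ n = l * q + i ∧
      a (m + n) + b (m + n) = a (m + i) + b (m + i) + q * Q ∧ a (m + n) = a (m + i) + q * k i :=
    fun n => by
      induction n with
      | zero => exact ⟨0, 0, hl, by simp, by simp, by simp⟩
      | succ n ih =>
        obtain ⟨i, q, hi, e0, e1, e2⟩ := ih
        have hr := rule _ i q hi e1 e2
        have next : a (m + n + 1) + b (m + n + 1) = a (m + i + 1) + b (m + i + 1) + q * Q ∧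
            a (m + n + 1) = a (m + i + 1) + q * k (i + 1) := by
          by_cases c : b (m + i) / 2 < a (m + i)
          · have e3 := congrArg ((q : ℤ) * ·) (h1 i hi c).1
            simp only [mul_sub, mul_left_comm (q : ℤ)] at e3
            have := one' h c
            have := one' h (hr.2 c)
            omega
          · have e3 := congrArg ((q : ℤ) * ·) (h2 i hi c).1
            simp only [mul_left_comm (q : ℤ)] at e3
            have := two' h c
            have := two' h fun c' => c (hr.1 c')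
            omega
        rcases Nat.lt_or_ge (i + 1) l with c | c
        · exact ⟨i + 1, q, c, by omega, next.1, next.2⟩
        · obtain rfl : l = i + 1 := by omega
          refine ⟨0, q + 1, hl, by rw [e0]; ring, ?_, ?_⟩
          · rw [← add_assoc, next.1, add_assoc m, hs, add_zero]
            push_cast
            ring
          · rw [← add_assoc, next.2, add_assoc m, ha, hk, add_zero]
            push_cast
            ring
  have per : ∀ n : ℕ, (b (m + n) / 2 < a (m + n) ↔ b (m + n % l) / 2 < a (m + n % l)) := fun n => by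
    obtain ⟨i, q, hi, e0, e1, e2⟩ := main n
    have : n % l = i := by rw [e0, Nat.mul_add_mod, Nat.mod_eq_of_lt hi]
    rw [this]
    exact rule _ i q hi e1 e2
  obtain ⟨j, rfl⟩ := Nat.exists_eq_add_of_le hn
  rw [add_assoc, per, per j, Nat.add_mod_right]

end Pool.Agent.Lib.MP_e49cd5_nt.En
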