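import Pool.Agent.Lib.MP_e49cd5_nt.EnA

set_option autoImplicit false

namespace Pool.Agent.Lib.MP_e49cd5_nt.En

variable {a b : ℕ → ℤ}

/-- On the times `A, ..., A + T` the orbit follows rational slopes `y` with denominators at most
`D` up to the error `C`. -/
structure Line (a b : ℕ → ℤ) (y : ℕ → ℚ) (A T : ℕ) (D : ℤ) (C : ℚ) : Prop where
  den : ∀ n, A ≤ n → n ≤ A + T → ∃ K Q : ℤ, Q ≠ 0 ∧ |Q| ≤ D ∧ y n * Q = K
  one : ∀ n, A ≤ n → n < A + T → b n / 2 < a n → 2 * y (n + 1) = 3 * y n - 1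
  two : ∀ n, A ≤ n → n < A + T → ¬b n / 2 < a n → y (n + 1) = 3 * y n
  off : ∀ n, A ≤ n → n ≤ A + T → |(a n : ℚ) - y n * (a n + b n)| ≤ C
  bdd : ∀ n, A ≤ n → n ≤ A + T → |y n| ≤ 82

theorem dist_le (h : Orb a b) {n m G : ℕ} (hnm : m ≠ n) (h1 : m < n + G) (h2 : n < m + G) :
    a m + b m - (a n + b n) ≠ 0 ∧ |a m + b m - (a n + b n)| ≤ 5 * G := by
  rcases lt_or_gt_of_ne hnm with c | c
  · obtain ⟨i, rfl⟩ := Nat.exists_eq_add_of_le c.le
    have := h.lin m i
    exact ⟨by omega, abs_le.2 ⟨by omega, by omega⟩⟩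
  · obtain ⟨i, rfl⟩ := Nat.exists_eq_add_of_le c.le
    have := h.lin n i
    exact ⟨by omega, abs_le.2 ⟨by omega, by omega⟩⟩

theorem window (h : Orb a b) (σ : ℤ) (hσ : 2 ≤ σ) (N G T R L P : ℕ)
    (hs : ∀ n, N ≤ n → n ≤ N + G + R + L + 1 → σ ≤ a n + b n ∧ a n + b n ≤ 2 * σ)
    (hP : Cov (fun n => b n / 2 < a n) (R + L + 1) P)
    (hG : (P * 2 ^ (R + 1) + 1) * (T + 1) ≤ G) (hR : (810 * G : ℤ) < 3 ^ R)
    (hL : 2 ^ L * (81 * σ) ≤ 3 ^ L) :
    ∃ (A : ℕ) (y : ℕ → ℚ), N + R ≤ A ∧ A + T < N + R + G ∧ Line a b y A T (5 * G) (81 * σ) := by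
  obtain ⟨f, hf⟩ := hP
  obtain ⟨g, hg⟩ := (cov_one fun n => b n % 2 = 0).pow (R + 1)
  obtain ⟨A, hA, hA', hp⟩ := stretch (fun n => (f n, g n)) N G T (by simpa using hG)
  choose! π p1 p2 p3 p4 using hp
  have rl : ∀ n, A ≤ n → n ≤ A + T → ∀ i < R + L + 1,
      (b (π n + i) / 2 < a (π n + i) ↔ b (n + i) / 2 < a (n + i)) :=
    fun n h1 h2 => hf _ _ (Prod.ext_iff.1 (p4 n h1 h2)).1
  have sm : ∀ n, A ≤ n → n ≤ A + T → ∀ i < R + 1, Same a b (π n + i) (n + i) :=
    fun n h1 h2 i hi => ⟨rl n h1 h2 i (by omega), by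
      have := hg _ _ (Prod.ext_iff.1 (p4 n h1 h2)).2 i (by omega)
      simp only at this
      omega⟩
  have fu : ∀ n, A ≤ n → n ≤ A + T → ∀ j ≤ 1, |a (π n + R + j) * (a (n + R + j) + b (n + R + j)) -
      a (n + R + j) * (a (π n + R + j) + b (π n + R + j))| ≤ 81 * σ := fun n h1 h2 j hj => by
    have := p1 n h1 h2
    have := p2 n h1 h2
    refine future h _ _ L σ hσ (fun i hi => ?_) (fun i hi => ?_) (fun i hi => ?_) hL
    · have := hs (n + R + j + i) (by omega) (by omega)
      omega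
    · have := hs (π n + R + j + i) (by omega) (by omega)
      omega
    · have := rl n h1 h2 (R + j + i) (by omega)
      simpa only [add_assoc] using this
  have dl : ∀ n, A ≤ n → n ≤ A + T → ∀ j, a (π n + j) + b (π n + j) - (a (n + j) + b (n + j)) ≠ 0 ∧
      |a (π n + j) + b (π n + j) - (a (n + j) + b (n + j))| ≤ 5 * G := fun n h1 h2 j => by
    have := p1 n h1 h2
    have := p2 n h1 h2
    have := p3 n h1 h2
    exact dist_le h (by omega) (by omega) (by omega)
  obtain ⟨y, hy⟩ : ∃ y : ℕ → ℚ, ∀ n, A ≤ n → n ≤ A + T → y (n + R) *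
      ((a (π n + R) + b (π n + R) - (a (n + R) + b (n + R)) : ℤ) : ℚ) =
      ((a (π n + R) - a (n + R) : ℤ) : ℚ) :=
    ⟨fun n => ((a (π (n - R) + R) - a n : ℤ) : ℚ) /
      ((a (π (n - R) + R) + b (π (n - R) + R) - (a n + b n) : ℤ) : ℚ), fun n h1 h2 => by
        simp only [Nat.add_sub_cancel]
        exact div_mul_cancel₀ _ (by exact_mod_cast (dl n h1 h2 R).1)⟩
  have par : ∀ n, A ≤ n → n < A + T → y (n + R + 1) *
      ((a (π n + R + 1) + b (π n + R + 1) - (a (n + R + 1) + b (n + R + 1)) : ℤ) : ℚ) =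
      ((a (π n + R + 1) - a (n + R + 1) : ℤ) : ℚ) := fun n h1 h2 => by
    have d := past h (n + 1) (π n + 1) (π (n + 1)) R (fun i hi => by
      have := sm n h1 h2.le (1 + i) (by omega)
      simpa only [add_assoc] using this) fun i hi => sm (n + 1) (by omega) (by omega) i (by omega)
    have f1 := fu n h1 h2.le 1 le_rfl
    have f2 := fu (n + 1) (by omega) (by omega) 0 (by omega)
    have d1 := dl n h1 h2.le (R + 1)
    have d2 := dl (n + 1) (by omega) (by omega) R
    have y2 := hy (n + 1) (by omega) (by omega)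
    have s1 := (hs (n + R + 1) (by omega) (by omega)).1
    simp only [add_zero, add_right_comm n 1 R, add_right_comm (π n) 1 R, ← add_assoc n,
      ← add_assoc (π n)] at d f1 f2 d1 d2 y2
    generalize a (π n + R + 1) + b (π n + R + 1) = s₁ at *
    generalize a (π (n + 1) + R) + b (π (n + 1) + R) = s₂ at *
    generalize a (n + R + 1) + b (n + R + 1) = s₀ at *
    generalize a (π n + R + 1) = a₁ at *
    generalize a (π (n + 1) + R) = a₂ at *
    generalize a (n + R + 1) = a₀ at *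
    have e : ((a₁ - a₀) * (s₂ - s₀) - (a₂ - a₀) * (s₁ - s₀)) * s₀ =
        (a₁ * s₀ - a₀ * s₁) * (s₂ - s₀) - (a₂ * s₀ - a₀ * s₂) * (s₁ - s₀) := by ring
    have k : |(a₁ - a₀) * (s₂ - s₀) - (a₂ - a₀) * (s₁ - s₀)| * s₀ ≤ 810 * G * σ := by
      rw [← abs_of_nonneg (show 0 ≤ s₀ by omega), ← abs_mul, abs_of_nonneg (show 0 ≤ s₀ by omega), e]
      refine (abs_sub _ _).trans ?_
      rw [abs_mul, abs_mul]
      have k1 := mul_le_mul f1 d2.2 (abs_nonneg _) (by omega)
      have k2 := mul_le_mul f2 d1.2 (abs_nonneg _) (by omega)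
      linarith
    have k' : |(a₁ - a₀) * (s₂ - s₀) - (a₂ - a₀) * (s₁ - s₀)| ≤ 810 * G :=
      le_of_mul_le_mul_right ((mul_le_mul_of_nonneg_left s1 (abs_nonneg _)).trans k) (by omega)
    have z := Int.eq_zero_of_abs_lt_dvd d (k'.trans_lt hR)
    have z' : (((a₁ - a₀) * (s₂ - s₀) - (a₂ - a₀) * (s₁ - s₀) : ℤ) : ℚ) = 0 := by exact_mod_cast z
    have n2 : ((s₂ - s₀ : ℤ) : ℚ) ≠ 0 := by exact_mod_cast d2.1
    refine mul_right_cancel₀ n2 ?_
    push_cast at z' y2 ⊢
    linear_combination (s₁ - s₀ : ℚ) * y2 - z'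
  have off : ∀ n, A ≤ n → n ≤ A + T →
      |(a (n + R) : ℚ) - y (n + R) * (a (n + R) + b (n + R))| ≤ 81 * σ := fun n h1 h2 => by
    have f1 := fu n h1 h2 0 (by omega)
    have d1 := (dl n h1 h2 R).1
    have y1 := hy n h1 h2
    simp only [add_zero] at f1
    have d2 : (1 : ℚ) ≤ |((a (π n + R) + b (π n + R) - (a (n + R) + b (n + R)) : ℤ) : ℚ)| := by
      exact_mod_cast Int.one_le_abs d1
    have f2 : |((a (π n + R) * (a (n + R) + b (n + R)) -
      a (n + R) * (a (π n + R) + b (π n + R)) : ℤ) : ℚ)| ≤ 81 * σ := by exact_mod_cast f1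
    refine (le_mul_of_one_le_right (abs_nonneg _) d2).trans ?_
    rw [← abs_mul, ← abs_neg]
    refine le_of_eq_of_le (congrArg _ ?_) f2
    push_cast at y1 ⊢
    linear_combination ((a (n + R) : ℚ) + b (n + R)) * y1
  have ex : ∀ n, A + R ≤ n → ∃ k, n = k + R := fun n hn => ⟨n - R, by omega⟩
  refine ⟨A + R, y, by omega, by omega, fun n h1 h2 => ?_, fun n h1 h2 c => ?_,
    fun n h1 h2 c => ?_, fun n h1 h2 => ?_, fun n h1 h2 => ?_⟩ <;> obtain ⟨n, rfl⟩ := ex n h1
  · exact ⟨_, _, (dl n (by omega) (by omega) R).1, (dl n (by omega) (by omega) R).2,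
      hy n (by omega) (by omega)⟩
  · obtain ⟨r1, r2⟩ := sm n (by omega) (by omega) R (by omega)
    obtain ⟨e1, e2⟩ := one' h c
    obtain ⟨e3, e4⟩ := one' h (r1.2 c)
    have y1 := hy n (by omega) (by omega)
    have y2 := par n (by omega) (by omega)
    have n1 : ((a (π n + R) + b (π n + R) - (a (n + R) + b (n + R)) : ℤ) : ℚ) ≠ 0 := by
      exact_mod_cast (dl n (by omega) (by omega) R).1
    have e5 : a (π n + R + 1) + b (π n + R + 1) - (a (n + R + 1) + b (n + R + 1)) =
      a (π n + R) + b (π n + R) - (a (n + R) + b (n + R)) := by omega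
    have e6 : ((2 * (a (π n + R + 1) - a (n + R + 1)) : ℤ) : ℚ) =
        ((3 * (a (π n + R) - a (n + R)) -
          (a (π n + R) + b (π n + R) - (a (n + R) + b (n + R))) : ℤ) : ℚ) := by
      congr 1
      omega
    rw [e5] at y2
    refine mul_right_cancel₀ n1 ?_
    push_cast at e6 y1 y2 ⊢
    linear_combination 2 * y2 - 3 * y1 + e6
  · obtain ⟨r1, r2⟩ := sm n (by omega) (by omega) R (by omega)
    obtain ⟨e1, e2⟩ := two' h c
    obtain ⟨e3, e4⟩ := two' h fun c' => c (r1.1 c')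
    have y1 := hy n (by omega) (by omega)
    have y2 := par n (by omega) (by omega)
    have n1 : ((a (π n + R) + b (π n + R) - (a (n + R) + b (n + R)) : ℤ) : ℚ) ≠ 0 := by
      exact_mod_cast (dl n (by omega) (by omega) R).1
    have e5 : a (π n + R + 1) + b (π n + R + 1) - (a (n + R + 1) + b (n + R + 1)) =
      a (π n + R) + b (π n + R) - (a (n + R) + b (n + R)) := by omega
    have e6 : ((a (π n + R + 1) - a (n + R + 1) : ℤ) : ℚ) =
        ((3 * (a (π n + R) - a (n + R)) : ℤ) : ℚ) := by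
      congr 1
      omega
    rw [e5] at y2
    refine mul_right_cancel₀ n1 ?_
    push_cast at e6 y1 y2 ⊢
    linear_combination y2 - 3 * y1 + e6
  · exact off n (by omega) (by omega)
  · have o := abs_le.1 (off n (by omega) (by omega))
    obtain ⟨i1, i2⟩ := h.inv (n + R)
    have s1 : (σ : ℚ) ≤ a (n + R) + b (n + R) := by
      exact_mod_cast (hs (n + R) (by omega) (by omega)).1
    have s2 : (2 : ℚ) ≤ σ := by exact_mod_cast hσ
    have i3 : (-2 : ℚ) ≤ a (n + R) := by exact_mod_cast i1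
    have i4 : (0 : ℚ) ≤ b (n + R) := by exact_mod_cast i2
    have s0 : (0 : ℚ) < a (n + R) + b (n + R) := by linarith
    exact abs_le.2 ⟨le_of_mul_le_mul_right (by linarith [o.2]) s0,
      le_of_mul_le_mul_right (by linarith [o.1]) s0⟩

theorem Line.sharp (h : Orb a b) {y : ℕ → ℚ} {A T L : ℕ} {D : ℤ} {C : ℚ}
    (H : Line a b y A (T + L) D C) (hL : 2 ^ L * C ≤ 3 ^ L) : Line a b y A T D 827 := by
  refine ⟨fun n h1 h2 => H.den n h1 (by omega), fun n h1 h2 => H.one n h1 (by omega),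
    fun n h1 h2 => H.two n h1 (by omega), fun n h1 h2 => ?_, fun n h1 h2 => H.bdd n h1 (by omega)⟩
  have := expand' (fun i => |(a (n + i) : ℚ) - y (n + i) * (a (n + i) + b (n + i))|) 826 C 1 L
    (fun i hi => ?_) (by norm_num) (H.off _ (by omega) (by omega)) (by rwa [mul_one])
  · norm_num at this
    exact this
  have yb := abs_le.1 (H.bdd (n + i + 1) (by omega) (by omega))
  simp only [← add_assoc n]
  by_cases c : b (n + i) / 2 < a (n + i)
  · obtain ⟨e1, e2⟩ := one' h c
    have e3 := H.one (n + i) (by omega) (by omega) c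
    have key : ∀ X Y : ℚ, |2 * Y - 3 * X| ≤ 826 → 3 * |X| ≤ 2 * |Y| + 826 := fun X Y c => by
      have := abs_le.1 c
      have := le_abs_self Y
      have := neg_abs_le Y
      rcases abs_cases X with k | k <;> linarith
    apply key
    rcases Int.emod_two_eq_zero_or_one (b (n + i)) with k | k <;> rw [k] at e1 e2
    all_goals
      have e4 := congrArg (Int.cast : ℤ → ℚ) e1
      have e5 := congrArg (Int.cast : ℤ → ℚ) e2
      push_cast at e4 e5
      have e6 := congrArg (· * ((a (n + i) : ℚ) + b (n + i))) e3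
      rw [e5, abs_le]
      constructor <;> linarith
  · obtain ⟨e1, e2⟩ := two' h c
    have e3 := H.two (n + i) (by omega) (by omega) c
    have key : ∀ X Y : ℚ, |Y - 3 * X| ≤ 826 → 3 * |X| ≤ 2 * |Y| + 826 := fun X Y c => by
      have := abs_le.1 c
      have := le_abs_self Y
      have := neg_abs_le Y
      rcases abs_cases X with k | k <;> linarith
    apply key
    have e4 := congrArg (Int.cast : ℤ → ℚ) e1
    have e5 := congrArg (Int.cast : ℤ → ℚ) e2
    push_cast at e4 e5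
    have e6 := congrArg (· * ((a (n + i) : ℚ) + b (n + i))) e3
    rw [e5, abs_le]
    constructor <;> linarith

/-- Two times on a line with the same slope and the same offset give periodic rules. -/
theorem Line.per (h : Orb a b) {y : ℕ → ℚ} {A T : ℕ} {D σ : ℤ} (H : Line a b y A T D 827)
    (hs : ∀ n, A ≤ n → n ≤ A + T → σ ≤ a n + b n) (hD : 2481 * D < σ) {m l : ℕ} (hm : A ≤ m)
    (hl : 0 < l) (hml : m + l ≤ A + T) (hy : y (m + l) = y m)
    (hw : (a (m + l) : ℚ) - y (m + l) * (a (m + l) + b (m + l)) = a m - y m * (a m + b m))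
    (n : ℕ) (hn : m ≤ n) : (b (n + l) / 2 < a (n + l) ↔ b n / 2 < a n) := by
  obtain ⟨Q, hQ⟩ : ∃ Q : ℤ, a (m + l) + b (m + l) = a m + b m + Q := ⟨_, (add_sub_cancel _ _).symm⟩
  have hQ0 : (0 : ℚ) ≤ Q := by
    have := h.lin m l
    exact_mod_cast (by omega : 0 ≤ Q)
  have hQ' : (a (m + l) : ℚ) + b (m + l) = a m + b m + Q := by exact_mod_cast hQ
  have k0 : (Q : ℚ) * y m = ((a (m + l) - a m : ℤ) : ℚ) := by
    rw [hy, hQ'] at hw
    push_cast
    linarith
  have fw : ∀ i ≤ l, ∃ k : ℤ, 2 ^ i * (Q * y (m + i)) = k := fun i hi => by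
    induction i with
    | zero => exact ⟨_, by rw [pow_zero, one_mul, add_zero, k0]⟩
    | succ i ih =>
      obtain ⟨k, hk⟩ := ih (by omega)
      rw [← add_assoc, pow_succ]
      by_cases c : b (m + i) / 2 < a (m + i)
      · refine ⟨3 * k - 2 ^ i * Q, ?_⟩
        push_cast
        linear_combination 3 * hk + 2 ^ i * Q * H.one _ (by omega) (by omega) c
      · refine ⟨6 * k, ?_⟩
        push_cast
        linear_combination 6 * hk + 2 * 2 ^ i * Q * H.two _ (by omega) (by omega) c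
  have bw : ∀ j i, i + j = l → ∃ k : ℤ, 3 ^ j * (Q * y (m + i)) = k := fun j => by
    induction j with
    | zero =>
      intro i hi
      obtain rfl : i = l := hi
      exact ⟨_, by rw [pow_zero, one_mul, hy, k0]⟩
    | succ j ih =>
      intro i hi
      obtain ⟨k, hk⟩ := ih (i + 1) (by omega)
      rw [← add_assoc] at hk
      rw [pow_succ]
      by_cases c : b (m + i) / 2 < a (m + i)
      · refine ⟨2 * k + 3 ^ j * Q, ?_⟩
        push_cast
        linear_combination 2 * hk - 3 ^ j * Q * H.one _ (by omega) (by omega) c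
      · refine ⟨k, ?_⟩
        linear_combination hk - 3 ^ j * Q * H.two _ (by omega) (by omega) c
  have int : ∀ i ≤ l, ∃ k : ℤ, Q * y (m + i) = k := fun i hi => by
    obtain ⟨j, hj⟩ := Nat.exists_eq_add_of_le hi
    obtain ⟨k1, h1⟩ := fw i hi
    obtain ⟨k2, h2⟩ := bw j i hj.symm
    obtain ⟨u, v, huv⟩ : IsCoprime ((2 : ℤ) ^ i) (3 ^ j) :=
      IsCoprime.pow (by norm_num [Int.isCoprime_iff_gcd_eq_one])
    have h3 : (u : ℚ) * 2 ^ i + v * 3 ^ j = 1 := by exact_mod_cast huv
    refine ⟨u * k1 + v * k2, ?_⟩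
    push_cast
    linear_combination u * h1 + v * h2 - Q * y (m + i) * h3
  choose! k hk using int
  have gap : ∀ i < l, |3 * y (m + i) - 1| * (a (m + i) + b (m + i)) ≤ 2481 → 3 * y (m + i) = 1 :=
    fun i hi c => by
      obtain ⟨K, Q', q0, q1, e⟩ := H.den (m + i) (by omega) (by omega)
      have s1 : (σ : ℚ) ≤ a (m + i) + b (m + i) := by exact_mod_cast hs (m + i) (by omega) (by omega)
      have d1 : (2481 : ℚ) * D < σ := by exact_mod_cast hD
      have q2 : |(Q' : ℚ)| ≤ D := by exact_mod_cast q1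
      have q3 : (Q' : ℚ) ≠ 0 := by exact_mod_cast q0
      have e' : (3 * y (m + i) - 1) * Q' = ((3 * K - Q' : ℤ) : ℚ) := by
        push_cast
        linear_combination 3 * e
      by_contra c'
      have n1 : 3 * K - Q' ≠ 0 := fun z => by
        rw [z, Int.cast_zero, mul_eq_zero] at e'
        exact e'.elim (fun z => c' (by linarith)) q3
      have n2 : (1 : ℚ) ≤ |((3 * K - Q' : ℤ) : ℚ)| := by exact_mod_cast Int.one_le_abs n1
      rw [← e', abs_mul] at n2
      have n3 := mul_le_mul_of_nonneg_left q2 (abs_nonneg (3 * y (m + i) - 1))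
      have n4 := mul_le_mul_of_nonneg_left s1 (abs_nonneg (3 * y (m + i) - 1))
      have n5 : 0 < |3 * y (m + i) - 1| := abs_pos.2 fun z => c' (by linarith)
      have n6 := mul_lt_mul_of_pos_left d1 n5
      linarith
  refine forever h m l hl k Q (fun i hi c => ?_) (fun i hi c => ?_) ?_ hQ ?_ n hn
  · have e1 := H.one (m + i) (by omega) (by omega) c
    have e2 := hk i hi.le
    have e3 := hk (i + 1) hi
    rw [← add_assoc] at e3
    have o := abs_le.1 (H.off (m + i) (by omega) (by omega))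
    have c' : (b (m + i) : ℚ) ≤ 2 * a (m + i) := by exact_mod_cast (by omega)
    have y1 : 1 ≤ 3 * y (m + i) := by
      by_contra z
      have := gap i hi (by rw [abs_of_neg (by linarith)]; linarith [o.2])
      linarith
    have y2 := mul_le_mul_of_nonneg_left y1 hQ0
    constructor
    · have : (2 * k (i + 1) : ℚ) = 3 * k i - Q := by linear_combination 3 * e2 - 2 * e3 + Q * e1
      exact_mod_cast this
    · have : (Q : ℚ) ≤ 3 * k i := by linarith
      exact_mod_cast this
  · have e1 := H.two (m + i) (by omega) (by omega) c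
    have e2 := hk i hi.le
    have e3 := hk (i + 1) hi
    rw [← add_assoc] at e3
    have o := abs_le.1 (H.off (m + i) (by omega) (by omega))
    have c' : 2 * (a (m + i) : ℚ) ≤ b (m + i) := by exact_mod_cast (by omega)
    have y1 : 3 * y (m + i) ≤ 1 := by
      by_contra z
      have := gap i hi (by rw [abs_of_pos (by linarith)]; linarith [o.1])
      linarith
    have y2 := mul_le_mul_of_nonneg_left y1 hQ0
    constructor
    · have : (k (i + 1) : ℚ) = 3 * k i := by linear_combination 3 * e2 - e3 + Q * e1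
      exact_mod_cast this
    · have : 3 * (k i : ℚ) ≤ Q := by linarith
      exact_mod_cast this
  · have e2 := hk 0 hl.le
    have e3 := hk l le_rfl
    rw [hy] at e3
    exact_mod_cast e3.symm.trans e2
  · have e2 := hk 0 hl.le
    have : a (m + l) - a m = k 0 := by exact_mod_cast k0.symm.trans e2
    omega

end Pool.Agent.Lib.MP_e49cd5_nt.En
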