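import Pool.Agent.Lib.MP_e49cd5_nt.EnB

set_option autoImplicit false

namespace Pool.Agent.Lib.MP_e49cd5_nt.En

variable {a b : ℕ → ℤ}

theorem scales (h : Orb a b) (σ : ℤ) (hσ : 2 ≤ σ) (N G T R L P G' R' P' J : ℕ)
    (hs : ∀ n, N ≤ n → n ≤ N + G + R + L + 1 → σ ≤ a n + b n ∧ a n + b n ≤ 2 * σ)
    (hP : Cov (fun n => b n / 2 < a n) (R + L + 1) P)
    (hG : (P * 2 ^ (R + 1) + 1) * (T + L + 1) ≤ G) (hR : (810 * G : ℤ) < 3 ^ R)
    (hP' : Cov (fun n => b n / 2 < a n) (R' + L + 1) P')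
    (hG' : (P' * 2 ^ (R' + 1) + 1) * (0 + L + 1) ≤ G') (hR' : (810 * G' : ℤ) < 3 ^ R')
    (hL : 2 ^ L * (81 * σ) ≤ 3 ^ L) (hJ : J * G' + R' ≤ T)
    (hJ' : (10 * G' + 1) * ((820 * G' + 1) * (8270 * G' + 1)) < J)
    (h1 : 2481 * (5 * G : ℤ) < σ) (h2 : 41350 * (G * G' : ℤ) < σ) :
    ∃ l m : ℕ, 0 < l ∧ ∀ n, m ≤ n → (b (n + l) / 2 < a (n + l) ↔ b n / 2 < a n) := by
  have hLq : (2 : ℚ) ^ L * (81 * σ) ≤ 3 ^ L := by exact_mod_cast hL
  obtain ⟨A, y, hA, hA', H⟩ := window h σ hσ N G (T + L) R L P hs hP hG hR hL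
  replace H := H.sharp h hLq
  have small : ∀ j : Fin J, ∃ (t : ℕ) (K Q : ℤ), A + j * G' + R' ≤ t ∧ t < A + j * G' + R' + G' ∧
      t ≤ A + T ∧ Q ≠ 0 ∧ |Q| ≤ 5 * G' ∧ y t * Q = K := fun j => by
    have j1 : (j + 1) * G' ≤ J * G' := Nat.mul_le_mul_right _ j.2
    rw [add_mul, one_mul] at j1
    obtain ⟨t, z, ht, ht', H'⟩ := window h σ hσ (A + j * G') G' (0 + L) R' L P'
      (fun n n1 n2 => hs n (by omega) (by omega)) hP' hG' hR' hL
    replace H' := H'.sharp h hLq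
    obtain ⟨K, Q, q0, q1, e⟩ := H.den t (by omega) (by omega)
    obtain ⟨K', Q', q0', q1', e'⟩ := H'.den t le_rfl le_rfl
    refine ⟨t, K', Q', ht, by omega, by omega, q0', q1', ?_⟩
    have o := H.off t (by omega) (by omega)
    have o' := H'.off t le_rfl le_rfl
    have s1 : (σ : ℚ) ≤ a t + b t := by exact_mod_cast (hs t (by omega) (by omega)).1
    have s2 : (2 : ℚ) ≤ σ := by exact_mod_cast hσ
    have d1 : |y t - z t| * (a t + b t) ≤ 1654 := by
      rw [← abs_of_nonneg (show (0 : ℚ) ≤ a t + b t by linarith), ← abs_mul, abs_le]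
      constructor <;> linarith [abs_le.1 o, abs_le.1 o', (abs_le.1 o).1, (abs_le.1 o).2,
        (abs_le.1 o').1, (abs_le.1 o').2]
    have d2 : (y t - z t) * (Q * Q') = ((K * Q' - K' * Q : ℤ) : ℚ) := by
      push_cast
      linear_combination Q' * e - Q * e'
    have q2 : |(Q : ℚ) * Q'| ≤ 25 * (G * G') := by
      have : |Q * Q'| ≤ 25 * (G * G') := by
        rw [abs_mul]
        have := mul_le_mul q1 q1' (abs_nonneg _) (by positivity)
        linarith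
      exact_mod_cast this
    have h2' : (41350 : ℚ) * (G * G') < σ := by exact_mod_cast h2
    have d3 : y t = z t := by
      by_contra c
      have n1 : K * Q' - K' * Q ≠ 0 := fun k => by
        rw [k, Int.cast_zero] at d2
        exact mul_ne_zero (sub_ne_zero.2 c)
          (mul_ne_zero (Int.cast_ne_zero.2 q0) (Int.cast_ne_zero.2 q0')) d2
      have n2 : (1 : ℚ) ≤ |((K * Q' - K' * Q : ℤ) : ℚ)| := by exact_mod_cast Int.one_le_abs n1
      rw [← d2, abs_mul] at n2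
      have n3 := mul_le_mul_of_nonneg_left q2 (abs_nonneg (y t - z t))
      have n4 := mul_le_mul_of_nonneg_left s1 (abs_nonneg (y t - z t))
      have n6 := mul_lt_mul_of_pos_left h2' (abs_pos.2 (sub_ne_zero.2 c))
      linarith
    rw [d3, e']
  choose t K Q t1 t2 t3 q0 q1 e using small
  have tA : ∀ j, A ≤ t j := fun j => by have := t1 j; omega
  have q2 : ∀ j, |(Q j : ℚ)| ≤ 5 * G' := fun j => by exact_mod_cast q1 j
  have ec : ∀ j, ((a (t j) : ℚ) - y (t j) * (a (t j) + b (t j))) * Q j =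
      ((Q j * a (t j) - K j * (a (t j) + b (t j)) : ℤ) : ℚ) := fun j => by
    push_cast
    linear_combination -((a (t j) : ℚ) + b (t j)) * e j
  obtain ⟨i, -, j, -, hij, E⟩ := Finset.exists_ne_map_eq_of_card_lt_of_maps_to
    (s := (Finset.univ : Finset (Fin J)))
    (t := Finset.Icc (-(5 * G' : ℤ)) (5 * G') ×ˢ Finset.Icc (-(410 * G' : ℤ)) (410 * G') ×ˢ
      Finset.Icc (-(4135 * G' : ℤ)) (4135 * G'))
    (f := fun j => (Q j, K j, Q j * a (t j) - K j * (a (t j) + b (t j)))) (by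
      rw [Finset.card_product, Finset.card_product, Int.card_Icc, Int.card_Icc, Int.card_Icc,
        Finset.card_univ, Fintype.card_fin]
      refine lt_of_eq_of_lt ?_ hJ'
      congr 1
      · omega
      · congr 1 <;> omega) (fun j _ => by
      simp only [Finset.coe_product, Set.mem_prod, Finset.mem_coe, Finset.mem_Icc, ← abs_le]
      refine ⟨q1 j, ?_, ?_⟩
      · have := mul_le_mul (H.bdd _ (tA j) (t3 j)) (q2 j) (abs_nonneg _) (by norm_num)
        rw [← abs_mul, e j] at this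
        have k : |((K j : ℤ) : ℚ)| ≤ 410 * G' := by linarith
        exact_mod_cast k
      · have := mul_le_mul (H.off _ (tA j) (t3 j)) (q2 j) (abs_nonneg _) (by norm_num)
        rw [← abs_mul, ec j] at this
        have k : |((Q j * a (t j) - K j * (a (t j) + b (t j)) : ℤ) : ℚ)| ≤ 4135 * G' := by linarith
        exact_mod_cast k)
  wlog c : (i : ℕ) < j generalizing i j
  · exact this j i hij.symm E.symm (by have := Fin.val_ne_of_ne hij; omega)
  have lt : t i < t j := by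
    have h5 : (i + 1) * G' ≤ j * G' := Nat.mul_le_mul_right _ c
    rw [add_mul, one_mul] at h5
    have := t2 i
    have := t1 j
    omega
  obtain ⟨l, hl⟩ := Nat.exists_eq_add_of_le lt.le
  simp only [Prod.mk.injEq] at E
  obtain ⟨E1, E2, E3⟩ := E
  have n0 : (Q j : ℚ) ≠ 0 := Int.cast_ne_zero.2 (q0 j)
  refine ⟨l, t i, by omega, H.per h (fun n n1 n2 => (hs n (by omega) (by omega)).1) h1 (tA i)
    (by omega) (hl ▸ t3 j) ?_ ?_⟩
  · rw [← hl]
    refine mul_right_cancel₀ n0 ?_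
    rw [e j, ← E1, e i, E2]
  · rw [← hl]
    refine mul_right_cancel₀ n0 ?_
    rw [ec j, ← E3, ← ec i, E1]

theorem num1 (u : ℕ) (hu : 30 ≤ u) : 810 * 2 ^ (6 * u) < 3 ^ (4 * u) := by
  obtain ⟨v, rfl⟩ := Nat.exists_eq_add_of_le hu
  rw [pow_mul, pow_mul, pow_add, pow_add, ← mul_assoc]
  exact Nat.mul_lt_mul_of_lt_of_le (by norm_num) (Nat.pow_le_pow_left (by norm_num) v)
    (by positivity)

theorem num2 (u : ℕ) (hu : 30 ≤ u) : 810 * 2 ^ (84 * u) < 3 ^ (56 * u) := by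
  have h := Nat.pow_lt_pow_left (num1 u hu) (n := 14) (by norm_num)
  rw [mul_pow, ← pow_mul, ← pow_mul, show 6 * u * 14 = 84 * u by ring,
    show 4 * u * 14 = 56 * u by ring] at h
  exact (Nat.mul_le_mul_right _ (by norm_num)).trans_lt h

theorem num3 (u : ℕ) (hu : 30 ≤ u) : 2 ^ 20 * (u + 1) ≤ 2 ^ u := by
  induction u, hu using Nat.le_induction with
  | base => norm_num
  | succ u hu ih => rw [pow_succ 2 u]; omega

theorem low (h : Orb a b) (u : ℕ) (hu : 30 ≤ u) (hu' : a 0 + b 0 ≤ u)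
    (h1 : Cov (fun n => b n / 2 < a n) (200 * u) (2 ^ u)) :
    ∃ l m : ℕ, 0 < l ∧ ∀ n, m ≤ n → (b (n + l) / 2 < a (n + l) ↔ b n / 2 < a n) := by
  have h2 := h1.mul h1
  have n1 := num1 u hu
  have n2 := num2 u hu
  have n3 := num3 u hu
  have n4 : 2 ^ 30 ≤ 2 ^ u := Nat.pow_le_pow_right two_pos hu
  have n5 : 2 ^ (190 * u) * 2 ^ (95 * u) ≤ 3 ^ (190 * u) := by
    rw [← pow_add, show 190 * u + 95 * u = 3 * (95 * u) by ring,
      show 190 * u = 2 * (95 * u) by ring, pow_mul, pow_mul 3]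
    exact Nat.pow_le_pow_left (by norm_num) _
  have ex : ∀ k, 2 ^ (k * u) = (2 ^ u) ^ k := fun k => by rw [mul_comm, pow_mul]
  have e1 : 2 ^ (56 * u + 1) = 2 * (2 ^ u) ^ 56 := by rw [pow_succ', ex]
  have e2 : 2 ^ (4 * u + 1) = 2 * (2 ^ u) ^ 4 := by rw [pow_succ', ex]
  rw [ex] at n1 n2
  rw [ex 95] at n5
  generalize 2 ^ u = X at *
  have X1 : 1 ≤ X := by omega
  have pw : ∀ i j : ℕ, i ≤ j → X ^ i ≤ X ^ j := fun i j c => Nat.pow_le_pow_right X1 c
  have st : ∀ i : ℕ, 2 ^ 30 * X ^ i ≤ X ^ (i + 1) := fun i => by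
    rw [pow_succ' X]
    exact Nat.mul_le_mul_right _ n4
  have p1 := pw 1 6 (by norm_num)
  have p2 := pw 6 18 (by norm_num)
  have p3 := pw 18 24 (by norm_num)
  have p4 := st 24
  have p5 := pw 25 84 (by norm_num)
  have p6 := pw 84 90 (by norm_num)
  have p7 := st 90
  have p8 := st 91
  have p9 := st 92
  have p10 := pw 93 95 (by norm_num)
  rw [pow_one] at p1
  norm_num only at p4 p7 p8 p9 n3 n4
  have l0 := h.lin 0 (X ^ 92)
  have i0 := h.inv 0
  rw [zero_add] at l0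
  obtain ⟨T, hT⟩ : ∃ T, X ^ 25 = T + 190 * u + 1 := ⟨X ^ 25 - 190 * u - 1, by omega⟩
  refine scales h (a (X ^ 92) + b (X ^ 92)) (by omega) (X ^ 92) (X ^ 84) T (56 * u) (190 * u)
    (X * X) (X ^ 6) (4 * u) X (2 ^ 27 * X ^ 18) (fun n c1 c2 => ?_)
    (h2.mono (by omega) le_rfl) ?_ (by exact_mod_cast n2) (h1.mono (by omega) le_rfl) ?_
    (by exact_mod_cast n1) ?_ ?_ ?_ (by omega) ?_
  · obtain ⟨i, rfl⟩ := Nat.exists_eq_add_of_le c1
    have := h.lin (X ^ 92) i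
    omega
  · rw [← hT, e1]
    have k1 := st 83
    have k2 := pw 25 83 (by norm_num)
    have e : (X * X * (2 * X ^ 56) + 1) * X ^ 25 = 2 * X ^ 83 + X ^ 25 := by ring
    norm_num only at k1
    omega
  · rw [e2]
    have k1 : 0 + 190 * u + 1 ≤ 190 * (u + 1) := by omega
    have k2 : X * (2 * X ^ 4) + 1 ≤ 3 * X ^ 5 := by
      have := pw 0 5 (by norm_num)
      rw [pow_zero] at this
      have e : X * (2 * X ^ 4) = 2 * X ^ 5 := by ring
      omega
    refine (Nat.mul_le_mul k2 k1).trans ?_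
    have k3 : X ^ 5 * (570 * (u + 1)) ≤ X ^ 5 * X := Nat.mul_le_mul_left _ (by omega)
    calc 3 * X ^ 5 * (190 * (u + 1)) = X ^ 5 * (570 * (u + 1)) := by ring
      _ ≤ X ^ 5 * X := k3
      _ = X ^ 6 := by ring
  · have k1 : 81 * (a (X ^ 92) + b (X ^ 92)) ≤ ((X ^ 95 : ℕ) : ℤ) := by omega
    have k2 : ((2 ^ (190 * u) * X ^ 95 : ℕ) : ℤ) ≤ ((3 ^ (190 * u) : ℕ) : ℤ) := by exact_mod_cast n5
    refine (mul_le_mul_of_nonneg_left k1 (by positivity)).trans ?_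
    exact_mod_cast k2
  · have e : 2 ^ 27 * X ^ 18 * X ^ 6 = 2 ^ 27 * X ^ 24 := by ring
    rw [e]
    omega
  · have k0 := pw 0 6 (by norm_num)
    rw [pow_zero] at k0
    calc (10 * X ^ 6 + 1) * ((820 * X ^ 6 + 1) * (8270 * X ^ 6 + 1))
        ≤ (11 * X ^ 6) * ((821 * X ^ 6) * (8271 * X ^ 6)) :=
          Nat.mul_le_mul (by omega) (Nat.mul_le_mul (by omega) (by omega))
      _ = 74695401 * X ^ 18 := by ring
      _ < 2 ^ 27 * X ^ 18 := by omega
  · have e : ((X ^ 84 : ℕ) * (X ^ 6 : ℕ) : ℤ) = ((X ^ 90 : ℕ) : ℤ) := by push_cast; ring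
    rw [e]
    omega

theorem entropy (h : Orb a b)
    (np : ∀ l n₀ : ℕ, 0 < l → ∃ n, n₀ ≤ n ∧ ¬(b (n + l) / 2 < a (n + l) ↔ b n / 2 < a n))
    (L P : ℕ) (hP : Cov (fun n => b n / 2 < a n) L P) : 2 ^ L ≤ P ^ 200 := by
  rcases Nat.eq_zero_or_pos L with rfl | hL
  · obtain ⟨f, -⟩ := hP
    exact Nat.one_le_pow _ _ (f 0).pos
  by_contra c
  obtain ⟨k, hk, hk'⟩ : ∃ k : ℕ, 30 ≤ k ∧ a 0 + b 0 ≤ k := ⟨30 + (a 0 + b 0).toNat, by omega, by omega⟩
  have h1 : k ≤ k * L := Nat.le_mul_of_pos_right k hL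
  obtain ⟨l, m, hl, hm⟩ := low h (k * L) (by omega) (by omega)
    ((hP.pow (200 * k)).mono (le_of_eq (by ring)) (by
      rw [pow_mul, mul_comm k, pow_mul]
      exact Nat.pow_le_pow_left (not_le.1 c).le k))
  obtain ⟨n, h2, h3⟩ := np l m hl
  exact h3 (hm n h2)

end Pool.Agent.Lib.MP_e49cd5_nt.En
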