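import Pool.Agent.Lib.MP_e49cd5_nt.CycApi

set_option autoImplicit false

namespace Pool.Agent.Lib.MP_e49cd5_nt

open Finset

variable {q : ℤ} {k : ℕ} {K w : ℕ → ℤ}

theorem Cyc.back (h : Cyc q k K w) {n n' : ℕ} (j : ℕ) (e : K (n + j) = K (n' + j)) :
    K n = K n' := by
  induction j with
  | zero => exact e
  | succ j ih =>
    have h1 := h.step (n + j)
    have h2 := h.step (n' + j)
    have h3 := h.q3
    rw [← add_assoc, ← add_assoc] at e
    exact ih (by omega)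

theorem pow_dvd_of_steps {x : ℕ → ℤ} {t : ℕ}
    (h : ∀ i < t, 2 * x (i + 1) = 3 * x i ∨ x (i + 1) = 3 * x i) : 3 ^ t ∣ x t := by
  induction t with
  | zero => simp
  | succ t ih =>
    have h1 : (3 : ℤ) ^ (t + 1) ∣ 3 * x t := by
      rw [pow_succ']
      exact mul_dvd_mul_left 3 (ih fun i hi => h i (by omega))
    rcases h t (by omega) with h2 | h2
    · have hc : IsCoprime ((3 : ℤ) ^ (t + 1)) 2 :=
        IsCoprime.pow_left (⟨1, -1, by norm_num⟩ : IsCoprime (3 : ℤ) 2)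
      exact hc.dvd_of_dvd_mul_left (h2 ▸ h1)
    · exact h2 ▸ h1

theorem Cyc.dvd_diff (h : Cyc q k K w) {m m' : ℕ} (e : K m = K m') (j u : ℕ)
    (hp : ∀ s, j ≤ s → s < j + u → 3 * K (m + s) < q → w (m + s) % 2 = w (m' + s) % 2) :
    3 ^ u ∣ w (m + (j + u)) - w (m' + (j + u)) := by
  refine pow_dvd_of_steps (x := fun i => w (m + (j + i)) - w (m' + (j + i))) fun i hi => ?_
  simp only [← add_assoc _ i 1, ← add_assoc _ (j + i) 1]
  by_cases c : 3 * K (m + (j + i)) < q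
  · have := h.d_one (h.next e (j + i)) c
    rw [hp (j + i) (by omega) (by omega) c, sub_self, zero_mul, add_zero] at this
    exact Or.inl this
  · exact Or.inr (h.d_two (h.next e (j + i)) c)

theorem Cyc.eq_of (h : Cyc q k K w) {m m' : ℕ} (hm : m < k) (hm' : m' < k) (e : K m = K m')
    (T : ℕ) (e' : w (m + T) = w (m' + T)) : m = m' := by
  have h1 : m + T ≡ m' + T [MOD k] := h.inj' (h.next e T) e'
  exact Nat.ModEq.eq_of_lt_of_lt (Nat.ModEq.add_right_cancel' T h1) hm hm'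

/-- The number of steps of the first kind among the times `n + s`, `j ≤ s < T`. -/
def ones (q : ℤ) (K : ℕ → ℤ) (j T n : ℕ) : ℕ :=
  ((Ico j T).filter fun s => 3 * K (n + s) < q).card

theorem Cyc.tree_core (h : Cyc q k K w) {Nt : ℕ → ℕ → ℕ → ℕ} (h0 : ∀ j p, 1 ≤ Nt j p 0)
    (h1 : ∀ j p d, 0 < d → Nt j (p / 2) (d / 3) +
      (if p % 2 = 0 then Nt j (p / 2) ((d - 1) / 3) else 0) ≤ Nt (j + 1) p d)
    (n₀ T j : ℕ) : ∀ (u p d : ℕ) (S : Finset ℕ), j + u = T → d < 3 ^ j →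
      (∀ s < j, p.testBit s = true → ¬3 * K (n₀ + j - 1 - s) < q) →
      (∀ m ∈ S, m < k ∧ K m = K n₀) →
      (∀ m ∈ S, ∀ m' ∈ S, ∀ s, j ≤ s → s < T → 3 * K (n₀ + s) < q →
        w (m + s) % 2 = w (m' + s) % 2) →
      (∀ m ∈ S, ∀ m' ∈ S, |w (m + T) - w (m' + T)| < (d + 1) * 3 ^ u) → S.card ≤ Nt j p d := by
  have hdvd : ∀ (j u : ℕ) (S : Finset ℕ), j + u = T → (∀ m ∈ S, m < k ∧ K m = K n₀) →
      (∀ m ∈ S, ∀ m' ∈ S, ∀ s, j ≤ s → s < T → 3 * K (n₀ + s) < q →
        w (m + s) % 2 = w (m' + s) % 2) →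
      ∀ m ∈ S, ∀ m' ∈ S, 3 ^ u ∣ w (m + T) - w (m' + T) := by
    intro j u S hT hS hP m hm m' hm'
    rw [← hT]
    exact h.dvd_diff ((hS m hm).2.trans (hS m' hm').2.symm) j u fun s s1 s2 c =>
      hP m hm m' hm' s s1 (hT ▸ s2) (h.next (hS m hm).2 s ▸ c)
  have zero : ∀ (j u p : ℕ) (S : Finset ℕ), j + u = T → (∀ m ∈ S, m < k ∧ K m = K n₀) →
      (∀ m ∈ S, ∀ m' ∈ S, ∀ s, j ≤ s → s < T → 3 * K (n₀ + s) < q →
        w (m + s) % 2 = w (m' + s) % 2) →
      (∀ m ∈ S, ∀ m' ∈ S, |w (m + T) - w (m' + T)| < (((0 : ℕ) : ℤ) + 1) * 3 ^ u) →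
      S.card ≤ Nt j p 0 := by
    intro j u p S hT hS hP hW
    refine le_trans (card_le_one.2 fun m hm m' hm' => ?_) (h0 j p)
    have h2 := hW m hm m' hm'
    rw [Nat.cast_zero, zero_add, one_mul] at h2
    exact h.eq_of (hS m hm).1 (hS m' hm').1 ((hS m hm).2.trans (hS m' hm').2.symm) T
      (sub_eq_zero.1 (Int.eq_zero_of_abs_lt_dvd (hdvd j u S hT hS hP m hm m' hm') h2))
  induction j with
  | zero =>
    intro u p d S hT hd _ hS hP hW
    obtain rfl : d = 0 := by omega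
    exact zero 0 u p S hT hS hP hW
  | succ j ih =>
    intro u p d S hT hd hp hS hP hW
    rcases Nat.eq_zero_or_pos d with rfl | hd0
    · exact zero _ u p S hT hS hP hW
    refine le_trans ?_ (h1 j p d hd0)
    have hM : (0 : ℤ) < 3 ^ u := by positivity
    have hT' : j + (u + 1) = T := by omega
    have hp' : ∀ s < j, (p / 2).testBit s = true → ¬3 * K (n₀ + j - 1 - s) < q := by
      intro s hs c
      have := hp (s + 1) (by omega) (by rw [Nat.testBit_succ]; exact c)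
      rwa [show n₀ + (j + 1) - 1 - (s + 1) = n₀ + j - 1 - s by omega] at this
    have hd1 : d / 3 < 3 ^ j := by rw [pow_succ] at hd; omega
    have hd2 : (d - 1) / 3 < 3 ^ j := by rw [pow_succ] at hd; omega
    have up : ∀ e : ℕ, ((e : ℤ) + 1) * 3 ^ u ≤ (((e / 3 : ℕ) : ℤ) + 1) * 3 ^ (u + 1) := fun e => by
      rw [pow_succ', ← mul_assoc]
      exact mul_le_mul_of_nonneg_right (by omega) hM.le
    have sub : ∀ (S' : Finset ℕ) (e : ℕ), S' ⊆ S → e / 3 < 3 ^ j →
        (3 * K (n₀ + j) < q → ∀ m ∈ S', ∀ m' ∈ S', w (m + j) % 2 = w (m' + j) % 2) →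
        (∀ m ∈ S', ∀ m' ∈ S', |w (m + T) - w (m' + T)| < (e + 1) * 3 ^ u) →
        S'.card ≤ Nt j (p / 2) (e / 3) := by
      intro S' e hs he hq hw
      refine ih (u + 1) (p / 2) (e / 3) S' hT' he hp' (fun m hm => hS m (hs hm))
        (fun m hm m' hm' s s1 s2 c => ?_) fun m hm m' hm' => (hw m hm m' hm').trans_le (up e)
      rcases s1.eq_or_lt with rfl | s3
      · exact hq c m hm m' hm'
      · exact hP m (hs hm) m' (hs hm') s s3 s2 c
    by_cases c : 3 * K (n₀ + j) < q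
    · have hp0 : p % 2 = 0 := by
        by_contra c'
        exact hp 0 (by omega) (by rw [Nat.testBit_zero]; simp; omega) c
      rw [if_pos hp0, ← card_filter_add_card_filter_not (s := S) fun m => w (m + j) % 2 = 0]
      have far : ∀ S' : Finset ℕ, S' ⊆ S →
          (∀ m ∈ S', ∀ m' ∈ S', |w (m + T) - w (m' + T)| < (((d - 1 : ℕ) : ℤ) + 1) * 3 ^ u) ∨
            ∃ m ∈ S', ∃ m' ∈ S', w (m + T) - w (m' + T) = d * 3 ^ u := by
        intro S' hs
        by_contra hn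
        rw [not_or] at hn
        refine hn.1 fun m hm m' hm' => ?_
        obtain ⟨z, hz⟩ := hdvd _ u S hT hS hP m (hs hm) m' (hs hm')
        have h2 := hW m (hs hm) m' (hs hm')
        rw [hz, abs_mul, abs_of_pos hM, mul_comm] at h2 ⊢
        rw [mul_lt_mul_iff_left₀ hM] at h2 ⊢
        have h3 : z ≠ d := fun e => hn.2 ⟨m, hm, m', hm', by rw [hz, e, mul_comm]⟩
        have h4 : z ≠ -d := fun e => hn.2 ⟨m', hm', m, hm, by rw [e] at hz; linear_combination -hz⟩
        rw [abs_lt] at h2 ⊢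
        omega
      have near : ∀ m ∈ S, ∀ m' ∈ S, w (m + T) - w (m' + T) ≤ d * 3 ^ u := by
        intro m hm m' hm'
        obtain ⟨z, hz⟩ := hdvd _ u S hT hS hP m hm m' hm'
        have h2 := (le_abs_self _).trans_lt (hW m hm m' hm')
        rw [hz, mul_comm] at h2 ⊢
        rw [mul_lt_mul_iff_left₀ hM] at h2
        exact mul_le_mul_of_nonneg_right (by omega) hM.le
      have s0 := filter_subset (fun m => w (m + j) % 2 = 0) S
      have s1 := filter_subset (fun m => ¬w (m + j) % 2 = 0) S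
      have p0 : ∀ m ∈ S.filter fun m => w (m + j) % 2 = 0, ∀ m' ∈ S.filter fun m =>
          w (m + j) % 2 = 0, w (m + j) % 2 = w (m' + j) % 2 := fun m hm m' hm' =>
        (mem_filter.1 hm).2.trans (mem_filter.1 hm').2.symm
      have p1 : ∀ m ∈ S.filter fun m => ¬w (m + j) % 2 = 0, ∀ m' ∈ S.filter fun m =>
          ¬w (m + j) % 2 = 0, w (m + j) % 2 = w (m' + j) % 2 := fun m hm m' hm' => by
        have := (mem_filter.1 hm).2
        have := (mem_filter.1 hm').2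
        omega
      have b0 := sub _ d s0 hd1 (fun _ => p0) fun m hm m' hm' => hW m (s0 hm) m' (s0 hm')
      have b1 := sub _ d s1 hd1 (fun _ => p1) fun m hm m' hm' => hW m (s1 hm) m' (s1 hm')
      rcases far _ s0 with f0 | ⟨a, ha, a', ha', f0⟩
      · have := sub _ (d - 1) s0 hd2 (fun _ => p0) f0
        omega
      rcases far _ s1 with f1 | ⟨b, hb, b', hb', f1⟩
      · have := sub _ (d - 1) s1 hd2 (fun _ => p1) f1
        omega
      have h2 := near a (s0 ha) b' (s1 hb')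
      have h3 := near b (s1 hb) a' (s0 ha')
      have h4 : a = b := h.eq_of (hS a (s0 ha)).1 (hS b (s1 hb)).1
        ((hS a (s0 ha)).2.trans (hS b (s1 hb)).2.symm) T (by omega)
      exact absurd (mem_filter.1 ha).2 (h4 ▸ (mem_filter.1 hb).2)
    · exact (sub S d Subset.rfl hd1 (fun c' => absurd c' c) hW).trans (Nat.le_add_right _ _)

/-- The tree bound for a set of times with the same value of `K`. -/
theorem Cyc.tree (h : Cyc q k K w) {Nt : ℕ → ℕ → ℕ → ℕ} (h0 : ∀ j p, 1 ≤ Nt j p 0)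
    (h1 : ∀ j p d, 0 < d → Nt j (p / 2) (d / 3) +
      (if p % 2 = 0 then Nt j (p / 2) ((d - 1) / 3) else 0) ≤ Nt (j + 1) p d)
    {n₀ T j p d : ℕ} {S : Finset ℕ} (hT : j ≤ T) (hd : d < 3 ^ j)
    (hp : ∀ s < j, p.testBit s = true → ¬3 * K (n₀ + j - 1 - s) < q)
    (hS : ∀ m ∈ S, m < k ∧ K m = K n₀)
    (hW : ∀ m ∈ S, ∀ m' ∈ S, |w (m + T) - w (m' + T)| < (d + 1) * 3 ^ (T - j)) :
    S.card ≤ 2 ^ ones q K j T n₀ * Nt j p d := by
  rw [ones, ← card_powerset, mul_comm]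
  refine card_le_mul_card_image_of_maps_to
    (f := fun m => ((Ico j T).filter fun s => 3 * K (n₀ + s) < q).filter fun s => w (m + s) % 2 = 0)
    (fun m _ => mem_powerset.2 (filter_subset _ _)) _ fun U _ => ?_
  refine h.tree_core h0 h1 n₀ T j (T - j) p d _ (by omega) hd hp
    (fun m hm => hS m (mem_filter.1 hm).1) (fun m hm m' hm' s s1 s2 c => ?_)
    fun m hm m' hm' => hW m (mem_filter.1 hm).1 m' (mem_filter.1 hm').1
  have h2 := Finset.ext_iff.1 ((mem_filter.1 hm).2.trans (mem_filter.1 hm').2.symm) s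
  simp only [mem_filter, mem_Ico, s1, s2, c, true_and] at h2
  omega

end Pool.Agent.Lib.MP_e49cd5_nt
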