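import Pool.Agent.Lib.MP_e49cd5_nt.Spec
import Pool.Agent.Lib.MP_e49cd5_nt.Tree

set_option autoImplicit false

namespace Pool.Agent.Lib.MP_e49cd5_nt

open Finset Chk

variable {q : ℤ} {k : ℕ} {K w : ℕ → ℤ}

/-- The slope `x / q` lies in the cell with the ends `lo`, `hi`. -/
def Cell (q x : ℤ) (lo hi : ℕ) : Prop := lo * q ≤ 98304 * x ∧ 98304 * x ≤ hi * q

theorem Cyc.qpos (h : Cyc q k K w) : 0 < q := by
  have := h.mem 0
  omega

theorem le_of_mul {a b : ℕ} (hq : 0 < q) (h : (a : ℤ) * q ≤ b * q) : a ≤ b := by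
  exact_mod_cast le_of_mul_le_mul_right h hq

theorem mul_le {a b : ℕ} (hq : 0 < q) (h : a ≤ b) : (a : ℤ) * q ≤ b * q :=
  mul_le_mul_of_nonneg_right (by exact_mod_cast h) hq.le

theorem gp_aux (M c a b : ℕ) :
    (M ≤ mx (Nat.sub M a) (mn (Nat.sub b M) c) + a ∧
      (b ≤ mx (Nat.sub M a) (mn (Nat.sub b M) c) + M ∨
        c ≤ mx (Nat.sub M a) (mn (Nat.sub b M) c))) ∧
      (c ≤ M → mx (Nat.sub M a) (mn (Nat.sub b M) c) ≤ M) := by
  rw [mx_eq, mn_eq, Nat.sub_eq, Nat.sub_eq]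
  omega

theorem Cyc.cell_one (h : Cyc q k K w) {n lo hi : ℕ} (c : 3 * K n < q) (hc : Cell q (K n) lo hi) :
    Nat.ble (Nat.mul 3 lo) 98304 = true ∧ Cell q (K (n + 1)) (l1 lo) (h1 hi) ∧
      98304 * |4 * K n - q| ≤ gp lo hi * q := by
  have hq := h.qpos
  have e := (h.one n c).1
  obtain ⟨c1, c2⟩ := hc
  have a1 : 3 * lo ≤ 98304 := le_of_mul hq (by push_cast; linarith)
  have a2 : 2 * l1 lo ≤ 3 * lo := Nat.mul_div_le _ _
  have a3 : 3 * hi ≤ 2 * h1 hi ∨ 98304 ≤ 2 * h1 hi := by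
    have : h1 hi = (mn (3 * hi) 98304 + 1) / 2 := rfl
    rw [mn_eq] at this
    omega
  have a4 : 98304 ≤ gp lo hi + 4 * lo ∧ (4 * hi ≤ gp lo hi + 98304 ∨ 32768 ≤ gp lo hi) :=
    (gp_aux 98304 32768 (4 * lo) (4 * hi)).1
  have b2 := mul_le hq a2
  have b4 := mul_le hq a4.1
  push_cast at b2 b4
  refine ⟨Nat.ble_eq_true_of_le a1, ⟨by linarith, ?_⟩, ?_⟩
  · rcases a3 with a3 | a3 <;> have b3 := mul_le hq a3 <;> push_cast at b3 <;> linarith
  · rcases abs_cases (4 * K n - q) with ⟨e1, -⟩ | ⟨e1, -⟩ <;> rw [e1]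
    · rcases a4.2 with a5 | a5 <;> have b5 := mul_le hq a5 <;> push_cast at b5 <;> linarith
    · linarith

theorem Cyc.cell_two (h : Cyc q k K w) {n lo hi : ℕ} (c : ¬3 * K n < q)
    (hc : Cell q (K n) lo hi) :
    Nat.ble (Nat.mul 3 hi) 98304 = false ∧ Cell q (K (n + 1)) (e2 lo) (e2 hi) := by
  have hq := h.qpos
  have e := (h.two n c).1
  have hm := (h.mem (n + 1)).1
  obtain ⟨c1, c2⟩ := hc
  have a1 : ¬3 * hi ≤ 98304 := fun a => by
    have b := mul_le hq a
    push_cast at b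
    linarith
  have a2 : e2 lo = 0 ∨ e2 lo + 98304 ≤ 3 * lo := by
    have : e2 lo = 3 * lo - 98304 := rfl
    omega
  have a3 : 3 * hi ≤ e2 hi + 98304 := by
    have : e2 hi = 3 * hi - 98304 := rfl
    omega
  have b3 := mul_le hq a3
  push_cast at b3
  refine ⟨Bool.eq_false_iff.2 fun a => a1 (Nat.le_of_ble_eq_true a), ?_, by linarith⟩
  rcases a2 with a2 | a2
  · rw [a2]
    push_cast
    linarith
  · have b2 := mul_le hq a2
    push_cast at b2
    linarith

theorem Cyc.cell_ini (h : Cyc q k K w) {A B N i n : ℕ} (hA : 0 < A) (h1 : (A : ℤ) * 3 ^ N ≤ q)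
    (h2 : q ≤ B * 3 ^ N) (hi : (i : ℤ) * 3 ^ N ≤ K n) (hi' : K n ≤ (i + 1) * 3 ^ N) :
    Cell q (K n) (clo B i) (chi A i) := by
  have hq := h.qpos
  have hm := h.mem n
  have hP : (0 : ℤ) < 3 ^ N := by positivity
  generalize (3 : ℤ) ^ N = P at *
  constructor
  · have a1 : clo B i * B ≤ 98304 * i := Nat.div_mul_le_self _ _
    have b1 := mul_le hP a1
    have b2 : (clo B i : ℤ) * q ≤ clo B i * (B * P) :=
      mul_le_mul_of_nonneg_left h2 (Nat.cast_nonneg _)
    push_cast at b1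
    linarith
  · have a1 : chi A i = mn (98304 * (i + 1) / A + 1) 49152 := rfl
    rw [mn_eq] at a1
    rcases le_total (98304 * (i + 1) / A + 1) 49152 with a2 | a2
    · rw [min_eq_left a2] at a1
      have a3 : 98304 * (i + 1) ≤ chi A i * A := by
        rw [a1, mul_comm _ A]
        exact (Nat.lt_mul_div_succ _ hA).le
      have b1 := mul_le hP a3
      have b2 : (chi A i : ℤ) * (A * P) ≤ chi A i * q :=
        mul_le_mul_of_nonneg_left h1 (Nat.cast_nonneg _)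
      push_cast at b1
      linarith
    · rw [a1, min_eq_right a2]
      push_cast
      linarith

theorem Cyc.al_cell (h : Cyc q k K w) (DA : ℕ) : ∀ n lo hi b m : ℕ, Cell q (K n) lo hi → 0 < m →
    (m : ℤ) ∣ q * b - K n → al DA lo hi b m = true := by
  induction DA with
  | zero => exact fun _ _ _ _ _ _ _ _ => rfl
  | succ DA ih =>
    intro n lo hi b m hc hm hd
    have e : al (DA + 1) lo hi b m = sel (Nat.beq (m % 2) 1) true
      (sel (sel (Nat.beq (b % 2) 0) (sel (Nat.ble (Nat.mul 3 lo) 98304)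
          (frc (l1 lo) fun lo' => frc (h1 hi) fun hi' =>
            frc (3 * (b / 2)) fun b' => frc (m / 2) fun m' => al DA lo' hi' b' m')
          false) false) true
        (sel (Nat.ble (Nat.mul 3 hi) 98304) false
          (frc (e2 lo) fun lo' => frc (e2 hi) fun hi' =>
            frc (3 * b + m - 1) fun b' => al DA lo' hi' b' m))) := rfl
    rw [e]
    simp only [frc_eq, sel_or, sel_and, sel_not, Bool.or_eq_true, Bool.and_eq_true, Nat.beq_eq]
    by_cases cm : m % 2 = 1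
    · exact Or.inl cm
    refine Or.inr ?_
    obtain ⟨u, hu⟩ := hd
    by_cases c : 3 * K n < q
    · obtain ⟨a1, a2, -⟩ := h.cell_one c hc
      have e1 := (h.one n c).1
      obtain ⟨m', rfl⟩ : ∃ m', m = 2 * m' := ⟨m / 2, by omega⟩
      obtain ⟨x, hx⟩ : ∃ x, K n = 2 * x := ⟨K n / 2, by omega⟩
      obtain ⟨y, hy⟩ : ∃ y, q = 2 * y + 1 := ⟨q / 2, by have := h.q2; omega⟩
      have e2 : (b : ℤ) = 2 * (m' * u + x - y * b) := by
        push_cast at hu
        linear_combination hu + hx - b * hy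
      obtain ⟨b', rfl⟩ : ∃ b', b = 2 * b' := ⟨b / 2, by omega⟩
      refine Or.inl ⟨by omega, a1, ih (n + 1) _ _ _ _ a2 (by omega) ⟨3 * u, ?_⟩⟩
      rw [Nat.mul_div_cancel_left _ (by norm_num), Nat.mul_div_cancel_left _ (by norm_num)]
      push_cast at hu ⊢
      linarith
    · obtain ⟨a1, a2⟩ := h.cell_two c hc
      have e1 := (h.two n c).1
      refine Or.inr ⟨by rw [a1]; rfl, ih (n + 1) _ _ _ _ a2 hm ⟨3 * u + q, ?_⟩⟩
      rw [Nat.cast_sub (by omega), e1]
      push_cast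
      linear_combination 3 * hu

theorem Cyc.al_ok (h : Cyc q k K w) {A B N i n : ℕ} (hA : 0 < A) (h1 : (A : ℤ) * 3 ^ N ≤ q)
    (h2 : q ≤ B * 3 ^ N) (hi : (i : ℤ) * 3 ^ N ≤ K n) (hi' : K n ≤ (i + 1) * 3 ^ N)
    (DA b m : ℕ) (hm : 0 < m) (hd : (m : ℤ) ∣ q * b - K n) :
    al DA (clo B i) (chi A i) b m = true :=
  h.al_cell DA n _ _ b m (h.cell_ini hA h1 h2 hi hi') hm hd

theorem om_succ (d lo hi : ℕ) : om (d + 1) lo hi =
    max (sel (Nat.ble (Nat.mul 3 lo) 98304) ((2 * om d (l1 lo) (h1 hi) + gp lo hi + 2) / 3) 0)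
      (sel (Nat.ble (Nat.mul 3 hi) 98304) 0 ((om d (e2 lo) (e2 hi) + 2) / 3)) := by
  have e : om (d + 1) lo hi = mx (sel (Nat.ble (Nat.mul 3 lo) 98304)
      (frc (l1 lo) fun lo' => frc (h1 hi) fun hi' => (2 * om d lo' hi' + gp lo hi + 2) / 3) 0)
    (sel (Nat.ble (Nat.mul 3 hi) 98304) 0
      (frc (e2 lo) fun lo' => frc (e2 hi) fun hi' => (om d lo' hi' + 2) / 3)) := rfl
  simpa only [frc_eq, mx_eq] using e

theorem om_le (d : ℕ) : ∀ lo hi, om d lo hi ≤ 98304 := by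
  induction d with
  | zero => exact fun _ _ => le_rfl
  | succ d ih =>
    intro lo hi
    have a1 := ih (l1 lo) (h1 hi)
    have a2 := ih (e2 lo) (e2 hi)
    have a3 : gp lo hi ≤ 98304 := (gp_aux 98304 32768 (4 * lo) (4 * hi)).2 (by norm_num)
    rw [om_succ, sel_eq, sel_eq]
    split_ifs <;> omega

theorem Cyc.om_ok (h : Cyc q k K w) (d : ℕ) : ∀ n n' lo hi : ℕ, K n = K n' →
    Cell q (K n) lo hi → 98304 * |w n - w n'| ≤ om d lo hi * q := by
  have hq := h.qpos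
  induction d with
  | zero =>
    intro n n' lo hi e _
    have := h.close e
    show _ ≤ ((98304 : ℕ) : ℤ) * q
    push_cast
    linarith
  | succ d ih =>
    intro n n' lo hi e hc
    by_cases c : 3 * K n < q
    · obtain ⟨a1, a2, a3⟩ := h.cell_one c hc
      have a4 := ih (n + 1) (n' + 1) _ _ (h.next e 1) a2
      have a5 : 2 * om d (l1 lo) (h1 hi) + gp lo hi ≤ 3 * om (d + 1) lo hi := by
        rw [om_succ, a1, sel_eq, if_pos rfl]
        omega
      have b5 := mul_le hq a5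
      push_cast at b5
      have a6 : 3 * |w n - w n'| ≤ 2 * |w (n + 1) - w (n' + 1)| + |4 * K n - q| := by
        have a7 := h.d_one e c
        simp only [abs_eq_max_neg]
        rcases Int.emod_two_eq_zero_or_one (w n) with p | p <;>
          rcases Int.emod_two_eq_zero_or_one (w n') with p' | p' <;>
          rw [p, p'] at a7 <;> omega
      linarith
    · obtain ⟨a1, a2⟩ := h.cell_two c hc
      have a4 := ih (n + 1) (n' + 1) _ _ (h.next e 1) a2
      have a5 : om d (e2 lo) (e2 hi) ≤ 3 * om (d + 1) lo hi := by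
        rw [om_succ, a1, sel_eq false, if_neg Bool.false_ne_true]
        omega
      have b5 := mul_le hq a5
      push_cast at b5
      rw [h.d_two e c, abs_mul, abs_of_pos (by norm_num : (0 : ℤ) < 3)] at a4
      linarith

theorem Nt_zero (j p : ℕ) : 1 ≤ Nt j p 0 := by cases j <;> exact le_rfl

theorem Nt_succ (j p d : ℕ) (hd : 0 < d) :
    Nt j (p / 2) (d / 3) + (if p % 2 = 0 then Nt j (p / 2) ((d - 1) / 3) else 0) ≤
      Nt (j + 1) p d := by
  have e : Nt (j + 1) p d = sel (Nat.beq d 0) 1 (frc (p / 2) fun p' =>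
      (frc (d / 3) fun d' => Nt j p' d') +
        sel (Nat.beq (p % 2) 0) (frc ((d - 1) / 3) fun d' => Nt j p' d') 0) := rfl
  rw [e]
  simp only [frc_eq, sel_eq, Nat.beq_eq]
  rw [if_neg hd.ne']

theorem Cyc.Nt_ok (h : Cyc q k K w) {B N n p e lo hi : ℕ} (hB : B ≤ 2000) (h2 : q ≤ B * 3 ^ N)
    (hc : Cell q (K (n + (8 + N + e))) lo hi)
    (hp : ∀ s < 8, p.testBit s = true → ¬3 * K (n + 8 - 1 - s) < q) (d : ℕ) :
    ((range k).filter fun m => K m = K 0).card ≤
      2 ^ ones q K 8 (8 + N + e) n * Nt 8 p (dv B d (3 ^ e) lo hi) := by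
  have a0 : dv B d (3 ^ e) lo hi = om d lo hi * B / (98304 * 3 ^ e) := rfl
  have a1 : om d lo hi * B < 98304 * 3 ^ e * (dv B d (3 ^ e) lo hi + 1) := by
    rw [a0]
    exact Nat.lt_mul_div_succ _ (by positivity)
  rw [← h.cnt_eq n]
  refine h.tree Nt_zero Nt_succ (by omega) ?_ hp
    (fun m hm => ⟨mem_range.1 (mem_filter.1 hm).1, (mem_filter.1 hm).2⟩) fun m hm m' hm' => ?_
  · rw [a0]
    refine lt_of_le_of_lt (b := B) (Nat.div_le_of_le_mul ?_) (by omega)
    exact Nat.mul_le_mul_right _ ((om_le d lo hi).trans (Nat.le_mul_of_pos_right _ (by positivity)))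
  · have e1 := h.next (mem_filter.1 hm).2 (8 + N + e)
    have e2 := h.next (mem_filter.1 hm').2 (8 + N + e)
    have a2 := h.om_ok d _ _ lo hi (e1.trans e2.symm) (e1 ▸ hc)
    have a3 : (om d lo hi : ℤ) * q ≤ om d lo hi * (B * 3 ^ N) :=
      mul_le_mul_of_nonneg_left h2 (Nat.cast_nonneg _)
    have a4 : ((om d lo hi * B : ℕ) : ℤ) * 3 ^ N <
        (98304 * 3 ^ e * (dv B d (3 ^ e) lo hi + 1) : ℕ) * 3 ^ N :=
      mul_lt_mul_of_pos_right (by exact_mod_cast a1) (by positivity)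
    rw [show 8 + N + e - 8 = N + e by omega, pow_add]
    push_cast at a4 ⊢
    linarith

theorem ones_succ (q : ℤ) (K : ℕ → ℤ) {j T : ℕ} (hT : j ≤ T) (n : ℕ) :
    ones q K j (T + 1) n = ones q K j T n + if 3 * K (n + T) < q then 1 else 0 := by
  unfold ones
  rw [card_filter, card_filter, sum_Ico_succ_top hT]

theorem Cyc.Lb_cell (h : Cyc q k K w) {B N n p : ℕ} (hB : B ≤ 2000) (h2 : q ≤ B * 3 ^ N)
    (hp : ∀ s < 8, p.testBit s = true → ¬3 * K (n + 8 - 1 - s) < q) (X EM : ℕ) :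
    ∀ e lo hi : ℕ, Cell q (K (n + (8 + N + e))) lo hi →
      ((range k).filter fun m => K m = K 0).card ≤
        2 ^ ones q K 8 (8 + N + e) n * Lb B X p EM (3 ^ e) lo hi := by
  induction EM with
  | zero =>
    intro e lo hi hc
    have a : Lb B X p 0 (3 ^ e) lo hi = frc (dv B X (3 ^ e) lo hi) fun d => Nt 8 p d := rfl
    rw [a, frc_eq]
    exact h.Nt_ok hB h2 hc hp X
  | succ EM ih =>
    intro e lo hi hc
    have a : Lb B X p (EM + 1) (3 ^ e) lo hi =
      frc (frc (dv B (EM + 1 + X) (3 ^ e) lo hi) fun d => Nt 8 p d) fun x =>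
        sel (Nat.ble x 1) x (frc (3 * 3 ^ e) fun p3' => mn x
          (mx (sel (Nat.ble (Nat.mul 3 lo) 98304)
              (frc (l1 lo) fun lo' => frc (h1 hi) fun hi' => 2 * Lb B X p EM p3' lo' hi') 0)
            (sel (Nat.ble (Nat.mul 3 hi) 98304) 0
              (frc (e2 lo) fun lo' => frc (e2 hi) fun hi' => Lb B X p EM p3' lo' hi')))) := rfl
    simp only [frc_eq, mn_eq, mx_eq, ← pow_succ'] at a
    have a0 := h.Nt_ok hB h2 hc hp (EM + 1 + X)
    rw [a, sel_eq]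
    split_ifs
    · exact a0
    rw [mul_min, le_min_iff]
    refine ⟨a0, ?_⟩
    have a1 := ones_succ q K (show 8 ≤ 8 + N + e by omega) n
    by_cases c : 3 * K (n + (8 + N + e)) < q
    · obtain ⟨b1, b2, -⟩ := h.cell_one c hc
      have b3 := ih (e + 1) _ _ b2
      rw [← add_assoc (8 + N), a1, if_pos c, pow_succ 2, mul_assoc] at b3
      rw [b1]
      exact b3.trans (Nat.mul_le_mul_left _ (le_max_left _ _))
    · obtain ⟨b1, b2⟩ := h.cell_two c hc
      have b3 := ih (e + 1) _ _ b2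
      rw [← add_assoc (8 + N), a1, if_neg c, add_zero] at b3
      rw [b1]
      exact b3.trans (Nat.mul_le_mul_left _ (le_max_right _ _))

theorem Cyc.Lb_ok (h : Cyc q k K w) {A B N i n p : ℕ} (hA : 0 < A) (hB : B ≤ 2000)
    (h1 : (A : ℤ) * 3 ^ N ≤ q) (h2 : q ≤ B * 3 ^ N) (hi : (i : ℤ) * 3 ^ N ≤ K (n + (8 + N)))
    (hi' : K (n + (8 + N)) ≤ (i + 1) * 3 ^ N)
    (hp : ∀ s < 8, p.testBit s = true → ¬3 * K (n + 8 - 1 - s) < q) (X EM : ℕ) :
    ((range k).filter fun m => K m = K 0).card ≤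
      2 ^ ones q K 8 (8 + N) n * Lb B X p EM 1 (clo B i) (chi A i) :=
  h.Lb_cell hB h2 hp X EM 0 _ _ (h.cell_ini hA h1 h2 hi hi')

end Pool.Agent.Lib.MP_e49cd5_nt
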