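import Pool.Agent.Lib.MP_e49cd5_nt.ChkOk

set_option autoImplicit false

namespace Pool.Agent.Lib.MP_e49cd5_nt

theorem ok_a : okR 1 500 = true := by decide +kernel

theorem ok_b : okR 501 500 = true := by decide +kernel

/-- There is no cycle with `q ≤ 1000`. -/
theorem Cyc.small {q : ℤ} {k : ℕ} {K w : ℕ → ℤ} (h : Cyc q k K w) : 1000 < q := by
  have h0 := h.mem 0
  have h1 := h.not_mem ok_a (by norm_num)
  have h2 := h.not_mem ok_b (by norm_num)
  omega

end Pool.Agent.Lib.MP_e49cd5_nt
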