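import Pool.Agent.Lib.MP_e49cd5_nt.Big
import Pool.Agent.Lib.MP_e49cd5_nt.Small
import Pool.Agent.Lib.MP_e49cd5_nt.Cert1
import Pool.Agent.Lib.MP_e49cd5_nt.Cert2
import Pool.Agent.Lib.MP_e49cd5_nt.Cert3
import Pool.Agent.Lib.MP_e49cd5_nt.Cert4
import Pool.Agent.Lib.MP_e49cd5_nt.Cert5
import Pool.Agent.Lib.MP_e49cd5_nt.Cert6
import Pool.Agent.Lib.MP_e49cd5_nt.Cert7
import Pool.Agent.Lib.MP_e49cd5_nt.Cert8

set_option autoImplicit false

namespace Pool.Agent.Lib.MP_e49cd5_nt

open Chk

variable {q : ℤ} {k : ℕ} {K w : ℕ → ℤ}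

theorem Cyc.pass (h : Cyc q k K w) {A B X EM DA R F TH N : ℕ}
    (hc : chk A B X EM DA R F TH = true) (hb : (Nat.ble 1 A && Nat.ble B 2000 && Nat.ble R 6) = true)
    (h1 : (A : ℤ) * 3 ^ N ≤ q) : (B : ℤ) * 3 ^ N ≤ q := by
  simp only [Bool.and_eq_true, Nat.ble_eq] at hb
  exact not_lt.1 (h.chk_ok hc hb.1.1 hb.1.2 hb.2 h1)

theorem Cyc.up (h : Cyc q k K w) {N : ℕ} (a : ((250 : ℕ) : ℤ) * 3 ^ N ≤ q) :
    ((750 : ℕ) : ℤ) * 3 ^ N ≤ q := by
  replace a := h.pass c250 rfl a
  replace a := h.pass c260 rfl a
  replace a := h.pass c267 rfl a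
  replace a := h.pass c277 rfl a
  replace a := h.pass c281 rfl a
  replace a := h.pass c289 rfl a
  replace a := h.pass c294 rfl a
  replace a := h.pass c305 rfl a
  replace a := h.pass c308 rfl a
  replace a := h.pass c314 rfl a
  replace a := h.pass c320 rfl a
  replace a := h.pass c326 rfl a
  replace a := h.pass c332 rfl a
  replace a := h.pass c341 rfl a
  replace a := h.pass c347 rfl a
  replace a := h.pass c353 rfl a
  replace a := h.pass c363 rfl a
  replace a := h.pass c373 rfl a
  replace a := h.pass c380 rfl a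
  replace a := h.pass c391 rfl a
  replace a := h.pass c398 rfl a
  replace a := h.pass c405 rfl a
  replace a := h.pass c413 rfl a
  replace a := h.pass c425 rfl a
  replace a := h.pass c437 rfl a
  replace a := h.pass c450 rfl a
  replace a := h.pass c456 rfl a
  replace a := h.pass c469 rfl a
  replace a := h.pass c478 rfl a
  replace a := h.pass c485 rfl a
  replace a := h.pass c499 rfl a
  replace a := h.pass c518 rfl a
  replace a := h.pass c528 rfl a
  replace a := h.pass c538 rfl a
  replace a := h.pass c543 rfl a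
  replace a := h.pass c551 rfl a
  replace a := h.pass c556 rfl a
  replace a := h.pass c572 rfl a
  replace a := h.pass c589 rfl a
  replace a := h.pass c600 rfl a
  replace a := h.pass c612 rfl a
  replace a := h.pass c636 rfl a
  replace a := h.pass c648 rfl a
  replace a := h.pass c660 rfl a
  replace a := h.pass c679 rfl a
  replace a := h.pass c692 rfl a
  replace a := h.pass c705 rfl a
  replace a := h.pass c726 rfl a
  exact h.pass c747 rfl a

/-- There is no cycle. -/
theorem Cyc.elim (h : Cyc q k K w) : False := by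
  have h1 : ∀ N : ℕ, ((250 : ℕ) : ℤ) * 3 ^ N ≤ q := by
    intro N
    induction N with
    | zero =>
      have := h.small
      push_cast
      omega
    | succ N ih =>
      have := h.up ih
      push_cast at this ⊢
      rw [pow_succ]
      linarith
  obtain ⟨N, hN⟩ := pow_unbounded_of_one_lt q (show (1 : ℤ) < 3 by norm_num)
  have h2 := h1 N
  have h3 : (0 : ℤ) < 3 ^ N := by positivity
  push_cast at h2
  linarith

end Pool.Agent.Lib.MP_e49cd5_nt
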