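import Mathlib
import Pool.Agent.Lib.MP_e49cd5_nt.NoCyc

set_option autoImplicit false

namespace Pool.Agent.Lib.MP_e49cd5_nt

/-- For every start with `a 0 ≥ -2`, `b 0 ≥ 0` the sequence of the rules applied is not
eventually periodic. -/
theorem noPeriod (a b : ℕ → ℤ) (a_ini : -2 ≤ a 0) (b_ini : 0 ≤ b 0)
    (a_rec : ∀ n, a (n + 1) = if b n / 2 < a n then a n - b n / 2 - 3 else 3 * a n + 5)
    (b_rec : ∀ n, b (n + 1) = if b n / 2 < a n then 3 * ((b n + 1) / 2) + 6 else b n - 2 * a n)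
    (l n₀ : ℕ) (hl : 0 < l) :
    ∃ n, n₀ ≤ n ∧ ¬(b (n + l) / 2 < a (n + l) ↔ b n / 2 < a n) := by
  by_contra hn
  obtain ⟨q, k, K, w, h⟩ :=
    Pool.Agent.Lib.MP_e49cd5_nt.Orb.cyc ⟨a_ini, b_ini, a_rec, b_rec⟩ hl (n₀ := n₀)
      fun n h => by_contra fun c => hn ⟨n, h, c⟩
  exact h.elim

end Pool.Agent.Lib.MP_e49cd5_nt
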