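import Pool.Agent.Lib.MP_e49cd5_nt.Bound

set_option autoImplicit false

namespace Pool.Agent.Lib.MP_e49cd5_nt

open Finset

variable {a b : ℕ → ℤ} {l : ℕ}

/-- The slopes along the sequence of rules. -/
def slope (a b : ℕ → ℤ) (y : ℚ) : ℕ → ℚ
  | 0 => y
  | n + 1 => if b n / 2 < a n then (3 * slope a b y n - 1) / 2 else 3 * slope a b y n

theorem slope_aff (a b : ℕ → ℤ) (n : ℕ) :
    ∃ α γ : ℚ, 1 ≤ α ∧ (0 < n → 1 < α) ∧ ∀ y, slope a b y n = α * y + γ := by
  induction n with
  | zero => exact ⟨1, 0, le_rfl, fun h => absurd h (lt_irrefl 0), fun y => by simp [slope]⟩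
  | succ n ih =>
    obtain ⟨α, γ, h1, -, h2⟩ := ih
    by_cases c : b n / 2 < a n
    · exact ⟨3 * α / 2, (3 * γ - 1) / 2, by linarith, fun _ => by linarith,
        fun y => by rw [slope, if_pos c, h2]; ring⟩
    · exact ⟨3 * α, 3 * γ, by linarith, fun _ => by linarith,
        fun y => by rw [slope, if_neg c, h2]; ring⟩

theorem per_mul {β : Type} {x : ℕ → β} (h : ∀ n, x (n + l) = x n) (e n : ℕ) :
    x (n + l * e) = x n := by
  induction e with
  | zero => rfl
  | succ e ih => rw [mul_add, mul_one, ← add_assoc, h, ih]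

theorem ex_slope (hl : 0 < l) (hc : ∀ n, b (n + l) / 2 < a (n + l) ↔ b n / 2 < a n) :
    ∃ (M R : ℤ) (U : ℕ → ℤ), 0 < M ∧ (∀ n, |U n| ≤ R) ∧ (∀ n, U (n + l) = U n) ∧
      (∀ n, b n / 2 < a n → 2 * U (n + 1) = 3 * U n - M) ∧
      ∀ n, ¬b n / 2 < a n → U (n + 1) = 3 * U n := by
  obtain ⟨α, γ, -, h1, h2⟩ := slope_aff a b l
  have h1 : 1 - α ≠ 0 := (sub_neg.2 (h1 hl)).ne
  set Y := slope a b (γ / (1 - α)) with hY
  have hp : ∀ n, Y (n + l) = Y n := by
    intro n
    induction n with
    | zero =>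
      rw [zero_add, hY, h2, slope]
      field_simp
      ring
    | succ n ih =>
      rw [add_right_comm, hY, slope, slope, ← hY, ih]
      exact if_congr (hc n) rfl rfl
  have hmod : ∀ n, Y n = Y (n % l) := fun n => by
    conv_lhs => rw [← Nat.mod_add_div n l]
    exact per_mul hp _ _
  have hint : ∀ n, ∃ u : ℤ, (u : ℚ) = (∏ i ∈ range l, (Y i).den : ℕ) * Y n := fun n => by
    obtain ⟨e, he⟩ := dvd_prod_of_mem (fun i => (Y i).den) (mem_range.2 (Nat.mod_lt n hl))
    refine ⟨e * (Y (n % l)).num, ?_⟩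
    rw [he, hmod n]
    push_cast
    rw [← Rat.mul_den_eq_num]
    ring
  choose U hU using hint
  have hUp : ∀ n, U (n + l) = U n := fun n => by
    have : (U (n + l) : ℚ) = U n := by rw [hU, hU, hp]
    exact_mod_cast this
  refine ⟨(∏ i ∈ range l, (Y i).den : ℕ), ∑ i ∈ range l, |U i|, U, ?_, fun n => ?_, hUp,
    fun n c => ?_, fun n c => ?_⟩
  · exact_mod_cast prod_pos fun i _ => (Y i).den_pos
  · have : U n = U (n % l) := by
      conv_lhs => rw [← Nat.mod_add_div n l]
      exact per_mul hUp _ _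
    rw [this]
    exact single_le_sum (f := fun i => |U i|) (fun i _ => abs_nonneg _)
      (mem_range.2 (Nat.mod_lt n hl))
  · have : (2 : ℚ) * U (n + 1) = 3 * U n - (∏ i ∈ range l, (Y i).den : ℕ) := by
      rw [hU, hU, hY, slope, if_pos c]
      ring
    exact_mod_cast this
  · have : (U (n + 1) : ℚ) = 3 * U n := by
      rw [hU, hU, hY, slope, if_neg c]
      ring
    exact_mod_cast this

/-- If the rules are periodic, the parities are eventually periodic as well. -/
theorem Orb.ex_same (h : Orb a b) (hl : 0 < l)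
    (hc : ∀ n, b (n + l) / 2 < a (n + l) ↔ b n / 2 < a n) :
    ∃ k, 0 < k ∧ ∃ N, ∀ n, Same a b (N + n + k) (N + n) := by
  obtain ⟨M, R, U, hM, hR, hUp, h1, h2⟩ := ex_slope hl hc
  have hR0 : 0 ≤ R := (abs_nonneg _).trans (hR 0)
  set V : ℕ → ℤ := fun n => M * a n - U n * (a n + b n) with hV
  have V1 : ∀ n, b n / 2 < a n →
      2 * V (n + 1) = 3 * V n + M * (b n % 2 - 6) - 2 * U (n + 1) * (3 + 2 * (b n % 2)) := by
    intro n c
    have h3 := h.one c
    have h4 : a (n + 1) + b (n + 1) = a n + b n + 3 + 2 * (b n % 2) := by omega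
    simp only [hV]
    rw [h4]
    linear_combination M * h3.1 - (a n + b n) * h1 n c
  have V2 : ∀ n, ¬b n / 2 < a n → V (n + 1) = 3 * V n + 5 * M - 5 * U (n + 1) := by
    intro n c
    have h3 := h.two c
    simp only [hV]
    rw [h3.1, h3.2, h2 n c]
    ring
  have hb : ∀ n, |V n| - (10 * M + 10 * R) ≤ 0 := by
    refine growZ (C := (M + R) * (a 0 + b 0 + 4)) (c := (M + R) * 5) (fun i hi => ?_) fun i => ?_
    · have h3 := abs_le.1 (hR (i + 1))
      rw [abs_eq_max_neg] at hi
      rw [abs_eq_max_neg, abs_eq_max_neg]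
      by_cases c : b i / 2 < a i
      · have h4 := V1 i c
        rcases Int.emod_two_eq_zero_or_one (b i) with p | p <;> rw [p] at h4 <;> omega
      · have h4 := V2 i c
        omega
    · have h3 := h.inv i
      have h4 := h.lin 0 i
      have h5 := h.inv 0
      rw [zero_add] at h4
      have h6 : |a i| ≤ a 0 + b 0 + 4 + 5 * i := by rw [abs_le]; omega
      have h7 : |a i + b i| ≤ a 0 + b 0 + 4 + 5 * i := by rw [abs_le]; omega
      have h8 := abs_sub (M * a i) (U i * (a i + b i))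
      rw [abs_mul, abs_mul, abs_of_pos hM] at h8
      have h9 := mul_le_mul (hR i) h7 (abs_nonneg _) hR0
      have h10 := mul_le_mul_of_nonneg_left h6 hM.le
      simp only [hV]
      linarith
  obtain ⟨i, -, j, -, hij, e⟩ := Set.Infinite.exists_lt_map_eq_of_mapsTo
    (f := fun n : ℕ => (n % l, V n, (a n + b n) % (2 * M))) Set.infinite_univ
    (t := ((range l ×ˢ Icc (-(10 * M + 10 * R)) (10 * M + 10 * R) ×ˢ Ico 0 (2 * M) : Finset _) :
      Set (ℕ × ℤ × ℤ)))
    (fun n _ => by
      have h3 := abs_le.1 (sub_nonpos.1 (hb n))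
      simp only [mem_coe, mem_product, mem_range, mem_Icc, mem_Ico]
      exact ⟨Nat.mod_lt n hl, h3, Int.emod_nonneg _ (by omega), Int.emod_lt_of_pos _ (by omega)⟩)
    (finite_toSet _)
  simp only [Prod.mk.injEq] at e
  obtain ⟨e1, e2, e3⟩ := e
  obtain ⟨q, hq⟩ := (Nat.modEq_iff_dvd' hij.le).1 e1
  obtain ⟨d, hd⟩ := Int.ModEq.dvd e3
  have hj : ∀ n, i + n + (j - i) = j + n := fun n => by omega
  have hcc : ∀ n, b (j + n) / 2 < a (j + n) ↔ b (i + n) / 2 < a (i + n) := fun n => by
    rw [← hj, hq]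
    exact iff_of_eq (per_mul (x := fun n => b n / 2 < a n) (fun n => propext (hc n)) q _)
  have hUU : ∀ n, U (j + n) = U (i + n) := fun n => by
    rw [← hj, hq]
    exact per_mul hUp q _
  have par : ∀ n, V (i + n) = V (j + n) →
      a (j + n) + b (j + n) - (a (i + n) + b (i + n)) = 2 * M * d →
      b (j + n) % 2 = b (i + n) % 2 := by
    intro n h3 h4
    simp only [hV] at h3
    rw [hUU] at h3
    have h5 : a (j + n) - a (i + n) = 2 * (U (i + n) * d) :=
      mul_left_cancel₀ hM.ne' (by linear_combination (-1) * h3 + U (i + n) * h4)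
    rw [mul_assoc] at h4
    omega
  have key : ∀ n, V (i + n) = V (j + n) ∧
      a (j + n) + b (j + n) - (a (i + n) + b (i + n)) = 2 * M * d := by
    intro n
    induction n with
    | zero => exact ⟨e2, hd⟩
    | succ n ih =>
      have h3 := par n ih.1 ih.2
      have h4 := hUU (n + 1)
      rw [← add_assoc, ← add_assoc] at *
      by_cases c : b (i + n) / 2 < a (i + n)
      · have c' := (hcc n).2 c
        have h5 := V1 _ c
        have h6 := V1 _ c'
        have h7 := h.one c
        have h8 := h.one c'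
        rw [h3, h4, ← ih.1, ← h5] at h6
        omega
      · have c' := fun c' => c ((hcc n).1 c')
        have h5 := V2 _ c
        have h6 := V2 _ c'
        have h7 := h.two c
        have h8 := h.two c'
        omega
  refine ⟨j - i, by omega, i, fun n => ?_⟩
  rw [hj]
  exact ⟨hcc n, par n (key n).1 (key n).2⟩

theorem Orb.main (h : Orb a b) (hl : 0 < l) {n₀ : ℕ}
    (hc : ∀ n, n₀ ≤ n → (b (n + l) / 2 < a (n + l) ↔ b n / 2 < a n)) :
    ∃ k N, 0 < k ∧ k ≤ 3 ^ 5800 ∧ ∀ n, N ≤ n → Same a b (n + k) n ∧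
      a (n + k + k) - a (n + k) = a (n + k) - a n ∧
      b (n + k + k) - b (n + k) = b (n + k) - b n := by
  have hex : ∃ k, 0 < k ∧ ∃ N, ∀ n, Same a b (N + n + k) (N + n) := by
    obtain ⟨k, hk, N, hN⟩ := (h.shift n₀).ex_same hl fun n => by
      have := hc (n₀ + n) (by omega)
      rwa [add_assoc] at this
    refine ⟨k, hk, n₀ + N, fun n => ?_⟩
    have := hN n
    simp only [Same, ← add_assoc] at this ⊢
    exact this
  classical
  obtain ⟨hk, N, hN⟩ := Nat.find_spec hex
  have hP : Per (fun n => a (N + n)) (fun n => b (N + n)) (Nat.find hex) :=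
    ⟨h.shift N, hk, fun n => by
      have := hN n
      simp only [Same, ← add_assoc] at this ⊢
      exact this⟩
  refine ⟨Nat.find hex, N, hk, hP.bound fun k' N' h1 h2 h3 => ?_, fun n hn => ?_⟩
  · refine Nat.find_min hex h2 ⟨h1, N + N', fun n => ?_⟩
    have := h3 n
    simp only [Same, ← add_assoc] at this ⊢
    exact this
  · obtain ⟨n, rfl⟩ := Nat.exists_eq_add_of_le hn
    have h1 := hP.dA_per n
    have h2 := hP.dB_per n
    simp only [dA, ← add_assoc] at h1 h2
    exact ⟨hN n, h1, h2⟩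

end Pool.Agent.Lib.MP_e49cd5_nt
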