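import Mathlib
import Pool.Agent.Lib.MP_e49cd5_nt.Par

set_option autoImplicit false

namespace Pool.Agent.Lib.MP_e49cd5_nt.OldBounded

/-- For every start with `a 0 ≥ -2`, `b 0 ≥ 0`: if the sequence of the rules applied is eventually
periodic, then the orbit is eventually periodic up to a translation, with a period of at most
`3 ^ 5800`. -/
theorem result (a b : ℕ → ℤ) (a_ini : -2 ≤ a 0) (b_ini : 0 ≤ b 0)
    (a_rec : ∀ n, a (n + 1) = if b n / 2 < a n then a n - b n / 2 - 3 else 3 * a n + 5)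
    (b_rec : ∀ n, b (n + 1) = if b n / 2 < a n then 3 * ((b n + 1) / 2) + 6 else b n - 2 * a n)
    (l n₀ : ℕ) (hl : 0 < l)
    (hper : ∀ n, n₀ ≤ n → (b (n + l) / 2 < a (n + l) ↔ b n / 2 < a n)) :
    ∃ k N : ℕ, 0 < k ∧ k ≤ 3 ^ 5800 ∧ ∀ n, N ≤ n →
      (b (n + k) / 2 < a (n + k) ↔ b n / 2 < a n) ∧ b (n + k) % 2 = b n % 2 ∧
      a (n + 2 * k) - a (n + k) = a (n + k) - a n ∧
      b (n + 2 * k) - b (n + k) = b (n + k) - b n := by
  obtain ⟨k, N, h1, h2, h3⟩ :=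
    Pool.Agent.Lib.MP_e49cd5_nt.Orb.main ⟨a_ini, b_ini, a_rec, b_rec⟩ hl hper
  refine ⟨k, N, h1, h2, fun n hn => ?_⟩
  obtain ⟨h4, h5, h6⟩ := h3 n hn
  rw [two_mul, ← add_assoc]
  exact ⟨h4.1, h4.2, h5, h6⟩

end Pool.Agent.Lib.MP_e49cd5_nt.OldBounded
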