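import Pool.Agent.Lib.MP_e49cd5_nt.Aux1

set_option autoImplicit false

namespace Pool.Agent.Lib.MP_e49cd5_nt

open Finset

/-- An orbit of the recurrence that starts in the invariant region. -/
structure Orb (a b : ℕ → ℤ) : Prop where
  a0 : -2 ≤ a 0
  b0 : 0 ≤ b 0
  ha : ∀ n, a (n + 1) = if b n / 2 < a n then a n - b n / 2 - 3 else 3 * a n + 5
  hb : ∀ n, b (n + 1) = if b n / 2 < a n then 3 * ((b n + 1) / 2) + 6 else b n - 2 * a n

variable {a b : ℕ → ℤ}

theorem Orb.one (h : Orb a b) {n : ℕ} (c : b n / 2 < a n) :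
    2 * a (n + 1) = 2 * a n - b n + b n % 2 - 6 ∧
      2 * b (n + 1) = 3 * b n + 3 * (b n % 2) + 12 := by
  have h1 := h.ha n
  have h2 := h.hb n
  rw [if_pos c] at h1 h2
  omega

theorem Orb.two (h : Orb a b) {n : ℕ} (c : ¬b n / 2 < a n) :
    a (n + 1) = 3 * a n + 5 ∧ b (n + 1) = b n - 2 * a n := by
  have h1 := h.ha n
  have h2 := h.hb n
  rw [if_neg c] at h1 h2
  exact ⟨h1, h2⟩

theorem Orb.inv (h : Orb a b) (n : ℕ) : -2 ≤ a n ∧ 0 ≤ b n := by
  induction n with
  | zero => exact ⟨h.a0, h.b0⟩
  | succ n ih =>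
    by_cases c : b n / 2 < a n
    · have := h.one c
      omega
    · have := h.two c
      omega

theorem Orb.lin (h : Orb a b) (n i : ℕ) :
    a n + b n + 3 * i ≤ a (n + i) + b (n + i) ∧ a (n + i) + b (n + i) ≤ a n + b n + 5 * i := by
  induction i with
  | zero => simp
  | succ i ih =>
    rw [← add_assoc]
    push_cast
    by_cases c : b (n + i) / 2 < a (n + i)
    · have := h.one c
      omega
    · have := h.two c
      omega

theorem Orb.shift (h : Orb a b) (N : ℕ) : Orb (fun n => a (N + n)) (fun n => b (N + n)) :=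
  ⟨(h.inv _).1, (h.inv _).2, fun n => h.ha (N + n), fun n => h.hb (N + n)⟩

/-- The same rule applies at the times `n` and `n'`, and `b` has the same parity. -/
def Same (a b : ℕ → ℤ) (n n' : ℕ) : Prop :=
  (b n / 2 < a n ↔ b n' / 2 < a n') ∧ b n % 2 = b n' % 2

/-- An orbit whose rules and parities have the period `k`. -/
structure Per (a b : ℕ → ℤ) (k : ℕ) : Prop extends Orb a b where
  pos : 0 < k
  same : ∀ n, Same a b (n + k) n

/-- The gain of `a` over one period. -/
def dA (a : ℕ → ℤ) (k n : ℕ) : ℤ := a (n + k) - a n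

/-- The gain of `a + b` over one period. -/
def dD (a b : ℕ → ℤ) (k : ℕ) : ℤ := a k + b k - (a 0 + b 0)

variable {k : ℕ}

theorem Per.sum (h : Per a b k) (n : ℕ) : dA a k n + dA b k n = dD a b k := by
  induction n with
  | zero => simp only [dA, dD, zero_add]; ring
  | succ n ih =>
    have hs := h.same n
    unfold Same at hs
    unfold dA at ih ⊢
    rw [add_right_comm n 1 k]
    by_cases c : b n / 2 < a n
    · have h1 := h.toOrb.one c
      have h2 := h.toOrb.one (hs.1.2 c)
      omega
    · have h1 := h.toOrb.two c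
      have h2 := h.toOrb.two (fun c' => c (hs.1.1 c'))
      omega

theorem Per.dD_mem (h : Per a b k) : 3 * (k : ℤ) ≤ dD a b k ∧ dD a b k ≤ 5 * k := by
  have := h.toOrb.lin 0 k
  rw [zero_add] at this
  unfold dD
  omega

theorem Per.one (h : Per a b k) {n : ℕ} (c : b n / 2 < a n) :
    2 * dA a k (n + 1) = 3 * dA a k n - dD a b k := by
  have hs := h.same n
  have h0 := h.sum n
  have h1 := h.toOrb.one c
  have h2 := h.toOrb.one (hs.1.2 c)
  have h3 := hs.2
  unfold dA at h0 ⊢
  rw [add_right_comm n 1 k]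
  omega

theorem Per.two (h : Per a b k) {n : ℕ} (c : ¬b n / 2 < a n) :
    dA a k (n + 1) = 3 * dA a k n := by
  have hs := h.same n
  have h1 := h.toOrb.two c
  have h2 := h.toOrb.two (fun c' => c (hs.1.1 c'))
  unfold dA
  rw [add_right_comm n 1 k]
  omega

theorem Per.dA_per (h : Per a b k) (n : ℕ) : dA a k (n + k) = dA a k n := by
  have := growZ (x := fun n => |dA a k (n + k) - dA a k n|)
    (C := 4 * (a 0 + b 0 + 2) + 40 * k) (c := 20) (fun i _ => ?_) (fun i => ?_) n
  · exact sub_eq_zero.1 (abs_nonpos_iff.1 this)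
  · have hs := (h.same i).1
    rw [add_right_comm i 1 k]
    by_cases c : b i / 2 < a i
    · have h1 := h.one c
      have h2 := h.one (hs.2 c)
      rw [abs_eq_max_neg, abs_eq_max_neg]
      omega
    · have h1 := h.two c
      have h2 := h.two (fun c' => c (hs.1 c'))
      rw [abs_eq_max_neg, abs_eq_max_neg]
      omega
  · have h1 := (h.toOrb.lin 0 i).2
    have h2 := (h.toOrb.lin 0 (i + k)).2
    have h3 := (h.toOrb.lin 0 (i + k + k)).2
    have h4 := h.toOrb.inv i
    have h5 := h.toOrb.inv (i + k)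
    have h6 := h.toOrb.inv (i + k + k)
    have h7 := h.toOrb.inv 0
    rw [zero_add] at h1 h2 h3
    push_cast at h2 h3
    unfold dA
    rw [abs_eq_max_neg]
    omega

theorem Per.dB_per (h : Per a b k) (n : ℕ) : dA b k (n + k) = dA b k n := by
  have h1 := h.sum n
  have h2 := h.sum (n + k)
  have h3 := h.dA_per n
  omega

theorem dA_nonneg {x : ℕ → ℤ} (hp : ∀ n, dA x k (n + k) = dA x k n) (hb : ∀ n, -2 ≤ x n)
    (n : ℕ) : 0 ≤ dA x k n := by
  have h1 : ∀ r : ℕ, x (n + r * k) = x n + r * dA x k n ∧ dA x k (n + r * k) = dA x k n := by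
    intro r
    induction r with
    | zero => simp
    | succ r ih =>
      rw [add_mul, one_mul, ← add_assoc, hp]
      refine ⟨?_, ih.2⟩
      have := ih.2
      rw [dA, ih.1] at this
      push_cast
      linarith
  by_contra hn
  have h2 := (h1 (x n + 3).toNat).1
  have h3 := hb (n + (x n + 3).toNat * k)
  have h4 := hb n
  rw [Int.toNat_of_nonneg (by omega)] at h2
  nlinarith

theorem Per.dA_nn (h : Per a b k) (n : ℕ) : 0 ≤ dA a k n ∧ dA a k n ≤ dD a b k := by
  have h1 := dA_nonneg h.dA_per (fun n => (h.toOrb.inv n).1) n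
  have h2 := dA_nonneg h.dB_per (fun n => by have := (h.toOrb.inv n).2; omega) n
  have h3 := h.sum n
  omega

theorem lt_of_step {x : ℕ → ℤ} {n : ℕ} (hx : ∀ i, x (n + i) < x (n + i + 1)) (hk : 0 < k) :
    0 < dA x k n := by
  have : StrictMono fun i => x (n + i) := strictMono_nat_of_lt_succ hx
  have := this hk
  unfold dA
  simp only [add_zero] at this
  omega

theorem Per.dA_pos (h : Per a b k) (n : ℕ) : 0 < dA a k n ∧ dA a k n < dD a b k := by
  have hD := h.dD_mem.1
  have hk := h.pos
  have h0 := h.dA_nn n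
  constructor
  · by_contra hn
    have key : ∀ m, dA a k m = 0 → ¬b m / 2 < a m := fun m hm c => by
      have h1 := h.one c
      have h2 := h.dA_nn (m + 1)
      omega
    have h1 : ∀ i, dA a k (n + i) = 0 := by
      intro i
      induction i with
      | zero => rw [add_zero]; omega
      | succ i ih => rw [← add_assoc, h.two (key _ ih), ih, mul_zero]
    refine hn (lt_of_step (fun i => ?_) hk)
    have h2 := h.toOrb.two (key _ (h1 i))
    have h3 := h.toOrb.inv (n + i)
    omega
  · by_contra hn
    have key : ∀ m, dA a k m = dD a b k → b m / 2 < a m := fun m hm => by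
      by_contra c
      have h1 := h.two c
      have h2 := h.dA_nn (m + 1)
      omega
    have h1 : ∀ i, dA a k (n + i) = dD a b k := by
      intro i
      induction i with
      | zero => rw [add_zero]; omega
      | succ i ih =>
        have := h.one (key _ ih)
        rw [← add_assoc]
        omega
    have h4 : 0 < dA b k n := lt_of_step (fun i => by
      have h2 := h.toOrb.one (key _ (h1 i))
      have h3 := h.toOrb.inv (n + i)
      omega) hk
    have h5 := h.sum n
    omega

theorem Per.rule (h : Per a b k) (n : ℕ) : b n / 2 < a n ↔ dD a b k < 3 * dA a k n := by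
  have h0 := h.dA_pos (n + 1)
  by_cases c : b n / 2 < a n
  · have := h.one c
    omega
  · have := h.two c
    omega

theorem Per.next (h : Per a b k) {n n' : ℕ} (e : dA a k n = dA a k n') (i : ℕ) :
    dA a k (n + i) = dA a k (n' + i) := by
  induction i with
  | zero => exact e
  | succ i ih =>
    have h1 := h.rule (n + i)
    have h2 := h.rule (n' + i)
    rw [← add_assoc, ← add_assoc]
    by_cases c : b (n + i) / 2 < a (n + i)
    · have h3 := h.one c
      have h4 := h.one (n := n' + i) (by omega)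
      omega
    · have h3 := h.two c
      have h4 := h.two (n := n' + i) (by omega)
      omega

theorem Per.next_rule (h : Per a b k) {n n' : ℕ} (e : dA a k n = dA a k n') (i : ℕ) :
    b (n + i) / 2 < a (n + i) ↔ b (n' + i) / 2 < a (n' + i) := by
  rw [h.rule, h.rule, h.next e]

theorem Per.ex_one (h : Per a b k) (n : ℕ) : ∃ i, b (n + i) / 2 < a (n + i) := by
  by_contra hn
  have hn : ∀ i, ¬b (n + i) / 2 < a (n + i) := fun i c => hn ⟨i, c⟩
  have h1 : 0 < dA (dA a k) k n := lt_of_step (fun i => by
    have h2 := h.two (hn i)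
    have h3 := h.dA_pos (n + i)
    omega) h.pos
  rw [dA, h.dA_per] at h1
  omega

theorem Per.pow_dvd (h : Per a b k) (r : ℕ) :
    2 ^ r ∣ 2 * dD a b k → ∀ n, 2 ^ r ∣ dA b k n := by
  induction r with
  | zero => intro _ n; simp
  | succ r ih =>
    intro hr n
    have h0 := ih ((pow_dvd_pow 2 (Nat.le_succ r)).trans hr)
    have hc : IsCoprime ((2 : ℤ) ^ (r + 1)) 3 :=
      IsCoprime.pow_left (⟨-1, 1, by norm_num⟩ : IsCoprime (2 : ℤ) 3)
    have first : ∀ m, b m / 2 < a m → 2 ^ (r + 1) ∣ dA b k m := fun m c => by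
      have h1 := h.one c
      have h2 := h.sum m
      have h3 := h.sum (m + 1)
      have h4 : 3 * dA b k m = dA b k (m + 1) * 2 := by omega
      refine hc.dvd_of_dvd_mul_left ?_
      rw [h4, pow_succ]
      exact mul_dvd_mul_right (h0 _) 2
    obtain ⟨i, hi⟩ := h.ex_one n
    induction i generalizing n with
    | zero => exact first n hi
    | succ i ih2 =>
      by_cases c : b n / 2 < a n
      · exact first n c
      · have h1 := h.two c
        have h2 := h.sum n
        have h3 := h.sum (n + 1)
        have h4 : 3 * dA b k n = dA b k (n + 1) + 2 * dD a b k := by omega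
        refine hc.dvd_of_dvd_mul_left ?_
        rw [h4]
        exact dvd_add (ih2 (n + 1) (by rwa [add_right_comm, add_assoc])) hr

theorem Per.even (h : Per a b k) {n : ℕ} {x d : ℤ} (e : dD a b k * x = d * dA b k n) :
    2 ∣ x := by
  have hD := h.dD_mem.1
  have hk := h.pos
  obtain ⟨r, D, hodd, hD'⟩ := Nat.exists_eq_two_pow_mul_odd
    (n := (dD a b k).toNat) (by omega)
  have h1 : dD a b k = 2 ^ r * D := by
    have : ((dD a b k).toNat : ℤ) = dD a b k := Int.toNat_of_nonneg (by omega)
    rw [← this, hD']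
    push_cast
    rfl
  obtain ⟨y, hy⟩ := h.pow_dvd (r + 1) ⟨D, by rw [h1]; ring⟩ n
  rw [h1, hy] at e
  have h2 : (D : ℤ) * x = 2 * (d * y) :=
    mul_left_cancel₀ (a := (2 : ℤ) ^ r) (by positivity) (by linear_combination e)
  obtain ⟨u, hu⟩ := hodd
  exact ⟨d * y - u * x, by rw [hu] at h2; push_cast at h2; linear_combination h2⟩

end Pool.Agent.Lib.MP_e49cd5_nt
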