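import Mathlib

set_option autoImplicit false

namespace Pool.Agent.Lib.MP_e49cd5_nt.Chk

/-- Evaluate `x` before it is passed on. -/
noncomputable def frc {α : Type} (x : ℕ) (f : ℕ → α) : α :=
  Nat.rec (motive := fun _ => α) (f 0) (fun n _ => f n.succ) x

/-- Case distinction. -/
noncomputable def sel {α : Type} (c : Bool) (x y : α) : α := Bool.rec (motive := fun _ => α) y x c

/-- Maximum. -/
def mx (a b : ℕ) : ℕ := Nat.add a (Nat.sub b a)

/-- Minimum. -/
def mn (a b : ℕ) : ℕ := Nat.sub a (Nat.sub a b)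

/-- Lower end of the image of a cell under the first rule. -/
def l1 (lo : ℕ) : ℕ := Nat.div (Nat.mul 3 lo) 2

/-- Upper end of the image of a cell under the first rule. -/
def h1 (hi : ℕ) : ℕ := Nat.div (Nat.succ (mn (Nat.mul 3 hi) 98304)) 2

/-- Image of an end of a cell under the second rule. -/
def e2 (x : ℕ) : ℕ := Nat.sub (Nat.mul 3 x) 98304

/-- Bound for the jump at the first rule. -/
def gp (lo hi : ℕ) : ℕ :=
  mx (Nat.sub 98304 (Nat.mul 4 lo)) (mn (Nat.sub (Nat.mul 4 hi) 98304) 32768)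

/-- Bound for the width of a fibre. -/
noncomputable def om (dep : ℕ) : ℕ → ℕ → ℕ :=
  Nat.rec (motive := fun _ => ℕ → ℕ → ℕ) (fun _ _ => 98304) (fun _ ih lo hi =>
    mx (sel (Nat.ble (Nat.mul 3 lo) 98304)
        (frc (l1 lo) fun lo' => frc (h1 hi) fun hi' =>
          Nat.div (Nat.add (Nat.add (Nat.mul 2 (ih lo' hi')) (gp lo hi)) 2) 3) 0)
      (sel (Nat.ble (Nat.mul 3 hi) 98304) 0
        (frc (e2 lo) fun lo' => frc (e2 hi) fun hi' => Nat.div (Nat.add (ih lo' hi') 2) 3))) dep

/-- The tree count. -/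
noncomputable def Nt (j : ℕ) : ℕ → ℕ → ℕ :=
  Nat.rec (motive := fun _ => ℕ → ℕ → ℕ) (fun _ _ => 1) (fun _ ih p d =>
    sel (Nat.beq d 0) 1 (frc (Nat.div p 2) fun p' =>
      Nat.add (frc (Nat.div d 3) fun d' => ih p' d')
        (sel (Nat.beq (Nat.mod p 2) 0) (frc (Nat.div (Nat.sub d 1) 3) fun d' => ih p' d') 0))) j

/-- The width in units of the modulus. -/
noncomputable def dv (B dep p3 lo hi : ℕ) : ℕ :=
  Nat.div (Nat.mul (om dep lo hi) B) (Nat.mul 98304 p3)

/-- Bound for the size of a fibre. -/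
noncomputable def Lb (B X p em : ℕ) : ℕ → ℕ → ℕ → ℕ :=
  Nat.rec (motive := fun _ => ℕ → ℕ → ℕ → ℕ)
    (fun p3 lo hi => frc (dv B X p3 lo hi) fun d => Nt 8 p d)
    (fun n ih p3 lo hi =>
      frc (frc (dv B (Nat.add (Nat.succ n) X) p3 lo hi) fun d => Nt 8 p d) fun x =>
        sel (Nat.ble x 1) x (frc (Nat.mul 3 p3) fun p3' => mn x
          (mx (sel (Nat.ble (Nat.mul 3 lo) 98304)
              (frc (l1 lo) fun lo' => frc (h1 hi) fun hi' => Nat.mul 2 (ih p3' lo' hi')) 0)
            (sel (Nat.ble (Nat.mul 3 hi) 98304) 0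
              (frc (e2 lo) fun lo' => frc (e2 hi) fun hi' => ih p3' lo' hi'))))) em

/-- The test by the next steps. -/
noncomputable def al (dep : ℕ) : ℕ → ℕ → ℕ → ℕ → Bool :=
  Nat.rec (motive := fun _ => ℕ → ℕ → ℕ → ℕ → Bool) (fun _ _ _ _ => true) (fun _ ih lo hi b m =>
    sel (Nat.beq (Nat.mod m 2) 1) true
      (sel (sel (Nat.beq (Nat.mod b 2) 0) (sel (Nat.ble (Nat.mul 3 lo) 98304)
          (frc (l1 lo) fun lo' => frc (h1 hi) fun hi' =>
            frc (Nat.mul 3 (Nat.div b 2)) fun b' => frc (Nat.div m 2) fun m' => ih lo' hi' b' m')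
          false) false) true
        (sel (Nat.ble (Nat.mul 3 hi) 98304) false
          (frc (e2 lo) fun lo' => frc (e2 hi) fun hi' =>
            frc (Nat.sub (Nat.add (Nat.mul 3 b) m) 1) fun b' => ih lo' hi' b' m)))) dep

/-- Lower end of the cell of the index `i`. -/
def clo (B i : ℕ) : ℕ := Nat.div (Nat.mul 98304 i) B

/-- Upper end of the cell of the index `i`. -/
def chi (A i : ℕ) : ℕ := mn (Nat.succ (Nat.div (Nat.mul 98304 (Nat.succ i)) A)) 49152

/-- Values packed in lanes of ten bits. -/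
noncomputable def pk (f : ℕ → ℕ) (n : ℕ) : ℕ :=
  Nat.rec (motive := fun _ => ℕ) 0
    (fun i ih => Nat.add ih (Nat.shiftLeft (f i) (Nat.mul 10 i))) n

/-- Union of masks. -/
noncomputable def orr (f : ℕ → ℕ) (n : ℕ) : ℕ :=
  Nat.rec (motive := fun _ => ℕ) 0 (fun i ih => Nat.lor ih (f i)) n

/-- The multiples of `m`. -/
noncomputable def res (n m : ℕ) : ℕ := pk (fun i => sel (Nat.beq (Nat.mod i m) 0) 1 0) n

/-- All indices. -/
noncomputable def uu (n : ℕ) : ℕ := pk (fun _ => 1) n

/-- The indices that pass the test by the next steps. -/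
noncomputable def alm (A B n DA m b : ℕ) : ℕ :=
  pk (fun i => frc (clo B i) fun lo => frc (chi A i) fun hi => sel (al DA lo hi b m) 1 0) n

/-- The mask of a leaf. -/
noncomputable def qleaf (A B n DA m mu be : ℕ) : ℕ :=
  orr (fun s => Nat.land (frc (Nat.mod (Nat.add be (Nat.mul s mu)) m) fun b => alm A B n DA m b)
    (Nat.shiftLeft (res n m) (Nat.mul 10 s))) m

/-- Trees of masks. -/
inductive QT : Type
  | leaf : ℕ → QT
  | node : ℕ → QT → QT → QT → QT → QT

/-- The mask at the root. -/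
noncomputable def QT.msk (t : QT) : ℕ :=
  QT.rec (motive := fun _ => ℕ) (fun m => m) (fun m _ _ _ _ _ _ _ _ => m) t

/-- A node with the union of the masks of its children. -/
noncomputable def nd (a b c d : QT) : QT :=
  QT.node (Nat.lor (Nat.lor a.msk b.msk) (Nat.lor c.msk d.msk)) a b c d

/-- The tree of all residues. -/
noncomputable def bld (A B n DA fu : ℕ) : ℕ → ℕ → ℕ → QT :=
  Nat.rec (motive := fun _ => ℕ → ℕ → ℕ → QT)
    (fun m mu be => QT.leaf (qleaf A B n DA m mu be))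
    (fun _ ih m mu be => frc (Nat.mul 2 m) fun m' => frc (Nat.add mu m) fun mu' =>
      frc (Nat.add be m) fun be' => nd (ih m' mu be) (ih m' mu be') (ih m' mu' be) (ih m' mu' be'))
    fu

/-- The check along a tree of masks. -/
noncomputable def qc (c x : ℕ) (t : QT) : Bool :=
  QT.rec (motive := fun _ => Bool) (fun m => Nat.ble (Nat.mod (Nat.land x m) 1023) c)
    (fun m _ _ _ _ r1 r2 r3 r4 => sel (Nat.ble (Nat.mod (Nat.land x m) 1023) c) true
      (sel r1 (sel r2 (sel r3 r4 false) false) false)) t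

/-- The check along two trees. -/
noncomputable def qc2 (c x : ℕ) (t0 t1 : QT) : Bool := sel (qc c x t0) (qc c x t1) false

/-- The direct count, then the check along two trees. -/
noncomputable def qc3 (c tc x : ℕ) (t0 t1 : QT) : Bool :=
  frc (Nat.mod x 1023) fun z => sel (Nat.ble z c) true (sel (Nat.ble z tc) (qc2 c x t0 t1) false)

/-- The residue of a word of old letters. -/
noncomputable def kap (r : ℕ) : ℕ → ℕ :=
  Nat.rec (motive := fun _ => ℕ → ℕ) (fun _ => 0) (fun _ ih p =>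
    sel (Nat.beq (Nat.mod p 2) 0) (Nat.mul 1095 (ih (Nat.div p 2)))
      (Nat.succ (Nat.mul 3 (ih (Nat.div p 2))))) r

/-- The packed bounds. -/
noncomputable def lp (A B n X EM p : ℕ) : ℕ :=
  pk (fun i => frc (clo B i) fun lo => frc (chi A i) fun hi => mn (Lb B X p EM 1 lo hi) 511) n

/-- The indices with a bound of at least `t`. -/
noncomputable def lm (A B n X EM t p : ℕ) : ℕ :=
  Nat.shiftRight (Nat.add (lp A B n X EM p) (Nat.mul (Nat.sub 512 t) (uu n))) 9

/-- The indices that pass the test by the old letters. -/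
noncomputable def pm (f : ℕ → ℕ) (n r p3 np eta j : ℕ) : ℕ :=
  Nat.land (orr (fun p => Nat.land (f p) (Nat.shiftLeft (res n p3)
    (Nat.mul 10 (Nat.mod (Nat.add (Nat.mul eta (kap r p)) j) p3)))) np) (uu n)

/-- All three values of a digit. -/
noncomputable def al3 (x p3 : ℕ) (g : ℕ → Bool) : Bool :=
  sel (g x) (frc (Nat.add x p3) fun y => sel (g y) (frc (Nat.add y p3) g) false) false

/-- The search over the residues modulo powers of three. -/
noncomputable def n3 (f : ℕ → ℕ) (n c tc : ℕ) (t0 t1 : QT) (fu : ℕ) : ℕ → ℕ → ℕ → ℕ → ℕ → Bool :=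
  Nat.rec (motive := fun _ => ℕ → ℕ → ℕ → ℕ → ℕ → Bool)
    (fun r p3 np eta j => sel (Nat.beq (Nat.mod eta 3) 0) true
      (qc2 c (pm f n r p3 np eta j) t0 t1))
    (fun _ ih r p3 np eta j => sel (Nat.beq (Nat.mod eta 3) 0) true
      (sel (qc3 c tc (pm f n r p3 np eta j) t0 t1) true
        (frc (Nat.succ r) fun r' => frc (Nat.mul 3 p3) fun p3' => frc (Nat.mul 2 np) fun np' =>
          al3 eta p3 fun eta' => al3 j p3 fun j' => ih r' p3' np' eta' j'))) fu

/-- The loop over the thresholds. -/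
noncomputable def thr (A B n X EM R TH : ℕ) (t0 t1 : QT) (fu : ℕ) : ℕ → Bool :=
  Nat.rec (motive := fun _ => ℕ → Bool) (fun _ => false) (fun _ ih t =>
    frc (Nat.div (Nat.sub A 1) (Nat.mul 5 t)) fun c =>
      sel (Nat.ble t 511)
        (sel (frc (Nat.mul TH c) fun tc => n3 (lm A B n X EM t) n c tc t0 t1 R 0 1 1 1 0)
          (sel (Nat.beq c 0) true
            (frc (Nat.succ (Nat.div (Nat.sub A 1) (Nat.mul 5 c))) ih)) false) false) fu

/-- The check of one interval. -/
noncomputable def chk (A B X EM DA R F TH : ℕ) : Bool :=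
  frc (Nat.div (Nat.succ B) 2) fun n =>
    thr A B n X EM R TH (bld A B n DA F 2 1 0) (bld A B n DA F 2 1 1) 100 1

end Pool.Agent.Lib.MP_e49cd5_nt.Chk
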