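import Pool.Agent.Lib.MP_e49cd5_nt.Prog

set_option autoImplicit false

namespace Pool.Agent.Lib.MP_e49cd5_nt.Chk

open Finset

theorem frc_eq {α : Type} (x : ℕ) (f : ℕ → α) : frc x f = f x := by cases x <;> rfl

theorem sel_eq {α : Type} (c : Bool) (x y : α) : sel c x y = if c = true then x else y := by
  cases c <;> rfl

theorem sel_or (c x : Bool) : sel c true x = (c || x) := by cases c <;> rfl

theorem sel_and (c x : Bool) : sel c x false = (c && x) := by cases c <;> rfl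

theorem sel_not (c x : Bool) : sel c false x = (!c && x) := by cases c <;> rfl

theorem mx_eq (a b : ℕ) : mx a b = max a b := by
  show a + (b - a) = _
  omega

theorem mn_eq (a b : ℕ) : mn a b = min a b := by
  show a - (a - b) = _
  omega

theorem pk_succ (f : ℕ → ℕ) (n : ℕ) : pk f (n + 1) = 2 ^ (10 * n) * f n + pk f n := by
  show pk f n + f n <<< (10 * n) = _
  rw [Nat.shiftLeft_eq]
  ring

theorem pk_lt {f : ℕ → ℕ} (hf : ∀ i, f i < 1024) (n : ℕ) : pk f n < 2 ^ (10 * n) := by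
  induction n with
  | zero => exact Nat.one_pos
  | succ n ih =>
    have h1 : 2 ^ (10 * n) * f n ≤ 2 ^ (10 * n) * 1023 :=
      Nat.mul_le_mul_left _ (Nat.le_of_lt_succ (hf n))
    rw [pk_succ, mul_add, pow_add]
    omega

theorem pk_bit {f : ℕ → ℕ} (hf : ∀ i, f i < 1024) {n i b : ℕ} (hi : i < n) (hb : b < 10) :
    (pk f n).testBit (10 * i + b) = (f i).testBit b := by
  induction n with
  | zero => omega
  | succ n ih =>
    rw [pk_succ, Nat.testBit_two_pow_mul_add _ (pk_lt hf n)]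
    split_ifs with c
    · exact ih (by omega)
    · obtain rfl : i = n := by omega
      rw [Nat.add_sub_cancel_left]

theorem pk_add (f : ℕ → ℕ) (c n : ℕ) : pk f n + c * uu n = pk (fun i => f i + c) n := by
  unfold uu
  induction n with
  | zero => rfl
  | succ n ih =>
    rw [pk_succ, pk_succ, pk_succ, ← ih]
    ring

theorem pk_mod (f : ℕ → ℕ) (n : ℕ) : pk f n ≡ ∑ i ∈ range n, f i [MOD 1023] := by
  induction n with
  | zero => rfl
  | succ n ih =>
    have h1 : 2 ^ (10 * n) ≡ 1 [MOD 1023] := by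
      rw [pow_mul]
      simpa using (show 2 ^ 10 ≡ 1 [MOD 1023] by decide).pow n
    rw [pk_succ, sum_range_succ, add_comm]
    simpa using ih.add (h1.mul_right (f n))

theorem and_uu (y n : ℕ) : y &&& uu n = pk (fun i => (y.testBit (10 * i)).toNat) n := by
  have hf : ∀ i, (y.testBit (10 * i)).toNat < 1024 := fun i =>
    lt_of_le_of_lt (Bool.toNat_le _) (by norm_num)
  refine Nat.eq_of_testBit_eq fun j => ?_
  rw [Nat.testBit_and]
  unfold uu
  by_cases c : j < 10 * n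
  · obtain ⟨i, b, hb, rfl⟩ : ∃ i b, b < 10 ∧ j = 10 * i + b := ⟨j / 10, j % 10, by omega, by omega⟩
    rw [pk_bit (fun _ => by norm_num) (by omega) hb, pk_bit hf (by omega) hb]
    rcases b with _ | b
    · rw [add_zero]
      cases y.testBit (10 * i) <;> rfl
    · cases y.testBit (10 * i) <;> simp [Nat.testBit_succ]
  · have h2 : 2 ^ (10 * n) ≤ 2 ^ j := Nat.pow_le_pow_right (by norm_num) (by omega)
    rw [Nat.testBit_lt_two_pow ((pk_lt (fun _ => by norm_num) n).trans_le h2),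
      Nat.testBit_lt_two_pow ((pk_lt hf n).trans_le h2), Bool.and_false]

/-- All the elements of `T` are in the mask `y`. -/
def In (T : Finset ℕ) (y : ℕ) : Prop := ∀ i ∈ T, y.testBit (10 * i) = true

theorem cnt_le {T : Finset ℕ} {y n : ℕ} (hn : n < 1023) (hT : ∀ i ∈ T, i < n) (h : In T y) :
    T.card ≤ (y &&& uu n) % 1023 := by
  have h1 : ∑ i ∈ range n, (y.testBit (10 * i)).toNat ≤ n := by
    simpa using sum_le_card_nsmul (range n) (fun i => (y.testBit (10 * i)).toNat) 1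
      fun i _ => Bool.toNat_le _
  rw [and_uu, pk_mod, Nat.mod_eq_of_lt (by omega), card_eq_sum_ones]
  refine le_trans (le_of_eq (sum_congr rfl fun i hi => ?_))
    (sum_le_sum_of_subset fun i hi => mem_range.2 (hT i hi))
  rw [h i hi]
  rfl

theorem In.and {T : Finset ℕ} {x y : ℕ} (h : In T x) (h' : In T y) : In T (x &&& y) :=
  fun i hi => by rw [Nat.testBit_and, h i hi, h' i hi]; rfl

theorem orr_bit {f : ℕ → ℕ} {n s j : ℕ} (hs : s < n) (h : (f s).testBit j = true) :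
    (orr f n).testBit j = true := by
  induction n with
  | zero => omega
  | succ n ih =>
    show (orr f n ||| f n).testBit j = true
    rw [Nat.testBit_or, Bool.or_eq_true]
    rcases Nat.lt_succ_iff_lt_or_eq.1 hs with c | c
    · exact Or.inl (ih c)
    · exact Or.inr (c ▸ h)

theorem flag_bit {g : ℕ → Bool} {n i : ℕ} (hi : i < n) (h : g i = true) :
    (pk (fun i => sel (g i) 1 0) n).testBit (10 * i) = true := by
  have := pk_bit (f := fun i => sel (g i) 1 0) (fun i => by cases g i <;> decide) hi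
    (show 0 < 10 by norm_num)
  rw [add_zero] at this
  rw [this, h]
  rfl

theorem res_bit {n m i : ℕ} (hi : i < n) :
    (Nat.shiftLeft (res n m) (Nat.mul 10 (i % m))).testBit (10 * i) = true := by
  show (res n m <<< (10 * (i % m))).testBit (10 * i) = true
  have h1 := Nat.mod_le i m
  rw [Nat.testBit_shiftLeft, ← Nat.mul_sub, Bool.and_eq_true, decide_eq_true_eq]
  refine ⟨by omega, flag_bit (g := fun i => Nat.beq (Nat.mod i m) 0) (by omega) ?_⟩
  rw [Nat.beq_eq]
  exact Nat.mod_eq_zero_of_dvd (Nat.dvd_sub_mod i)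

/-- One branch of the tree contains `T`. -/
def Has (T : Finset ℕ) : QT → Prop
  | .leaf m => In T m
  | .node m a b c d => In T m ∧ (Has T a ∨ Has T b ∨ Has T c ∨ Has T d)

theorem Has.msk {T : Finset ℕ} {t : QT} (h : Has T t) : In T t.msk := by
  cases t with
  | leaf m => exact h
  | node m a b c d => exact h.1

theorem has_nd {T : Finset ℕ} {a b c d : QT} (h : Has T a ∨ Has T b ∨ Has T c ∨ Has T d) :
    Has T (nd a b c d) := by
  refine ⟨fun i hi => ?_, h⟩
  show ((a.msk ||| b.msk) ||| (c.msk ||| d.msk)).testBit _ = true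
  simp only [Nat.testBit_or, Bool.or_eq_true]
  rcases h with h | h | h | h <;> have := h.msk i hi <;> tauto

variable {T : Finset ℕ} {n : ℕ}

theorem qc_sound {y c : ℕ} (hn : n < 1023) (hT : ∀ i ∈ T, i < n) (hy : In T y) {t : QT}
    (h : Has T t) (e : qc c (y &&& uu n) t = true) : T.card ≤ c := by
  have key : ∀ m, In T m → Nat.ble (Nat.mod (Nat.land (y &&& uu n) m) 1023) c = true →
      T.card ≤ c := fun m hm e => by
    have e : (y &&& uu n &&& m) % 1023 ≤ c := Nat.le_of_ble_eq_true e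
    rw [Nat.and_assoc, Nat.and_comm (uu n), ← Nat.and_assoc] at e
    exact (cnt_le hn hT (hy.and hm)).trans e
  induction t with
  | leaf m => exact key m h e
  | node m a b c' d i1 i2 i3 i4 =>
    have e : sel (Nat.ble (Nat.mod (Nat.land (y &&& uu n) m) 1023) c) true
      (sel (qc c (y &&& uu n) a) (sel (qc c (y &&& uu n) b)
        (sel (qc c (y &&& uu n) c') (qc c (y &&& uu n) d) false) false) false) = true := e
    simp only [sel_or, sel_and, Bool.or_eq_true, Bool.and_eq_true] at e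
    rcases e with e | ⟨e1, e2, e3, e4⟩
    · exact key m h.1 e
    · rcases h.2 with h | h | h | h
      exacts [i1 h e1, i2 h e2, i3 h e3, i4 h e4]

theorem qc2_sound {y c : ℕ} (hn : n < 1023) (hT : ∀ i ∈ T, i < n) (hy : In T y) {t0 t1 : QT}
    (h : Has T t0 ∨ Has T t1) (e : qc2 c (y &&& uu n) t0 t1 = true) : T.card ≤ c := by
  rw [qc2, sel_and, Bool.and_eq_true] at e
  rcases h with h | h
  exacts [qc_sound hn hT hy h e.1, qc_sound hn hT hy h e.2]

theorem qc3_sound {y c tc : ℕ} (hn : n < 1023) (hT : ∀ i ∈ T, i < n) (hy : In T y) {t0 t1 : QT}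
    (h : Has T t0 ∨ Has T t1) (e : qc3 c tc (y &&& uu n) t0 t1 = true) : T.card ≤ c := by
  rw [qc3, frc_eq, sel_or, sel_and, Bool.or_eq_true, Bool.and_eq_true] at e
  rcases e with e | e
  · exact (cnt_le hn hT hy).trans (Nat.le_of_ble_eq_true e)
  · exact qc2_sound hn hT hy h e.2

theorem dig2 {q x c : ℤ} {m : ℕ} (hq : q % 2 = 1) (h : (m : ℤ) ∣ q * x - c) :
    ((2 * m : ℕ) : ℤ) ∣ q * x - c ∨ ((2 * m : ℕ) : ℤ) ∣ q * (x + m) - c := by
  obtain ⟨u, hu⟩ := h
  push_cast
  rcases Int.emod_two_eq_zero_or_one u with p | p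
  · obtain ⟨v, rfl⟩ : ∃ v, u = 2 * v := ⟨u / 2, by omega⟩
    exact Or.inl ⟨v, by linear_combination hu⟩
  · obtain ⟨v, hv⟩ : ∃ v, u + q = 2 * v := ⟨(u + q) / 2, by omega⟩
    exact Or.inr ⟨v, by linear_combination hu + m * hv⟩

theorem bld_has {A B DA : ℕ} {q K0 P : ℤ} (hq : q % 2 = 1) (hT : ∀ i ∈ T, i < n)
    (H : ∀ i ∈ T, ∀ b m : ℕ, 0 < m → (m : ℤ) ∣ q * b - (K0 + P * i) →
      al DA (clo B i) (chi A i) b m = true) (fu : ℕ) :
    ∀ m mu be : ℕ, 0 < m → (m : ℤ) ∣ q * mu - P → (m : ℤ) ∣ q * be - K0 →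
      Has T (bld A B n DA fu m mu be) := by
  induction fu with
  | zero =>
    intro m mu be hm h1 h2 i hi
    refine orr_bit (Nat.mod_lt i hm) ?_
    show (_ &&& _ : ℕ).testBit _ = true
    rw [Nat.testBit_and, res_bit (hT i hi), Bool.and_true, frc_eq, alm]
    simp only [frc_eq]
    refine flag_bit (g := fun j => al DA (clo B j) (chi A j) _ m) (hT i hi) (H i hi _ m hm ?_)
    show (m : ℤ) ∣ q * ((be + i % m * mu) % m : ℕ) - (K0 + P * i)
    obtain ⟨u, hu⟩ := h1
    obtain ⟨v, hv⟩ := h2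
    have h3 := Int.emod_add_mul_ediv (be + i % m * mu) m
    have h4 := Int.emod_add_mul_ediv i m
    push_cast
    exact ⟨v + i % m * u - P * (i / m) - q * ((be + i % m * mu) / m), by
      linear_combination hv + (i % m : ℤ) * hu + q * h3 + P * h4⟩
  | succ fu ih =>
    intro m mu be hm h1 h2
    have e : bld A B n DA (fu + 1) m mu be = frc (2 * m) fun m' => frc (mu + m) fun mu' =>
      frc (be + m) fun be' => nd (bld A B n DA fu m' mu be) (bld A B n DA fu m' mu be')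
        (bld A B n DA fu m' mu' be) (bld A B n DA fu m' mu' be') := rfl
    rw [e, frc_eq, frc_eq, frc_eq]
    refine has_nd ?_
    have hm' : 0 < 2 * m := by omega
    rcases dig2 hq h1 with h1 | h1 <;> rcases dig2 hq h2 with h2 | h2
    · exact Or.inl (ih _ _ _ hm' h1 h2)
    · exact Or.inr (Or.inl (ih _ _ _ hm' h1 (by exact_mod_cast h2)))
    · exact Or.inr (Or.inr (Or.inl (ih _ _ _ hm' (by exact_mod_cast h1) h2)))
    · exact Or.inr (Or.inr (Or.inr (ih _ _ _ hm' (by exact_mod_cast h1) (by exact_mod_cast h2))))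

theorem dig3 {s c : ℤ} {x r : ℕ} {g : ℕ → Bool} (hs : s % 3 ≠ 0) (h : (3 : ℤ) ^ r ∣ s * x + c)
    (e : al3 x (3 ^ r) g = true) : ∃ y : ℕ, (3 : ℤ) ^ (r + 1) ∣ s * y + c ∧ g y = true := by
  simp only [al3, frc_eq, sel_and, Bool.and_eq_true] at e
  obtain ⟨e1, e2, e3⟩ := e
  obtain ⟨u, hu⟩ := h
  have : (∃ v, u = 3 * v) ∨ (∃ v, u + s = 3 * v) ∨ ∃ v, u + 2 * s = 3 * v := by
    by_cases c1 : u % 3 = 0
    · exact Or.inl ⟨u / 3, by omega⟩
    · by_cases c2 : (u + s) % 3 = 0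
      · exact Or.inr (Or.inl ⟨(u + s) / 3, by omega⟩)
      · have c3 : (u + 2 * s) % 3 = 0 := by
          have : u % 3 = 1 ∨ u % 3 = 2 := by omega
          have : s % 3 = 1 ∨ s % 3 = 2 := by omega
          omega
        exact Or.inr (Or.inr ⟨(u + 2 * s) / 3, by omega⟩)
  rcases this with ⟨v, hv⟩ | ⟨v, hv⟩ | ⟨v, hv⟩
  · exact ⟨x, ⟨v, by linear_combination hu + 3 ^ r * hv⟩, e1⟩
  · refine ⟨x + 3 ^ r, ⟨v, ?_⟩, e2⟩
    push_cast
    linear_combination hu + 3 ^ r * hv
  · refine ⟨x + 3 ^ r + 3 ^ r, ⟨v, ?_⟩, e3⟩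
    push_cast
    linear_combination hu + 3 ^ r * hv

theorem n3_sound {f : ℕ → ℕ} {c tc : ℕ} {t0 t1 : QT} {q s J : ℤ} (hn : n < 1023)
    (hT : ∀ i ∈ T, i < n) (hq : q % 3 ≠ 0) (hs : s % 3 ≠ 0) (ht : Has T t0 ∨ Has T t1)
    (H : ∀ r ≤ 6, ∀ i ∈ T, ∃ p < 2 ^ r, (f p).testBit (10 * i) = true ∧
      (3 : ℤ) ^ r ∣ s * i - J + q * kap r p) (fu : ℕ) :
    ∀ r eta j : ℕ, r + fu ≤ 6 → (3 : ℤ) ^ r ∣ s * eta + q → (3 : ℤ) ^ r ∣ s * j + -J →
      (eta % 3 = 0 → 1 ≤ r) → n3 f n c tc t0 t1 fu r (3 ^ r) (2 ^ r) eta j = true →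
      T.card ≤ c := by
  have unit : ∀ r eta : ℕ, (3 : ℤ) ^ r ∣ s * eta + q → (eta % 3 = 0 → 1 ≤ r) →
      ¬Nat.beq (Nat.mod eta 3) 0 = true := fun r eta h1 h3 e => by
    have e : eta % 3 = 0 := Nat.eq_of_beq_eq_true e
    have h4 : (3 : ℤ) ∣ s * eta + q := (dvd_pow_self 3 (by have := h3 e; omega)).trans h1
    obtain ⟨v, rfl⟩ := Nat.dvd_of_mod_eq_zero e
    push_cast at h4
    rw [mul_left_comm] at h4
    omega
  have key : ∀ r eta j : ℕ, r ≤ 6 → (3 : ℤ) ^ r ∣ s * eta + q → (3 : ℤ) ^ r ∣ s * j + -J →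
      In T (orr (fun p => Nat.land (f p) (Nat.shiftLeft (res n (3 ^ r)) (Nat.mul 10
        (Nat.mod (Nat.add (Nat.mul eta (kap r p)) j) (3 ^ r))))) (2 ^ r)) := by
    intro r eta j hr h1 h2 i hi
    obtain ⟨p, hp, h3, h4⟩ := H r hr i hi
    refine orr_bit hp ?_
    have h5 : (3 : ℤ) ^ r ∣ s * (i - (eta * kap r p + j : ℕ)) := by
      have := dvd_sub (dvd_sub h4 (h1.mul_left (kap r p))) h2
      push_cast
      exact this.trans (dvd_of_eq (by ring))
    have hc : IsCoprime ((3 : ℤ) ^ r) s := by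
      refine IsCoprime.pow_left ?_
      exact (Int.prime_three.irreducible.coprime_iff_not_dvd).2 (by omega)
    have h6 : eta * kap r p + j ≡ i [MOD 3 ^ r] :=
      (Nat.modEq_iff_dvd).2 (by exact_mod_cast hc.dvd_of_dvd_mul_left h5)
    have h7 : Nat.mod (Nat.add (Nat.mul eta (kap r p)) j) (3 ^ r) = i % 3 ^ r := h6
    show (_ &&& _ : ℕ).testBit _ = true
    rw [Nat.testBit_and, h3, h7, res_bit (hT i hi)]
    rfl
  induction fu with
  | zero =>
    intro r eta j hr h1 h2 h3 e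
    have e : sel (Nat.beq (Nat.mod eta 3) 0) true
      (qc2 c (pm f n r (3 ^ r) (2 ^ r) eta j) t0 t1) = true := e
    rw [sel_or, Bool.or_eq_true] at e
    exact qc2_sound hn hT (key r eta j hr h1 h2) ht (e.resolve_left (unit r eta h1 h3))
  | succ fu ih =>
    intro r eta j hr h1 h2 h3 e
    have e : sel (Nat.beq (Nat.mod eta 3) 0) true
      (sel (qc3 c tc (pm f n r (3 ^ r) (2 ^ r) eta j) t0 t1) true
        (frc (r + 1) fun r' => frc (3 * 3 ^ r) fun p3' => frc (2 * 2 ^ r) fun np' =>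
          al3 eta (3 ^ r) fun eta' => al3 j (3 ^ r) fun j' =>
            n3 f n c tc t0 t1 fu r' p3' np' eta' j')) = true := e
    rw [sel_or, sel_or, Bool.or_eq_true, Bool.or_eq_true, frc_eq, frc_eq, frc_eq, ← pow_succ',
      ← pow_succ'] at e
    rcases e.resolve_left (unit r eta h1 h3) with e | e
    · exact qc3_sound hn hT (key r eta j (by omega) h1 h2) ht e
    · obtain ⟨eta', h4, e⟩ := dig3 hs h1 e
      obtain ⟨j', h5, e⟩ := dig3 hs h2 e
      exact ih (r + 1) eta' j' (by omega) h4 h5 (fun _ => by omega) e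

theorem lm_bit {A B X EM t p i : ℕ} (hi : i < n) (ht0 : 1 ≤ t) (ht : t ≤ 511)
    (h : t ≤ Lb B X p EM 1 (clo B i) (chi A i)) :
    (lm A B n X EM t p).testBit (10 * i) = true := by
  show ((lp A B n X EM p + (512 - t) * uu n) >>> 9).testBit (10 * i) = true
  rw [Nat.testBit_shiftRight, lp, pk_add, add_comm 9, pk_bit _ hi (by norm_num)]
  · simp only [frc_eq, mn_eq]
    rw [Nat.testBit_eq_decide_div_mod_eq, decide_eq_true_eq]
    omega
  · intro j
    simp only [frc_eq, mn_eq]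
    omega

theorem thr_sound {A B X EM R TH ts : ℕ} {t0 t1 : QT} {q s J : ℤ} (hn : n < 1023) (hA : 0 < A)
    (hR : R ≤ 6) (hT : ∀ i ∈ T, i < n) (hq : q % 3 ≠ 0) (hs : s % 3 ≠ 0)
    (ht : Has T t0 ∨ Has T t1)
    (H : ∀ r ≤ 6, ∀ i ∈ T, ∃ p < 2 ^ r, ts ≤ Lb B X p EM 1 (clo B i) (chi A i) ∧
      (3 : ℤ) ^ r ∣ s * i - J + q * kap r p) (fu : ℕ) :
    ∀ t, 1 ≤ t → t ≤ ts → thr A B n X EM R TH t0 t1 fu t = true → 5 * (ts * T.card) < A := by
  induction fu with
  | zero => exact fun t _ _ e => absurd e Bool.false_ne_true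
  | succ fu ih =>
    intro t h0 h1 e
    have e : (frc ((A - 1) / (5 * t)) fun c => sel (Nat.ble t 511)
        (sel (frc (TH * c) fun tc => n3 (lm A B n X EM t) n c tc t0 t1 R 0 (3 ^ 0) (2 ^ 0) 1 0)
          (sel (Nat.beq c 0) true (frc ((A - 1) / (5 * c) + 1)
            (thr A B n X EM R TH t0 t1 fu))) false) false) = true := e
    simp only [frc_eq, sel_and, sel_or, Bool.and_eq_true, Bool.or_eq_true, Nat.ble_eq,
      Nat.beq_eq] at e
    obtain ⟨e1, e2, e3⟩ := e
    have h2 := n3_sound hn hT hq hs ht (J := J) (fun r hr i hi => by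
      obtain ⟨p, hp, h3, h4⟩ := H r hr i hi
      exact ⟨p, hp, lm_bit (hT i hi) h0 e1 (h1.trans h3), h4⟩) R 0 1 0 (by omega) (by simp)
      (by simp) (by omega) e2
    generalize (A - 1) / (5 * t) = c at h2 e3
    rcases e3 with e3 | e3
    · rw [show T.card = 0 by omega]
      exact hA
    · by_cases c1 : (A - 1) / (5 * c) + 1 ≤ ts
      · exact ih _ (Nat.le_add_left _ _) c1 e3
      · have h3 : ts * T.card ≤ (A - 1) / (5 * c) * c := Nat.mul_le_mul (by omega) h2
        have h4 := Nat.div_mul_le_self (A - 1) (5 * c)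
        rw [mul_left_comm] at h4
        omega

end Pool.Agent.Lib.MP_e49cd5_nt.Chk
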