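import Mathlib

set_option autoImplicit false

namespace Pool.Agent.Lib.MP_e49cd5_nt.Tm

/-- The six states of the machine. -/
inductive St : Type
  | A | B | C | D | E | F
  deriving DecidableEq

/-- The table `1RB0LD_0RC1RB_0RD0RA_1LE0RD_1LF..._0LA1LA`: for the state and the symbol read
(`true` is 1) the symbol written, the direction (`true` is right) and the next state; `none` is
the halting entry. -/
def tbl : St → Bool → Option (Bool × Bool × St)
  | .A, false => some (true, true, .B)
  | .A, true => some (false, false, .D)
  | .B, false => some (false, true, .C)
  | .B, true => some (true, true, .B)
  | .C, false => some (false, true, .D)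
  | .C, true => some (false, true, .A)
  | .D, false => some (true, false, .E)
  | .D, true => some (false, true, .D)
  | .E, false => some (true, false, .F)
  | .E, true => none
  | .F, false => some (false, false, .A)
  | .F, true => some (true, false, .A)

/-- One step on configurations `(l, q, r)`: `l` lists the cells left of the head, nearest first,
`q` is the state, `r` lists the cell under the head and the cells to its right; cells beyond the
lists hold 0. -/
def next (c : List Bool × St × List Bool) : Option (List Bool × St × List Bool) :=
  (tbl c.2.1 (c.2.2.headD false)).map fun t =>
    if t.2.1 then (t.1 :: c.1, t.2.2, c.2.2.tail)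
    else (c.1.tail, t.2.2, c.1.headD false :: t.1 :: c.2.2.tail)

/-- The word of a configuration: the left cells, the state, the right cells, in tape order. -/
def word (c : List Bool × St × List Bool) : List (Bool ⊕ St) :=
  c.1.reverse.map Sum.inl ++ Sum.inr c.2.1 :: c.2.2.map Sum.inl

end Pool.Agent.Lib.MP_e49cd5_nt.Tm
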