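import Mathlib

set_option autoImplicit false

open Pointwise Set

namespace Pool.Agent.Lib.MP_e49cd5_nt.Tm

variable {ι : Type} [Fintype ι] [DecidableEq ι]

theorem vec_ind {P : (ι → ℕ) → Prop} (h0 : P 0) (h : ∀ x i, P x → P (x + Pi.single i 1))
    (x : ι → ℕ) : P x := by
  have key : ∀ f x, P x → P (x + f) := fun f => by
    induction f using Pi.single_induction with
    | zero => simp
    | add f g hf hg => exact fun x hx => add_assoc x f g ▸ hg _ (hf x hx)
    | single i m =>
      induction m with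
      | zero => simp
      | succ m ih => exact fun x hx => by rw [Pi.single_add, ← add_assoc]; exact h _ i (ih x hx)
  simpa using key x 0 h0

/-- All sums of `x i` elements of `S i` over `i`. -/
def sub (S : ι → Set (ι → ℕ)) (x : ι → ℕ) : Set (ι → ℕ) := ∑ i, x i • S i

omit [DecidableEq ι] in
theorem sub_zero (S : ι → Set (ι → ℕ)) : sub S 0 = 0 := by simp [sub]

omit [DecidableEq ι] in
theorem sub_add (S : ι → Set (ι → ℕ)) (x y : ι → ℕ) : sub S (x + y) = sub S x + sub S y := by
  simp only [sub, Pi.add_apply, add_nsmul, Finset.sum_add_distrib]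

theorem sub_single (S : ι → Set (ι → ℕ)) (i : ι) : sub S (Pi.single i 1) = S i := by
  rw [sub, Finset.sum_eq_single i (fun j _ e => by rw [Pi.single_eq_of_ne e, zero_nsmul]) (by simp),
    Pi.single_eq_same, one_nsmul]

theorem sub_step (S : ι → Set (ι → ℕ)) (x : ι → ℕ) (i : ι) :
    sub S (x + Pi.single i 1) = sub S x + S i := by rw [sub_add, sub_single]

theorem sub_mono {S T : ι → Set (ι → ℕ)} (h : ∀ i, S i ⊆ T i) (x : ι → ℕ) :
    sub S x ⊆ sub T x := by
  induction x using vec_ind with
  | h0 => rw [sub_zero, sub_zero]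
  | h x i ih => rw [sub_step, sub_step]; exact add_subset_add ih (h i)

theorem sub_semi {S : ι → Set (ι → ℕ)} (h : ∀ i, IsSemilinearSet (S i)) (x : ι → ℕ) :
    IsSemilinearSet (sub S x) := by
  induction x using vec_ind with
  | h0 => rw [sub_zero]; exact .singleton 0
  | h x i ih => rw [sub_step]; exact ih.add (h i)

/-- Substitution on sets. -/
def lift (S : ι → Set (ι → ℕ)) : Set (ι → ℕ) →+ Set (ι → ℕ) where
  toFun X := {y | ∃ x ∈ X, y ∈ sub S x}
  map_zero' := by ext y; simp [sub_zero]
  map_add' X Y := by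
    ext y
    constructor
    · rintro ⟨_, ⟨a, ha, b, hb, rfl⟩, h⟩
      rw [sub_add] at h
      obtain ⟨c, hc, d, hd, rfl⟩ := h
      exact ⟨c, ⟨a, ha, hc⟩, d, ⟨b, hb, hd⟩, rfl⟩
    · rintro ⟨c, ⟨a, ha, hc⟩, d, ⟨b, hb, hd⟩, rfl⟩
      exact ⟨a + b, add_mem_add ha hb, sub_add S a b ▸ add_mem_add hc hd⟩

omit [DecidableEq ι] in
theorem lift_one (S : ι → Set (ι → ℕ)) (x : ι → ℕ) : lift S {x} = sub S x := by
  ext y; simp [lift]

theorem lift_single (S : ι → Set (ι → ℕ)) (i : ι) : lift S {Pi.single i 1} = S i := by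
  rw [lift_one, sub_single]

omit [DecidableEq ι] in
theorem lift_sub (S T : ι → Set (ι → ℕ)) (x : ι → ℕ) :
    lift S (sub T x) = sub (fun i => lift S (T i)) x := by
  simp only [sub, map_sum, map_nsmul]

omit [DecidableEq ι] in
theorem lift_lift (S T : ι → Set (ι → ℕ)) (X : Set (ι → ℕ)) :
    lift S (lift T X) = lift (fun i => lift S (T i)) X := by
  ext y
  constructor
  · rintro ⟨z, ⟨x, hx, hz⟩, hy⟩
    exact ⟨x, hx, lift_sub S T x ▸ ⟨z, hz, hy⟩⟩
  · rintro ⟨x, hx, hy⟩
    rw [← lift_sub] at hy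
    obtain ⟨z, hz, hy⟩ := hy
    exact ⟨z, ⟨x, hx, hz⟩, hy⟩

theorem lift_mono {S T : ι → Set (ι → ℕ)} (h : ∀ i, S i ⊆ T i) {X Y : Set (ι → ℕ)} (k : X ⊆ Y) :
    lift S X ⊆ lift T Y := fun _ ⟨x, hx, hy⟩ => ⟨x, k hx, sub_mono h x hy⟩

omit [DecidableEq ι] in
theorem lift_closure (S : ι → Set (ι → ℕ)) (B : Set (ι → ℕ)) :
    lift S (AddSubmonoid.closure B : Set (ι → ℕ)) =
      (AddSubmonoid.closure (lift S B) : Set (ι → ℕ)) := by
  refine Subset.antisymm ?_ fun y hy => ?_
  · rintro y ⟨x, hx, hy⟩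
    induction hx using AddSubmonoid.closure_induction generalizing y with
    | mem x hx => exact AddSubmonoid.subset_closure ⟨x, hx, hy⟩
    | zero => rw [sub_zero] at hy; exact hy ▸ zero_mem _
    | add a b _ _ ha hb =>
      rw [sub_add] at hy
      obtain ⟨c, hc, d, hd, rfl⟩ := hy
      exact add_mem (ha hc) (hb hd)
  · induction hy using AddSubmonoid.closure_induction with
    | mem y hy => exact let ⟨x, hx, h⟩ := hy; ⟨x, AddSubmonoid.subset_closure hx, h⟩
    | zero => exact ⟨0, zero_mem _, by rw [sub_zero]; exact zero_mem_zero⟩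
    | add c d _ _ hc hd =>
      obtain ⟨a, ha, hc⟩ := hc
      obtain ⟨b, hb, hd⟩ := hd
      exact ⟨a + b, add_mem ha hb, sub_add S a b ▸ add_mem_add hc hd⟩

omit [DecidableEq ι] in
theorem lift_iUnion (S : ι → Set (ι → ℕ)) {κ : Sort*} (X : κ → Set (ι → ℕ)) :
    lift S (⋃ k, X k) = ⋃ k, lift S (X k) := by
  ext y
  simp only [lift, AddMonoidHom.coe_mk, ZeroHom.coe_mk, mem_iUnion, mem_ofPred_eq]
  exact ⟨fun ⟨x, ⟨k, h⟩, e⟩ => ⟨k, x, h, e⟩, fun ⟨k, x, h, e⟩ => ⟨x, ⟨k, h⟩, e⟩⟩

theorem lift_semi {S : ι → Set (ι → ℕ)} (h : ∀ i, IsSemilinearSet (S i)) {X : Set (ι → ℕ)}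
    (hX : IsSemilinearSet X) : IsSemilinearSet (lift S X) := by
  obtain ⟨F, hF, k, rfl⟩ := hX
  simp only [sUnion_eq_biUnion, lift_iUnion]
  refine .biUnion hF fun t ht => ?_
  obtain ⟨a, B, hB, rfl⟩ := k t ht
  rw [← singleton_vadd, vadd_eq_add, map_add, lift_one, lift_closure]
  refine (sub_semi h a).add (.closure ?_)
  rw [← biUnion_of_singleton B]
  simp only [lift_iUnion, lift_one]
  exact .biUnion hB fun b _ => sub_semi h b

omit [DecidableEq ι] in
theorem semi_shift {X : Set (ι → ℕ)} (hX : IsSemilinearSet X) (v : ι → ℕ) :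
    IsSemilinearSet {r | r + v ∈ X} := by
  have h := ((hX.preimage ((AddMonoidHom.id (ι → ℕ)).coprod (multiplesHom _ v))).inter
    ((IsSemilinearSet.singleton 1).preimage (AddMonoidHom.snd (ι → ℕ) ℕ))).image
    (AddMonoidHom.fst (ι → ℕ) ℕ)
  refine cast (congrArg _ ?_) h
  ext r
  simp

/-- `S` is closed under the rules `R` on `U` and contains `B` off `U`. -/
def Cl (U : Finset ι) (R B S : ι → Set (ι → ℕ)) : Prop :=
  ∀ i, (i ∈ U → lift S (R i) ⊆ S i) ∧ (i ∉ U → B i ⊆ S i)

theorem least (U : Finset ι) (R B : ι → Set (ι → ℕ)) (hR : ∀ i, IsSemilinearSet (R i))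
    (hB : ∀ i, IsSemilinearSet (B i)) :
    ∃ S, (∀ i, IsSemilinearSet (S i)) ∧ Cl U R B S ∧ ∀ P, Cl U R B P → ∀ i, S i ⊆ P i := by
  induction U using Finset.induction_on generalizing R B with
  | empty => exact ⟨B, hB, fun i => by simp, fun P hP i => (hP i).2 (by simp)⟩
  | insert Z U hZ ih =>
    obtain ⟨R0, e0⟩ : ∃ R0, R0 = R Z ∩ {r | r Z = 0} := ⟨_, rfl⟩
    obtain ⟨T0, e1⟩ : ∃ T0 : ι → Set (ι → ℕ),
      T0 = fun i => if i = Z then R0 else {Pi.single i 1} := ⟨_, rfl⟩
    obtain ⟨C, e2⟩ : ∃ C, C = AddSubmonoid.closure (lift T0 {r | r + Pi.single Z 1 ∈ R Z}) :=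
      ⟨_, rfl⟩
    obtain ⟨T, e3⟩ : ∃ T : ι → Set (ι → ℕ),
      T = fun i => if i = Z then R0 + C else {Pi.single i 1} := ⟨_, rfl⟩
    have tZ : T Z = R0 + C := by simp [e3]
    have tN : ∀ i, i ≠ Z → T i = {Pi.single i 1} := fun i h => by simp [e3, h]
    have h0 : IsSemilinearSet R0 := e0 ▸ (hR Z).inter
      ((IsSemilinearSet.singleton 0).preimage (Pi.evalAddMonoidHom (fun _ => ℕ) Z))
    have h1 : ∀ i, IsSemilinearSet (T0 i) := fun i => by
      simp only [e1]
      split_ifs
      exacts [h0, .singleton _]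
    have h3 : ∀ i, IsSemilinearSet (T i) := fun i => by
      simp only [e3]
      split_ifs
      exacts [h0.add (e2 ▸ (lift_semi h1 (semi_shift (hR Z) _)).closure), .singleton _]
    have hC : (C : Set (ι → ℕ)) + C ⊆ C := add_subset_iff.2 fun _ h _ k => add_mem h k
    have k1 : ∀ r : ι → ℕ, r Z = 0 → sub T r ⊆ {r} := fun r => by
      induction r using vec_ind with
      | h0 => exact fun _ => by rw [sub_zero]; rfl
      | h x i ih =>
        intro h
        obtain ⟨a, b⟩ := Nat.add_eq_zero_iff.1 h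
        rw [sub_step, tN i fun e => by simp [e] at b, ← singleton_add_singleton]
        exact add_subset_add_right (ih a)
    have k2 : ∀ r : ι → ℕ, sub T r ⊆ sub T0 r + C := fun r => by
      induction r using vec_ind with
      | h0 => rw [sub_zero, sub_zero, zero_add]; exact zero_subset.2 (zero_mem C)
      | h x i ih =>
        have : T i ⊆ T0 i + C := by
          simp only [e1, e3]
          split_ifs
          exacts [subset_rfl, subset_add_left _ (zero_mem C)]
        rw [sub_step, sub_step]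
        refine (add_subset_add ih this).trans ?_
        rw [add_add_add_comm]
        exact add_subset_add_left hC
    have k3 : lift T (R Z) ⊆ T Z := by
      rintro y ⟨r, hr, hy⟩
      rw [tZ]
      by_cases c : r Z = 0
      · rw [show y = r from k1 r c hy]
        exact subset_add_left _ (zero_mem C) (e0 ▸ ⟨hr, c⟩)
      · obtain ⟨s, rfl⟩ : ∃ s, r = s + Pi.single Z 1 :=
          ⟨r - Pi.single Z 1, funext fun i => by
            by_cases e : i = Z
            · simp only [e, Pi.add_apply, Pi.sub_apply, Pi.single_eq_same]; omega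
            · simp [Pi.single_eq_of_ne e]⟩
        rw [sub_step, tZ, add_left_comm] at hy
        refine add_subset_add_left ((add_subset_add_right ((k2 s).trans
          ((add_subset_add_right fun z hz => ?_).trans hC))).trans hC) hy
        exact e2 ▸ AddSubmonoid.subset_closure ⟨s, hr, hz⟩
    obtain ⟨S, s1, s2, s3⟩ := ih (fun i => lift T (R i)) (fun i => if i = Z then ∅ else B i)
      (fun i => lift_semi h3 (hR i)) fun i => by
        split_ifs
        exacts [.empty, hB i]
    have sN : ∀ i, i ≠ Z → lift S (T i) = S i := fun i h => by rw [tN i h, lift_single]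
    refine ⟨fun i => lift S (T i), fun i => lift_semi s1 (h3 i), fun i => ⟨fun hi => ?_, fun hi => ?_⟩,
      fun P hP => ?_⟩
    · rw [← lift_lift]
      rcases Finset.mem_insert.1 hi with rfl | hi
      · exact lift_mono (fun _ => subset_rfl) k3
      · exact ((s2 i).1 hi).trans (sN i fun e => hZ (e ▸ hi)).ge
    · rw [Finset.mem_insert, not_or] at hi
      simpa only [if_neg hi.1, sN i hi.1] using (s2 i).2 hi.2
    · have pZ := (hP Z).1 (Finset.mem_insert_self _ _)
      have p0 : ∀ i, lift P (T0 i) ⊆ P i := fun i => by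
        simp only [e1]
        split_ifs with c
        · exact c ▸ (lift_mono (fun _ => subset_rfl) (e0 ▸ inter_subset_left)).trans pZ
        · exact (lift_single P i).le
      have p1 : ∀ c ∈ AddSubmonoid.closure (lift P (lift T0 {r | r + Pi.single Z 1 ∈ R Z})),
          ∀ y ∈ P Z, y + c ∈ P Z := fun c hc => by
        induction hc using AddSubmonoid.closure_induction with
        | mem c hc =>
          rw [lift_lift] at hc
          obtain ⟨s, hs, hc⟩ := hc
          exact fun y hy => pZ ⟨_, hs, by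
            rw [sub_step, add_comm y]; exact add_mem_add (sub_mono p0 s hc) hy⟩
        | zero => simp
        | add a b _ _ ha hb => exact fun y hy => add_assoc y a b ▸ hb _ (ha y hy)
      have p2 : ∀ i, lift P (T i) ⊆ P i := fun i => by
        by_cases c : i = Z
        · rw [c, tZ, map_add, e2, lift_closure]
          refine add_subset_iff.2 fun y hy c hc => p1 c hc y (p0 Z ?_)
          simpa only [e1, if_true] using hy
        · rw [tN i c, lift_single]
      refine fun i => (lift_mono (s3 P fun j => ⟨fun hj => ?_, fun hj => ?_⟩) subset_rfl).trans (p2 i)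
      · rw [lift_lift]
        exact (lift_mono p2 subset_rfl).trans ((hP j).1 (Finset.mem_insert_of_mem hj))
      · beta_reduce
        split_ifs with c
        exacts [empty_subset _, (hP j).2 fun e => (Finset.mem_insert.1 e).elim c hj]

end Pool.Agent.Lib.MP_e49cd5_nt.Tm
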