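import Pool.Agent.Lib.MP_e49cd5_nt.TmLfp

set_option autoImplicit false

open Pointwise Set

namespace Pool.Agent.Lib.MP_e49cd5_nt.Tm

variable {Γ α σ : Type} [Fintype Γ] [DecidableEq Γ] [Fintype σ] [DecidableEq σ]
  (g : ContextFreeGrammar Γ) [DecidableEq g.rules] (D : DFA α σ) (π : Γ → List α)

/-- Letters, and rules with a first and a last state. -/
abbrev Ix (σ : Type) : Type := Γ ⊕ g.rules × σ × σ

/-- The monomials of a string of symbols read from `p` to `q`. -/
def mon : List (Symbol Γ g.NT) → σ → σ → Set (Ix g σ → ℕ)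
  | [], p, q => {x | p = q ∧ x = 0}
  | .terminal a :: l, p, q => {Pi.single (.inl a) 1} + mon l (D.evalFrom p (π a)) q
  | .nonterminal X :: l, p, q => ⋃ r : {r : g.rules // r.1.input = X}, ⋃ s,
      {Pi.single (.inr (r.1, p, s)) 1} + mon l s q

/-- The letter counts. -/
def cnt (σ : Type) [DecidableEq σ] (u : List Γ) : Ix g σ → ℕ :=
  (u.map fun a => Pi.single (.inl a) 1).sum

/-- The letter counts of the words derived from a string and read from `p` to `q`. -/
def sem (l : List (Symbol Γ g.NT)) (p q : σ) : Set (Ix g σ → ℕ) :=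
  {x | ∃ u : List Γ, g.Derives l (u.map .terminal) ∧ D.evalFrom p (u.flatMap π) = q ∧
    x = cnt g σ u}

omit [Fintype Γ] in
theorem mon_semi (l : List (Symbol Γ g.NT)) (p q : σ) : IsSemilinearSet (mon g D π l p q) := by
  induction l generalizing p with
  | nil => exact .of_finite ((finite_singleton 0).subset fun _ h => h.2)
  | cons a l ih =>
    cases a with
    | terminal a => exact (IsSemilinearSet.singleton _).add (ih _)
    | nonterminal X =>
      exact .iUnion fun _ => .iUnion fun _ => (IsSemilinearSet.singleton _).add (ih _)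

omit [Fintype Γ] [Fintype σ] in
theorem mon_append (a b : List (Symbol Γ g.NT)) (p q : σ) :
    mon g D π (a ++ b) p q ⊆ ⋃ s, mon g D π a p s + mon g D π b s q := by
  induction a generalizing p with
  | nil => exact fun x hx => mem_iUnion.2 ⟨p, 0, ⟨rfl, rfl⟩, x, hx, zero_add x⟩
  | cons c a ih =>
    cases c with
    | terminal c =>
      rintro _ ⟨x, hx, y, hy, rfl⟩
      obtain ⟨s, z, hz, w, hw, rfl⟩ := mem_iUnion.1 (ih _ hy)
      exact mem_iUnion.2 ⟨s, _, add_mem_add hx hz, w, hw, add_assoc _ _ _⟩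
    | nonterminal X =>
      intro y0 hy0
      obtain ⟨r, t, x, hx, y, hy, rfl⟩ := mem_iUnion₂.1 hy0
      obtain ⟨s, z, hz, w, hw, rfl⟩ := mem_iUnion.1 (ih _ hy)
      exact mem_iUnion.2 ⟨s, _, mem_iUnion₂.2 ⟨r, t, add_mem_add hx hz⟩, w, hw, add_assoc _ _ _⟩

omit [Fintype Γ] [Fintype σ] in
theorem sem_add {a b : List (Symbol Γ g.NT)} {p s q : σ} :
    sem g D π a p s + sem g D π b s q ⊆ sem g D π (a ++ b) p q := by
  rintro _ ⟨_, ⟨u, h1, h2, rfl⟩, _, ⟨v, k1, k2, rfl⟩, rfl⟩
  refine ⟨u ++ v, ?_, ?_, by simp [cnt]⟩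
  · rw [List.map_append]
    exact (h1.append_right b).trans (k1.append_left _)
  · rw [List.flatMap_append, DFA.evalFrom_of_append, h2, k2]

theorem lift_mon_sem {P : Ix g σ → Set (Ix g σ → ℕ)}
    (h1 : ∀ a, P (.inl a) = {Pi.single (.inl a) 1})
    (h2 : ∀ r p q, P (.inr (r, p, q)) = sem g D π r.1.output p q)
    (l : List (Symbol Γ g.NT)) (p q : σ) : lift P (mon g D π l p q) ⊆ sem g D π l p q := by
  induction l generalizing p with
  | nil =>
    rintro y ⟨_, ⟨rfl, rfl⟩, hy⟩
    rw [sub_zero] at hy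
    exact ⟨[], .refl _, rfl, hy⟩
  | cons a l ih =>
    cases a with
    | terminal a =>
      rw [mon, map_add, lift_single, h1]
      refine (add_subset_add (singleton_subset_iff.2 ?_) (ih _)).trans
        (sem_add g D π (a := [.terminal a]))
      exact ⟨[a], .refl _, by simp, by simp [cnt]⟩
    | nonterminal X =>
      simp only [mon, lift_iUnion, map_add, lift_single, h2, iUnion_subset_iff]
      rintro ⟨r, rfl⟩ s
      refine (add_subset_add ?_ (ih _)).trans (sem_add g D π (a := [.nonterminal r.1.input]))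
      exact fun x ⟨u, e, h⟩ => ⟨u, .head ⟨r.1, r.2, .input_output⟩ e, h⟩

theorem sem_lift_mon {S : Ix g σ → Set (Ix g σ → ℕ)}
    (h1 : ∀ a, Pi.single (.inl a) 1 ∈ S (.inl a))
    (h2 : ∀ r p q, lift S (mon g D π r.1.output p q) ⊆ S (.inr (r, p, q)))
    (l : List (Symbol Γ g.NT)) (p q : σ) : sem g D π l p q ⊆ lift S (mon g D π l p q) := by
  rintro _ ⟨u, e, rfl, rfl⟩
  generalize hq : D.evalFrom p (u.flatMap π) = q
  induction e using Relation.ReflTransGen.head_induction_on with
  | refl =>
    induction u generalizing p with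
    | nil => exact ⟨0, ⟨hq, rfl⟩, by rw [sub_zero]; rfl⟩
    | cons a u ih =>
      rw [List.map_cons, mon, map_add, lift_single]
      exact add_mem_add (h1 a) (ih _ (by rwa [List.flatMap_cons, DFA.evalFrom_of_append] at hq))
  | @head l l' e k ih =>
    obtain ⟨r, hr, e⟩ := e
    refine (?_ : lift S (mon g D π l' p q) ⊆ _) ih
    clear ih hq k
    induction e generalizing p with
    | head s =>
      refine (lift_mono (fun _ => subset_rfl) (mon_append g D π _ _ p q)).trans ?_
      simp only [mon, lift_iUnion, map_add, lift_single, iUnion_subset_iff]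
      exact fun t => (add_subset_add_right (h2 ⟨r, hr⟩ p t)).trans
        (subset_iUnion₂_of_subset ⟨⟨r, hr⟩, rfl⟩ t subset_rfl)
    | cons x _ ih =>
      cases x with
      | terminal a =>
        simp only [mon, map_add]
        exact add_subset_add_left (ih _)
      | nonterminal X =>
        simp only [mon, lift_iUnion, map_add]
        exact iUnion₂_mono fun _ _ => add_subset_add_left (ih _)

theorem sem_semi (l : List (Symbol Γ g.NT)) (p q : σ) : IsSemilinearSet (sem g D π l p q) := by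
  obtain ⟨S, s1, s2, s3⟩ := least (Finset.univ.filter fun i : Ix g σ => i.isRight)
    (Sum.elim (fun _ => ∅) fun i => mon g D π i.1.1.output i.2.1 i.2.2)
    (fun i => {Pi.single i 1}) (by
      rintro (a | i)
      exacts [.empty, mon_semi g D π _ _ _]) fun _ => .singleton _
  obtain ⟨P, h1, h2⟩ : ∃ P : Ix g σ → Set (Ix g σ → ℕ),
      (∀ a, P (.inl a) = {Pi.single (.inl a) 1}) ∧
      ∀ r p q, P (.inr (r, p, q)) = sem g D π r.1.output p q :=
    ⟨Sum.elim (fun a => {Pi.single (.inl a) 1}) fun i => sem g D π i.1.1.output i.2.1 i.2.2,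
      fun _ => rfl, fun _ _ _ => rfl⟩
  have h3 := s3 P (by
    rintro (a | ⟨r, p, q⟩)
    · exact ⟨by simp, fun _ => (h1 a).ge⟩
    · exact ⟨fun _ => (lift_mon_sem g D π h1 h2 _ p q).trans (h2 r p q).ge, by simp⟩)
  rw [Subset.antisymm (sem_lift_mon g D π (fun a => (s2 (.inl a)).2 (by simp) rfl)
    (fun r p q => (s2 (.inr (r, p, q))).1 (by simp)) l p q)
    ((lift_mono h3 subset_rfl).trans (lift_mon_sem g D π h1 h2 l p q))]
  exact lift_semi s1 (mon_semi g D π l p q)

omit [Fintype Γ] [Fintype σ] in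
theorem cnt_inl (u : List Γ) (a : Γ) : cnt g σ u (.inl a) = u.count a := by
  induction u with
  | nil => rfl
  | cons b u ih =>
    rw [List.count_cons, ← ih, add_comm, cnt, cnt, List.map_cons, List.sum_cons, Pi.add_apply]
    by_cases e : a = b
    · simp [e]
    · rw [Pi.single_eq_of_ne (by simpa using e), if_neg (by simpa using Ne.symm e)]

/-- Parikh's theorem, with a regular condition on a morphic image. -/
theorem parikh {Γ α σ : Type} [Fintype Γ] [DecidableEq Γ] [Fintype σ] {K : Language Γ}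
    (hK : K.IsContextFree) (D : DFA α σ) (π : Γ → List α) :
    IsSemilinearSet {n : Γ → ℕ | ∃ u ∈ K, u.flatMap π ∈ D.accepts ∧ n = fun a => u.count a} := by
  classical
  obtain ⟨g, rfl⟩ := hK
  have h := (IsSemilinearSet.biUnion (toFinite D.accept) fun q _ =>
    sem_semi g D π [.nonterminal g.initial] D.start q).image (LinearMap.funLeft ℕ ℕ Sum.inl)
  refine cast (congrArg _ ?_) h
  ext n
  simp only [mem_image, mem_iUnion, mem_ofPred_eq]
  constructor
  · rintro ⟨_, ⟨_, hq, u, h1, rfl, rfl⟩, rfl⟩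
    exact ⟨u, h1, hq, funext (cnt_inl g u)⟩
  · rintro ⟨u, h1, hq, rfl⟩
    exact ⟨_, ⟨_, hq, u, h1, rfl, rfl⟩, funext (cnt_inl g u)⟩

end Pool.Agent.Lib.MP_e49cd5_nt.Tm
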