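import Pool.Agent.Lib.MP_e49cd5_nt.TwDefs

set_option autoImplicit false

namespace Pool.Agent.Lib.MP_e49cd5_nt.Tw

open Filter Topology

theorem cluster_per {e : ℕ → ℝ} {r : ℕ → Prop} {D : Finset ℝ} {n₁ : ℕ}
    (hD : ∀ n, n₁ ≤ n → e n ∈ D)
    (h : ∀ n, n₁ ≤ n → (r n ∧ 2 * e (n + 1) = 3 * e n - 1 ∧ 1 ≤ 3 * e n) ∨
      (¬ r n ∧ e (n + 1) = 3 * e n ∧ 3 * e n ≤ 1)) :
    ∃ l n₀, 0 < l ∧ ∀ n, n₀ ≤ n → (r (n + l) ↔ r n) := by
  obtain ⟨m, hm, h1⟩ : ∃ m, n₁ ≤ m ∧ ∀ n, m ≤ n → 3 * e n ≠ 1 := by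
    by_cases c : ∃ m, n₁ ≤ m ∧ 3 * e m = 1
    · obtain ⟨m, hm, c⟩ := c
      have h2 : ∀ n, m + 1 ≤ n → e n = 0 ∨ e n = 1 := fun n hn => by
        induction n, hn using Nat.le_induction with
        | base => exact (h m hm).imp (fun k => by linarith [k.2.1]) fun k => by linarith [k.2.1]
        | succ n hn ih =>
          rcases h n (by omega) with ⟨-, k1, k2⟩ | ⟨-, k1, k2⟩ <;> rcases ih with k | k
          · linarith
          · exact .inr (by linarith)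
          · exact .inl (by linarith)
          · linarith
      exact ⟨m + 1, by omega, fun n hn c => by rcases h2 n hn with k | k <;> linarith⟩
    · exact ⟨n₁, le_rfl, fun n hn k => c ⟨n, hn, k⟩⟩
  have h2 : ∀ i j, m ≤ i → m ≤ j → e i = e j → (r i ↔ r j) ∧ e (i + 1) = e (j + 1) :=
    fun i j hi hj k => by
      have k0 := h1 i hi
      rcases h i (hm.trans hi) with ⟨k1, k2, k3⟩ | ⟨k1, k2, k3⟩ <;>
        rcases h j (hm.trans hj) with ⟨k4, k5, k6⟩ | ⟨k4, k5, k6⟩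
      · exact ⟨iff_of_true k1 k4, by linarith⟩
      · exact (k0 (by linarith)).elim
      · exact (k0 (by linarith)).elim
      · exact ⟨iff_of_false k1 k4, by linarith⟩
  obtain ⟨i, j, hij, k⟩ := Set.Finite.exists_lt_map_eq_of_forall_mem (f := fun k => e (m + k))
    (fun k => hD _ (by omega)) D.finite_toSet
  have h3 : ∀ n, m + i ≤ n → e (n + (j - i)) = e n := fun n hn => by
    induction n, hn using Nat.le_induction with
    | base => rw [show m + i + (j - i) = m + j by omega, k]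
    | succ n hn ih => exact add_right_comm n 1 _ ▸ (h2 _ _ (by omega) (by omega) ih).2
  exact ⟨j - i, m + i, by omega, fun n hn => (h2 _ _ (by omega) (by omega) (h3 n hn)).1⟩

theorem cluster_gap (y : ℝ) : ∀ᶠ η in 𝓝[>] (0 : ℝ), |y| ≤ 10 * η → y = 0 := by
  rcases eq_or_ne y 0 with h | h
  · exact Eventually.of_forall fun _ _ => h
  · filter_upwards [nhdsWithin_le_nhds (gt_mem_nhds (show 0 < |y| / 10 by positivity))] with η h1 h2
    linarith

theorem cluster_abs {y u c η : ℝ} (hη : 0 < η) (hu : 20 ≤ η * u) (hc : |c| ≤ 20)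
    (h : |y * u + c| ≤ 9 * η * u) : |y| ≤ 10 * η := by
  have h0 : 0 < u := (pos_iff_pos_of_mul_pos (by linarith : 0 < η * u)).1 hη
  obtain ⟨h1, h2⟩ := abs_le.1 h
  obtain ⟨h3, h4⟩ := abs_le.1 hc
  exact abs_le.2 ⟨le_of_mul_le_mul_right (by linarith) h0, le_of_mul_le_mul_right (by linarith) h0⟩

/-- The slopes of an orbit whose rules are not eventually periodic have a cluster point outside
any finite set. -/
theorem cluster (a b : ℕ → ℤ) (a0 : -2 ≤ a 0) (b0 : 0 ≤ b 0)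
    (ha : ∀ n, a (n + 1) = if b n / 2 < a n then a n - b n / 2 - 3 else 3 * a n + 5)
    (hb : ∀ n, b (n + 1) = if b n / 2 < a n then 3 * ((b n + 1) / 2) + 6 else b n - 2 * a n)
    (np : ∀ l n₀ : ℕ, 0 < l → ∃ n, n₀ ≤ n ∧ ¬(b (n + l) / 2 < a (n + l) ↔ b n / 2 < a n))
    (D : Finset ℝ) :
    ∃ x : ℝ, 0 ≤ x ∧ x ≤ 1 ∧ x ∉ D ∧ ∀ δ R : ℝ, 0 < δ → ∃ n, Sec x δ R (a n, b n) := by
  by_contra hn
  have inv : ∀ n : ℕ, -2 ≤ a n ∧ 0 ≤ b n ∧ (n : ℤ) ≤ a n + b n + 2 := fun n => by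
    induction n with
    | zero => omega
    | succ n ih =>
      rw [ha, hb]
      split_ifs <;> omega
  obtain ⟨p, hp⟩ : ∃ p : ℕ → ℝ, ∀ n, p n = a n + 2 := ⟨_, fun _ => rfl⟩
  obtain ⟨u, hu⟩ : ∃ u : ℕ → ℝ, ∀ n, u n = a n + b n + 2 := ⟨_, fun _ => rfl⟩
  have p0 : ∀ n, 0 ≤ p n := fun n => by rw [hp]; exact_mod_cast (by linarith [(inv n).1])
  have pu : ∀ n, p n ≤ u n := fun n => by rw [hp, hu]; exact_mod_cast (by linarith [(inv n).2.1])
  have ut : Tendsto u atTop atTop := tendsto_atTop_mono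
    (fun n => by rw [hu]; exact_mod_cast (inv n).2.2) tendsto_natCast_atTop_atTop
  obtain ⟨η, ⟨η1, η0⟩, hη⟩ := ((Eventually.and (nhdsWithin_le_nhds (gt_mem_nhds one_pos) :
    ∀ᶠ η in 𝓝[>] (0 : ℝ), η < 1) eventually_mem_nhdsWithin).and ((eventually_all_finset D).2
      fun e _ => (cluster_gap (3 * e - 1)).and ((eventually_all_finset D).2 fun e' _ =>
        (cluster_gap (3 * e - e')).and (cluster_gap (3 * e - 1 - 2 * e'))))).exists
  replace η0 : 0 < η := η0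
  have near : ∀ᶠ n in atTop, ∃ e, e ∈ D ∧ 0 ≤ e ∧ e ≤ 1 ∧ |p n - e * u n| ≤ η * u n := by
    by_contra c
    obtain ⟨x, hx, φ, hφ, hl⟩ : ∃ x ∈ Set.Icc (0 : ℝ) 1, ∃ φ : ℕ → ℕ, (StrictMono φ ∧ ∀ k,
        ¬ ∃ e, e ∈ D ∧ 0 ≤ e ∧ e ≤ 1 ∧ |p (φ k) - e * u (φ k)| ≤ η * u (φ k)) ∧
        Tendsto (fun k => p (φ k) / u (φ k)) atTop (𝓝 x) := by
      obtain ⟨ψ, h1, h2⟩ := extraction_of_frequently_atTop (not_eventually.1 c)
      obtain ⟨x, hx, χ, h3, h4⟩ := isCompact_Icc.tendsto_subseq (x := fun k => p (ψ k) / u (ψ k))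
        fun k => ⟨div_nonneg (p0 _) ((p0 _).trans (pu _)), div_le_one_of_le₀ (pu _)
          ((p0 _).trans (pu _))⟩
      exact ⟨x, hx, ψ ∘ χ, ⟨h1.comp h3, fun k => h2 _⟩, h4⟩
    have key : ∀ δ R : ℝ, 0 < δ → ∃ k, R ≤ u (φ k) ∧ |p (φ k) - x * u (φ k)| ≤ δ * u (φ k) :=
      fun δ R hδ => by
        obtain ⟨k, ⟨h1, h2⟩, h3⟩ := ((((ut.comp hφ.1.tendsto_atTop).eventually_ge_atTop R).and
          ((ut.comp hφ.1.tendsto_atTop).eventually_gt_atTop 0)).and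
          (Metric.tendsto_nhds.1 hl δ hδ)).exists
        replace h2 : 0 < u (φ k) := h2
        refine ⟨k, h1, ?_⟩
        rw [Real.dist_eq, div_sub' h2.ne', abs_div, abs_of_pos h2, div_lt_iff₀ h2, mul_comm] at h3
        exact h3.le
    refine hn ⟨x, hx.1, hx.2, fun hD => ?_, fun δ R hδ => ?_⟩
    · obtain ⟨k, -, h⟩ := key η 0 η0
      exact hφ.2 k ⟨x, hD, hx.1, hx.2, h⟩
    · obtain ⟨k, h1, h2⟩ := key (δ / 2) (max (R + 2) (4 + 4 / δ)) (half_pos hδ)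
      obtain ⟨h3, h4⟩ := max_le_iff.1 h1
      have h5 := mul_le_mul_of_nonneg_left h4 hδ.le
      rw [mul_add, mul_div_cancel₀ _ hδ.ne'] at h5
      rw [hu] at h3 h5
      rw [hp, hu, abs_le] at h2
      exact ⟨φ k, by simp only; linarith, abs_le.2 ⟨by simp only; linarith [h2.1, hx.1, hx.2],
        by simp only; linarith [h2.2, hx.1, hx.2]⟩⟩
  obtain ⟨n₁, h1⟩ := eventually_atTop.1
    (near.and ((ut.const_mul_atTop η0).eventually_ge_atTop 20))
  choose! e e1 e2 e3 e4 using fun n hn => (h1 n hn).1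
  obtain ⟨l, n₀, hl, h2⟩ := cluster_per (e := e) (r := fun n => b n / 2 < a n) e1 fun n hn => by
    have k1 := (h1 n hn).2
    have k2 := abs_le.1 (e4 n hn)
    have k3 := abs_le.1 (e4 (n + 1) (by omega))
    have k4 := e2 (n + 1) (by omega)
    have k5 := e3 (n + 1) (by omega)
    obtain ⟨k6, k7⟩ := hη _ (e1 n hn)
    obtain ⟨k8, k9⟩ := k7 _ (e1 (n + 1) (by omega))
    have u0 : 0 < u n := (pos_iff_pos_of_mul_pos (by linarith : 0 < η * u n)).1 η0
    by_cases c : b n / 2 < a n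
    · obtain ⟨o, o0, o1, j1, j2⟩ : ∃ o : ℝ, 0 ≤ o ∧ o ≤ 1 ∧ 2 * p (n + 1) = 3 * p n - u n + o - 6 ∧
          u (n + 1) = u n + 3 + 2 * o := by
        refine ⟨(b n % 2 : ℤ), by exact_mod_cast (by omega), by exact_mod_cast (by omega), ?_, ?_⟩
          <;> simp only [hp, hu, ha, hb, if_pos c] <;> exact_mod_cast (by omega)
      have j3 := p0 (n + 1)
      rw [j2] at k3
      refine .inl ⟨c, ?_, not_lt.1 fun j => ?_⟩
      · linarith [k9 (cluster_abs (c := o - 6 - 2 * e (n + 1) * (3 + 2 * o)) η0 k1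
          (abs_le.2 ⟨by nlinarith, by nlinarith⟩) (abs_le.2 ⟨by nlinarith, by nlinarith⟩))]
      · linarith [k6 (cluster_abs (c := 0) η0 k1 (by simp) (abs_le.2 ⟨by nlinarith, by nlinarith⟩))]
    · have j1 : p (n + 1) = 3 * p n + 1 := by
        simp only [hp, ha, if_neg c]
        push_cast
        ring
      have j2 : u (n + 1) = u n + 5 := by
        simp only [hu, ha, hb, if_neg c]
        push_cast
        ring
      have j3 : 3 * p n ≤ u n + 4 := by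
        rw [hp, hu]
        exact_mod_cast (by omega)
      rw [j2] at k3
      refine .inr ⟨c, ?_, not_lt.1 fun j => ?_⟩
      · linarith [k8 (cluster_abs (c := 1 - 5 * e (n + 1)) η0 k1
          (abs_le.2 ⟨by linarith, by linarith⟩) (abs_le.2 ⟨by nlinarith, by nlinarith⟩))]
      · linarith [k6 (cluster_abs (c := 0) η0 k1 (by simp) (abs_le.2 ⟨by nlinarith, by nlinarith⟩))]
  obtain ⟨n, h3, h4⟩ := np l n₀ hl
  exact h4 (h2 n h3)

end Pool.Agent.Lib.MP_e49cd5_nt.Tw
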