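import Pool.Agent.Lib.MP_e49cd5_nt.TwP

set_option autoImplicit false

namespace Pool.Agent.Lib.MP_e49cd5_nt.Tw

/-- Far out in a thin sector around a slope outside a finite set the set `s` is a union of
residue classes. -/
def Tame (s : Set (ℤ × ℤ)) : Prop :=
  ∃ (D : Finset ℝ) (M : ℕ), 0 < M ∧ ∀ x ∉ D, ∃ δ R : ℝ, 0 < δ ∧ 0 ≤ R ∧ ∀ p q : ℤ × ℤ,
    Sec x δ R p → Sec x δ R q → p.1 ≡ q.1 [ZMOD M] → p.2 ≡ q.2 [ZMOD M] → (p ∈ s ↔ q ∈ s)

theorem Tame.empty : Tame ∅ :=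
  ⟨∅, 1, one_pos, fun _ _ => ⟨1, 0, one_pos, le_rfl, fun _ _ _ _ _ _ => Iff.rfl⟩⟩

theorem Tame.compl {s : Set (ℤ × ℤ)} (h : Tame s) : Tame sᶜ := by
  obtain ⟨D, M, hM, h⟩ := h
  refine ⟨D, M, hM, fun x hx => ?_⟩
  obtain ⟨δ, R, hδ, hR, h⟩ := h x hx
  exact ⟨δ, R, hδ, hR, fun p q hp hq h1 h2 => (h p q hp hq h1 h2).not⟩

theorem Tame.union {s t : Set (ℤ × ℤ)} (hs : Tame s) (ht : Tame t) : Tame (s ∪ t) := by
  obtain ⟨D, M, hM, h⟩ := hs
  obtain ⟨D', M', hM', h'⟩ := ht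
  refine ⟨D ∪ D', M * M', mul_pos hM hM', fun x hx => ?_⟩
  obtain ⟨δ, R, hδ, hR, h⟩ := h x fun c => hx (Finset.mem_union_left _ c)
  obtain ⟨δ', R', hδ', -, h'⟩ := h' x fun c => hx (Finset.mem_union_right _ c)
  have h0 : 0 ≤ max R R' := hR.trans (le_max_left _ _)
  refine ⟨min δ δ', max R R', lt_min hδ hδ', h0, fun p q hp hq h1 h2 => ?_⟩
  push_cast at h1 h2
  exact or_congr
    (h p q (hp.mono h0 (min_le_left _ _) (le_max_left _ _))
      (hq.mono h0 (min_le_left _ _) (le_max_left _ _)) h1.of_mul_right h2.of_mul_right)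
    (h' p q (hp.mono h0 (min_le_right _ _) (le_max_right _ _))
      (hq.mono h0 (min_le_right _ _) (le_max_right _ _)) h1.of_mul_left h2.of_mul_left)

theorem Tame.inter {s t : Set (ℤ × ℤ)} (hs : Tame s) (ht : Tame t) : Tame (s ∩ t) := by
  simpa [Set.compl_union] using (hs.compl.union ht.compl).compl

theorem Tame.sUnion {S : Set (Set (ℤ × ℤ))} (hS : S.Finite) (h : ∀ s ∈ S, Tame s) :
    Tame (⋃₀ S) := by
  induction S, hS using Set.Finite.induction_on with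
  | empty => simpa using Tame.empty
  | insert _ _ ih =>
    rw [Set.sUnion_insert]
    exact (h _ (Set.mem_insert _ _)).union (ih fun s hs => h s (Set.mem_insert_of_mem _ hs))

theorem Tame.poly (f : MvPolynomial (Fin 2) ℝ) :
    Tame {p | 0 < MvPolynomial.eval ![(p.1 : ℝ), (p.2 : ℝ)] f} := by
  obtain ⟨D, h⟩ := poly_sign f
  refine ⟨D, 1, one_pos, fun x hx => ?_⟩
  obtain ⟨δ, R, hδ, hR, h⟩ := h x hx
  refine ⟨δ, R, hδ, hR, fun p q hp hq _ _ => ?_⟩
  simp only [Set.mem_ofPred_eq]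
  rw [← sign_eq_one_iff, h p q hp hq, sign_eq_one_iff]

theorem Tame.lin (α β γ : ℤ) : Tame {p | 0 ≤ α * p.1 + β * p.2 + γ} := by
  have h := (Tame.poly (-(MvPolynomial.C (α : ℝ) * MvPolynomial.X 0 +
    MvPolynomial.C (β : ℝ) * MvPolynomial.X 1 + MvPolynomial.C (γ : ℝ)))).compl
  convert h using 1
  ext p
  simp only [Set.mem_ofPred_eq, Set.mem_compl_iff, map_neg, map_add, map_mul, MvPolynomial.eval_C,
    MvPolynomial.eval_X, Matrix.cons_val_zero, Matrix.cons_val_one, neg_pos, not_lt]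
  norm_cast

theorem Tame.dvd (m α β γ : ℤ) (hm : m ≠ 0) : Tame {p | m ∣ α * p.1 + β * p.2 + γ} := by
  refine ⟨∅, m.natAbs, Int.natAbs_pos.2 hm, fun x _ => ⟨1, 0, one_pos, le_rfl, ?_⟩⟩
  intro p q _ _ h1 h2
  rw [Int.modEq_natAbs] at h1 h2
  have h := ((h1.mul_left α).add (h2.mul_left β)).add_right γ
  simp only [Set.mem_ofPred_eq]
  rw [← Int.modEq_zero_iff_dvd, ← Int.modEq_zero_iff_dvd]
  exact ⟨h.symm.trans, h.trans⟩

theorem Tame.mul (m α β γ : ℤ) (hm : m ≠ 0) : Tame {p | ∃ i : ℕ, α * p.1 + β * p.2 + γ = m * i} := by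
  convert (Tame.dvd m α β γ hm).inter (Tame.lin (m * α) (m * β) (m * γ)) using 1
  ext p
  simp only [Set.mem_ofPred_eq, Set.mem_inter_iff]
  have e : m * α * p.1 + m * β * p.2 + m * γ = m * (α * p.1 + β * p.2 + γ) := by ring
  rw [e]
  constructor
  · rintro ⟨i, h⟩
    rw [h, ← mul_assoc]
    exact ⟨dvd_mul_right _ _, mul_nonneg (mul_self_nonneg m) (Int.natCast_nonneg i)⟩
  · rintro ⟨⟨i, h⟩, h0⟩
    rw [h, ← mul_assoc] at h0
    obtain ⟨n, rfl⟩ := Int.eq_ofNat_of_zero_le (nonneg_of_mul_nonneg_right h0 (mul_self_pos.2 hm))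
    exact ⟨n, h⟩

theorem Tame.pair (v p q : ℤ × ℤ) (h : p.1 * q.2 - p.2 * q.1 ≠ 0) :
    Tame {z | ∃ i j : ℕ, z.1 = v.1 + i * p.1 + j * q.1 ∧ z.2 = v.2 + i * p.2 + j * q.2} := by
  convert (Tame.mul _ q.2 (-q.1) (v.2 * q.1 - v.1 * q.2) h).inter
    (Tame.mul _ (-p.2) p.1 (v.1 * p.2 - v.2 * p.1) h) using 1
  ext z
  simp only [Set.mem_ofPred_eq, Set.mem_inter_iff]
  constructor
  · rintro ⟨i, j, h1, h2⟩
    rw [h1, h2]
    exact ⟨⟨i, by ring⟩, ⟨j, by ring⟩⟩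
  · rintro ⟨⟨i, h1⟩, ⟨j, h2⟩⟩
    refine ⟨i, j, mul_left_cancel₀ h ?_, mul_left_cancel₀ h ?_⟩
    · linear_combination p.1 * h1 + q.1 * h2
    · linear_combination p.2 * h1 + q.2 * h2

theorem Tame.ray (v p : ℤ × ℤ) (h : p ≠ 0) :
    Tame {z | ∃ i : ℕ, z.1 = v.1 + i * p.1 ∧ z.2 = v.2 + i * p.2} := by
  have hp : 0 < p.1 * p.1 - p.2 * -p.2 := by
    by_contra c
    refine h (Prod.ext ?_ ?_) <;> simp only [Prod.fst_zero, Prod.snd_zero] <;>
      nlinarith [mul_self_nonneg p.1, mul_self_nonneg p.2]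
  convert (Tame.pair v p (-p.2, p.1) hp.ne').inter
    (Tame.lin p.2 (-p.1) (v.2 * p.1 - v.1 * p.2)) using 1
  ext z
  simp only [Set.mem_ofPred_eq, Set.mem_inter_iff]
  constructor
  · rintro ⟨i, h1, h2⟩
    refine ⟨⟨i, 0, by simpa using h1, by simpa using h2⟩, le_of_eq ?_⟩
    rw [h1, h2]
    ring
  · rintro ⟨⟨i, j, h1, h2⟩, h3⟩
    rw [h1, h2] at h3
    have h4 : (j : ℤ) ≤ 0 := by
      by_contra c
      nlinarith [mul_pos hp (not_le.1 c)]
    obtain rfl : j = 0 := by omega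
    exact ⟨i, by simpa using h1, by simpa using h2⟩

theorem Tame.single (v : ℤ × ℤ) : Tame {v} := by
  convert ((Tame.lin 1 0 (-v.1)).inter (Tame.lin (-1) 0 v.1)).inter
    ((Tame.lin 0 1 (-v.2)).inter (Tame.lin 0 (-1) v.2)) using 1
  ext z
  simp only [Set.mem_ofPred_eq, Set.mem_inter_iff, Set.mem_singleton_iff, Prod.ext_iff]
  omega

theorem indepZ {s : Set (ℤ × ℤ)} (hs : LinearIndepOn ℕ id s) : LinearIndepOn ℤ id s := by
  rw [linearIndepOn_iff'']
  intro t f ht hf heq i hi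
  rw [linearIndepOn_iff_linearIndepOn_finset] at hs
  specialize hs t ht
  rw [linearIndepOn_finset_iffₛ] at hs
  specialize hs (Int.toNat ∘ f) (Int.toNat ∘ (-·) ∘ f) ?_ i hi
  · rw [← sub_eq_zero, ← Finset.sum_sub_distrib, ← heq]
    refine Finset.sum_congr rfl fun j hj => ?_
    conv_rhs => rw [← (f j).toNat_sub_toNat_neg]
    simp only [sub_smul, natCast_zsmul, Function.comp_apply, id_eq]
  · rw [← (f i).toNat_sub_toNat_neg, sub_eq_zero, Int.natCast_inj]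
    simpa using hs

theorem Tame.proper {s : Set (ℤ × ℤ)} (hs : IsProperLinearSet s) : Tame s := by
  classical
  obtain ⟨v, t, ht, rfl⟩ := isProperLinearSet_iff.1 hs
  have ht' := indepZ ht
  have hc : t.card ≤ 2 := by simpa using LinearIndependent.finset_card_le_finrank ht'
  obtain h | h | h : t.card = 0 ∨ t.card = 1 ∨ t.card = 2 := by omega
  · obtain rfl := Finset.card_eq_zero.1 h
    simpa using Tame.single v
  · obtain ⟨p, rfl⟩ := Finset.card_eq_one.1 h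
    convert Tame.ray v p (by simpa using ht') using 1
    ext z
    simp only [Finset.coe_singleton, Set.mem_vadd_set, SetLike.mem_coe,
      AddSubmonoid.mem_closure_singleton, Set.mem_ofPred_eq, vadd_eq_add]
    constructor
    · rintro ⟨_, ⟨i, rfl⟩, rfl⟩
      exact ⟨i, by simp, by simp⟩
    · rintro ⟨i, h1, h2⟩
      exact ⟨_, ⟨i, rfl⟩, Prod.ext (by simp [h1]) (by simp [h2])⟩
  · obtain ⟨p, q, hpq, rfl⟩ := Finset.card_eq_two.1 h
    have key : ∀ m n : ℤ, m • p + n • q = 0 → m = 0 ∧ n = 0 := fun m n hmn => by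
      have := linearIndepOn_finset_iff.1 ht' (fun z => if z = p then m else n) (by
        rw [Finset.sum_pair hpq]
        simpa [hpq.symm] using hmn)
      exact ⟨by simpa using this p (by simp), by simpa [hpq.symm] using this q (by simp)⟩
    have hd : p.1 * q.2 - p.2 * q.1 ≠ 0 := fun hd => by
      have h1 := key q.2 (-p.2) (Prod.ext (by simp; linarith) (by simp; linarith))
      have h2 := key q.1 (-p.1) (Prod.ext (by simp; linarith) (by simp; linarith))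
      exact hpq (Prod.ext (by omega) (by omega))
    convert Tame.pair v p q hd using 1
    ext z
    simp only [Finset.coe_pair, Set.mem_vadd_set, SetLike.mem_coe,
      AddSubmonoid.mem_closure_pair, Set.mem_ofPred_eq, vadd_eq_add]
    constructor
    · rintro ⟨_, ⟨i, j, rfl⟩, rfl⟩
      exact ⟨i, j, by simp [add_assoc], by simp [add_assoc]⟩
    · rintro ⟨i, j, h1, h2⟩
      exact ⟨_, ⟨i, j, rfl⟩, Prod.ext (by simp [h1, add_assoc]) (by simp [h2, add_assoc])⟩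

theorem Tame.semilinear {s : Set (ℤ × ℤ)} (hs : IsSemilinearSet s) : Tame s := by
  obtain ⟨S, hS, h, rfl⟩ := hs.isProperSemilinearSet
  exact Tame.sUnion hS fun s hs => Tame.proper (h s hs)

end Pool.Agent.Lib.MP_e49cd5_nt.Tw
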