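import Pool.Agent.Lib.MP_e49cd5_nt.TwD
import Pool.Agent.Lib.MP_e49cd5_nt.TwO
import Pool.Agent.Lib.MP_e49cd5_nt.TwS
import Pool.Agent.Lib.MP_e49cd5_nt.NoPer

set_option autoImplicit false

namespace Pool.Agent.Lib.MP_e49cd5_nt.Tw

theorem Tame.closure {I : Set (ℤ × ℤ)}
    (hI : I ∈ BooleanSubalgebra.closure ({s : Set (ℤ × ℤ) | IsSemilinearSet s} ∪
      {s : Set (ℤ × ℤ) | ∃ f : MvPolynomial (Fin 2) ℝ,
        s = {p | 0 < MvPolynomial.eval ![(p.1 : ℝ), (p.2 : ℝ)] f}})) : Tame I := by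
  induction hI using BooleanSubalgebra.closure_bot_sup_induction with
  | mem x hx =>
    rcases hx with hx | ⟨f, rfl⟩
    · exact Tame.semilinear hx
    · exact Tame.poly f
  | bot => exact Tame.empty
  | sup x _ y _ hx hy => exact hx.union hy
  | compl x _ hx => exact hx.compl

theorem Tame.hit {I : Set (ℤ × ℤ)} (hI : Tame I) (a b : ℕ → ℤ) (a0 : -2 ≤ a 0) (b0 : 0 ≤ b 0)
    (ha : ∀ n, a (n + 1) = if b n / 2 < a n then a n - b n / 2 - 3 else 3 * a n + 5)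
    (hb : ∀ n, b (n + 1) = if b n / 2 < a n then 3 * ((b n + 1) / 2) + 6 else b n - 2 * a n)
    (orb : ∀ n, (a n, b n) ∈ I) : ∃ q ∈ I, -2 ≤ q.1 ∧ 0 ≤ q.2 ∧ Hit q := by
  obtain ⟨D, M, hM, h⟩ := hI
  obtain ⟨x, hx0, hx1, hxD, hx⟩ := cluster a b a0 b0 ha hb
    (noPeriod a b a0 b0 ha hb) D
  obtain ⟨δ, R, hδ, -, h⟩ := h x hxD
  obtain ⟨n, hn⟩ := hx δ R hδ
  obtain ⟨q, hq, h1, h2, h3⟩ := dense x δ R hx0 hx1 hδ M hM (a n, b n)
  exact ⟨q, (h q _ hq hn h1 h2).2 (orb n), h3⟩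

theorem iter_fst (q : ℤ × ℤ) (n : ℕ) : (step^[n + 1] q).1 =
    if (step^[n] q).2 / 2 < (step^[n] q).1 then (step^[n] q).1 - (step^[n] q).2 / 2 - 3
    else 3 * (step^[n] q).1 + 5 := by
  rw [Function.iterate_succ_apply']
  generalize step^[n] q = p
  unfold step
  split_ifs <;> rfl

theorem iter_snd (q : ℤ × ℤ) (n : ℕ) : (step^[n + 1] q).2 =
    if (step^[n] q).2 / 2 < (step^[n] q).1 then 3 * (((step^[n] q).2 + 1) / 2) + 6
    else (step^[n] q).2 - 2 * (step^[n] q).1 := by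
  rw [Function.iterate_succ_apply']
  generalize step^[n] q = p
  unfold step
  split_ifs <;> rfl

end Pool.Agent.Lib.MP_e49cd5_nt.Tw
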