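import Pool.Agent.Lib.MP_e49cd5_nt.TmShape
import Pool.Agent.Lib.MP_e49cd5_nt.TmPar
import Pool.Agent.Lib.MP_e49cd5_nt.TwMain

set_option autoImplicit false

open Pointwise Set

namespace Pool.Agent.Lib.MP_e49cd5_nt.Tm

open Tw

/-- The configuration of a pair. -/
def cp (p : ℤ × ℤ) : Cfg := cf (p.1 + 1).toNat (p.2 + 2).toNat

theorem cp_eq {p : ℤ × ℤ} {x y : ℕ} (h1 : p.1 + 1 = x) (h2 : p.2 + 2 = y) : cp p = cf x y := by
  rw [cp, h1, h2, Int.toNat_natCast, Int.toNat_natCast]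

/-- The region of the simulation. -/
def P (p : ℤ × ℤ) : Prop := -1 ≤ p.1 ∧ 0 ≤ p.2 ∧ 22 ≤ p.1 + p.2

theorem sim_step {p : ℤ × ℤ} (h : P p) (k : p.1 ≠ p.2 / 2 + 1) :
    P (step p) ∧ R (cp p) (cp (step p)) := by
  obtain ⟨h1, h2, h3⟩ := h
  unfold step
  split_ifs with c
  · refine ⟨⟨by dsimp only; omega, by dsimp only; omega, by dsimp only; omega⟩, ?_⟩
    obtain ⟨j, e1⟩ := Int.eq_ofNat_of_zero_le (a := p.2 / 2 + 1) (by omega)
    obtain ⟨x, e2⟩ := Int.eq_ofNat_of_zero_le (a := p.1 - p.2 / 2 - 2) (by omega)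
    rcases Int.emod_two_eq_zero_or_one p.2 with e | e
    · rw [cp_eq (x := j + (x + 2)) (y := 2 * j) (by omega) (by omega),
        cp_eq (x := x) (y := 3 * j + 5) (by dsimp only; omega) (by dsimp only; omega)]
      exact sim1E j x
    · rw [cp_eq (x := j + (x + 2)) (y := 2 * j + 1) (by omega) (by omega),
        cp_eq (x := x) (y := 3 * j + 8) (by dsimp only; omega) (by dsimp only; omega)]
      exact sim1O j x
  · refine ⟨⟨by dsimp only; omega, by dsimp only; omega, by dsimp only; omega⟩, ?_⟩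
    obtain ⟨x, e1⟩ := Int.eq_ofNat_of_zero_le (a := p.1 + 1) (by omega)
    obtain ⟨y, e2⟩ := Int.eq_ofNat_of_zero_le (a := p.2 - 2 * p.1) (by omega)
    rw [cp_eq (x := x) (y := 2 * x + y) e1 (by omega),
      cp_eq (x := 3 * x + 3) (y := y + 2) (by dsimp only; omega) (by dsimp only; omega)]
    exact sim2 x y

theorem sim_halt {p : ℤ × ℤ} (h : P p) (k : p.1 = p.2 / 2 + 1) : H (cp p) := by
  obtain ⟨h1, h2, h3⟩ := h
  obtain ⟨j, e1⟩ := Int.eq_ofNat_of_zero_le (a := p.2 / 2 - 4) (by omega)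
  rcases Int.emod_two_eq_zero_or_one p.2 with e | e
  · rw [cp_eq (x := j + 5 + 1) (y := 2 * (j + 5)) (by omega) (by omega)]
    exact haltE j
  · rw [cp_eq (x := j + 5 + 1) (y := 2 * (j + 5) + 1) (by omega) (by omega)]
    exact haltO j

theorem hit_halts {p : ℤ × ℤ} (h : P p) (k : Hit p) : H (cp p) := by
  obtain ⟨i, k⟩ := k
  induction i generalizing p with
  | zero => exact sim_halt h k
  | succ i ih =>
    by_cases c : p.1 = p.2 / 2 + 1
    · exact sim_halt h c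
    · exact (sim_step h c).2.halts (ih (sim_step h c).1 k)

theorem tame_P : Tame {p | P p} := by
  refine cast (congrArg _ ?_) ((Tame.lin 1 0 1).inter ((Tame.lin 0 1 0).inter (Tame.lin 1 1 (-22))))
  ext p
  simp only [P, mem_inter_iff, mem_ofPred_eq]
  omega

theorem main {L : Set (List (Bool ⊕ St))} (hL : Tame {p | P p ∧ word (cp p) ∈ L})
    (h : ∀ c, R ([], .A, []) c → word c ∈ L) : ∃ c, word c ∈ L ∧ H c := by
  have h0 : P (10, 12) := ⟨by decide, by decide, by decide⟩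
  by_cases c : Hit (10, 12)
  · exact ⟨_, h _ R.rfl, start.halts (hit_halts h0 c)⟩
  · have h1 : ∀ n, P (step^[n] (10, 12)) ∧ R ([], .A, []) (cp (step^[n] (10, 12))) := fun n => by
      induction n with
      | zero => exact ⟨h0, start⟩
      | succ n ih =>
        rw [Function.iterate_succ_apply']
        exact (sim_step ih.1 fun e => c ⟨n, e⟩).imp_right ih.2.trans
    obtain ⟨q, hq, -, -, k⟩ := hL.hit (fun n => (step^[n] (10, 12)).1)
      (fun n => (step^[n] (10, 12)).2) (by decide) (by decide) (iter_fst _) (iter_snd _)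
      fun n => ⟨(h1 n).1, h _ (h1 n).2⟩
    exact ⟨_, hq.2, hit_halts hq.1 k⟩

theorem tame_gen {Γ : Type} [Fintype Γ] [DecidableEq Γ] {K : Language Γ} (hK : K.IsContextFree)
    {A : Set (Γ → ℕ)} (hA : IsSemilinearSet A) (π : Γ → List (Bool ⊕ St)) :
    Tame {p | P p ∧ word (cp p) ∈ {w | ∃ u ∈ K, (fun g => u.count g) ∈ A ∧ u.flatMap π = w}} := by
  obtain ⟨φ, hφ⟩ : ∃ φ : (Γ → ℕ) →+ ℤ × ℤ, ∀ u : List Γ, φ (fun g => u.count g) =
      ((occ l0 (u.flatMap π) : ℤ), (occ l1 (u.flatMap π) : ℤ)) :=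
    ⟨⟨⟨fun m => ((∑ g, m g * occ l0 (π g) : ℕ), (∑ g, m g * occ l1 (π g) : ℕ)), by simp⟩,
      fun m n => by simp [add_mul, Finset.sum_add_distrib]⟩,
      fun u => by rw [occ_flatMap, occ_flatMap]; rfl⟩
  refine cast (congrArg _ ?_) (tame_P.inter (Tame.semilinear
    ((((parikh hK shp π).inter hA).image φ).vadd ((-3, -8) : ℤ × ℤ))))
  ext p
  refine and_congr_right fun hp => ⟨?_, ?_⟩
  · rintro ⟨_, ⟨_, ⟨⟨u, h1, h2, rfl⟩, h3⟩, rfl⟩, rfl⟩
    obtain ⟨x, y, e⟩ := (shp_iff _).1 h2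
    refine ⟨u, h1, h3, e.trans (congrArg word (cp_eq ?_ ?_).symm)⟩ <;>
      simp only [hφ, e, occ0, occ1, vadd_eq_add, Prod.fst_add, Prod.snd_add] <;> omega
  · rintro ⟨u, h1, h3, e⟩
    refine ⟨_, ⟨_, ⟨⟨u, h1, (shp_iff _).2 ⟨_, _, e⟩, rfl⟩, h3⟩, rfl⟩, ?_⟩
    obtain ⟨h4, h5, -⟩ := hp
    refine Prod.ext ?_ ?_ <;>
      simp only [hφ, e, cp, occ0, occ1, vadd_eq_add, Prod.fst_add, Prod.snd_add] <;> omega

theorem tame_closure {L : Set (List (Bool ⊕ St))}
    (hL : L ∈ BooleanSubalgebra.closure {L : Set (List (Bool ⊕ St)) |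
      ∃ (n : ℕ) (K : Language (Fin n)) (A : Set (Fin n → ℕ)) (π : Fin n → List (Bool ⊕ St)),
        K.IsContextFree ∧ IsSemilinearSet A ∧
        L = {w | ∃ u ∈ K, (fun g => u.count g) ∈ A ∧ u.flatMap π = w}}) :
    Tame {p | P p ∧ word (cp p) ∈ L} := by
  induction hL using BooleanSubalgebra.closure_bot_sup_induction with
  | mem x hx =>
    obtain ⟨n, K, A, π, hK, hA, rfl⟩ := hx
    exact tame_gen hK hA π
  | bot => simpa using Tame.empty
  | sup x _ y _ hx hy => exact cast (congrArg _ (Set.ext fun _ => and_or_left.symm)) (hx.union hy)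
  | compl x _ hx =>
    exact cast (congrArg _ (Set.ext fun _ => and_congr_right fun h => not_congr (and_iff_right h)))
      (tame_P.inter hx.compl)

end Pool.Agent.Lib.MP_e49cd5_nt.Tm
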