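import Mathlib
import Pool.Agent.Lib.MP_e49cd5_nt.TmMain

set_option autoImplicit false

namespace Pool.Agent.Lib.MP_e49cd5_nt.Tm

/-- A Boolean combination of morphic images of context-free languages with a semilinear condition
on the letter counts that contains every configuration reached from the blank tape contains a
configuration from which the machine halts. -/
theorem noLanguage (L : Set (List (Bool ⊕ St)))
    (hL : L ∈ BooleanSubalgebra.closure {L : Set (List (Bool ⊕ St)) |
      ∃ (n : ℕ) (K : Language (Fin n)) (A : Set (Fin n → ℕ)) (π : Fin n → List (Bool ⊕ St)),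
        K.IsContextFree ∧ IsSemilinearSet A ∧
        L = {w | ∃ u ∈ K, (fun g => u.count g) ∈ A ∧ u.flatMap π = w}})
    (reach : ∀ c, Relation.ReflTransGen (fun c d => next c = some d) ([], St.A, []) c →
      word c ∈ L) :
    ∃ c d, word c ∈ L ∧ Relation.ReflTransGen (fun c d => next c = some d) c d ∧ next d = none :=
  let ⟨c, h, d, k⟩ := main (tame_closure hL) reach
  ⟨c, d, h, k⟩

end Pool.Agent.Lib.MP_e49cd5_nt.Tm
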