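import Pool.Agent.Lib.MP_e49cd5_nt.TmSim

set_option autoImplicit false

namespace Pool.Agent.Lib.MP_e49cd5_nt.Tm

open List

/-- The letter 0. -/
abbrev l0 : Bool ⊕ St := .inl false

/-- The letter 1. -/
abbrev l1 : Bool ⊕ St := .inl true

/-- The letter of the state `A`. -/
abbrev lS : Bool ⊕ St := .inr .A

/-- The transitions of the shape automaton. -/
def tr (s : Fin 13) (a : Bool ⊕ St) : Fin 13 :=
  if a = l1 then ![1, 2, 3, 4, 12, 7, 12, 12, 8, 10, 11, 12, 12] s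
  else if a = l0 then ![12, 12, 12, 12, 4, 12, 7, 8, 9, 12, 12, 12, 12] s
  else if a = lS then ![12, 12, 12, 5, 6, 12, 12, 12, 12, 12, 12, 12, 12] s else 12

/-- The shape automaton. -/
def shp : DFA (Bool ⊕ St) (Fin 13) := ⟨tr, 0, {11}⟩

/-- The right end of the words. -/
def tl (y : ℕ) : List (Bool ⊕ St) := l0 :: (replicate y l1 ++ [l0, l1, l1])

theorem word_zero (y : ℕ) : word (cf 0 y) = l1 :: l1 :: l1 :: lS :: l1 :: tl y := by
  simp [word, cf, lA, bd, tl]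

theorem word_succ (x y : ℕ) :
    word (cf (x + 1) y) = l1 :: l1 :: l1 :: l1 :: (replicate x l0 ++ lS :: l0 :: tl y) := by
  simp [word, cf, lA, bd, tl, replicate_succ]

theorem back12 : ∀ (a : Bool ⊕ St) (s : Fin 13), tr s a = 12 ∨
    (a = l1 ∧ (s = 0 ∧ tr s a = 1 ∨ s = 1 ∧ tr s a = 2 ∨ s = 2 ∧ tr s a = 3 ∨ s = 3 ∧ tr s a = 4 ∨
      s = 5 ∧ tr s a = 7 ∨ s = 8 ∧ tr s a = 8 ∨ s = 9 ∧ tr s a = 10 ∨ s = 10 ∧ tr s a = 11)) ∨
    (a = l0 ∧ (s = 4 ∧ tr s a = 4 ∨ s = 6 ∧ tr s a = 7 ∨ s = 7 ∧ tr s a = 8 ∨ s = 8 ∧ tr s a = 9)) ∨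
    (a = lS ∧ (s = 3 ∧ tr s a = 5 ∨ s = 4 ∧ tr s a = 6)) := by
  rintro ((_ | _) | (_ | _ | _ | _ | _ | _)) <;> decide

/-- The words accepted from each state. -/
def suf : Fin 13 → List (Bool ⊕ St) → Prop :=
  ![fun w => ∃ x y, w = word (cf x y), fun w => ∃ x y, l1 :: w = word (cf x y),
    fun w => ∃ x y, l1 :: l1 :: w = word (cf x y),
    fun w => ∃ x y, l1 :: l1 :: l1 :: w = word (cf x y),
    fun w => ∃ x y, w = replicate x l0 ++ lS :: l0 :: tl y, fun w => ∃ y, w = l1 :: tl y,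
    fun w => ∃ y, w = l0 :: tl y, fun w => ∃ y, w = tl y, fun w => ∃ y, l0 :: w = tl y,
    fun w => w = [l1, l1], fun w => w = [l1], fun w => w = [], fun _ => False]

theorem suf_of (w : List (Bool ⊕ St)) (s : Fin 13) (h : shp.evalFrom s w = 11) : suf s w := by
  induction w generalizing s with
  | nil => cases h; rfl
  | cons a w ih =>
    have k : suf (tr s a) w := ih _ h
    rcases back12 a s with e | ⟨rfl, ⟨rfl, e⟩ | ⟨rfl, e⟩ | ⟨rfl, e⟩ | ⟨rfl, e⟩ | ⟨rfl, e⟩ | ⟨rfl, e⟩ |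
      ⟨rfl, e⟩ | ⟨rfl, e⟩⟩ | ⟨rfl, ⟨rfl, e⟩ | ⟨rfl, e⟩ | ⟨rfl, e⟩ | ⟨rfl, e⟩⟩ |
      ⟨rfl, ⟨rfl, e⟩ | ⟨rfl, e⟩⟩ <;> rw [e] at k
    · exact k.elim
    · exact k
    · exact k
    · exact k
    · obtain ⟨x, y, rfl⟩ := k
      exact ⟨x + 1, y, (word_succ x y).symm⟩
    · obtain ⟨y, rfl⟩ := k
      exact ⟨y, rfl⟩
    · obtain ⟨y, k⟩ := k
      exact ⟨y + 1, by rw [(cons.inj k).2]; rfl⟩
    · exact congrArg _ k
    · exact congrArg _ k
    · obtain ⟨x, y, rfl⟩ := k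
      exact ⟨x + 1, y, rfl⟩
    · obtain ⟨y, rfl⟩ := k
      exact ⟨y, rfl⟩
    · exact k
    · exact ⟨0, by rw [show w = [l1, l1] from k]; rfl⟩
    · obtain ⟨y, rfl⟩ := k
      exact ⟨0, y, (word_zero y).symm⟩
    · obtain ⟨y, rfl⟩ := k
      exact ⟨0, y, rfl⟩

theorem ev_rep {s : Fin 13} {a : Bool ⊕ St} (h : tr s a = s) (n : ℕ) (w : List (Bool ⊕ St)) :
    shp.evalFrom s (replicate n a ++ w) = shp.evalFrom s w := by
  induction n with
  | zero => rfl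
  | succ n ih => rw [replicate_succ, cons_append, DFA.evalFrom_cons, show shp.step s a = s from h, ih]

theorem ev_tl (y : ℕ) : shp.evalFrom 7 (tl y) = 11 :=
  (ev_rep (s := 8) (by decide) y _).trans (by decide)

theorem shp_iff (w : List (Bool ⊕ St)) : w ∈ shp.accepts ↔ ∃ x y, w = word (cf x y) := by
  refine ⟨suf_of w 0, ?_⟩
  rintro ⟨_ | x, y, rfl⟩
  · rw [word_zero]
    exact ev_tl y
  · rw [word_succ]
    exact (ev_rep (s := 4) (by decide) x _).trans (ev_tl y)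

/-- The number of occurrences of a letter. -/
def occ (a : Bool ⊕ St) (w : List (Bool ⊕ St)) : ℕ := w.countP fun b => decide (b = a)

theorem occ0 (x y : ℕ) : occ l0 (word (cf x y)) = x + 2 := by
  cases x <;> simp [occ, word_zero, word_succ, tl, countP_replicate]

theorem occ1 (x y : ℕ) : occ l1 (word (cf x y)) = y + 6 := by
  cases x <;> simp [occ, word_zero, word_succ, tl, countP_replicate]

theorem occ_flatMap {Γ : Type} [Fintype Γ] [DecidableEq Γ] (π : Γ → List (Bool ⊕ St))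
    (a : Bool ⊕ St) (u : List Γ) : occ a (u.flatMap π) = ∑ g, u.count g * occ a (π g) := by
  induction u with
  | nil => simp [occ]
  | cons b u ih =>
    rw [flatMap_cons, occ, countP_append, ← occ, ← occ, ih, add_comm]
    simp [count_cons, add_mul, Finset.sum_add_distrib]

end Pool.Agent.Lib.MP_e49cd5_nt.Tm
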