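import Pool.Agent.Lib.MP_e49cd5_nt.TmDefs

set_option autoImplicit false

namespace Pool.Agent.Lib.MP_e49cd5_nt.Tm

open List

/-- Configurations. -/
abbrev Cfg : Type := List Bool × St × List Bool

/-- Reachability. -/
def R (c d : Cfg) : Prop := Relation.ReflTransGen (fun c d => next c = some d) c d

theorem R.trans {c d e : Cfg} (h : R c d) (k : R d e) : R c e := Relation.ReflTransGen.trans h k

theorem R.rfl {c : Cfg} : R c c := Relation.ReflTransGen.refl

/-- `n` steps. -/
def run : ℕ → Cfg → Option Cfg
  | 0, c => some c
  | n + 1, c => (next c).bind (run n)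

theorem R.of_run : ∀ (n : ℕ) {c d : Cfg}, run n c = some d → R c d
  | 0, _, _, h => by cases h; exact R.rfl
  | n + 1, _, _, h => by
    obtain ⟨e, h1, h2⟩ := Option.bind_eq_some_iff.1 h
    exact Relation.ReflTransGen.head h1 (R.of_run n h2)

/-- State `A` on the first cell of `l`, with `r` to its right. -/
def lA (l r : List Bool) : Cfg := (l.tail, .A, l.headD false :: r)

theorem rep_cons (n : ℕ) (x : Bool) (l : List Bool) :
    replicate n x ++ x :: l = x :: (replicate n x ++ l) := by
  induction n with
  | zero => rfl
  | succ n ih => simp only [replicate_succ, cons_append, ih]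

theorem rep_add (m n : ℕ) (x : Bool) (l : List Bool) :
    replicate (m + n) x ++ l = replicate m x ++ (replicate n x ++ l) := by
  rw [replicate_add, append_assoc]

theorem sweepB (n : ℕ) (l r : List Bool) :
    R (l, .B, replicate n true ++ r) (replicate n true ++ l, .B, r) := by
  induction n generalizing l with
  | zero => exact R.rfl
  | succ n ih =>
    refine (R.of_run 1 (d := (true :: l, .B, replicate n true ++ r)) rfl).trans ?_
    simpa only [rep_cons, replicate_succ, cons_append] using ih (true :: l)

theorem sweepD (n : ℕ) (l r : List Bool) :
    R (l, .D, replicate n true ++ r) (replicate n false ++ l, .D, r) := by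
  induction n generalizing l with
  | zero => exact R.rfl
  | succ n ih =>
    refine (R.of_run 1 (d := (false :: l, .D, replicate n true ++ r)) rfl).trans ?_
    simpa only [rep_cons, replicate_succ, cons_append] using ih (false :: l)

theorem jump (x : Bool) (l r : List Bool) :
    R (lA (true :: true :: x :: l) r) (lA l (x :: true :: true :: r)) := by
  cases x <;> exact R.of_run 5 rfl

theorem sweepA (n : ℕ) (l r : List Bool) :
    R (lA (replicate (3 * n) true ++ l) r) (lA l (replicate (3 * n) true ++ r)) := by
  induction n generalizing r with
  | zero => exact R.rfl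
  | succ n ih =>
    refine (jump true (replicate (3 * n) true ++ l) r).trans ?_
    simpa only [rep_cons, Nat.mul_succ, replicate_succ, cons_append] using
      ih (true :: true :: true :: r)

theorem enter (n : ℕ) (l r : List Bool) :
    R (lA (false :: l) (replicate n true ++ r)) (true :: (replicate n true ++ l), .B, r) := by
  refine (R.of_run 1 (d := (true :: l, .B, replicate n true ++ r)) rfl).trans ?_
  simpa only [rep_cons] using sweepB n (true :: l) r

theorem round (j : ℕ) (l r : List Bool) :
    R (lA (false :: l) (replicate (3 * j) true ++ false :: true :: true :: r))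
      (lA l (replicate (3 * (j + 1)) true ++ false :: r)) := by
  refine (enter _ _ _).trans ((R.of_run 6 (d := lA (replicate (3 * j) true ++ l)
    (true :: true :: true :: false :: r)) rfl).trans ?_)
  simpa only [rep_cons, Nat.mul_succ, replicate_succ, cons_append] using
    sweepA j l (true :: true :: true :: false :: r)

theorem rounds (k j : ℕ) (l r : List Bool) :
    R (lA (replicate k false ++ l) (replicate (3 * j) true ++ false :: (replicate (2 * k) true ++ r)))
      (lA l (replicate (3 * (j + k)) true ++ false :: r)) := by
  induction k generalizing j with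
  | zero => exact R.rfl
  | succ k ih =>
    refine (round j (replicate k false ++ l) (replicate (2 * k) true ++ r)).trans ?_
    rw [← Nat.add_assoc, Nat.add_right_comm]
    exact ih (j + 1)

/-- The left border. -/
def bd : List Bool := [true, true, true, true]

theorem edge (m : ℕ) (r : List Bool) :
    R (lA [true] (replicate m true ++ false :: r))
      (lA (replicate m false ++ bd) (false :: true :: true :: r)) := by
  refine (R.of_run 17 (d := (false :: false :: bd, .D, replicate m true ++ false :: r))
    rfl).trans ((sweepD _ _ _).trans ?_)
  simp only [rep_cons]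
  exact R.of_run 3 rfl

theorem endE (n : ℕ) (l : List Bool) :
    R (lA (false :: l) (replicate n true ++ [false, false, true, true]))
      (lA (replicate (n + 5) true ++ l) [false, true, true]) :=
  (enter _ _ _).trans (R.of_run 23 rfl)

theorem endO (n : ℕ) (l : List Bool) :
    R (lA (false :: l) (replicate n true ++ [false, true, false, true, true]))
      (lA (replicate (n + 8) true ++ l) [false, true, true]) :=
  (enter _ _ _).trans (R.of_run 42 rfl)

/-- The configuration of the pair `(x - 1, y - 2)`. -/
def cf (x y : ℕ) : Cfg :=
  lA (replicate x false ++ bd) (false :: (replicate y true ++ [false, true, true]))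

theorem start : R ([], .A, []) (cf 11 14) := R.of_run 446 (by decide +kernel)

theorem sim2 (x y : ℕ) : R (cf x (2 * x + y)) (cf (3 * x + 3) (y + 2)) := by
  have h := rounds x 0 bd (replicate y true ++ [false, true, true])
  rw [← rep_add, Nat.zero_add] at h
  refine h.trans ((jump true [true] _).trans ?_)
  exact edge (3 * x + 3) (replicate y true ++ [false, true, true])

theorem simE (k : ℕ) (l : List Bool) :
    R (lA (replicate k false ++ false :: l) (false :: (replicate (2 * k) true ++ [false, true, true])))
      (lA (replicate (3 * k + 5) true ++ l) [false, true, true]) := by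
  have h := rounds k 0 (false :: l) [false, true, true]
  rw [Nat.zero_add] at h
  exact h.trans (endE _ l)

theorem simO (k : ℕ) (l : List Bool) :
    R (lA (replicate k false ++ false :: l)
        (false :: (replicate (2 * k + 1) true ++ [false, true, true])))
      (lA (replicate (3 * k + 8) true ++ l) [false, true, true]) := by
  have h := rounds k 0 (false :: l) [true, false, true, true]
  rw [Nat.zero_add] at h
  rw [rep_add]
  exact h.trans (endO _ l)

theorem back (j : ℕ) (l : List Bool) :
    R (lA (replicate (3 * j + 2) true ++ false :: l) [false, true, true])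
      (lA l (false :: (replicate (3 * j + 2) true ++ [false, true, true]))) := by
  rw [rep_add]
  exact (sweepA j _ _).trans (jump false l _)

theorem sim1E (k x : ℕ) : R (cf (k + (x + 2)) (2 * k)) (cf x (3 * k + 5)) := by
  rw [cf, rep_add]
  exact (simE k _).trans (back (k + 1) _)

theorem sim1O (k x : ℕ) : R (cf (k + (x + 2)) (2 * k + 1)) (cf x (3 * k + 8)) := by
  rw [cf, rep_add]
  exact (simO k _).trans (back (k + 2) _)

/-- The machine halts from `c`. -/
def H (c : Cfg) : Prop := ∃ d, R c d ∧ next d = none

theorem R.halts {c d : Cfg} (h : R c d) (k : H d) : H c :=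
  let ⟨e, h1, h2⟩ := k
  ⟨e, h.trans h1, h2⟩

/-- Halting within `n` steps with a cell left of the head all the time. -/
def stops : ℕ → Cfg → Bool
  | 0, _ => false
  | n + 1, c => !c.1.isEmpty && (next c).all (stops n)

theorem H.of_stops (l : List Bool) : ∀ (n : ℕ) (c : Cfg), stops n c = true → H (c.1 ++ l, c.2)
  | 0, _, h => by cases h
  | _ + 1, ([], _), h => by cases h
  | n + 1, (x :: u, q, r), h => by
    have e : next (x :: u ++ l, q, r) = (next (x :: u, q, r)).map fun c => (c.1 ++ l, c.2) := by
      simp only [next, Option.map_map]
      refine congrArg (Option.map · _) (funext fun t => ?_)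
      obtain ⟨a, b, c⟩ := t
      cases b <;> rfl
    cases k : next (x :: u, q, r) with
    | none => exact ⟨_, R.rfl, by rw [e, k]; rfl⟩
    | some d =>
      rw [stops, k] at h
      exact R.halts (Relation.ReflTransGen.single (by rw [e, k]; rfl)) (H.of_stops l n d h)

theorem halt0 (l : List Bool) :
    H (lA (replicate 26 false ++ l) [false, true, true, true, true]) :=
  H.of_stops l 1780 (lA (replicate 26 false) [false, true, true, true, true]) (by decide +kernel)

theorem halt1 (m : ℕ) : H (lA (replicate (3 * (m + 8)) true) [false, true, true]) := by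
  have h := sweepA (m + 8) [] [false, true, true]
  rw [append_nil] at h
  refine (h.trans ((round (m + 8) [] []).trans ((enter _ [] _).trans ?_))).halts
    (halt0 (false :: (replicate (3 * m) false ++ bd)))
  refine (R.of_run 5 (d := lA (true :: (replicate (3 * (m + 8 + 1)) true ++ []))
    [false, true, true]) rfl).trans ?_
  rw [← rep_cons]
  refine (sweepA _ _ _).trans ((edge _ [true, true]).trans ?_)
  rw [show 3 * (m + 8 + 1) = 26 + (3 * m + 1) by ring, rep_add]
  exact R.rfl

theorem haltE (k : ℕ) : H (cf (k + 5 + 1) (2 * (k + 5))) := by
  rw [cf, rep_add]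
  refine (simE _ bd).halts ?_
  have h := halt1 k
  rwa [show 3 * (k + 8) = 3 * (k + 5) + 5 + 4 by ring, replicate_add] at h

theorem haltO (k : ℕ) : H (cf (k + 5 + 1) (2 * (k + 5) + 1)) := by
  rw [cf, rep_add]
  refine (simO _ bd).halts ?_
  have h := halt1 (k + 1)
  rwa [show 3 * (k + 1 + 8) = 3 * (k + 5) + 8 + 4 by ring, replicate_add] at h

end Pool.Agent.Lib.MP_e49cd5_nt.Tm
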