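import Pool.Agent.Lib.MP_e49cd5_nt.TwH

set_option autoImplicit false

namespace Pool.Agent.Lib.MP_e49cd5_nt.Tw

/-- The linear set with the base `(x, y)` and the periods `(a, b)`, `(c, d)` holds a start that
meets the target. -/
def LH (x y a b c d : ℤ) : Prop := ∃ i j : ℕ, Hit (x + i * a + j * c, y + i * b + j * d)

theorem LH.full (x y m c d : ℤ) (hm : 0 < m) (hc : 0 ≤ c) (hd : 0 < d) : LH x y m 0 c d := by
  obtain ⟨M, hM⟩ := Int.eq_ofNat_of_zero_le (mul_pos hm hd).le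
  have hM0 : 0 < M := by have := mul_pos hm hd; omega
  obtain ⟨K0, hK0⟩ : ∃ K0 : ℕ, 2 * c + |x| + c * |y| + 1 ≤ K0 := ⟨_, Int.self_le_toNat _⟩
  obtain ⟨t, K, ht, hK, h⟩ := res_all M hM0 y (x + 2) K0 |y|
  have hy := abs_nonneg y
  have hx := abs_nonneg x
  have hcy := mul_nonneg hc hy
  have ht0 : 0 ≤ t := hy.trans ht
  have hMt : t ≤ M * t := le_mul_of_one_le_left ht0 (by exact_mod_cast hM0)
  have hb : 0 ≤ y + M * t := by have := neg_abs_le y; omega
  obtain ⟨K, rfl⟩ : ∃ K', K = K' + 1 := ⟨K - 1, by omega⟩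
  have hit := hit_UU K _ hb
  have hge := UU_ge (K + 1) _ hb
  obtain ⟨w, hw⟩ := h.symm.dvd
  generalize UU (K + 1) (y + M * t) = U at hit hge hw
  have hq : y + M * t ≤ 2 * ((y + M * t) / 2 + 3) := by omega
  have hq3 : 3 ≤ (y + M * t) / 2 + 3 := by omega
  generalize (y + M * t) / 2 + 3 = q at hge hq hq3
  have hK' : 2 * c + |x| + c * |y| + 1 ≤ ((K + 1 : ℕ) : ℤ) := hK0.trans (by exact_mod_cast hK)
  have h1 : (2 * c + |x| + c * |y| + 1) * q ≤ U :=
    (mul_le_mul_of_nonneg_right hK' (by omega)).trans hge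
  have h2 : m * t ≤ M * t := by
    rw [← hM]
    exact mul_le_mul_of_nonneg_right (le_mul_of_one_le_right hm.le hd) ht0
  have h3 : c * (m * t) ≤ c * (2 * q + |y|) :=
    mul_le_mul_of_nonneg_left (by have := neg_abs_le y; omega) hc
  have h4 : (|x| + c * |y| + 1) * 3 ≤ (|x| + c * |y| + 1) * q :=
    mul_le_mul_of_nonneg_left hq3 (by omega)
  have h5 : 0 ≤ m * (d * w - c * t) := by
    have := le_abs_self x
    have e : m * (d * w - c * t) = U - (x + 2) - c * (m * t) := by rw [hw, ← hM]; ring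
    rw [e]
    nlinarith
  obtain ⟨i, hi⟩ := Int.eq_ofNat_of_zero_le (nonneg_of_mul_nonneg_right h5 hm)
  obtain ⟨j, hj⟩ := Int.eq_ofNat_of_zero_le (mul_nonneg hm.le ht0)
  refine ⟨i, j, ?_⟩
  rw [← hi, ← hj]
  have e1 : x + (d * w - c * t) * m + m * t * c = U - 2 := by
    linear_combination -hw + w * hM
  have e2 : y + (d * w - c * t) * 0 + m * t * d = y + M * t := by linear_combination t * hM
  rw [e1, e2]
  exact hit

theorem LH.sub {x y a b c d : ℤ} (i0 j0 k l m n : ℕ)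
    (h : LH (x + i0 * a + j0 * c) (y + i0 * b + j0 * d) (k * a + l * c) (k * b + l * d)
      (m * a + n * c) (m * b + n * d)) : LH x y a b c d := by
  obtain ⟨i, j, h⟩ := h
  refine ⟨i0 + i * k + j * m, j0 + i * l + j * n, ?_⟩
  push_cast
  convert h using 2 <;> ring

theorem LH.one {x y a b c d : ℤ} (hx : y / 2 < x) (h1 : b ≤ 2 * a) (h2 : d ≤ 2 * c)
    (h : LH (x - y / 2 - 3) (gg y) (2 * a - b) (3 * b) (2 * c - d) (3 * d)) :
    LH x y (2 * a) (2 * b) (2 * c) (2 * d) := by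
  obtain ⟨i, j, h⟩ := h
  refine ⟨i, j, Hit.of_step ?_⟩
  have n1 : 0 ≤ (i : ℤ) * (2 * a - b) := mul_nonneg (Int.natCast_nonneg i) (by omega)
  have n2 : 0 ≤ (j : ℤ) * (2 * c - d) := mul_nonneg (Int.natCast_nonneg j) (by omega)
  have e : y + i * (2 * b) + j * (2 * d) = y + 2 * (i * b + j * d) := by ring
  have e2 : (y + 2 * (i * b + j * d)) / 2 = y / 2 + (i * b + j * d) := by omega
  unfold step
  simp only [e, e2]
  rw [if_pos (by linarith)]
  convert h using 2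
  · ring
  · change gg _ = _
    rw [gg_add]
    ring

theorem LH.two {x y a b c d : ℤ} (hx : 2 * x ≤ y) (h1 : 2 * a ≤ b) (h2 : 2 * c ≤ d)
    (h : LH (3 * x + 5) (y - 2 * x) (3 * a) (b - 2 * a) (3 * c) (d - 2 * c)) :
    LH x y a b c d := by
  obtain ⟨i, j, h⟩ := h
  refine ⟨i, j, Hit.of_step ?_⟩
  have n1 : 0 ≤ (i : ℤ) * (b - 2 * a) := mul_nonneg (Int.natCast_nonneg i) (by omega)
  have n2 : 0 ≤ (j : ℤ) * (d - 2 * c) := mul_nonneg (Int.natCast_nonneg j) (by omega)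
  have n3 : 2 * (x + i * a + j * c) ≤ y + i * b + j * d := by linarith
  unfold step
  simp only
  rw [if_neg (by omega)]
  convert h using 2 <;> ring

theorem LH.one' {x y a b c d : ℤ} (h1 : b < 2 * a) (h2 : d ≤ 2 * c)
    (h : ∀ x y, LH x y (2 * a - b) (3 * b) (2 * c - d) (3 * d)) : LH x y a b c d := by
  obtain ⟨n, hn⟩ : ∃ n : ℕ, y - 2 * x + 1 ≤ n := ⟨_, Int.self_le_toNat _⟩
  have n1 : (n : ℤ) * 1 ≤ n * (2 * a - b) :=
    mul_le_mul_of_nonneg_left (by omega) (Int.natCast_nonneg n)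
  have n2 : y + n * b < 2 * (x + n * a) := by linarith
  refine LH.sub n 0 2 0 0 2 ?_
  simp only [Nat.cast_zero, zero_mul, add_zero, zero_add, Nat.cast_ofNat]
  exact LH.one (by omega) h1.le h2 (h _ _)

theorem LH.two' {x y a b c d : ℤ} (h1 : 2 * a ≤ b) (h2 : 2 * c < d)
    (h : ∀ x y, LH x y (3 * a) (b - 2 * a) (3 * c) (d - 2 * c)) : LH x y a b c d := by
  obtain ⟨n, hn⟩ : ∃ n : ℕ, 2 * x - y ≤ n := ⟨_, Int.self_le_toNat _⟩
  have n1 : (n : ℤ) * 1 ≤ n * (d - 2 * c) :=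
    mul_le_mul_of_nonneg_left (by omega) (Int.natCast_nonneg n)
  refine LH.sub 0 n 1 0 0 1 ?_
  simp only [Nat.cast_zero, zero_mul, add_zero, zero_add, Nat.cast_one, one_mul]
  exact LH.two (by linarith) h1 h2.le (h _ _)

theorem LH.ind (n : ℕ) (x y a b c d : ℤ) (ha : 0 ≤ a) (hb : 0 ≤ b) (hc : 0 ≤ c) (hd : 0 ≤ d)
    (hΔ : c * b < a * d) (hn : (a + b) * (c + d) * 2 ^ n < 3 ^ n * (a * d - c * b)) :
    LH x y a b c d := by
  induction n generalizing x y a b c d with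
  | zero =>
    exfalso
    have := mul_nonneg ha hc
    have := mul_nonneg hb hc
    have := mul_nonneg hb hd
    nlinarith
  | succ n ih =>
    have hp : 0 ≤ (a + b) * (c + d) * 2 ^ n := by positivity
    rcases le_or_gt d (2 * c) with h2 | h2
    · have h1 : b < 2 * a := by
        by_contra h
        nlinarith [mul_le_mul_of_nonneg_left h2 ha, mul_le_mul_of_nonneg_left (not_lt.1 h) hc]
      refine LH.one' h1 h2 fun x y => ih _ _ _ _ _ _ (by omega) (by omega) (by omega) (by omega)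
        (by linarith) ?_
      rw [pow_succ, pow_succ] at hn
      linarith
    rcases le_or_gt (2 * a) b with h1 | h1
    · refine LH.two' h1 h2 fun x y => ih _ _ _ _ _ _ (by omega) (by omega) (by omega) (by omega)
        (by linarith) ?_
      rw [pow_succ, pow_succ] at hn
      linarith
    obtain ⟨k, hk⟩ := Int.eq_ofNat_of_zero_le (a := d - 2 * c) (by omega)
    obtain ⟨l, hl⟩ := Int.eq_ofNat_of_zero_le (a := 2 * a - b) (by omega)
    refine LH.sub 0 0 k l 0 1 ?_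
    simp only [Nat.cast_zero, zero_mul, add_zero, zero_add, Nat.cast_one, one_mul]
    rw [← hk, ← hl]
    refine LH.two' (le_of_eq (by ring)) h2 fun x y => ?_
    have e : (d - 2 * c) * b + (2 * a - b) * d - 2 * ((d - 2 * c) * a + (2 * a - b) * c) = 0 := by
      ring
    rw [e]
    exact LH.full _ _ _ _ _ (by linarith) (by omega) (by omega)

theorem LH.all (x y a b c d : ℤ) (ha : 0 ≤ a) (hb : 0 ≤ b) (hc : 0 ≤ c) (hd : 0 ≤ d)
    (hΔ : c * b < a * d) : LH x y a b c d := by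
  have hp : ∀ n : ℕ, ((n : ℤ) + 2) * 2 ^ n ≤ 2 * 3 ^ n := fun n => by
    induction n with
    | zero => norm_num
    | succ n ih =>
      have : (0 : ℤ) ≤ n * 2 ^ n := by positivity
      push_cast
      rw [pow_succ, pow_succ]
      linarith
  obtain ⟨C, hC⟩ := Int.eq_ofNat_of_zero_le (a := (a + b) * (c + d)) (by positivity)
  refine LH.ind (2 * C) x y a b c d ha hb hc hd hΔ ?_
  have h1 := hp (2 * C)
  have h2 : (3 : ℤ) ^ (2 * C) * 1 ≤ 3 ^ (2 * C) * (a * d - c * b) :=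
    mul_le_mul_of_nonneg_left (by omega) (by positivity)
  have h3 : (0 : ℤ) < 2 ^ (2 * C) := by positivity
  rw [hC]
  push_cast at h1
  linarith

/-- Starts that meet the target lie in every sector and every residue class. -/
theorem dense (x δ R : ℝ) (hx0 : 0 ≤ x) (hx1 : x ≤ 1) (hδ : 0 < δ) (M : ℕ) (hM : 0 < M)
    (p : ℤ × ℤ) :
    ∃ q : ℤ × ℤ, Sec x δ R q ∧ q.1 ≡ p.1 [ZMOD M] ∧ q.2 ≡ p.2 [ZMOD M] ∧ -2 ≤ q.1 ∧ 0 ≤ q.2 ∧
      Hit q := by
  obtain ⟨N, hN⟩ := exists_nat_gt (2 / δ)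
  have hN0 : (0 : ℝ) < N := (div_pos two_pos hδ).trans hN
  have hNδ : 2 < δ * N := by rwa [div_lt_iff₀' hδ] at hN
  have hN1 : 0 < N := by exact_mod_cast hN0
  obtain ⟨k, hk, hk1, hk2⟩ : ∃ k : ℕ, k < N ∧ (k : ℝ) ≤ x * N ∧ x * N ≤ k + 1 := by
    rcases hx1.eq_or_lt with rfl | h
    · obtain ⟨k, rfl⟩ : ∃ k, N = k + 1 := ⟨N - 1, by omega⟩
      exact ⟨k, by omega, by push_cast; linarith, by push_cast; linarith⟩
    · refine ⟨⌊x * N⌋₊, ?_, Nat.floor_le (by positivity), (Nat.lt_floor_add_one _).le⟩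
      rw [Nat.floor_lt (by positivity)]
      nlinarith
  obtain ⟨l, rfl⟩ : ∃ l, N = k + l + 1 := ⟨N - k - 1, by omega⟩
  obtain ⟨T, hT⟩ := exists_nat_ge (|(p.1 : ℝ) - x * (p.1 + p.2)| + (δ + 1) * |(p.1 : ℝ) + p.2| +
    |R| + |(p.1 : ℝ)| + |(p.2 : ℝ)|)
  have hM' : (1 : ℤ) ≤ M := by exact_mod_cast hM
  have hk0 : (0 : ℤ) ≤ k := Int.natCast_nonneg k
  have hl0 : (0 : ℤ) ≤ l := Int.natCast_nonneg l
  obtain ⟨i, j, h⟩ := LH.all (p.1 + T * (M * (k + 1)) + T * (M * k))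
    (p.2 + T * (M * l) + T * (M * (l + 1))) (M * (k + 1)) (M * l) (M * k) (M * (l + 1))
    (by positivity) (by positivity) (by positivity) (by positivity) (by
      have : (0 : ℤ) < M * M * (k + l + 1) := by positivity
      linarith)
  have e1 : p.1 + T * (M * (k + 1)) + T * (M * k) + i * (M * (k + 1)) + j * (M * k) =
      p.1 + M * ((T + i) * (k + 1) + (T + j) * k : ℕ) := by push_cast; ring
  have e2 : p.2 + T * (M * l) + T * (M * (l + 1)) + i * (M * l) + j * (M * (l + 1)) =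
      p.2 + M * ((T + i) * l + (T + j) * (l + 1) : ℕ) := by push_cast; ring
  rw [e1, e2] at h
  have a1 := abs_nonneg ((p.1 : ℝ) - x * (p.1 + p.2))
  have a2 := abs_nonneg ((p.1 : ℝ) + p.2)
  have a3 := abs_nonneg R
  have a4 := abs_nonneg (p.1 : ℝ)
  have a5 := abs_nonneg (p.2 : ℝ)
  have a6 := mul_nonneg hδ.le a2
  have hMr : (1 : ℝ) ≤ M := by exact_mod_cast hM
  have hu : (T : ℝ) ≤ M * (T + i : ℕ) :=
    le_trans (by push_cast; linarith [Nat.cast_nonneg (α := ℝ) i])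
      (le_mul_of_one_le_left (Nat.cast_nonneg (T + i)) hMr)
  have hv : (T : ℝ) ≤ M * (T + j : ℕ) :=
    le_trans (by push_cast; linarith [Nat.cast_nonneg (α := ℝ) j])
      (le_mul_of_one_le_left (Nat.cast_nonneg (T + j)) hMr)
  generalize T + i = u at h hu
  generalize T + j = v at h hv
  have hT0 : (0 : ℝ) ≤ T := Nat.cast_nonneg T
  have hkr : (0 : ℝ) ≤ k := Nat.cast_nonneg k
  have hlr : (0 : ℝ) ≤ l := Nat.cast_nonneg l
  have hu0 : (0 : ℝ) ≤ M * u := hT0.trans hu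
  have hv0 : (0 : ℝ) ≤ M * v := hT0.trans hv
  have b1 := mul_nonneg hu0 hkr
  have b2 := mul_nonneg hu0 hlr
  have b3 := mul_nonneg hv0 hkr
  have b4 := mul_nonneg hv0 hlr
  push_cast at hk1 hk2 hNδ
  refine ⟨_, ⟨?_, ?_⟩, ?_, ?_, ?_, ?_, h⟩
  · push_cast
    have := neg_abs_le ((p.1 : ℝ) + p.2)
    have := le_abs_self R
    linarith
  · push_cast
    have c1 := neg_abs_le ((p.1 : ℝ) - x * (p.1 + p.2))
    have c2 := le_abs_self ((p.1 : ℝ) - x * (p.1 + p.2))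
    have c3 := mul_le_mul_of_nonneg_left (neg_abs_le ((p.1 : ℝ) + p.2)) hδ.le
    have d1 := mul_le_mul_of_nonneg_left hk1 hu0
    have d2 := mul_le_mul_of_nonneg_left hk2 hu0
    have d3 := mul_le_mul_of_nonneg_left hk1 hv0
    have d4 := mul_le_mul_of_nonneg_left hk2 hv0
    have d5 := mul_le_mul_of_nonneg_left hNδ.le hu0
    have d6 := mul_le_mul_of_nonneg_left hNδ.le hv0
    rw [abs_le]
    constructor <;> linarith
  · exact Int.modEq_iff_dvd.2 ⟨-((u * (k + 1) + v * k : ℕ) : ℤ), by ring⟩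
  · exact Int.modEq_iff_dvd.2 ⟨-((u * l + v * (l + 1) : ℕ) : ℤ), by ring⟩
  · have : (-2 : ℝ) ≤ ((p.1 + M * (u * (k + 1) + v * k : ℕ) : ℤ) : ℝ) := by
      push_cast
      have := neg_abs_le (p.1 : ℝ)
      linarith
    exact_mod_cast this
  · have : (0 : ℝ) ≤ ((p.2 + M * (u * l + v * (l + 1) : ℕ) : ℤ) : ℝ) := by
      push_cast
      have := neg_abs_le (p.2 : ℝ)
      linarith
    exact_mod_cast this

end Pool.Agent.Lib.MP_e49cd5_nt.Tw
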