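import Mathlib

set_option autoImplicit false

namespace Pool.Agent.Lib.MP_e49cd5_nt.Tw

/-- One step of the recurrence. -/
def step (p : ℤ × ℤ) : ℤ × ℤ :=
  if p.2 / 2 < p.1 then (p.1 - p.2 / 2 - 3, 3 * ((p.2 + 1) / 2) + 6)
  else (3 * p.1 + 5, p.2 - 2 * p.1)

/-- The orbit of `p` meets the target. -/
def Hit (p : ℤ × ℤ) : Prop := ∃ i : ℕ, (step^[i] p).1 = (step^[i] p).2 / 2 + 1

/-- The part beyond the level `R` of the sector of half width `δ` around the slope `x`. -/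
def Sec (x δ R : ℝ) (p : ℤ × ℤ) : Prop :=
  R ≤ (p.1 : ℝ) + p.2 ∧ |(p.1 : ℝ) - x * (p.1 + p.2)| ≤ δ * (p.1 + p.2)

theorem Sec.mono {x δ δ' R R' : ℝ} {p : ℤ × ℤ} (h : Sec x δ R p) (h0 : 0 ≤ R) (hδ : δ ≤ δ')
    (hR : R' ≤ R) : Sec x δ' R' p :=
  ⟨hR.trans h.1, h.2.trans (mul_le_mul_of_nonneg_right hδ (h0.trans h.1))⟩

end Pool.Agent.Lib.MP_e49cd5_nt.Tw
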