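import Pool.Agent.Lib.MP_e49cd5_nt.TwDefs

set_option autoImplicit false

namespace Pool.Agent.Lib.MP_e49cd5_nt.Tw

open Finset

/-- The second coordinate after the first rule. -/
def gg (b : ℤ) : ℤ := 3 * ((b + 1) / 2) + 6

/-- The total loss of the first coordinate in `K` steps of the first rule. -/
def UU : ℕ → ℤ → ℤ
  | 0, _ => 0
  | K + 1, b => b / 2 + 3 + UU K (gg b)

theorem gg_add (b u : ℤ) : gg (b + 2 * u) = gg b + 3 * u := by
  unfold gg
  omega

theorem UU_succ_add (K : ℕ) (b u : ℤ) :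
    UU (K + 1) (b + 2 * u) = b / 2 + u + 3 + UU K (gg b + 3 * u) := by
  rw [UU, gg_add]
  omega

theorem UU_shift (K : ℕ) (b u : ℤ) : UU K (b + 2 ^ K * u) = UU K b + (3 ^ K - 2 ^ K) * u := by
  induction K generalizing b u with
  | zero => simp [UU]
  | succ K ih =>
    have e : b + 2 ^ (K + 1) * u = b + 2 * (2 ^ K * u) := by ring
    have e' : gg b + 3 * (2 ^ K * u) = gg b + 2 ^ K * (3 * u) := by ring
    rw [e, UU_succ_add, e', ih, UU]
    ring

theorem UU_ge (K : ℕ) (b : ℤ) (hb : 0 ≤ b) : K * (b / 2 + 3) ≤ UU K b := by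
  induction K generalizing b with
  | zero => simp [UU]
  | succ K ih =>
    have h1 : b / 2 + 3 ≤ gg b / 2 + 3 := by unfold gg; omega
    have h2 := ih (gg b) (by unfold gg; omega)
    have h3 : (K : ℤ) * (b / 2 + 3) ≤ K * (gg b / 2 + 3) :=
      mul_le_mul_of_nonneg_left h1 (Int.natCast_nonneg K)
    rw [UU]
    push_cast
    linarith

theorem Hit.of_step {p : ℤ × ℤ} (h : Hit (step p)) : Hit p := by
  obtain ⟨i, hi⟩ := h
  exact ⟨i + 1, by rwa [Function.iterate_succ_apply]⟩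

theorem hit_UU (K : ℕ) (b : ℤ) (hb : 0 ≤ b) : Hit (UU (K + 1) b - 2, b) := by
  induction K generalizing b with
  | zero =>
    refine ⟨0, ?_⟩
    simp only [Function.iterate_zero, id, UU]
    omega
  | succ K ih =>
    have hg : 0 ≤ gg b := by unfold gg; omega
    have h0 : 0 ≤ UU (K + 1) (gg b) :=
      le_trans (mul_nonneg (Int.natCast_nonneg _) (by omega)) (UU_ge (K + 1) (gg b) hg)
    apply Hit.of_step
    have e : step (UU (K + 1 + 1) b - 2, b) = (UU (K + 1) (gg b) - 2, gg b) := by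
      have e1 : UU (K + 1 + 1) b = b / 2 + 3 + UU (K + 1) (gg b) := rfl
      unfold step
      rw [if_pos (by simp only [e1]; omega)]
      refine Prod.ext ?_ rfl
      simp only [e1]
      omega
    rw [e]
    exact ih _ hg

section Odd

variable {m : ℕ}

/-- The residues that the free parities produce in `K` steps. -/
def Reach (m : ℕ) (h : ZMod m) (K : ℕ) (c : ZMod m) : Prop :=
  ∀ N b : ℤ, N % 2 = 1 → (N : ZMod m) = 0 → ∃ t : ℤ,
    ((UU K (b + N * t) : ℤ) : ZMod m) =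
      ((3 * h) ^ K - 1) * b + (∑ i ∈ range K, (6 * (3 * h) ^ i - 3)) + c

theorem Reach.zero (h : ZMod m) : Reach m h 0 0 := fun N b _ _ => ⟨0, by simp [UU]⟩

theorem Reach.succ {h : ZMod m} (hh : 2 * h = 1) {K : ℕ} {c : ZMod m} (H : Reach m h K c)
    (o : ℤ) (ho : o = 0 ∨ o = 1) : Reach m h (K + 1) (c + o * ((3 * h) ^ (K + 1) - 2)) := by
  intro N b hN hN0
  obtain ⟨t0, ht0⟩ : ∃ t0 : ℤ, (b + N * t0) % 2 = o := by
    by_cases hb : b % 2 = o
    · exact ⟨0, by simpa using hb⟩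
    · exact ⟨1, by omega⟩
  obtain ⟨t, ht⟩ := H (3 * N) (gg (b + N * t0)) (by omega) (by push_cast; rw [hN0, mul_zero])
  refine ⟨t0 + 2 * t, ?_⟩
  have e : b + N * (t0 + 2 * t) = (b + N * t0) + 2 * (N * t) := by ring
  have e' : gg (b + N * t0) + 3 * (N * t) = gg (b + N * t0) + 3 * N * t := by ring
  have e1 : 2 * ((b + N * t0) / 2) = b + N * t0 - o := by omega
  have e2 : 2 * gg (b + N * t0) = 3 * (b + N * t0) + 3 * o + 12 := by unfold gg; omega
  have z1 := congrArg (Int.cast : ℤ → ZMod m) e1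
  have z2 := congrArg (Int.cast : ℤ → ZMod m) e2
  rw [e, UU_succ_add, e']
  push_cast at z1 z2 ⊢
  rw [ht, hN0, sum_range_succ] at *
  generalize (((b + N * t0) / 2 : ℤ) : ZMod m) = y at z1 ⊢
  generalize ((gg (b + N * t0) : ℤ) : ZMod m) = g at z2 ⊢
  have y1 : y = h * (b - o) := by linear_combination h * z1 - y * hh
  have g1 : g = 3 * h * (b + o) + 6 := by linear_combination h * z2 - (g - 6) * hh
  rw [y1, g1]
  linear_combination (-(b : ZMod m) - 2 * o) * hh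

theorem Reach.mono {h : ZMod m} (hh : 2 * h = 1) {K K' : ℕ} {c : ZMod m} (H : Reach m h K c)
    (hK : K ≤ K') : Reach m h K' c := by
  induction K', hK using Nat.le_induction with
  | base => exact H
  | succ K' _ ih => simpa using ih.succ hh 0 (Or.inl rfl)

theorem reach_all [NeZero m] {h : ZMod m} (hh : 2 * h = 1) : ∃ K, ∀ c, Reach m h K c := by
  obtain ⟨r, hr⟩ := Finite.exists_infinite_fiber fun i : ℕ => (3 * h) ^ (i + 1)
  have hr' : ∀ K : ℕ, ∃ i, K ≤ i ∧ (3 * h) ^ (i + 1) = r := fun K => by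
    obtain ⟨i, hi, hK⟩ := (Set.infinite_coe_iff.1 hr).exists_gt K
    exact ⟨i, hK.le, hi⟩
  have a1 : ∀ c, (∃ K, Reach m h K c) → ∃ K, Reach m h K (c + (r - 2)) := by
    rintro c ⟨K, H⟩
    obtain ⟨i, hi, e⟩ := hr' K
    exact ⟨i + 1, by simpa [e] using (H.mono hh hi).succ hh 1 (Or.inr rfl)⟩
  have a2 : ∀ c, (∃ K, Reach m h K c) → ∃ K, Reach m h K (c + (3 * h * r - 2)) := by
    rintro c ⟨K, H⟩
    obtain ⟨i, hi, e⟩ := hr' K
    have := (H.mono hh (hi.trans (Nat.le_succ i))).succ hh 1 (Or.inr rfl)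
    rw [pow_succ', e] at this
    exact ⟨i + 1 + 1, by simpa using this⟩
  have a3 : ∀ (g : ZMod m), (∀ c, (∃ K, Reach m h K c) → ∃ K, Reach m h K (c + g)) →
      ∀ (u : ZMod m) c, (∃ K, Reach m h K c) → ∃ K, Reach m h K (c + u * g) := by
    intro g hg u c hc
    obtain ⟨n, rfl⟩ := ZMod.natCast_zmod_surjective u
    induction n with
    | zero => simpa using hc
    | succ n ih =>
      have := hg _ ih
      rw [add_assoc, ← add_one_mul] at this
      exact_mod_cast this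
  have a4 : ∀ c, ∃ K, Reach m h K c := fun c => by
    have := a3 _ a2 (2 * h * c) _ (a3 _ a1 (-3 * h * c) _ ⟨0, Reach.zero h⟩)
    have e : 0 + -3 * h * c * (r - 2) + 2 * h * c * (3 * h * r - 2) = c := by
      linear_combination (c + 3 * h * c * r) * hh
    rwa [e] at this
  choose K hK using a4
  exact ⟨univ.sup K, fun c => (hK c).mono hh (le_sup (mem_univ c))⟩

end Odd

theorem res_odd (m : ℕ) (hm : Odd m) (α : ℕ) (N b γ : ℤ) (hN : N % 2 = 1) (hmN : (m : ℤ) ∣ N)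
    (K0 : ℕ) : ∃ (t : ℤ) (K : ℕ), K0 ≤ K ∧ UU K (b + 2 ^ α * N * t) ≡ γ [ZMOD m] := by
  induction α generalizing N b γ with
  | zero =>
    have : NeZero m := ⟨hm.pos.ne'⟩
    obtain ⟨k, hk⟩ := hm
    have hh : 2 * ((k + 1 : ℕ) : ZMod m) = 1 := by
      have : ((m : ℕ) : ZMod m) = 0 := ZMod.natCast_self m
      rw [hk] at this
      have e : ((2 * k + 1 : ℕ) : ZMod m) = 0 := by rw [← hk]; exact ZMod.natCast_self m
      push_cast at e ⊢
      linear_combination e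
    obtain ⟨K, hK⟩ := reach_all hh
    obtain ⟨t, ht⟩ := ((hK ((γ : ZMod m) - (((3 * ((k + 1 : ℕ) : ZMod m)) ^ (K + K0) - 1) * b +
      ∑ i ∈ range (K + K0), (6 * (3 * ((k + 1 : ℕ) : ZMod m)) ^ i - 3)))).mono hh
      (Nat.le_add_right K K0)) N b hN ((ZMod.intCast_zmod_eq_zero_iff_dvd N m).2 hmN)
    refine ⟨t, K + K0, Nat.le_add_left _ _, (ZMod.intCast_eq_intCast_iff _ _ _).1 ?_⟩
    rw [pow_zero, one_mul, ht]
    ring
  | succ α ih =>
    obtain ⟨t, K, hK, ht⟩ := ih (3 * N) (gg b) (γ - b / 2 - 3) (by omega) (hmN.mul_left 3)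
    refine ⟨t, K + 1, by omega, ?_⟩
    have e : b + 2 ^ (α + 1) * N * t = b + 2 * (2 ^ α * N * t) := by ring
    have e' : gg b + 3 * (2 ^ α * N * t) = gg b + 2 ^ α * (3 * N) * t := by ring
    rw [e, UU_succ_add, e']
    have h0 : 2 ^ α * N * t ≡ 0 [ZMOD m] :=
      Int.modEq_zero_iff_dvd.2 ((hmN.mul_left _).mul_right _)
    have := (((Int.ModEq.refl (b / 2)).add h0).add (Int.ModEq.refl 3)).add ht
    rwa [show b / 2 + 0 + 3 + (γ - b / 2 - 3) = γ by ring] at this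

/-- All residues occur. -/
theorem res_all (M : ℕ) (hM : 0 < M) (β γ : ℤ) (K0 : ℕ) (T : ℤ) :
    ∃ (t : ℤ) (K : ℕ), T ≤ t ∧ K0 ≤ K ∧ UU K (β + M * t) ≡ γ [ZMOD M] := by
  obtain ⟨α, m, hm, rfl⟩ := Nat.exists_eq_two_pow_mul_odd hM.ne'
  have hm2 : (m : ℤ) % 2 = 1 := by
    obtain ⟨k, rfl⟩ := hm
    omega
  obtain ⟨t, K, hK, ht⟩ := res_odd m hm α m β γ hm2 dvd_rfl (K0 + α + 1)
  obtain ⟨j, rfl⟩ : ∃ j, K = α + (j + 1) := ⟨K - α - 1, by omega⟩
  have hodd : Odd ((3 ^ (α + (j + 1)) - 2 ^ (α + (j + 1)) : ℤ) * m) := by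
    refine Odd.mul (Odd.sub_even (Odd.pow (by decide)) ?_) (Int.odd_iff.2 hm2)
    exact (Int.even_pow.2 ⟨by decide, by omega⟩)
  have hc : IsCoprime ((3 ^ (α + (j + 1)) - 2 ^ (α + (j + 1)) : ℤ) * m) (2 ^ α) :=
    IsCoprime.pow_right (Int.isCoprime_two_right.2 hodd)
  obtain ⟨u, v, huv⟩ := hc
  obtain ⟨w, hw⟩ := ht.dvd
  set B := β + 2 ^ α * m * t with hB
  set Q : ℤ := 3 ^ (α + (j + 1)) - 2 ^ (α + (j + 1)) with hQ
  obtain ⟨n, hn⟩ : ∃ n : ℕ, T - t - 2 ^ (j + 1) * (u * m * w) ≤ n := ⟨_, Int.self_le_toNat _⟩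
  have hp : (1 : ℤ) ≤ 2 ^ (j + 1) * 2 ^ α := one_le_mul_of_one_le_of_one_le
    (one_le_pow₀ (by norm_num)) (one_le_pow₀ (by norm_num))
  refine ⟨t + 2 ^ (j + 1) * (u * m * w + 2 ^ α * n), α + (j + 1), ?_, by omega, ?_⟩
  · have : (n : ℤ) ≤ 2 ^ (j + 1) * 2 ^ α * n := le_mul_of_one_le_left (Int.natCast_nonneg n) hp
    linarith
  · have e : β + ((2 ^ α * m : ℕ) : ℤ) * (t + 2 ^ (j + 1) * (u * m * w + 2 ^ α * n)) =
        B + 2 ^ (α + (j + 1)) * (m * (u * m * w + 2 ^ α * n)) := by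
      rw [hB]
      push_cast
      ring
    rw [e, UU_shift, ← hQ]
    refine Int.modEq_iff_dvd.2 ⟨v * w - Q * n, ?_⟩
    push_cast
    linear_combination hw - m * w * huv

end Pool.Agent.Lib.MP_e49cd5_nt.Tw
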