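import Pool.Agent.Lib.MP_e49cd5_nt.TwDefs

set_option autoImplicit false

namespace Pool.Agent.Lib.MP_e49cd5_nt.Tw

open Polynomial Topology

theorem polar (f : MvPolynomial (Fin 2) ℝ) :
    ∃ G : ℝ[X][X], ∀ x s : ℝ, G.evalEval x s = MvPolynomial.eval ![x * s, (1 - x) * s] f := by
  induction f using MvPolynomial.induction_on with
  | C a => exact ⟨C (C a), fun x s => by simp⟩
  | add p q hp hq =>
    obtain ⟨G, hG⟩ := hp
    obtain ⟨H, hH⟩ := hq
    exact ⟨G + H, fun x s => by rw [evalEval_add, hG, hH, map_add]⟩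
  | mul_X p i hp =>
    obtain ⟨G, hG⟩ := hp
    fin_cases i
    · exact ⟨G * (C X * X), fun x s => by simp [evalEval_mul, evalEval_C, hG]⟩
    · exact ⟨G * (C (1 - X) * X), fun x s => by simp [evalEval_mul, evalEval_C, hG]⟩

theorem polar_sum (G : ℝ[X][X]) (x s : ℝ) (hs : s ≠ 0) :
    G.evalEval x s = s ^ G.natDegree * ∑ i ∈ Finset.range (G.natDegree + 1),
      (G.coeff i).eval x * s⁻¹ ^ (G.natDegree - i) := by
  rw [evalEval, eval_eq_sum_range (p := G), eval_finsetSum, Finset.mul_sum]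
  refine Finset.sum_congr rfl fun i hi => ?_
  obtain ⟨j, hj⟩ := Nat.exists_eq_add_of_le (Nat.lt_succ_iff.1 (Finset.mem_range.1 hi))
  rw [hj, Nat.add_sub_cancel_left, eval_mul, eval_pow, eval_C, pow_add, inv_pow]
  field_simp

/-- Far out in a thin sector around a slope outside a finite set a polynomial has one sign. -/
theorem poly_sign (f : MvPolynomial (Fin 2) ℝ) :
    ∃ D : Finset ℝ, ∀ x ∉ D, ∃ δ R : ℝ, 0 < δ ∧ 0 ≤ R ∧ ∀ p q : ℤ × ℤ, Sec x δ R p → Sec x δ R q →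
      SignType.sign (MvPolynomial.eval ![(p.1 : ℝ), (p.2 : ℝ)] f) =
        SignType.sign (MvPolynomial.eval ![(q.1 : ℝ), (q.2 : ℝ)] f) := by
  obtain ⟨G, hG⟩ := polar f
  have hG' : ∀ p : ℤ × ℤ, 0 < (p.1 : ℝ) + p.2 → MvPolynomial.eval ![(p.1 : ℝ), (p.2 : ℝ)] f =
      G.evalEval ((p.1 : ℝ) / (p.1 + p.2)) ((p.1 : ℝ) + p.2) := fun p hp => by
    have e1 : (p.1 : ℝ) / (p.1 + p.2) * (p.1 + p.2) = p.1 := by field_simp
    have e2 : (1 - (p.1 : ℝ) / (p.1 + p.2)) * (p.1 + p.2) = p.2 := by field_simp; ring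
    rw [hG, e1, e2]
  by_cases h0 : G = 0
  · refine ⟨∅, fun x _ => ⟨1, 1, one_pos, one_pos.le, fun p q hp hq => ?_⟩⟩
    rw [hG' p (one_pos.trans_le hp.1), hG' q (one_pos.trans_le hq.1), h0]
    simp
  refine ⟨G.leadingCoeff.roots.toFinset, fun x hx => ?_⟩
  have hx' : G.leadingCoeff.eval x ≠ 0 := fun h =>
    hx (Multiset.mem_toFinset.2 ((mem_roots (leadingCoeff_ne_zero.2 h0)).2 h))
  set Φ : ℝ × ℝ → ℝ := fun z => ∑ i ∈ Finset.range (G.natDegree + 1),
    (G.coeff i).eval z.1 * z.2 ^ (G.natDegree - i) with hΦ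
  have hc : Continuous Φ := continuous_finsetSum _ fun i _ =>
    ((G.coeff i).continuous.comp continuous_fst).mul (continuous_snd.pow _)
  have hΦ0 : Φ (x, 0) ≠ 0 := by
    rw [hΦ]
    simp only
    rw [Finset.sum_range_succ, Finset.sum_eq_zero fun i hi => by
      rw [zero_pow (by have := Finset.mem_range.1 hi; omega), mul_zero]]
    simpa using hx'
  have hev : ∀ᶠ z in 𝓝 (x, (0 : ℝ)), SignType.sign (Φ z) = SignType.sign (Φ (x, 0)) :=
    ((continuousAt_sign_of_ne_zero hΦ0).comp hc.continuousAt).eventually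
      ((isOpen_discrete {SignType.sign (Φ (x, 0))}).mem_nhds rfl)
  obtain ⟨ε, hε, h⟩ := Metric.eventually_nhds_iff.1 hev
  have key : ∀ p : ℤ × ℤ, Sec x (ε / 2) (2 / ε) p →
      SignType.sign (MvPolynomial.eval ![(p.1 : ℝ), (p.2 : ℝ)] f) = SignType.sign (Φ (x, 0)) := by
    intro p hp
    have hs : 0 < (p.1 : ℝ) + p.2 := (div_pos two_pos hε).trans_le hp.1
    rw [hG' p hs, polar_sum _ _ _ hs.ne', sign_mul, sign_pos (pow_pos hs _), one_mul]
    refine h (y := (p.1 / (p.1 + p.2), ((p.1 : ℝ) + p.2)⁻¹)) ?_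
    rw [Prod.dist_eq, max_lt_iff, Real.dist_eq, Real.dist_eq, sub_zero, abs_of_pos (inv_pos.2 hs)]
    constructor
    · have e : (p.1 : ℝ) / (p.1 + p.2) - x = (p.1 - x * (p.1 + p.2)) / (p.1 + p.2) := by
        field_simp
      rw [e, abs_div, abs_of_pos hs, div_lt_iff₀ hs]
      have := hp.2
      nlinarith
    · have := hp.1
      rw [div_le_iff₀ hε] at this
      rw [inv_lt_iff_one_lt_mul₀ hs]
      linarith
  exact ⟨ε / 2, 2 / ε, by positivity, by positivity, fun p q hp hq => by rw [key p hp, key q hq]⟩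

end Pool.Agent.Lib.MP_e49cd5_nt.Tw
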